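import Mathlib

/-!
# Project ME (helper821): the sup norm of the Möbius exponential sum is not `O(√R)`

`F R θ = ∑_{n ≤ R} μ(n) e(nθ)`.  Aim (MP_b6b996_nt): for every `C` there are a rational number `θ` and
arbitrarily large `R` with `|F R θ| > C √R`.

Suppose not.  Let `q = p ^ (2l)`.  Then `M(v, χ) = O(√v)` for all primitive even `χ` modulo `q`, so that
`L(s, χ)` has no zeros off the critical line in the critical strip and only simple zeros on it.  The function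
`a_χ(u) - W(χ)⁻¹ a_{χ⁻¹}(-u)` (`a_χ` is a smooth mean of `M(v, χ)` around `v = e^u √(q/π)`) is almost
periodic (a sum over the zeros), so for a linear combination of such functions the supremum is the upper limit
at `+∞`.  On the positive side we see `∑ μ(n) cos(2π a n / q)`, on the negative side the dual sum with
Kloosterman sums modulo `p ^ (2l)`, which are `2 cos (4π b r_m / q)` (`a = b²`, `r_m² m = 1`).  For suitable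
`p`, `l`, `b` the latter resemble `μ(m)` for all `m ≤ Y`.
-/

set_option autoImplicit false

open Filter Topology MeasureTheory Finset

namespace Pool.Agent.Y821.ME

/-- the Möbius function with complex values -/
noncomputable def mu (n : ℕ) : ℂ := ((ArithmeticFunction.moebius n : ℤ) : ℂ)

/-- the Möbius exponential sum -/
noncomputable def F (R : ℕ) (θ : ℝ) : ℂ :=
  ∑ n ∈ Icc 1 R, mu n * Complex.exp (2 * Real.pi * Complex.I * n * θ)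

/-- `∑_{n ≤ v} μ(n) c(n)` -/
noncomputable def Mx (c : ℕ → ℂ) (v : ℝ) : ℂ := ∑ n ∈ Icc 1 ⌊v⌋₊, mu n * c n

/-- the basic kernel; `∫_0^∞ th w w^(s-1) dw = Γ((1-s)/2)` for `Re s < 1` -/
noncomputable def th (w : ℝ) : ℝ := 2 * Real.exp (-(1 / w ^ 2)) / w

/-- `-w th'(w)`; `∫_0^∞ th1 w w^(s-1) dw = s Γ((1-s)/2)` for `Re s < 1` -/
noncomputable def th1 (w : ℝ) : ℝ :=
  2 * Real.exp (-(1 / w ^ 2)) / w - 4 * Real.exp (-(1 / w ^ 2)) / w ^ 3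

/-- `∫_0^∞ |th1 w| w^(-1/2) dw` -/
noncomputable def Kth : ℝ := ∫ w in Set.Ioi (0 : ℝ), |th1 w| * w ^ (-(1 / 2 : ℝ))

/-- the smooth mean of `M` around `e^(u - lam)`, divided by `e^(u/2)` -/
noncomputable def aF (lam : ℝ) (M : ℝ → ℂ) (u : ℝ) : ℂ :=
  (Real.exp (-u / 2) : ℂ) * ∫ v in Set.Ioi (0 : ℝ), M v * (th1 (v * Real.exp (lam - u)) / v : ℝ)

/-! ### The abstract recurrence principle -/

/-- two functions with meromorphic Laplace transforms which are continuations of each other -/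
structure Pair (a b : ℝ → ℂ) : Prop where
  ca : Continuous a
  cb : Continuous b
  bd : ∃ B : ℝ, ∀ u, ‖a u‖ ≤ B ∧ ‖a u‖ ≤ B * Real.exp (u / 2) ∧ ‖b u‖ ≤ B ∧ ‖b u‖ ≤ B * Real.exp (u / 2)
  mer : ∃ f : ℂ → ℂ, (∀ z : ℂ, |z.re| < 1 / 4 → AnalyticAt ℂ f z) ∧
    ∀ z : ℂ, 0 < z.re → z.re < 1 / 4 → f z ≠ 0 ∧ f (-z) ≠ 0 ∧
      ∫ v : ℝ, a v * Complex.exp (-z * v) = (f z)⁻¹ ∧ ∫ v : ℝ, b v * Complex.exp (-z * v) = (f (-z))⁻¹

/-- `A` becomes a trigonometric polynomial when it is convolved with a kernel whose Fourier transform is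
continuous with compact support -/
def Disc (A : ℝ → ℂ) : Prop := ∀ k : ℝ → ℂ, Continuous k → HasCompactSupport k →
  Integrable (fun v : ℝ => ∫ t : ℝ, k t * Complex.exp (Complex.I * t * v)) →
  ∃ (Γ : Finset ℝ) (c : ℝ → ℂ), ∀ u : ℝ,
    ∫ v : ℝ, A v * ∫ t : ℝ, k t * Complex.exp (Complex.I * t * (u - v)) =
      ∑ γ ∈ Γ, c γ * Complex.exp (Complex.I * γ * u)

/-- (TRIG) -/
def S_TRIG : Prop := ∀ a b : ℝ → ℂ, Pair a b → Disc (fun u => a u - b (-u))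

/-- (SUP) the supremum is the upper limit at `+∞` -/
def S_SUP : Prop := ∀ A : ℝ → ℂ, Continuous A → (∃ B : ℝ, ∀ u, ‖A u‖ ≤ B) → Disc A →
  ∀ C : ℝ, (∀ ε : ℝ, 0 < ε → ∀ᶠ u in atTop, ‖A u‖ ≤ C + ε) → ∀ u, ‖A u‖ ≤ C

/-! ### The kernel -/

/-- (LAP) the Laplace transform of `aF` -/
def S_LAP : Prop := ∀ (lam B : ℝ) (M : ℝ → ℂ), Measurable M → (∀ v < 1, M v = 0) →
  (∀ v, 1 ≤ v → ‖M v‖ ≤ B * Real.sqrt v) →
  Continuous (aF lam M) ∧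
  (∀ u, IntegrableOn (fun v : ℝ => M v * (th1 (v * Real.exp (lam - u)) / v : ℝ)) (Set.Ioi 0)) ∧
  (∃ B' : ℝ, ∀ u, ‖aF lam M u‖ ≤ B' ∧ ‖aF lam M u‖ ≤ B' * Real.exp (u / 2)) ∧
  ∀ z : ℂ, 0 < z.re → z.re < 1 / 2 →
    ∫ u : ℝ, aF lam M u * Complex.exp (-z * u) =
      Complex.exp (-lam * (1 / 2 + z)) * ((1 / 2 + z) * Complex.Gamma ((1 / 2 - z) / 2)) *
        ∫ v in Set.Ioi (1 : ℝ), M v * (v : ℂ) ^ (-(3 / 2 + z))

/-- (LIM) the upper limit of `aF` -/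
def S_LIM : Prop := ∀ (lam B C v₀ : ℝ) (M : ℝ → ℂ), Measurable M → (∀ v < 1, M v = 0) →
  (∀ v, 1 ≤ v → ‖M v‖ ≤ B * Real.sqrt v) → (∀ v, v₀ ≤ v → ‖M v‖ ≤ C * Real.sqrt v) →
  ∀ ε : ℝ, 0 < ε → ∀ᶠ u in atTop, ‖aF lam M u‖ ≤ C * Real.exp (-lam / 2) * Kth + ε

/-- the kernel of the combination on the right -/
noncomputable def VR (w : ℝ) : ℝ := th w - 3 / 2 * th (w / 2) + 1 / 2 * th (w / 4)

/-- the kernel of the combination on the left -/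
noncomputable def VL (w : ℝ) : ℝ := th w - 3 * th (2 * w) + 2 * th (4 * w)

/-- the combination -/
noncomputable def D (A : ℝ → ℂ) (u : ℝ) : ℂ :=
  A u - (3 / Real.sqrt 2 : ℝ) * A (u + Real.log 2) + A (u + 2 * Real.log 2)

/-- (VB) bounds for the kernels -/
def S_VB : Prop := (∀ w : ℝ, 0 < w → |VR w| ≤ 90 / w ^ 3 ∧ |VL w| ≤ 3 / w ^ 3) ∧
  ∀ w : ℝ, 1 / 5 ≤ w → w ≤ 3 / 10 → 2 / 5 ≤ VL w

/-- (SER) the combinations are absolutely convergent series -/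
def S_SER : Prop := ∀ (lam B : ℝ) (c : ℕ → ℂ), (∀ n, ‖c n‖ ≤ 2) →
  (∀ v, 1 ≤ v → ‖Mx c v‖ ≤ B * Real.sqrt v) → ∀ u : ℝ,
    D (aF lam (Mx c)) u = (Real.exp (-u / 2) : ℂ) *
      ∑' n : ℕ, mu (n + 1) * c (n + 1) * (VR ((n + 1 : ℕ) * Real.exp (lam - u)) : ℝ) ∧
    D (fun t => aF lam (Mx c) (-t)) u = (Real.exp (u / 2) : ℂ) *
      ∑' n : ℕ, mu (n + 1) * c (n + 1) * (VL ((n + 1 : ℕ) * Real.exp (lam + u)) : ℝ)

/-! ### L-functions -/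

/-- (LFN) square root bounds imply the Riemann hypothesis for `L(s, χ)` -/
def S_LFN : Prop := ∀ (q : ℕ) [NeZero q] (χ : DirichletCharacter ℂ q), χ ≠ 1 →
  (∃ B : ℝ, ∀ v, 1 ≤ v → ‖Mx (fun n => χ n) v‖ ≤ B * Real.sqrt v) →
  ∀ s : ℂ, 1 / 2 < s.re → DirichletCharacter.LFunction χ s *
    (s * ∫ v in Set.Ioi (1 : ℝ), Mx (fun n => χ n) v * (v : ℂ) ^ (-(s + 1))) = 1

/-- (PAIR) -/
def S_PAIR : Prop := ∀ (q : ℕ) [NeZero q] (χ : DirichletCharacter ℂ q), 2 ≤ q → χ.IsPrimitive → χ.Even →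
  (∃ B : ℝ, ∀ v, 1 ≤ v → ‖Mx (fun n => χ n) v‖ ≤ B * Real.sqrt v ∧
    ‖Mx (fun n => χ⁻¹ n) v‖ ≤ B * Real.sqrt v) →
  Pair (aF (Real.log (q / Real.pi) / 2) (Mx (fun n => χ n)))
    (fun u => (DirichletCharacter.rootNumber χ)⁻¹ *
      aF (Real.log (q / Real.pi) / 2) (Mx (fun n => χ⁻¹ n)) u)

/-! ### Characters and Kloosterman sums modulo prime powers -/

/-- the additive character `x ↦ e(x/q)` -/
noncomputable def ee (q : ℕ) [NeZero q] (x : ZMod q) : ℂ := ZMod.stdAddChar x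

open Classical in
/-- the even primitive characters -/
noncomputable def Ev (q : ℕ) [NeZero q] : Finset (DirichletCharacter ℂ q) :=
  univ.filter (fun χ => χ.Even ∧ χ.IsPrimitive)

/-- the coefficients of `cos (2π a n / q)` -/
noncomputable def cf (q : ℕ) [NeZero q] (a : ZMod q) (χ : DirichletCharacter ℂ q) : ℂ :=
  χ a * gaussSum χ⁻¹ ZMod.stdAddChar / (Nat.totient q : ℂ)

/-- Kloosterman sums -/
noncomputable def Kl (q : ℕ) [NeZero q] (c : ZMod q) : ℂ :=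
  ∑ x : (ZMod q)ˣ, ee q ((x : ZMod q) + c * ((x⁻¹ : (ZMod q)ˣ) : ZMod q))

/-- (CH) -/
def S_CH : Prop := ∀ (p l : ℕ) [NeZero (p ^ (2 * l))], p.Prime → p ≠ 2 → 1 ≤ l →
  ∀ a : (ZMod (p ^ (2 * l)))ˣ,
  (∀ n : (ZMod (p ^ (2 * l)))ˣ, ∑ χ ∈ Ev (p ^ (2 * l)), cf (p ^ (2 * l)) a χ * χ (n : ZMod (p ^ (2 * l))) =
    (ee (p ^ (2 * l)) (a * n) + ee (p ^ (2 * l)) (-(a * n))) / 2) ∧
  ∀ m : (ZMod (p ^ (2 * l)))ˣ, ∑ χ ∈ Ev (p ^ (2 * l)), cf (p ^ (2 * l)) a χ *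
      (DirichletCharacter.rootNumber χ)⁻¹ * χ⁻¹ (m : ZMod (p ^ (2 * l))) =
    (Kl (p ^ (2 * l)) ((a * m⁻¹ : (ZMod (p ^ (2 * l)))ˣ) : ZMod (p ^ (2 * l))) +
      Kl (p ^ (2 * l)) (-((a * m⁻¹ : (ZMod (p ^ (2 * l)))ˣ) : ZMod (p ^ (2 * l))))) / (2 * (p : ℂ) ^ l)

/-- (KL) Kloosterman sums modulo `p ^ (2l)`, `p ≡ 3` modulo `4` -/
def S_KL : Prop := ∀ (p l : ℕ) [NeZero (p ^ (2 * l))], p.Prime → p % 4 = 3 → 1 ≤ l →
  (∀ z : (ZMod (p ^ (2 * l)))ˣ, Kl (p ^ (2 * l)) ((z : ZMod (p ^ (2 * l))) ^ 2) =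
      (p : ℂ) ^ l * (ee (p ^ (2 * l)) (2 * z) + ee (p ^ (2 * l)) (-(2 * z))) ∧
    Kl (p ^ (2 * l)) (-(z : ZMod (p ^ (2 * l))) ^ 2) = 0) ∧
  ∀ c : (ZMod (p ^ (2 * l)))ˣ, ‖Kl (p ^ (2 * l)) c‖ ≤ 2 * (p : ℝ) ^ l

/-! ### Independence -/

/-- (PR) a prime for which all small integers are quadratic residues -/
def S_PR : Prop := ∀ Y : ℕ, ∃ p : ℕ, p.Prime ∧ p % 4 = 3 ∧ Y < p ∧
  ∀ m : ℕ, 1 ≤ m → m ≤ Y → IsSquare (m : ZMod p)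

open Classical in
/-- (LI) the square roots of the squarefree numbers in the `p`-adic integers are linearly independent -/
def S_LI : Prop := ∀ (Y p : ℕ) [Fact p.Prime], p ≠ 2 → Y < p →
  (∀ m : ℕ, 1 ≤ m → m ≤ Y → IsSquare (m : ZMod p)) →
  ∃ ρ : ℕ → ℤ_[p], (∀ m : ℕ, 1 ≤ m → m ≤ Y → (m : ℤ_[p]) * ρ m ^ 2 = 1) ∧
    ∀ h : ℕ → ℤ, ∑ m ∈ (Icc 1 Y).filter Squarefree, (h m : ℤ_[p]) * ρ m = 0 →
      ∀ m ∈ (Icc 1 Y).filter Squarefree, h m = 0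

open Classical in
/-- (RZ) Riesz products -/
def S_RZ : Prop := ∀ (Y p : ℕ) [Fact p.Prime], p ≠ 2 → Y < p →
  (∀ m : ℕ, 1 ≤ m → m ≤ Y → IsSquare (m : ZMod p)) →
  ∀ S ⊆ (Icc 1 Y).filter Squarefree, ∃ l : ℕ, 1 ≤ l ∧ ∃ r : ℕ → (ZMod (p ^ (2 * l)))ˣ,
    (∀ m : ℕ, 1 ≤ m → m ≤ Y → (m : ZMod (p ^ (2 * l))) * (r m : ZMod (p ^ (2 * l))) ^ 2 = 1) ∧
    ∃ w : (ZMod (p ^ (2 * l)))ˣ → ℝ, (∀ b, 0 ≤ w b) ∧ ∑ b, w b = 1 ∧
      ∀ m ∈ (Icc 1 Y).filter Squarefree,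
        ∑ b, w b * (ee (p ^ (2 * l)) (2 * (b : ZMod (p ^ (2 * l))) * r m)).re =
          if m ∈ S then ((ArithmeticFunction.moebius m : ℤ) : ℝ) / 2 else 0

open Classical in
/-- (SF) squarefree numbers in `[2N, 3N]` -/
def S_SF : Prop := ∃ N₀ : ℕ, ∀ N : ℕ, N₀ ≤ N →
  (N : ℝ) / 5 ≤ (((Icc (2 * N) (3 * N)).filter Squarefree).card : ℝ)

end Pool.Agent.Y821.ME
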