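import Mathlib
import Pool.Agent.Y821.ME.Stm

/-!
Job CH (helper821, project ME), by helper515: characters modulo `p ^ (2l)`.
-/

set_option autoImplicit false

open Finset

namespace Pool.Agent.Y821.ME

namespace CH

variable {q : ℕ} [NeZero q]

/-- sums over a finite ring of functions which vanish outside the units -/
theorem sum_units (f : ZMod q → ℂ) (hf : ∀ x, ¬ IsUnit x → f x = 0) :
    ∑ x : ZMod q, f x = ∑ u : (ZMod q)ˣ, f (u : ZMod q) := by
  classical
  symm
  refine Fintype.sum_of_injective (fun u : (ZMod q)ˣ => (u : ZMod q)) Units.val_injective _ _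
    (fun x hx => hf x fun hu => hx ⟨hu.unit, hu.unit_spec⟩) (fun u => rfl)

omit [NeZero q] in
theorem inv_unit (χ : DirichletCharacter ℂ q) (u : (ZMod q)ˣ) :
    χ⁻¹ (u : ZMod q) = χ ((u⁻¹ : (ZMod q)ˣ) : ZMod q) := by
  rw [MulChar.inv_apply, Ring.inverse_unit]

theorem gauss_units (χ : DirichletCharacter ℂ q) :
    gaussSum χ ZMod.stdAddChar = ∑ u : (ZMod q)ˣ, χ (u : ZMod q) * ee q u := by
  unfold gaussSum
  rw [sum_units (fun x => χ x * ZMod.stdAddChar x) (fun x hx => by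
    rw [MulChar.map_nonunit _ hx, zero_mul])]
  rfl

theorem gauss_inv (χ : DirichletCharacter ℂ q) :
    gaussSum χ⁻¹ ZMod.stdAddChar = ∑ u : (ZMod q)ˣ, ee q u * χ ((u⁻¹ : (ZMod q)ˣ) : ZMod q) := by
  rw [gauss_units]
  exact Finset.sum_congr rfl fun u _ => by rw [inv_unit, mul_comm]

/-- the square of the Gauss sum is a combination of Kloosterman sums -/
theorem gauss_sq (χ : DirichletCharacter ℂ q) :
    gaussSum χ⁻¹ ZMod.stdAddChar * gaussSum χ⁻¹ ZMod.stdAddChar =
      ∑ z : (ZMod q)ˣ, Kl q z * χ ((z⁻¹ : (ZMod q)ˣ) : ZMod q) := by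
  rw [gauss_inv, Finset.sum_mul_sum]
  have h1 : ∀ x : (ZMod q)ˣ, ∑ y : (ZMod q)ˣ, ee q x * χ ((x⁻¹ : (ZMod q)ˣ) : ZMod q) *
      (ee q y * χ ((y⁻¹ : (ZMod q)ˣ) : ZMod q)) =
      ∑ z : (ZMod q)ˣ, ee q ((x : ZMod q) + z * ((x⁻¹ : (ZMod q)ˣ) : ZMod q)) *
        χ ((z⁻¹ : (ZMod q)ˣ) : ZMod q) := by
    intro x
    rw [← Equiv.sum_comp (Equiv.mulRight x⁻¹)]
    refine Finset.sum_congr rfl fun z _ => ?_
    have h2 : (Equiv.mulRight x⁻¹) z = z * x⁻¹ := rfl
    rw [h2]
    have h3 : χ ((z⁻¹ : (ZMod q)ˣ) : ZMod q) = χ ((x⁻¹ : (ZMod q)ˣ) : ZMod q) *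
        χ (((z * x⁻¹)⁻¹ : (ZMod q)ˣ) : ZMod q) := by
      rw [← map_mul, ← Units.val_mul]
      congr 2
      group
    rw [h3]
    unfold ee
    rw [AddChar.map_add_eq_mul, Units.val_mul]
    ring
  rw [Finset.sum_congr rfl fun x _ => h1 x, Finset.sum_comm]
  refine Finset.sum_congr rfl fun z _ => ?_
  rw [← Finset.sum_mul]
  rfl

/-- the product of the Gauss sums of a primitive character and its inverse -/
theorem gauss_mul (χ : DirichletCharacter ℂ q) (hχ : χ.IsPrimitive) (he : χ.Even) :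
    gaussSum χ ZMod.stdAddChar * gaussSum χ⁻¹ ZMod.stdAddChar = (q : ℂ) := by
  classical
  have h1 : gaussSum χ ZMod.stdAddChar * gaussSum χ⁻¹ ZMod.stdAddChar =
      ∑ a : ZMod q, gaussSum χ (ZMod.stdAddChar.mulShift a) * ZMod.stdAddChar a := by
    rw [mul_comm]
    conv_lhs => rw [gaussSum, Finset.sum_mul]
    refine Finset.sum_congr rfl fun a _ => ?_
    rw [gaussSum_mulShift_of_isPrimitive _ hχ]
    ring
  rw [h1]
  have h2 : ∀ a : ZMod q, gaussSum χ (ZMod.stdAddChar.mulShift a) * ZMod.stdAddChar a =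
      ∑ x : ZMod q, χ x * ZMod.stdAddChar (a * (x - (-1))) := by
    intro a
    rw [gaussSum, Finset.sum_mul]
    refine Finset.sum_congr rfl fun x _ => ?_
    rw [AddChar.mulShift_apply, mul_assoc, ← AddChar.map_add_eq_mul]
    congr 2
    ring
  rw [Finset.sum_congr rfl fun a _ => h2 a, Finset.sum_comm]
  have h3 : ∀ x : ZMod q, ∑ a : ZMod q, χ x * (ZMod.stdAddChar (a * (x - (-1))) : ℂ) =
      if x = -1 then (q : ℂ) * χ x else 0 := by
    intro x
    rw [← Finset.mul_sum, AddChar.sum_mulShift _ (ZMod.isPrimitive_stdAddChar q)]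
    by_cases hx : x = -1
    · rw [if_pos hx, hx, sub_self, if_pos rfl, ZMod.card, mul_comm]
    · rw [if_neg hx, if_neg (sub_ne_zero.2 hx), Nat.cast_zero, mul_zero]
  rw [Finset.sum_congr rfl fun x _ => h3 x, Finset.sum_ite_eq' Finset.univ (-1 : ZMod q),
    if_pos (Finset.mem_univ _)]
  have h4 : χ (-1) = 1 := he
  rw [h4, mul_one]

open Classical in
/-- orthogonality for even characters -/
theorem orth (c : (ZMod q)ˣ) :
    ∑ χ ∈ (univ : Finset (DirichletCharacter ℂ q)).filter (fun χ => χ.Even), χ (c : ZMod q) =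
      (if (c : ZMod q) = 1 then (Nat.totient q : ℂ) else 0) / 2 +
        (if -(c : ZMod q) = 1 then (Nat.totient q : ℂ) else 0) / 2 := by
  rw [← DirichletCharacter.sum_characters_eq ℂ (c : ZMod q),
    ← DirichletCharacter.sum_characters_eq ℂ (-(c : ZMod q)), ← add_div,
    ← Finset.sum_add_distrib, Finset.sum_filter, Finset.sum_div]
  refine Finset.sum_congr rfl fun χ _ => ?_
  rcases χ.even_or_odd with h | h
  · rw [if_pos h, h.eval_neg]
    ring
  · rw [if_neg h.not_even, h.eval_neg]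
    ring

open Classical in
/-- inversion -/
theorem inversion (E : (ZMod q)ˣ → ℂ) (c : (ZMod q)ˣ) :
    ∑ χ ∈ (univ : Finset (DirichletCharacter ℂ q)).filter (fun χ => χ.Even),
      χ (c : ZMod q) * (∑ u : (ZMod q)ˣ, E u * χ ((u⁻¹ : (ZMod q)ˣ) : ZMod q)) /
        (Nat.totient q : ℂ) = (E c + E (-c)) / 2 := by
  have hφ : (Nat.totient q : ℂ) ≠ 0 := by
    exact_mod_cast (Nat.totient_pos.2 (NeZero.pos q)).ne'
  rw [← Finset.sum_div, div_eq_iff hφ]
  simp only [Finset.mul_sum]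
  rw [Finset.sum_comm]
  have h1 : ∀ u : (ZMod q)ˣ,
      ∑ χ ∈ (univ : Finset (DirichletCharacter ℂ q)).filter (fun χ => χ.Even),
        χ (c : ZMod q) * (E u * χ ((u⁻¹ : (ZMod q)ˣ) : ZMod q)) =
      (if u = c then E u * (Nat.totient q : ℂ) / 2 else 0) +
        (if u = -c then E u * (Nat.totient q : ℂ) / 2 else 0) := by
    intro u
    have h2 : ∀ χ : DirichletCharacter ℂ q,
        χ (c : ZMod q) * (E u * χ ((u⁻¹ : (ZMod q)ˣ) : ZMod q)) =
          E u * χ ((c * u⁻¹ : (ZMod q)ˣ) : ZMod q) := by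
      intro χ
      rw [Units.val_mul, map_mul]
      ring
    rw [Finset.sum_congr rfl fun χ _ => h2 χ, ← Finset.mul_sum, orth]
    have e1 : ((c * u⁻¹ : (ZMod q)ˣ) : ZMod q) = 1 ↔ u = c := by
      rw [← Units.val_one, Units.val_inj, mul_inv_eq_one, eq_comm]
    have e2 : -((c * u⁻¹ : (ZMod q)ˣ) : ZMod q) = 1 ↔ u = -c := by
      rw [← Units.val_neg, ← Units.val_one, Units.val_inj, ← neg_mul, mul_inv_eq_one, eq_comm]
    simp only [e1, e2]
    split_ifs <;> ring
  rw [Finset.sum_congr rfl fun u _ => h1 u, Finset.sum_add_distrib,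
    Finset.sum_ite_eq' Finset.univ c, Finset.sum_ite_eq' Finset.univ (-c),
    if_pos (Finset.mem_univ _), if_pos (Finset.mem_univ _)]
  ring

end CH

open CH

/-- the Gauss sum of a character which is not primitive vanishes -/
theorem CH.gauss_zero (p l : ℕ) [NeZero (p ^ (2 * l))] (hp : p.Prime) (hl : 1 ≤ l)
    (χ : DirichletCharacter ℂ (p ^ (2 * l))) (hχ : ¬ χ.IsPrimitive) :
    gaussSum χ ZMod.stdAddChar = 0 := by
  have hdvd : p ^ (2 * l - 1) ∣ p ^ (2 * l) := pow_dvd_pow _ (by omega)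
  have hF : χ.FactorsThrough (p ^ (2 * l - 1)) := by
    have h1 : χ.conductor ∣ p ^ (2 * l) := DirichletCharacter.conductor_dvd_level χ
    obtain ⟨k, hk, hk2⟩ := (Nat.dvd_prime_pow hp).1 h1
    have h3 : k ≠ 2 * l := by
      rintro rfl
      exact hχ hk2
    have h4 : χ.conductor ∣ p ^ (2 * l - 1) := by
      rw [hk2]
      exact pow_dvd_pow _ (by omega)
    exact (DirichletCharacter.factorsThrough_conductor χ).mono _ h4 hdvd
  have hker := (DirichletCharacter.factorsThrough_iff_ker_unitsMap hdvd).1 hF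
  obtain ⟨d, hd⟩ : ∃ d : ZMod (p ^ (2 * l)), d = ((p ^ (2 * l - 1) : ℕ) : ZMod (p ^ (2 * l))) :=
    ⟨_, rfl⟩
  have hdc : ZMod.castHom hdvd (ZMod (p ^ (2 * l - 1))) d = 0 := by
    rw [hd, map_natCast, ZMod.natCast_self]
  -- periodicity
  have hnil : IsNilpotent d := by
    refine ⟨2, ?_⟩
    rw [hd, ← Nat.cast_pow, ZMod.natCast_eq_zero_iff, ← pow_mul]
    exact pow_dvd_pow _ (by omega)
  have hper : ∀ x : ZMod (p ^ (2 * l)), χ (x + d) = χ x := by
    intro x
    by_cases hx : IsUnit x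
    · obtain ⟨u, rfl⟩ := hx
      have hu2 : IsUnit (1 + d * ((u⁻¹ : (ZMod (p ^ (2 * l)))ˣ) : ZMod (p ^ (2 * l)))) :=
        IsNilpotent.isUnit_one_add ((Commute.all _ _).isNilpotent_mul_right hnil)
      obtain ⟨v, hv⟩ := hu2
      have h5 : (u : ZMod (p ^ (2 * l))) + d = u * v := by
        rw [hv, mul_add, mul_one, mul_comm d, ← mul_assoc, Units.mul_inv, one_mul]
      have h6 : v ∈ (ZMod.unitsMap hdvd).ker := by
        rw [MonoidHom.mem_ker]
        ext
        rw [ZMod.unitsMap_def, Units.coe_map, Units.val_one]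
        change ZMod.castHom hdvd (ZMod (p ^ (2 * l - 1))) (v : ZMod (p ^ (2 * l))) = 1
        rw [hv, map_add, map_one, map_mul, hdc, zero_mul, add_zero]
      have h7 : χ (v : ZMod (p ^ (2 * l))) = 1 := by
        have := hker h6
        rw [MonoidHom.mem_ker] at this
        rw [← MulChar.coe_toUnitHom, this, Units.val_one]
      rw [h5, map_mul, h7, mul_one]
    · have h8 : ¬ IsUnit (x + d) := by
        intro h
        apply hx
        have h9 : IsUnit ((x + d) + -d) := by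
          obtain ⟨u, hu⟩ := h
          rw [← hu]
          have h10 : IsUnit (1 + -d * ((u⁻¹ : (ZMod (p ^ (2 * l)))ˣ) : ZMod (p ^ (2 * l)))) :=
            IsNilpotent.isUnit_one_add ((Commute.all _ _).isNilpotent_mul_right hnil.neg)
          have h11 : (u : ZMod (p ^ (2 * l))) + -d =
              u * (1 + -d * ((u⁻¹ : (ZMod (p ^ (2 * l)))ˣ) : ZMod (p ^ (2 * l)))) := by
            rw [mul_add, mul_one, mul_comm (-d), ← mul_assoc, Units.mul_inv, one_mul]
          rw [h11]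
          exact u.isUnit.mul h10
        rwa [add_neg_cancel_right] at h9
      rw [MulChar.map_nonunit _ hx, MulChar.map_nonunit _ h8]
  have hne : (ZMod.stdAddChar d : ℂ) ≠ 1 := by
    intro h
    rw [← AddChar.map_zero_eq_one (ZMod.stdAddChar (N := p ^ (2 * l)))] at h
    have h12 := ZMod.injective_stdAddChar h
    rw [hd, ZMod.natCast_eq_zero_iff] at h12
    have h13 := Nat.le_of_dvd (pow_pos hp.pos _) h12
    have h14 : p ^ (2 * l - 1) < p ^ (2 * l) := Nat.pow_lt_pow_right hp.one_lt (by omega)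
    omega
  have hmain : gaussSum χ ZMod.stdAddChar = gaussSum χ ZMod.stdAddChar * ZMod.stdAddChar d := by
    conv_lhs => rw [gaussSum, ← Equiv.sum_comp (Equiv.addRight d)]
    rw [gaussSum, Finset.sum_mul]
    refine Finset.sum_congr rfl fun x _ => ?_
    rw [Equiv.coe_addRight, hper, AddChar.map_add_eq_mul, mul_assoc]
  have h15 : gaussSum χ ZMod.stdAddChar * ((ZMod.stdAddChar d : ℂ) - 1) = 0 := by
    rw [mul_sub, mul_one, ← hmain, sub_self]
  rcases mul_eq_zero.1 h15 with h | h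
  · exact h
  · exact absurd (sub_eq_zero.1 h) hne

theorem CH.prim_inv (q : ℕ) [NeZero q] (χ : DirichletCharacter ℂ q) (h : χ⁻¹.IsPrimitive) :
    χ.IsPrimitive := by
  have h1 : χ.conductor = χ⁻¹.conductor := by
    have key : ∀ ψ : DirichletCharacter ℂ q, ∀ d, ψ.FactorsThrough d → ψ⁻¹.FactorsThrough d := by
      rintro ψ d ⟨hd, χ₀, h0⟩
      exact ⟨hd, χ₀⁻¹, by rw [map_inv, ← h0]⟩
    unfold DirichletCharacter.conductor
    congr 1
    ext d
    rw [DirichletCharacter.mem_conductorSet_iff, DirichletCharacter.mem_conductorSet_iff]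
    constructor
    · exact key χ d
    · intro h
      have := key _ d h
      rwa [inv_inv] at this
  unfold DirichletCharacter.IsPrimitive at h ⊢
  rw [h1, h]

theorem ch : S_CH := by
  classical
  intro p l _ hp hp2 hl a
  have hgz : ∀ χ : DirichletCharacter ℂ (p ^ (2 * l)), ¬ χ.IsPrimitive →
      gaussSum χ⁻¹ ZMod.stdAddChar = 0 := by
    intro χ hχ
    refine CH.gauss_zero p l hp hl _ fun h => hχ (CH.prim_inv _ χ h)
  have hEv : ∀ f : DirichletCharacter ℂ (p ^ (2 * l)) → ℂ,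
      (∀ χ, ¬ χ.IsPrimitive → f χ = 0) →
      ∑ χ ∈ Ev (p ^ (2 * l)), f χ = ∑ χ ∈ (univ : Finset (DirichletCharacter ℂ (p ^ (2 * l)))).filter
        (fun χ => χ.Even), f χ := by
    intro f hf
    unfold Ev
    refine Finset.sum_subset ?_ ?_
    · intro χ hχ
      rw [Finset.mem_filter] at hχ ⊢
      exact ⟨hχ.1, hχ.2.1⟩
    · intro χ hχ hχ2
      rw [Finset.mem_filter] at hχ hχ2
      exact hf χ fun h => hχ2 ⟨hχ.1, hχ.2, h⟩
  have hpl : ((p : ℂ) ^ l) ≠ 0 := pow_ne_zero _ (by exact_mod_cast hp.ne_zero)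
  constructor
  · intro n
    rw [hEv _ (fun χ hχ => by rw [cf, hgz χ hχ]; simp)]
    have h1 := CH.inversion (q := p ^ (2 * l)) (fun u => ee (p ^ (2 * l)) u) (a * n)
    rw [Units.val_mul, Units.val_neg, Units.val_mul] at h1
    rw [← h1]
    refine Finset.sum_congr rfl fun χ _ => ?_
    rw [cf, CH.gauss_inv, map_mul]
    ring
  · intro m
    rw [hEv _ (fun χ hχ => by rw [cf, hgz χ hχ]; simp)]
    have h1 := CH.inversion (q := p ^ (2 * l)) (fun u => Kl (p ^ (2 * l)) u) (a * m⁻¹)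
    rw [Units.val_neg] at h1
    rw [← div_div, ← h1, Finset.sum_div]
    refine Finset.sum_congr rfl fun χ hχ => ?_
    rw [← CH.gauss_sq]
    by_cases hprim : χ.IsPrimitive
    · have hE : χ.Even := (Finset.mem_filter.1 hχ).2
      have h2 := CH.gauss_mul χ hprim hE
      have hroot : (DirichletCharacter.rootNumber χ)⁻¹ =
          gaussSum χ⁻¹ ZMod.stdAddChar / (p : ℂ) ^ l := by
        have h3 : (((p ^ (2 * l) : ℕ)) : ℂ) ^ (1 / 2 : ℂ) = (p : ℂ) ^ l := by
          have h4 : (1 / 2 : ℂ) = (((1 / 2 : ℝ)) : ℂ) := by push_cast; rfl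
          have h5 : (((p ^ (2 * l) : ℕ)) : ℂ) = (((p ^ (2 * l) : ℕ) : ℝ) : ℂ) := by push_cast; rfl
          rw [h4, h5, ← Complex.ofReal_cpow (Nat.cast_nonneg _), ← Real.sqrt_eq_rpow, Nat.cast_pow,
            mul_comm 2 l, pow_mul, Real.sqrt_sq (pow_nonneg (Nat.cast_nonneg _) _)]
          push_cast
          rfl
        unfold DirichletCharacter.rootNumber
        rw [if_pos hE, pow_zero, div_one, h3, inv_div, div_eq_div_iff ?_ hpl]
        · rw [mul_comm (gaussSum χ⁻¹ _), h2]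
          push_cast
          ring
        · intro h0
          rw [h0, zero_mul] at h2
          exact NeZero.ne (p ^ (2 * l)) (by exact_mod_cast h2.symm)
      rw [hroot, cf, CH.inv_unit, Units.val_mul, map_mul]
      ring
    · rw [cf, hgz χ hprim]
      simp

end Pool.Agent.Y821.ME
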