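import Pool.Agent.Y821.ME.Stm

/-!
# Project ME, second version: every odd prime `p`, all large `l`
-/

set_option autoImplicit false

open Filter Topology MeasureTheory Finset

namespace Pool.Agent.Y821.ME

/-- (KL2) Kloosterman sums modulo `p ^ (2l)`, `p` odd -/
def S_KL2 : Prop := ∀ (p l : ℕ) [NeZero (p ^ (2 * l))], p.Prime → p ≠ 2 → 1 ≤ l →
  (∀ z : (ZMod (p ^ (2 * l)))ˣ, Kl (p ^ (2 * l)) ((z : ZMod (p ^ (2 * l))) ^ 2) =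
      (p : ℂ) ^ l * (ee (p ^ (2 * l)) (2 * z) + ee (p ^ (2 * l)) (-(2 * z)))) ∧
  (∀ c : (ZMod (p ^ (2 * l)))ˣ, ¬ IsSquare c → Kl (p ^ (2 * l)) c = 0) ∧
  ∀ c : (ZMod (p ^ (2 * l)))ˣ, ‖Kl (p ^ (2 * l)) c‖ ≤ 2 * (p : ℝ) ^ l

open Classical in
/-- the squarefree integers of absolute value at most `Y` which are prime to `p` and squares modulo `p` -/
noncomputable def Gs (Y p : ℕ) : Finset ℤ :=
  (Icc (-(Y : ℤ)) (Y : ℤ)).filter (fun g => Squarefree g ∧ ¬ (p : ℤ) ∣ g ∧ IsSquare (g : ZMod p))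

/-- (LI2) the square roots of the squarefree integers in the `p`-adic integers are linearly independent -/
def S_LI2 : Prop := ∀ (Y p : ℕ) [Fact p.Prime], p ≠ 2 →
  ∃ ρ : ℤ → ℤ_[p], (∀ g ∈ Gs Y p, (g : ℤ_[p]) * ρ g ^ 2 = 1) ∧
    ∀ h : ℤ → ℤ, ∑ g ∈ Gs Y p, (h g : ℤ_[p]) * ρ g = 0 → ∀ g ∈ Gs Y p, h g = 0

open Classical in
/-- (RZ2) Riesz products, for all large `l` -/
def S_RZ2 : Prop := ∀ (Y p : ℕ) [Fact p.Prime], p ≠ 2 → ∀ S ⊆ Gs Y p,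
  ∃ l₀ : ℕ, 1 ≤ l₀ ∧ ∀ l : ℕ, l₀ ≤ l → ∃ r : ℤ → (ZMod (p ^ (2 * l)))ˣ,
    (∀ g ∈ Gs Y p, (g : ZMod (p ^ (2 * l))) * (r g : ZMod (p ^ (2 * l))) ^ 2 = 1) ∧
    ∃ w : (ZMod (p ^ (2 * l)))ˣ → ℝ, (∀ b, 0 ≤ w b) ∧ ∑ b, w b = 1 ∧
      ∀ g ∈ Gs Y p, ∑ b, w b * (ee (p ^ (2 * l)) (2 * (b : ZMod (p ^ (2 * l))) * r g)).re =
          if g ∈ S then ((ArithmeticFunction.moebius g.natAbs : ℤ) : ℝ) / 2 else 0

open Classical in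
/-- (SF2) squarefree numbers in `[2N, 3N]` which are `1` modulo `p` -/
def S_SF2 : Prop := ∀ p : ℕ, p.Prime → ∃ N₀ : ℕ, ∀ N : ℕ, N₀ ≤ N →
  (N : ℝ) / (5 * p) ≤ (((Icc (2 * N) (3 * N)).filter (fun m => Squarefree m ∧ m % p = 1)).card : ℝ)

end Pool.Agent.Y821.ME
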