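import Pool.Agent.Y821.ME.FinB
import Pool.Agent.Y821.ME.Stm2

/-!
# Project ME, second version: square root bounds for all twists, from bounds at the fractions with
# denominator `p ^ k`
-/

set_option autoImplicit false

open Filter Topology MeasureTheory Finset

namespace Pool.Agent.Y821.ME

namespace Two

/-- the hypothesis: square root bounds at the fractions `a / p ^ k` in lowest terms -/
def HypQ (C : ℝ) (p k : ℕ) : Prop := ∀ a : ℕ, ¬ p ∣ a →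
  ∀ᶠ R : ℕ in atTop, ‖F R ((a / (p ^ k : ℕ) : ℚ) : ℝ)‖ ≤ C * Real.sqrt R

theorem HypQ.all {C : ℝ} {p k : ℕ} (hC : 0 ≤ C) (h : HypQ C p k) (a : ℕ) (ha : ¬ p ∣ a) :
    ∃ B : ℝ, 0 ≤ B ∧ ∀ R : ℕ, ‖F R ((a / (p ^ k : ℕ) : ℚ) : ℝ)‖ ≤ B * Real.sqrt R := by
  obtain ⟨N, hN⟩ := eventually_atTop.mp (h a ha)
  refine ⟨max C (Real.sqrt N), hC.trans (le_max_left _ _), fun R => ?_⟩
  rcases le_or_gt N R with h1 | h1
  · exact (hN R h1).trans (mul_le_mul_of_nonneg_right (le_max_left _ _) (Real.sqrt_nonneg _))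
  · calc ‖F R ((a / (p ^ k : ℕ) : ℚ) : ℝ)‖ ≤ R := norm_F_le R _
      _ = Real.sqrt R * Real.sqrt R := (Real.mul_self_sqrt (Nat.cast_nonneg R)).symm
      _ ≤ Real.sqrt N * Real.sqrt R := by
          gcongr
      _ ≤ _ := mul_le_mul_of_nonneg_right (le_max_right _ _) (Real.sqrt_nonneg _)

section

variable {p k : ℕ} [NeZero (p ^ k)]

omit [NeZero (p ^ k)] in
theorem not_dvd_val (hp : p.Prime) (hk : 1 ≤ k) (a : ZMod (p ^ k)) (ha : IsUnit a) : ¬ p ∣ a.val := by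
  intro h
  obtain ⟨u, hu⟩ := ha
  have h1 := ZMod.val_coe_unit_coprime u
  rw [hu] at h1
  have h2 : p ∣ Nat.gcd a.val (p ^ k) := Nat.dvd_gcd h (dvd_pow_self p (by omega))
  rw [h1] at h2
  exact hp.one_lt.ne' (Nat.dvd_one.mp h2)

theorem Mx_ee_all (hp : p.Prime) (hk : 1 ≤ k) {C : ℝ} (hC : 0 ≤ C) (h : HypQ C p k) (a : ZMod (p ^ k))
    (ha : IsUnit a) :
    ∃ B : ℝ, 0 ≤ B ∧ ∀ v : ℝ, 0 ≤ v → ‖Mx (fun n => ee (p ^ k) (a * n)) v‖ ≤ B * Real.sqrt v := by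
  obtain ⟨B, hB0, hB⟩ := h.all hC a.val (not_dvd_val hp hk a ha)
  exact ⟨B, hB0, fun v hv => by rw [Mx_ee]; exact (hB _).trans (floor_bound hB0 hv)⟩

/-- square root bounds for the characters -/
theorem Mx_chi (hp : p.Prime) (hk : 1 ≤ k) {C : ℝ} (hC : 0 ≤ C) (h : HypQ C p k)
    {χ : DirichletCharacter ℂ (p ^ k)} (hχ : χ.IsPrimitive) :
    ∃ B : ℝ, 0 ≤ B ∧ ∀ v : ℝ, 1 ≤ v → ‖Mx (fun n => χ n) v‖ ≤ B * Real.sqrt v := by
  have hinv : (χ⁻¹).IsPrimitive := by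
    rw [DirichletCharacter.isPrimitive_def, DirichletCharacter.conductor_inv]
    exact hχ
  have hex : ∀ a : ZMod (p ^ k), ∃ B : ℝ, 0 ≤ B ∧ (IsUnit a → ∀ v : ℝ, 0 ≤ v →
      ‖Mx (fun n => ee (p ^ k) (a * n)) v‖ ≤ B * Real.sqrt v) := by
    intro a
    by_cases ha : IsUnit a
    · obtain ⟨B, hB0, hB⟩ := Mx_ee_all hp hk hC h a ha
      exact ⟨B, hB0, fun _ => hB⟩
    · exact ⟨0, le_rfl, fun h' => absurd h' ha⟩
  choose B hB0 hB using hex
  have hg := gauss_ne_zero hinv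
  have hg' : 0 < ‖gaussSum χ⁻¹ ZMod.stdAddChar‖ := norm_pos_iff.mpr hg
  refine ⟨(∑ a : ZMod (p ^ k), B a) / ‖gaussSum χ⁻¹ ZMod.stdAddChar‖,
    div_nonneg (Finset.sum_nonneg fun a _ => hB0 a) hg'.le, fun v hv => ?_⟩
  have h1 : Mx (fun n => χ n) v * gaussSum χ⁻¹ ZMod.stdAddChar =
      ∑ a : ZMod (p ^ k), χ⁻¹ a * Mx (fun n => ee (p ^ k) (a * n)) v := by
    unfold Mx
    simp only [Finset.mul_sum, Finset.sum_mul]
    rw [Finset.sum_comm]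
    refine Finset.sum_congr rfl fun n _ => ?_
    have h2 := gaussSum_mulShift_of_isPrimitive ZMod.stdAddChar hinv (n : ZMod (p ^ k))
    rw [inv_inv] at h2
    rw [mul_assoc, ← h2]
    unfold gaussSum
    rw [Finset.mul_sum]
    refine Finset.sum_congr rfl fun a _ => ?_
    rw [AddChar.mulShift_apply, mul_comm (n : ZMod (p ^ k)) a]
    unfold ee
    ring
  have h3 : ‖Mx (fun n => χ n) v‖ * ‖gaussSum χ⁻¹ ZMod.stdAddChar‖ ≤
      (∑ a : ZMod (p ^ k), B a) * Real.sqrt v := by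
    rw [← norm_mul, h1, Finset.sum_mul]
    refine (norm_sum_le _ _).trans (Finset.sum_le_sum fun a _ => ?_)
    rw [norm_mul]
    by_cases ha : IsUnit a
    · calc ‖χ⁻¹ a‖ * ‖Mx (fun n => ee (p ^ k) (a * n)) v‖ ≤ 1 * (B a * Real.sqrt v) := by
            gcongr
            · exact DirichletCharacter.norm_le_one _ _
            · exact hB a ha v (by linarith)
        _ = _ := one_mul _
    · rw [MulChar.map_nonunit _ ha, norm_zero, zero_mul]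
      exact mul_nonneg (hB0 a) (Real.sqrt_nonneg _)
  rw [div_mul_eq_mul_div, le_div_iff₀ hg']
  exact h3

omit [NeZero (p ^ k)] in
theorem frac_eq (hp : p.Prime) (hk : 1 ≤ k) (a j : ℕ) :
    ((a / (p ^ k : ℕ) + j / p : ℚ)) = ((a + j * p ^ (k - 1) : ℕ) / (p ^ k : ℕ) : ℚ) := by
  have hp0 : (p : ℚ) ≠ 0 := Nat.cast_ne_zero.mpr hp.ne_zero
  obtain ⟨m, rfl⟩ : ∃ m, k = m + 1 := ⟨k - 1, by omega⟩
  push_cast
  field_simp
  ring

omit [NeZero (p ^ k)] in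
theorem not_dvd_shift (hk : 2 ≤ k) (a j : ℕ) (ha : ¬ p ∣ a) : ¬ p ∣ a + j * p ^ (k - 1) := by
  intro h
  have h1 : p ∣ j * p ^ (k - 1) := (dvd_pow_self p (by omega)).mul_left j
  exact ha ((Nat.dvd_add_left h1).mp h)

theorem Mx_cop_all (hp : p.Prime) (hk : 2 ≤ k) {C : ℝ} (hC : 0 ≤ C) (h : HypQ C p k) (a : ZMod (p ^ k))
    (ha : IsUnit a) :
    ∃ B : ℝ, 0 ≤ B ∧ ∀ v : ℝ, 0 ≤ v → ‖Mx (cop p k a) v‖ ≤ B * Real.sqrt v := by
  have hav := not_dvd_val hp (by omega) a ha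
  obtain ⟨B, hB0, hB⟩ := h.all hC a.val hav
  choose B' hB'0 hB' using fun j : ℕ => h.all hC (a.val + j * p ^ (k - 1)) (not_dvd_shift hk a.val j hav)
  refine ⟨2 * (B + ∑ j ∈ range p, B' j), by
    have := Finset.sum_nonneg fun j (_ : j ∈ range p) => hB'0 j
    positivity, fun v hv => ?_⟩
  rw [mul_assoc]
  refine Mx_cop_le hp (by omega) a v _ ?_ ?_
  · refine (hB _).trans ((floor_bound hB0 hv).trans ?_)
    gcongr
    have := Finset.sum_nonneg fun j (_ : j ∈ range p) => hB'0 j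
    linarith
  · intro j hj
    rw [frac_eq hp (by omega)]
    refine (hB' j _).trans ((floor_bound (hB'0 j) hv).trans ?_)
    gcongr
    have := Finset.single_le_sum (fun j _ => hB'0 j) hj
    linarith

theorem Mx_cop_ev (hp : p.Prime) (hk : 2 ≤ k) {C : ℝ} (hC : 0 ≤ C) (h : HypQ C p k) (a : ZMod (p ^ k))
    (ha : IsUnit a) :
    ∃ v₀ : ℝ, 0 ≤ v₀ ∧ ∀ v : ℝ, v₀ ≤ v → ‖Mx (cop p k a) v‖ ≤ 2 * C * Real.sqrt v := by
  have hav := not_dvd_val hp (by omega) a ha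
  have h1 : ∀ᶠ R : ℕ in atTop, ‖F R ((a.val / (p ^ k : ℕ) : ℚ) : ℝ)‖ ≤ C * Real.sqrt R ∧
      ∀ j ∈ range p, ‖F R ((a.val / (p ^ k : ℕ) + j / p : ℚ) : ℝ)‖ ≤ C * Real.sqrt R := by
    refine (h a.val hav).and ?_
    rw [eventually_all_finset]
    intro j _
    simp only [frac_eq hp (show 1 ≤ k by omega)]
    exact h _ (not_dvd_shift hk a.val j hav)
  obtain ⟨N, hN⟩ := eventually_atTop.mp h1
  refine ⟨N, Nat.cast_nonneg _, fun v hv => ?_⟩
  have hv0 : 0 ≤ v := (Nat.cast_nonneg N).trans hv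
  have h2 := hN ⌊v⌋₊ (Nat.le_floor hv)
  rw [mul_assoc]
  exact Mx_cop_le hp (by omega) a v _ (h2.1.trans (floor_bound hC hv0)) fun j hj =>
    (h2.2 j hj).trans (floor_bound hC hv0)

end

end Two

end Pool.Agent.Y821.ME
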