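import Pool.Agent.Y821.ME.FinC
import Pool.Agent.Y821.ME.Fin2B

/-!
# Project ME, second version: the inequality between the two sides
-/

set_option autoImplicit false

open Filter Topology MeasureTheory Finset

namespace Pool.Agent.Y821.ME

namespace Two

section

variable (q : ℕ) [NeZero q]

theorem cL_bound (hch0 : ∀ χ : DirichletCharacter ℂ q, χ.IsPrimitive →
      ∃ B : ℝ, 0 ≤ B ∧ ∀ v : ℝ, 1 ≤ v → ‖Mx (fun n => χ n) v‖ ≤ B * Real.sqrt v) (a : ZMod q) :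
    ∃ B : ℝ, ∀ v, 1 ≤ v → ‖Mx (cL q a) v‖ ≤ B * Real.sqrt v := by
  have hBχ : ∀ χ : DirichletCharacter ℂ q, ∃ B : ℝ, χ.IsPrimitive → ∀ v, 1 ≤ v →
      ‖Mx (fun n => χ n) v‖ ≤ B * Real.sqrt v := by
    intro χ
    by_cases hp : χ.IsPrimitive
    · obtain ⟨B, -, hB⟩ := hch0 χ hp
      exact ⟨B, fun _ => hB⟩
    · exact ⟨0, fun hp' => absurd hp' hp⟩
  choose Bχ hBχ using hBχ
  refine ⟨∑ χ ∈ Ev q, ‖cf q a χ * (DirichletCharacter.rootNumber χ)⁻¹‖ * Bχ χ⁻¹, fun v hv => ?_⟩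
  have h4 : cL q a = fun n : ℕ => ∑ χ ∈ Ev q, cf q a χ * (DirichletCharacter.rootNumber χ)⁻¹ * χ⁻¹ n := rfl
  rw [h4, Mx_sum (Ev q) (fun χ => cf q a χ * (DirichletCharacter.rootNumber χ)⁻¹) (fun χ n => χ⁻¹ n),
    Finset.sum_mul]
  refine (norm_sum_le _ _).trans (Finset.sum_le_sum fun χ hχ => ?_)
  rw [norm_mul, mul_assoc]
  have hχ' : χ.IsPrimitive := by
    classical
    unfold Ev at hχ
    exact (Finset.mem_filter.mp hχ).2.2
  exact mul_le_mul_of_nonneg_left (hBχ χ⁻¹ (inv_prim q hχ') v hv) (norm_nonneg _)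

theorem inequality_two (htrig : S_TRIG) (hsup : S_SUP) (hlap : S_LAP) (hlim : S_LIM) (hpair : S_PAIR)
    (hq : 2 ≤ q) {C : ℝ} (hch0 : ∀ χ : DirichletCharacter ℂ q, χ.IsPrimitive →
      ∃ B : ℝ, 0 ≤ B ∧ ∀ v : ℝ, 1 ≤ v → ‖Mx (fun n => χ n) v‖ ≤ B * Real.sqrt v) (a : ZMod q)
    (hB : ∃ B : ℝ, ∀ v, 1 ≤ v → ‖Mx (cR q a) v‖ ≤ B * Real.sqrt v)
    (hv : ∃ v₀ : ℝ, ∀ v, v₀ ≤ v → ‖Mx (cR q a) v‖ ≤ 2 * C * Real.sqrt v) (u : ℝ) :
    ‖aF (Real.log (q / Real.pi) / 2) (Mx (cR q a)) u - aF (Real.log (q / Real.pi) / 2) (Mx (cL q a)) (-u)‖ ≤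
      2 * C * Real.exp (-(Real.log (q / Real.pi) / 2) / 2) * Kth := by
  classical
  set lam := Real.log (q / Real.pi) / 2 with hlam
  have hev : ∀ χ ∈ Ev q, χ.Even ∧ χ.IsPrimitive := fun χ hχ => by
    unfold Ev at hχ
    exact (Finset.mem_filter.mp hχ).2
  have hBχ : ∀ χ : DirichletCharacter ℂ q, ∃ B : ℝ, χ.IsPrimitive → ∀ v, 1 ≤ v →
      ‖Mx (fun n => χ n) v‖ ≤ B * Real.sqrt v := by
    intro χ
    by_cases hp : χ.IsPrimitive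
    · obtain ⟨B, -, hB⟩ := hch0 χ hp
      exact ⟨B, fun _ => hB⟩
    · exact ⟨0, fun hp' => absurd hp' hp⟩
  choose Bχ hBχ using hBχ
  have hP : ∀ χ ∈ Ev q, Pair (aF lam (Mx (fun n => χ n)))
      (fun u => (DirichletCharacter.rootNumber χ)⁻¹ * aF lam (Mx (fun n => χ⁻¹ n)) u) := by
    intro χ hχ
    obtain ⟨he, hp⟩ := hev χ hχ
    refine hpair q χ hq hp he ⟨max (Bχ χ) (Bχ χ⁻¹), fun v hv => ⟨?_, ?_⟩⟩
    · exact (hBχ χ hp v hv).trans (mul_le_mul_of_nonneg_right (le_max_left _ _) (Real.sqrt_nonneg _))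
    · exact (hBχ χ⁻¹ (inv_prim q hp) v hv).trans
        (mul_le_mul_of_nonneg_right (le_max_right _ _) (Real.sqrt_nonneg _))
  -- the function
  set A : ℝ → ℂ := fun u => ∑ χ ∈ Ev q, cf q a χ * (aF lam (Mx (fun n => χ n)) u -
    (DirichletCharacter.rootNumber χ)⁻¹ * aF lam (Mx (fun n => χ⁻¹ n)) (-u)) with hA
  have hAeq : ∀ u, A u = aF lam (Mx (cR q a)) u - aF lam (Mx (cL q a)) (-u) := by
    intro u
    have h1 := aF_sum hlap (Ev q) (fun χ => cf q a χ) (fun χ n => χ n) lam Bχ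
      (fun χ hχ v hv => hBχ χ (hev χ hχ).2 v hv) u
    have h2 := aF_sum hlap (Ev q) (fun χ => cf q a χ * (DirichletCharacter.rootNumber χ)⁻¹)
      (fun χ n => χ⁻¹ n) lam (fun χ => Bχ χ⁻¹)
      (fun χ hχ v hv => hBχ χ⁻¹ (inv_prim q (hev χ hχ).2) v hv) (-u)
    have h3 : cR q a = fun n : ℕ => ∑ χ ∈ Ev q, cf q a χ * χ n := rfl
    have h4 : cL q a = fun n : ℕ => ∑ χ ∈ Ev q, cf q a χ * (DirichletCharacter.rootNumber χ)⁻¹ * χ⁻¹ n := rfl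
    rw [h3, h4, h1, h2, hA, ← Finset.sum_sub_distrib]
    refine Finset.sum_congr rfl fun χ _ => ?_
    ring
  have hcont : ∀ χ ∈ Ev q, Continuous (fun u => aF lam (Mx (fun n => χ n)) u -
      (DirichletCharacter.rootNumber χ)⁻¹ * aF lam (Mx (fun n => χ⁻¹ n)) (-u)) := by
    intro χ hχ
    exact (hP χ hχ).ca.sub ((hP χ hχ).cb.comp continuous_neg)
  have hbdd : ∀ χ ∈ Ev q, ∃ B : ℝ, ∀ u, ‖aF lam (Mx (fun n => χ n)) u -
      (DirichletCharacter.rootNumber χ)⁻¹ * aF lam (Mx (fun n => χ⁻¹ n)) (-u)‖ ≤ B := by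
    intro χ hχ
    obtain ⟨B, hB⟩ := (hP χ hχ).bd
    refine ⟨B + B, fun u => (norm_sub_le _ _).trans (add_le_add (hB u).1 (hB (-u)).2.2.1)⟩
  have hdisc : Disc A := Disc_sum (Ev q) (fun χ => cf q a χ) _ hcont hbdd
    (fun χ hχ => htrig _ _ (hP χ hχ))
  have hAc : Continuous A := continuous_finsetSum _ fun χ hχ => continuous_const.mul (hcont χ hχ)
  have hAb : ∃ B : ℝ, ∀ u, ‖A u‖ ≤ B := by
    have hex : ∀ χ : DirichletCharacter ℂ q, ∃ B : ℝ, χ ∈ Ev q → ∀ u, ‖aF lam (Mx (fun n => χ n)) u -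
      (DirichletCharacter.rootNumber χ)⁻¹ * aF lam (Mx (fun n => χ⁻¹ n)) (-u)‖ ≤ B := by
      intro χ
      by_cases hχ : χ ∈ Ev q
      · obtain ⟨B, hB⟩ := hbdd χ hχ
        exact ⟨B, fun _ => hB⟩
      · exact ⟨0, fun h => absurd h hχ⟩
    choose B hB using hex
    refine ⟨∑ χ ∈ Ev q, ‖cf q a χ‖ * B χ, fun u => (norm_sum_le _ _).trans
      (Finset.sum_le_sum fun χ hχ => ?_)⟩
    rw [norm_mul]
    exact mul_le_mul_of_nonneg_left (hB χ hχ u) (norm_nonneg _)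
  -- the upper limit
  have hL : ∃ B : ℝ, ∀ v, 1 ≤ v → ‖Mx (cL q a) v‖ ≤ B * Real.sqrt v := by
    refine ⟨∑ χ ∈ Ev q, ‖cf q a χ * (DirichletCharacter.rootNumber χ)⁻¹‖ * Bχ χ⁻¹, fun v hv => ?_⟩
    have h4 : cL q a = fun n : ℕ => ∑ χ ∈ Ev q, cf q a χ * (DirichletCharacter.rootNumber χ)⁻¹ * χ⁻¹ n := rfl
    rw [h4, Mx_sum (Ev q) (fun χ => cf q a χ * (DirichletCharacter.rootNumber χ)⁻¹) (fun χ n => χ⁻¹ n),
      Finset.sum_mul]
    refine (norm_sum_le _ _).trans (Finset.sum_le_sum fun χ hχ => ?_)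
    rw [norm_mul, mul_assoc]
    exact mul_le_mul_of_nonneg_left (hBχ χ⁻¹ (inv_prim q (hev χ hχ).2) v hv) (norm_nonneg _)
  obtain ⟨BR, hBR⟩ := hB
  obtain ⟨v₀, hv₀⟩ := hv
  obtain ⟨BL, hBL⟩ := hL
  obtain ⟨-, -, ⟨B', hB'⟩, -⟩ := hlap lam BL (Mx (cL q a)) (Mx_measurable _) (Mx_lt_one _) hBL
  have hlimsup : ∀ ε : ℝ, 0 < ε → ∀ᶠ u in atTop, ‖A u‖ ≤ 2 * C * Real.exp (-lam / 2) * Kth + ε := by
    intro ε hε
    have h1 := hlim lam BR (2 * C) v₀ (Mx (cR q a)) (Mx_measurable _) (Mx_lt_one _) hBR hv₀ (ε / 2)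
      (by positivity)
    have h2 : Tendsto (fun u : ℝ => B' * Real.exp (-u / 2)) atTop (𝓝 (B' * 0)) := by
      refine Tendsto.const_mul _ ?_
      refine Real.tendsto_exp_atBot.comp ?_
      have h3 : (fun u : ℝ => -u / 2) = fun u => -(u / 2) := by funext u; ring
      rw [h3]
      exact tendsto_neg_atTop_atBot.comp (tendsto_id.atTop_div_const (by norm_num))
    rw [mul_zero] at h2
    have h5 := h2.eventually (gt_mem_nhds (half_pos hε))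
    filter_upwards [h1, h5] with u hu1 hu2
    rw [hAeq]
    refine (norm_sub_le _ _).trans ?_
    have h6 := (hB' (-u)).2
    linarith
  have := hsup A hAc hAb hdisc (2 * C * Real.exp (-lam / 2) * Kth) hlimsup u
  rwa [hAeq] at this

end

section

variable {p l : ℕ} [NeZero (p ^ (2 * l))]

theorem norm_cL_le (hch : S_CH) (hkl : S_KL2) (hp : p.Prime) (hp2 : p ≠ 2) (hl : 1 ≤ l)
    (a : (ZMod (p ^ (2 * l)))ˣ) (n : ℕ) : ‖cL (p ^ (2 * l)) a n‖ ≤ 2 := by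
  have hp0 : (0 : ℝ) < p := Nat.cast_pos.mpr hp.pos
  by_cases hn : p ∣ n
  · have h1 := not_isUnit_nat (l := l) hp hl n hn
    unfold cL
    rw [Finset.sum_eq_zero]
    · simp
    · intro χ _
      rw [MulChar.map_nonunit _ h1, mul_zero]
  · obtain ⟨m, hm⟩ := isUnit_nat (l := l) hp n hn
    rw [cL_eq hch hp hp2 hl a m n hm, norm_div]
    have h1 := (hkl p l hp hp2 hl).2.2 (a * m⁻¹)
    have h2 := (hkl p l hp hp2 hl).2.2 (-(a * m⁻¹))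
    rw [Units.val_neg] at h2
    have h3 : ‖(2 * (p : ℂ) ^ l)‖ = 2 * (p : ℝ) ^ l := by
      rw [norm_mul, norm_pow, Complex.norm_natCast, Complex.norm_ofNat]
    rw [h3, div_le_iff₀ (by positivity)]
    refine (norm_add_le _ _).trans ?_
    linarith

/-- the value of the Kloosterman sum at `b² / g` -/
theorem Kl_div (hkl : S_KL2) (hp : p.Prime) (hp2 : p ≠ 2) (hl : 1 ≤ l)
    (b r : (ZMod (p ^ (2 * l)))ˣ) (g : (ZMod (p ^ (2 * l)))ˣ)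
    (hg : (g : ZMod (p ^ (2 * l))) * (r : ZMod (p ^ (2 * l))) ^ 2 = 1) :
    Kl (p ^ (2 * l)) ((b ^ 2 * g⁻¹ : (ZMod (p ^ (2 * l)))ˣ) : ZMod (p ^ (2 * l))) =
      2 * (p : ℂ) ^ l * ((ee (p ^ (2 * l)) (2 * b * r)).re : ℂ) := by
  have h1 : g⁻¹ = r ^ 2 := by
    rw [inv_eq_iff_mul_eq_one]
    ext
    rw [Units.val_mul, Units.val_pow_eq_pow_val, Units.val_one]
    exact hg
  have h3 : (((b ^ 2 * g⁻¹ : (ZMod (p ^ (2 * l)))ˣ) : ZMod (p ^ (2 * l)))) =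
      ((b * r : (ZMod (p ^ (2 * l)))ˣ) : ZMod (p ^ (2 * l))) ^ 2 := by
    rw [h1, ← mul_pow, Units.val_pow_eq_pow_val]
  rw [h3, (hkl p l hp hp2 hl).1 (b * r)]
  have h6 : ee (p ^ (2 * l)) (-(2 * ((b * r : (ZMod (p ^ (2 * l)))ˣ) : ZMod (p ^ (2 * l))))) =
      (starRingEnd ℂ) (ee (p ^ (2 * l)) (2 * ((b * r : (ZMod (p ^ (2 * l)))ˣ) : ZMod (p ^ (2 * l))))) := by
    unfold ee
    rw [AddChar.map_neg_eq_conj]
  have h7 : (2 * ((b * r : (ZMod (p ^ (2 * l)))ˣ) : ZMod (p ^ (2 * l))) : ZMod (p ^ (2 * l))) = 2 * b * r := by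
    rw [Units.val_mul, mul_assoc]
  rw [h6, Complex.add_conj, h7]
  push_cast
  ring

end

end Two

end Pool.Agent.Y821.ME
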