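import Pool.Agent.Y821.ME.FinD
import Pool.Agent.Y821.ME.Fin2C

/-!
# Project ME, second version: averaging over `b`
-/

set_option autoImplicit false

open Filter Topology MeasureTheory Finset

namespace Pool.Agent.Y821.ME

namespace Two

section

variable {p l : ℕ} [NeZero (p ^ (2 * l))]

theorem cR_bound (hch : S_CH) (hp : p.Prime) (hp2 : p ≠ 2) (hl : 1 ≤ l) {C : ℝ} (hC : 0 ≤ C) (h : HypQ C p (2 * l))
    (a : (ZMod (p ^ (2 * l)))ˣ) : ∃ B : ℝ, ∀ v, 1 ≤ v → ‖Mx (cR (p ^ (2 * l)) a) v‖ ≤ B * Real.sqrt v := by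
  obtain ⟨B1, -, h1⟩ := Mx_cop_all hp (show 2 ≤ 2 * l by omega) hC h (a : ZMod (p ^ (2 * l))) a.isUnit
  obtain ⟨B2, -, h2⟩ := Mx_cop_all hp (show 2 ≤ 2 * l by omega) hC h (-a : ZMod (p ^ (2 * l))) a.isUnit.neg
  refine ⟨(B1 + B2) / 2, fun v hv => ?_⟩
  rw [Mx_cR hch hp hp2 hl, norm_div, Complex.norm_ofNat]
  have := norm_add_le (Mx (cop p (2 * l) (a : ZMod (p ^ (2 * l)))) v) (Mx (cop p (2 * l) (-a)) v)
  have := h1 v (by linarith)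
  have := h2 v (by linarith)
  linarith

theorem cR_ev (hch : S_CH) (hp : p.Prime) (hp2 : p ≠ 2) (hl : 1 ≤ l) {C : ℝ} (hC : 0 ≤ C) (h : HypQ C p (2 * l))
    (a : (ZMod (p ^ (2 * l)))ˣ) :
    ∃ v₀ : ℝ, ∀ v, v₀ ≤ v → ‖Mx (cR (p ^ (2 * l)) a) v‖ ≤ 2 * C * Real.sqrt v := by
  obtain ⟨v1, -, h1⟩ := Mx_cop_ev hp (show 2 ≤ 2 * l by omega) hC h (a : ZMod (p ^ (2 * l))) a.isUnit
  obtain ⟨v2, -, h2⟩ := Mx_cop_ev hp (show 2 ≤ 2 * l by omega) hC h (-a : ZMod (p ^ (2 * l))) a.isUnit.neg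
  refine ⟨max v1 v2, fun v hv => ?_⟩
  rw [Mx_cR hch hp hp2 hl, norm_div, Complex.norm_ofNat]
  have := norm_add_le (Mx (cop p (2 * l) (a : ZMod (p ^ (2 * l)))) v) (Mx (cop p (2 * l) (-a)) v)
  have := h1 v ((le_max_left _ _).trans hv)
  have := h2 v ((le_max_right _ _).trans hv)
  linarith

end

/-- the averaged inequality between the two series -/
theorem series_inequality_two (htrig : S_TRIG) (hsup : S_SUP) (hlap : S_LAP) (hlim : S_LIM) (hpair : S_PAIR)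
    (hch : S_CH) (hkl : S_KL2) (hser : S_SER) {C : ℝ} (hC : 0 ≤ C)
    {p l : ℕ} [NeZero (p ^ (2 * l))] (h : HypQ C p (2 * l)) (hp : p.Prime) (hp2 : p ≠ 2) (hl : 1 ≤ l)
    (w : (ZMod (p ^ (2 * l)))ˣ → ℝ) (hw0 : ∀ b, 0 ≤ w b) (hw1 : ∑ b, w b = 1)
    (TR TL : ℕ → ℂ)
    (hTR : TR = fun n => ∑ b, (w b : ℂ) *
      cR (p ^ (2 * l)) ((b ^ 2 : (ZMod (p ^ (2 * l)))ˣ) : ZMod (p ^ (2 * l))) n)
    (hTL : TL = fun n => ∑ b, (w b : ℂ) *
      cL (p ^ (2 * l)) ((b ^ 2 : (ZMod (p ^ (2 * l)))ˣ) : ZMod (p ^ (2 * l))) n)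
    (lam U : ℝ) (hlam : lam = Real.log ((p ^ (2 * l) : ℕ) / Real.pi) / 2) :
    ‖(Real.exp (U / 2) : ℂ) *
        ∑' n : ℕ, mu (n + 1) * TR (n + 1) * (VR ((n + 1 : ℕ) * Real.exp (lam + U)) : ℝ) -
      (Real.exp (-U / 2) : ℂ) *
        ∑' n : ℕ, mu (n + 1) * TL (n + 1) * (VL ((n + 1 : ℕ) * Real.exp (lam - U)) : ℝ)‖ ≤
      5 * (2 * C * Real.exp (-lam / 2) * Kth) ∧ (∀ n, ‖TR n‖ ≤ 2) ∧ (∀ n, ‖TL n‖ ≤ 2) := by
  have hch0 := fun (χ : DirichletCharacter ℂ (p ^ (2 * l))) (hχ : χ.IsPrimitive) =>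
    Mx_chi hp (show 1 ≤ 2 * l by omega) hC h hχ
  have hq : 2 ≤ p ^ (2 * l) := by
    calc 2 ≤ p := hp.two_le
      _ = p ^ 1 := (pow_one p).symm
      _ ≤ p ^ (2 * l) := Nat.pow_le_pow_right hp.pos (by omega)
  choose BR hBR using fun b : (ZMod (p ^ (2 * l)))ˣ => cR_bound (l := l) hch hp hp2 hl hC h (b ^ 2)
  choose BL hBL using fun b : (ZMod (p ^ (2 * l)))ˣ =>
    cL_bound (p ^ (2 * l)) hch0 ((b ^ 2 : (ZMod (p ^ (2 * l)))ˣ) : ZMod (p ^ (2 * l)))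
  have hR2 : ∀ n, ‖TR n‖ ≤ 2 := by
    intro n
    rw [hTR]
    refine (norm_sum_le _ _).trans ?_
    calc ∑ b, ‖(w b : ℂ) * cR (p ^ (2 * l)) ((b ^ 2 : (ZMod (p ^ (2 * l)))ˣ) : ZMod (p ^ (2 * l))) n‖
        ≤ ∑ b, w b * 2 := by
          refine Finset.sum_le_sum fun b _ => ?_
          rw [norm_mul, Complex.norm_real, Real.norm_of_nonneg (hw0 b)]
          exact mul_le_mul_of_nonneg_left ((norm_cR_le hch hp hp2 hl (b ^ 2) n).trans (by norm_num)) (hw0 b)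
      _ = 2 := by rw [← Finset.sum_mul, hw1, one_mul]
  have hL2 : ∀ n, ‖TL n‖ ≤ 2 := by
    intro n
    rw [hTL]
    refine (norm_sum_le _ _).trans ?_
    calc ∑ b, ‖(w b : ℂ) * cL (p ^ (2 * l)) ((b ^ 2 : (ZMod (p ^ (2 * l)))ˣ) : ZMod (p ^ (2 * l))) n‖
        ≤ ∑ b, w b * 2 := by
          refine Finset.sum_le_sum fun b _ => ?_
          rw [norm_mul, Complex.norm_real, Real.norm_of_nonneg (hw0 b)]
          exact mul_le_mul_of_nonneg_left (norm_cL_le hch hkl hp hp2 hl (b ^ 2) n) (hw0 b)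
      _ = 2 := by rw [← Finset.sum_mul, hw1, one_mul]
  refine ⟨?_, hR2, hL2⟩
  have hMR : ∀ v, 1 ≤ v → ‖Mx TR v‖ ≤ (∑ b, w b * BR b) * Real.sqrt v := by
    intro v hv
    rw [hTR, Mx_sum univ (fun b => (w b : ℂ))
      (fun b n => cR (p ^ (2 * l)) ((b ^ 2 : (ZMod (p ^ (2 * l)))ˣ) : ZMod (p ^ (2 * l))) n), Finset.sum_mul]
    refine (norm_sum_le _ _).trans (Finset.sum_le_sum fun b _ => ?_)
    rw [norm_mul, Complex.norm_real, Real.norm_of_nonneg (hw0 b), mul_assoc]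
    exact mul_le_mul_of_nonneg_left (hBR b v hv) (hw0 b)
  have hML : ∀ v, 1 ≤ v → ‖Mx TL v‖ ≤ (∑ b, w b * BL b) * Real.sqrt v := by
    intro v hv
    rw [hTL, Mx_sum univ (fun b => (w b : ℂ))
      (fun b n => cL (p ^ (2 * l)) ((b ^ 2 : (ZMod (p ^ (2 * l)))ˣ) : ZMod (p ^ (2 * l))) n), Finset.sum_mul]
    refine (norm_sum_le _ _).trans (Finset.sum_le_sum fun b _ => ?_)
    rw [norm_mul, Complex.norm_real, Real.norm_of_nonneg (hw0 b), mul_assoc]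
    exact mul_le_mul_of_nonneg_left (hBL b v hv) (hw0 b)
  have hA : ∀ u, ‖aF lam (Mx TR) u - aF lam (Mx TL) (-u)‖ ≤ 2 * C * Real.exp (-lam / 2) * Kth := by
    intro u
    have h1 := aF_sum hlap univ (fun b => (w b : ℂ))
      (fun b n => cR (p ^ (2 * l)) ((b ^ 2 : (ZMod (p ^ (2 * l)))ˣ) : ZMod (p ^ (2 * l))) n) lam BR
      (fun b _ v hv => hBR b v hv) u
    have h2 := aF_sum hlap univ (fun b => (w b : ℂ))
      (fun b n => cL (p ^ (2 * l)) ((b ^ 2 : (ZMod (p ^ (2 * l)))ˣ) : ZMod (p ^ (2 * l))) n) lam BL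
      (fun b _ v hv => hBL b v hv) (-u)
    rw [hTR, hTL, h1, h2, ← Finset.sum_sub_distrib]
    refine (norm_sum_le _ _).trans ?_
    calc ∑ b, ‖(w b : ℂ) * aF lam (Mx (cR (p ^ (2 * l)) ((b ^ 2 : (ZMod (p ^ (2 * l)))ˣ) : ZMod (p ^ (2 * l))))) u -
          (w b : ℂ) * aF lam (Mx (cL (p ^ (2 * l)) ((b ^ 2 : (ZMod (p ^ (2 * l)))ˣ) : ZMod (p ^ (2 * l))))) (-u)‖
        ≤ ∑ b, w b * (2 * C * Real.exp (-lam / 2) * Kth) := by
          refine Finset.sum_le_sum fun b _ => ?_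
          rw [← mul_sub, norm_mul, Complex.norm_real, Real.norm_of_nonneg (hw0 b)]
          refine mul_le_mul_of_nonneg_left ?_ (hw0 b)
          rw [hlam]
          exact inequality_two (p ^ (2 * l)) htrig hsup hlap hlim hpair hq hch0 _
            ⟨BR b, hBR b⟩ (cR_ev hch hp hp2 hl hC h (b ^ 2)) u
      _ = _ := by rw [← Finset.sum_mul, hw1, one_mul]
  have hD := norm_D_le (fun t => aF lam (Mx TR) t - aF lam (Mx TL) (-t)) _ hA (-U)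
  rw [D_sub (aF lam (Mx TR)) (fun t => aF lam (Mx TL) (-t))] at hD
  rw [(hser lam _ TR hR2 hMR (-U)).1, (hser lam _ TL hL2 hML (-U)).2] at hD
  rw [neg_neg, sub_neg_eq_add, ← sub_eq_add_neg] at hD
  exact hD

end Two

end Pool.Agent.Y821.ME
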