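import Pool.Agent.Y821.ME.FinE
import Pool.Agent.Y821.ME.Fin2D

/-!
# Project ME, second version: the theorem for every odd prime `p` and all large `l`
-/

set_option autoImplicit false

open Filter Topology MeasureTheory Finset

namespace Pool.Agent.Y821.ME

namespace Two

theorem big_N2 (K : ℝ) (p : ℕ) (hp : 1 ≤ p) : ∀ᶠ N : ℕ in atTop, K * Real.sqrt (10 * N) + 1 < N / (25 * p) := by
  have hp' : (1 : ℝ) ≤ p := by exact_mod_cast hp
  filter_upwards [big_N (|K| * p + p)] with N hN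
  have h1 : (|K| * p + p) * Real.sqrt (10 * N) + 181 < N / 25 := hN
  have h2 : 0 ≤ Real.sqrt (10 * N) := Real.sqrt_nonneg _
  have h3 : K * p ≤ |K| * p := mul_le_mul_of_nonneg_right (le_abs_self K) (by linarith)
  rcases Nat.eq_zero_or_pos N with h0 | h0
  · subst h0
    norm_num at h1
  have hN1 : (1 : ℝ) ≤ N := by exact_mod_cast h0
  have h5 : (1 : ℝ) ≤ Real.sqrt (10 * N) := by
    rw [Real.one_le_sqrt]; linarith
  have h4 : (K * Real.sqrt (10 * N) + 1) * p < N / 25 := by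
    nlinarith [mul_le_mul_of_nonneg_right h3 h2]
  have h6 : (N : ℝ) / (25 * p) = (N / 25) / p := by
    rw [div_div]
  rw [h6, lt_div_iff₀ (by linarith)]
  exact h4

theorem mem_Gs {Y p : ℕ} {g : ℤ} : g ∈ Gs Y p ↔ (-(Y : ℤ) ≤ g ∧ g ≤ Y) ∧ Squarefree g ∧ ¬ (p : ℤ) ∣ g ∧
    IsSquare (g : ZMod p) := by
  unfold Gs
  simp only [Finset.mem_filter, Finset.mem_Icc]

section

variable {p l : ℕ} [NeZero (p ^ (2 * l))]

theorem not_square (hl : 1 ≤ l) (g : ℤ) (g' b : (ZMod (p ^ (2 * l)))ˣ)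
    (hg : (g' : ZMod (p ^ (2 * l))) = (g : ZMod (p ^ (2 * l)))) (hsq : ¬ IsSquare (g : ZMod p)) :
    ¬ IsSquare (b ^ 2 * g'⁻¹) := by
  rintro ⟨t, ht⟩
  apply hsq
  have h1 : g' = (b * t⁻¹) * (b * t⁻¹) := by
    have h2 : g'⁻¹ = (b ^ 2)⁻¹ * (t * t) := by rw [← ht]; group
    have h3 : g' = ((b ^ 2)⁻¹ * (t * t))⁻¹ := by rw [← h2, inv_inv]
    rw [h3, mul_inv_rev, inv_inv, mul_inv_rev, sq, mul_mul_mul_comm b t⁻¹ b t⁻¹]
    exact mul_comm _ _
  have hd : p ∣ p ^ (2 * l) := dvd_pow_self p (by omega)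
  have h4 := congrArg (fun x : (ZMod (p ^ (2 * l)))ˣ => ZMod.castHom hd (ZMod p) (x : ZMod (p ^ (2 * l)))) h1
  simp only [Units.val_mul, map_mul] at h4
  rw [hg, map_intCast] at h4
  exact ⟨_, h4⟩

end

theorem main_two (htrig : S_TRIG) (hsup : S_SUP) (hlap : S_LAP) (hlim : S_LIM) (hvb : S_VB) (hser : S_SER)
    (hpair : S_PAIR) (hch : S_CH) (hkl : S_KL2) (hrz : S_RZ2) (hsf : S_SF2)
    (p : ℕ) (hp : p.Prime) (hp2 : p ≠ 2) (C : ℝ) :
    ∃ l₀ : ℕ, ∀ l : ℕ, l₀ ≤ l → ∃ a : ℕ, ¬ p ∣ a ∧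
      ∃ᶠ R : ℕ in atTop, C * Real.sqrt R < ‖F R ((a / (p ^ (2 * l) : ℕ) : ℚ) : ℝ)‖ := by
  classical
  have hfact : Fact p.Prime := ⟨hp⟩
  set C' : ℝ := max C 0 with hC'
  have hC : 0 ≤ C' := le_max_right _ _
  have hpR : (1 : ℝ) ≤ p := by exact_mod_cast hp.one_lt.le
  obtain ⟨N₀, hN₀⟩ := hsf p hp
  obtain ⟨N, hN1, hN2, hN3⟩ := ((big_N2 (10 * C' * Kth + 361) p hp.one_lt.le).and
    ((eventually_ge_atTop 1).and (eventually_ge_atTop N₀))).exists
  set Sn : Finset ℕ := (Icc (2 * N) (3 * N)).filter (fun m => Squarefree m ∧ m % p = 1) with hSn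
  have hcard : (N : ℝ) / (5 * p) ≤ Sn.card := by
    have := hN₀ N hN3
    rw [hSn]
    convert this
  have hN' : (1 : ℝ) ≤ N := by exact_mod_cast hN2
  have hNN : N ≤ N ^ 2 := by nlinarith
  set S : Finset ℤ := Sn.image (fun m : ℕ => (m : ℤ)) with hS
  have hSmem : ∀ m : ℕ, ((m : ℤ) ∈ S ↔ m ∈ Sn) := by
    intro m
    rw [hS, Finset.mem_image]
    constructor
    · rintro ⟨k, hk, hk'⟩
      have : k = m := by exact_mod_cast hk'
      rwa [← this]
    · intro h
      exact ⟨m, h, rfl⟩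
  have hSneg : ∀ m : ℕ, 1 ≤ m → -(m : ℤ) ∉ S := by
    intro m hm h
    rw [hS, Finset.mem_image] at h
    obtain ⟨k, -, hk⟩ := h
    omega
  have hSsub : S ⊆ Gs (100 * N ^ 2) p := by
    intro g hg
    rw [hS, Finset.mem_image] at hg
    obtain ⟨m, hm, rfl⟩ := hg
    rw [hSn, Finset.mem_filter, Finset.mem_Icc] at hm
    obtain ⟨⟨h1, h2⟩, h3, h4⟩ := hm
    rw [mem_Gs]
    refine ⟨⟨by omega, ?_⟩, ?_, ?_, ?_⟩
    · have : m ≤ 100 * N ^ 2 := by omega
      exact_mod_cast this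
    · exact Int.squarefree_natCast.mpr h3
    · intro hd
      have hd' : p ∣ m := by exact_mod_cast hd
      have := Nat.mod_eq_zero_of_dvd hd'
      omega
    · have h5 : ((m : ℤ) : ZMod p) = 1 := by
        have h6 : ((m : ℕ) : ZMod p) = ((1 : ℕ) : ZMod p) := by
          rw [ZMod.natCast_eq_natCast_iff, Nat.ModEq, h4, Nat.mod_eq_of_lt hp.one_lt]
        push_cast
        push_cast at h6
        exact h6
      rw [h5]
      exact IsSquare.one
  obtain ⟨l₀, hl₀, hall⟩ := hrz (100 * N ^ 2) p hp2 S (by convert hSsub)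
  refine ⟨l₀, fun l hl' => ?_⟩
  have hl : 1 ≤ l := hl₀.trans hl'
  obtain ⟨r, hr, w, hw0, hw1, hw⟩ := hall l hl'
  by_contra hcon
  push Not at hcon
  have h : HypQ C' p (2 * l) := by
    intro a ha
    filter_upwards [hcon a ha] with R hR
    exact hR.trans (mul_le_mul_of_nonneg_right (le_max_left _ _) (Real.sqrt_nonneg _))
  set TR : ℕ → ℂ := fun n => ∑ b, (w b : ℂ) *
      cR (p ^ (2 * l)) ((b ^ 2 : (ZMod (p ^ (2 * l)))ˣ) : ZMod (p ^ (2 * l))) n with hTR
  set TL : ℕ → ℂ := fun n => ∑ b, (w b : ℂ) *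
      cL (p ^ (2 * l)) ((b ^ 2 : (ZMod (p ^ (2 * l)))ˣ) : ZMod (p ^ (2 * l))) n with hTL
  set lam : ℝ := Real.log ((p ^ (2 * l) : ℕ) / Real.pi) / 2 with hlam
  have hlam0 : 0 ≤ lam := by
    rw [hlam]
    refine div_nonneg (Real.log_nonneg ?_) (by norm_num)
    rw [le_div_iff₀ Real.pi_pos, one_mul]
    have h1 : 3 ≤ p := by
      have := hp.two_le
      omega
    have h2 : 3 ^ 2 ≤ p ^ (2 * l) := (Nat.pow_le_pow_left h1 2).trans (Nat.pow_le_pow_right hp.pos (by omega))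
    have h3 : ((3 ^ 2 : ℕ) : ℝ) ≤ ((p ^ (2 * l) : ℕ) : ℝ) := by exact_mod_cast h2
    have := Real.pi_lt_four
    norm_num at h3 ⊢
    linarith
  set U : ℝ := Real.log (10 * N) + lam with hU
  have hZ : (0 : ℝ) < 10 * N := by linarith
  have hlogZ : 0 ≤ Real.log (10 * N) := Real.log_nonneg (by linarith)
  obtain ⟨hmain, hTR2, hTL2⟩ := series_inequality_two htrig hsup hlap hlim hpair hch hkl hser hC h hp hp2 hl
    w hw0 hw1 TR TL hTR hTL lam U hlam
  have he1 : Real.exp (lam - U) = 1 / (10 * N) := by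
    rw [hU, show lam - (Real.log (10 * N) + lam) = -Real.log (10 * N) by ring, Real.exp_neg, Real.exp_log hZ,
      one_div]
  rw [he1] at hmain
  -- averages of Kloosterman sums
  have hp0 : (p : ℂ) ^ l ≠ 0 := pow_ne_zero _ (Nat.cast_ne_zero.mpr hp.ne_zero)
  have havg : ∀ (g : ℤ) (g' : (ZMod (p ^ (2 * l)))ˣ), (g' : ZMod (p ^ (2 * l))) = (g : ZMod (p ^ (2 * l))) →
      Squarefree g → ¬ (p : ℤ) ∣ g → -((100 * N ^ 2 : ℕ) : ℤ) ≤ g → g ≤ ((100 * N ^ 2 : ℕ) : ℤ) →
      ∑ b, (w b : ℂ) * Kl (p ^ (2 * l)) ((b ^ 2 * g'⁻¹ : (ZMod (p ^ (2 * l)))ˣ) : ZMod (p ^ (2 * l))) =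
        2 * (p : ℂ) ^ l * (if g ∈ S then ((ArithmeticFunction.moebius g.natAbs : ℤ) : ℂ) / 2 else 0) := by
    intro g g' hg' hg1 hg2 hg3 hg4
    by_cases hsq : IsSquare (g : ZMod p)
    · have hgG : g ∈ Gs (100 * N ^ 2) p := by
        rw [mem_Gs]
        exact ⟨⟨hg3, hg4⟩, hg1, hg2, hsq⟩
      have h1 : ∀ b : (ZMod (p ^ (2 * l)))ˣ,
          Kl (p ^ (2 * l)) ((b ^ 2 * g'⁻¹ : (ZMod (p ^ (2 * l)))ˣ) : ZMod (p ^ (2 * l))) =
          2 * (p : ℂ) ^ l * ((ee (p ^ (2 * l)) (2 * b * r g)).re : ℂ) := fun b =>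
        Kl_div hkl hp hp2 hl b (r g) g' (by rw [hg']; exact hr g hgG)
      simp only [h1]
      have h2 := hw g hgG
      have h3 : ((∑ b, w b * (ee (p ^ (2 * l)) (2 * (b : ZMod (p ^ (2 * l))) * r g)).re : ℝ) : ℂ) =
          (if g ∈ S then ((ArithmeticFunction.moebius g.natAbs : ℤ) : ℂ) / 2 else 0) := by
        rw [h2]
        split_ifs <;> push_cast <;> rfl
      rw [← h3, Complex.ofReal_sum, Finset.mul_sum]
      refine Finset.sum_congr rfl fun b _ => ?_
      rw [Complex.ofReal_mul]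
      ring
    · have hgS : g ∉ S := by
        intro hgS
        exact hsq (mem_Gs.mp (hSsub hgS)).2.2.2
      rw [if_neg hgS, mul_zero]
      refine Finset.sum_eq_zero fun b _ => ?_
      rw [(hkl p l hp hp2 hl).2.1 _ (not_square hl g g' b hg' hsq), mul_zero]
  -- small coefficients
  have hsmall : ∀ m : ℕ, 1 ≤ m → m ≤ 100 * N ^ 2 → mu m * TL m = if m ∈ Sn then (1 / 2 : ℂ) else 0 := by
    intro m hm1 hm2
    by_cases hsqf : Squarefree m
    · by_cases hpm : p ∣ m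
      · have h1 : m ∉ Sn := by
          intro hm
          rw [hSn, Finset.mem_filter] at hm
          have := Nat.mod_eq_zero_of_dvd hpm
          omega
        have h2 : TL m = 0 := by
          rw [hTL]
          refine Finset.sum_eq_zero fun b _ => ?_
          have h3 := not_isUnit_nat (l := l) hp hl m hpm
          have h4 : cL (p ^ (2 * l)) ((b ^ 2 : (ZMod (p ^ (2 * l)))ˣ) : ZMod (p ^ (2 * l))) m = 0 := by
            unfold cL
            refine Finset.sum_eq_zero fun χ _ => ?_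
            rw [MulChar.map_nonunit _ h3, mul_zero]
          rw [h4, mul_zero]
        rw [h2, if_neg h1, mul_zero]
      · obtain ⟨m', hm'⟩ := isUnit_nat (l := l) hp m hpm
        have hpZ : ¬ (p : ℤ) ∣ (m : ℤ) := fun hd => hpm (by exact_mod_cast hd)
        have hsqZ : Squarefree (m : ℤ) := Int.squarefree_natCast.mpr hsqf
        have hmle : (m : ℤ) ≤ ((100 * N ^ 2 : ℕ) : ℤ) := by exact_mod_cast hm2
        have e1 := havg (m : ℤ) m' (by rw [hm']; push_cast; rfl) hsqZ hpZ (by omega) hmle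
        have e2 := havg (-(m : ℤ)) (-m') (by rw [Units.val_neg, hm']; push_cast; rfl)
          (by
            have := hsqZ
            rwa [← Int.squarefree_natAbs, Int.natAbs_neg, Int.squarefree_natAbs]) (by
            rwa [Int.dvd_neg]) (by omega) (by omega)
        have h1 : TL m = (if m ∈ Sn then ((ArithmeticFunction.moebius m : ℤ) : ℂ) / 2 else 0) := by
          have h2 : TL m = ∑ b, (w b : ℂ) *
              ((Kl (p ^ (2 * l)) ((b ^ 2 * m'⁻¹ : (ZMod (p ^ (2 * l)))ˣ) : ZMod (p ^ (2 * l))) +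
                Kl (p ^ (2 * l)) ((b ^ 2 * (-m')⁻¹ : (ZMod (p ^ (2 * l)))ˣ) : ZMod (p ^ (2 * l)))) /
                (2 * (p : ℂ) ^ l)) := by
            rw [hTL]
            refine Finset.sum_congr rfl fun b _ => ?_
            congr 1
            have h3 := cL_eq hch hp hp2 hl (b ^ 2) m' m hm'
            rw [h3]
            have h4 : -((b ^ 2 * m'⁻¹ : (ZMod (p ^ (2 * l)))ˣ) : ZMod (p ^ (2 * l))) =
                ((b ^ 2 * (-m')⁻¹ : (ZMod (p ^ (2 * l)))ˣ) : ZMod (p ^ (2 * l))) := by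
              rw [← Units.val_neg]
              congr 1
              rw [inv_neg, mul_neg]
            rw [h4]
          rw [h2]
          have h5 : ∑ b, (w b : ℂ) *
              ((Kl (p ^ (2 * l)) ((b ^ 2 * m'⁻¹ : (ZMod (p ^ (2 * l)))ˣ) : ZMod (p ^ (2 * l))) +
                Kl (p ^ (2 * l)) ((b ^ 2 * (-m')⁻¹ : (ZMod (p ^ (2 * l)))ˣ) : ZMod (p ^ (2 * l)))) /
                (2 * (p : ℂ) ^ l)) =
              (∑ b, (w b : ℂ) * Kl (p ^ (2 * l)) ((b ^ 2 * m'⁻¹ : (ZMod (p ^ (2 * l)))ˣ) : ZMod (p ^ (2 * l))) +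
              ∑ b, (w b : ℂ) * Kl (p ^ (2 * l)) ((b ^ 2 * (-m')⁻¹ : (ZMod (p ^ (2 * l)))ˣ) :
                ZMod (p ^ (2 * l)))) / (2 * (p : ℂ) ^ l) := by
            rw [← Finset.sum_add_distrib, Finset.sum_div]
            refine Finset.sum_congr rfl fun b _ => ?_
            ring
          rw [h5, e1, e2, if_neg (hSneg m hm1), mul_zero, add_zero, Int.natAbs_natCast]
          have h6 : ((m : ℤ) ∈ S) = (m ∈ Sn) := propext (hSmem m)
          simp only [h6]
          field_simp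
        rw [h1]
        by_cases hmS : m ∈ Sn
        · rw [if_pos hmS, if_pos hmS]
          unfold mu
          have h3 : (ArithmeticFunction.moebius m : ℤ) ^ 2 = 1 :=
            ArithmeticFunction.moebius_sq_eq_one_of_squarefree hsqf
          have h4 : ((ArithmeticFunction.moebius m : ℤ) : ℂ) * ((ArithmeticFunction.moebius m : ℤ) : ℂ) = 1 := by
            rw [← sq]; exact_mod_cast h3
          rw [← mul_div_assoc, h4]
        · rw [if_neg hmS, if_neg hmS]
          simp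
    · have h1 : mu m = 0 := by
        unfold mu
        rw [ArithmeticFunction.moebius_eq_zero_of_not_squarefree hsqf]
        simp
      have h2 : m ∉ Sn := fun hm => hsqf (Finset.mem_filter.mp hm).2.1
      rw [h1, if_neg h2, zero_mul]
  have hlow := left_lower hvb N hN2 Sn (fun m hm => by
    rw [hSn, Finset.mem_filter, Finset.mem_Icc] at hm
    exact hm.1) TL hTL2 hsmall
  have hXU : 1 ≤ Real.exp (lam + U) := Real.one_le_exp (by rw [hU]; linarith)
  have hright := right_upper hvb (Real.exp (lam + U)) hXU TR hTR2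
  set SR := ∑' n : ℕ, mu (n + 1) * TR (n + 1) * ((VR ((n + 1 : ℕ) * Real.exp (lam + U)) : ℝ) : ℂ) with hSR
  set SL := ∑' n : ℕ, mu (n + 1) * TL (n + 1) * ((VL ((n + 1 : ℕ) * (1 / (10 * N : ℝ))) : ℝ) : ℂ) with hSL
  -- multiply by exp (U/2)
  have hexp : (0 : ℝ) < Real.exp (U / 2) := Real.exp_pos _
  have h1 : Real.exp (-U / 2) * ‖SL‖ ≤ 5 * (2 * C' * Real.exp (-lam / 2) * Kth) + Real.exp (U / 2) * ‖SR‖ := by
    have e1 : ‖(Real.exp (-U / 2) : ℂ) * SL‖ = Real.exp (-U / 2) * ‖SL‖ := by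
      rw [norm_mul, Complex.norm_real, Real.norm_of_nonneg (Real.exp_pos _).le]
    have e2 : ‖(Real.exp (U / 2) : ℂ) * SR‖ = Real.exp (U / 2) * ‖SR‖ := by
      rw [norm_mul, Complex.norm_real, Real.norm_of_nonneg (Real.exp_pos _).le]
    have e3 := norm_sub_norm_le ((Real.exp (-U / 2) : ℂ) * SL) ((Real.exp (U / 2) : ℂ) * SR)
    rw [norm_sub_rev] at e3
    rw [e1, e2] at e3
    linarith
  have h2 : ‖SL‖ ≤ Real.exp (U / 2) * (5 * (2 * C' * Real.exp (-lam / 2) * Kth)) +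
      Real.exp U * ‖SR‖ := by
    have e1 : Real.exp (U / 2) * (Real.exp (-U / 2) * ‖SL‖) = ‖SL‖ := by
      rw [← mul_assoc, ← Real.exp_add, show U / 2 + -U / 2 = 0 by ring, Real.exp_zero, one_mul]
    have e2 : Real.exp (U / 2) * (Real.exp (U / 2) * ‖SR‖) = Real.exp U * ‖SR‖ := by
      rw [← mul_assoc, ← Real.exp_add, show U / 2 + U / 2 = U by ring]
    have e3 := mul_le_mul_of_nonneg_left h1 hexp.le
    rw [e1, mul_add, e2] at e3
    exact e3
  have h3 : Real.exp (U / 2) * (5 * (2 * C' * Real.exp (-lam / 2) * Kth)) =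
      10 * C' * Kth * Real.sqrt (10 * N) := by
    have e1 : Real.exp (U / 2) = Real.sqrt (10 * N) * Real.exp (lam / 2) := by
      rw [hU, add_div, Real.exp_add]
      congr 1
      rw [Real.sqrt_eq_rpow, Real.rpow_def_of_pos hZ]
      congr 1
      ring
    have e2 : Real.exp (lam / 2) * Real.exp (-lam / 2) = 1 := by
      rw [← Real.exp_add, show lam / 2 + -lam / 2 = 0 by ring, Real.exp_zero]
    rw [e1]
    calc Real.sqrt (10 * N) * Real.exp (lam / 2) * (5 * (2 * C' * Real.exp (-lam / 2) * Kth))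
        = (Real.exp (lam / 2) * Real.exp (-lam / 2)) * (10 * C' * Kth * Real.sqrt (10 * N)) := by ring
      _ = _ := by rw [e2, one_mul]
  have h4 : Real.exp U * ‖SR‖ ≤ 360 := by
    have e0 : Real.exp U ≤ Real.exp (lam + U) := Real.exp_le_exp.mpr (by linarith)
    have e1 : Real.exp (lam + U) ≤ Real.exp (lam + U) ^ 3 := by
      nlinarith [sq_nonneg (Real.exp (lam + U)), mul_self_nonneg (Real.exp (lam + U) - 1)]
    have hpos : 0 < Real.exp (lam + U) := Real.exp_pos _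
    calc Real.exp U * ‖SR‖ ≤ Real.exp (lam + U) ^ 3 * (360 / Real.exp (lam + U) ^ 3) :=
          mul_le_mul (e0.trans e1) hright (norm_nonneg _) (by positivity)
      _ = 360 := by field_simp
  have hfin : (Sn.card : ℝ) / 5 - 1 ≤ 10 * C' * Kth * Real.sqrt (10 * N) + 360 := by
    linarith
  have h5 : (1 : ℝ) ≤ Real.sqrt (10 * N) := by
    rw [Real.one_le_sqrt]; linarith
  have h6 : (10 * C' * Kth + 361) * Real.sqrt (10 * N) + 1 < N / (25 * p) := hN1
  have h7 : (N : ℝ) / (25 * p) = (N / (5 * p)) / 5 := by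
    rw [div_div]
    congr 1
    ring
  nlinarith

end Two

end Pool.Agent.Y821.ME
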