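import Pool.Agent.Y821.ME.Stm

/-!
# Project ME: linear combinations
-/

set_option autoImplicit false

open Filter Topology MeasureTheory Finset

namespace Pool.Agent.Y821.ME

theorem norm_mu_le (n : ℕ) : ‖mu n‖ ≤ 1 := by
  unfold mu
  rw [Complex.norm_intCast]
  exact_mod_cast ArithmeticFunction.abs_moebius_le_one

theorem Mx_measurable (c : ℕ → ℂ) : Measurable (Mx c) := by
  have h : Mx c = (fun n : ℕ => ∑ m ∈ Icc 1 n, mu m * c m) ∘ (fun v : ℝ => ⌊v⌋₊) := rfl
  rw [h]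
  exact (measurable_from_nat).comp Nat.measurable_floor

theorem Mx_lt_one (c : ℕ → ℂ) (v : ℝ) (hv : v < 1) : Mx c v = 0 := by
  unfold Mx
  rw [Nat.floor_eq_zero.mpr hv]
  simp

theorem Mx_sum {ι : Type*} (s : Finset ι) (x : ι → ℂ) (c : ι → ℕ → ℂ) :
    Mx (fun n => ∑ i ∈ s, x i * c i n) = fun v => ∑ i ∈ s, x i * Mx (c i) v := by
  funext v
  unfold Mx
  simp only [Finset.mul_sum]
  rw [Finset.sum_comm]
  refine Finset.sum_congr rfl fun i _ => Finset.sum_congr rfl fun n _ => ?_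
  ring

/-- the kernel as a complex function -/
theorem aF_sum (hlap : S_LAP) {ι : Type*} (s : Finset ι) (x : ι → ℂ) (c : ι → ℕ → ℂ) (lam : ℝ)
    (B : ι → ℝ) (hB : ∀ i ∈ s, ∀ v, 1 ≤ v → ‖Mx (c i) v‖ ≤ B i * Real.sqrt v) (u : ℝ) :
    aF lam (Mx (fun n => ∑ i ∈ s, x i * c i n)) u = ∑ i ∈ s, x i * aF lam (Mx (c i)) u := by
  rw [Mx_sum]
  unfold aF
  have h1 : ∀ i ∈ s, IntegrableOn
      (fun v : ℝ => x i * (Mx (c i) v * (th1 (v * Real.exp (lam - u)) / v : ℝ))) (Set.Ioi 0) := by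
    intro i hi
    exact ((hlap lam (B i) (Mx (c i)) (Mx_measurable _) (Mx_lt_one _) (hB i hi)).2.1 u).const_mul _
  have h2 : ∫ v in Set.Ioi (0 : ℝ), (∑ i ∈ s, x i * Mx (c i) v) * (th1 (v * Real.exp (lam - u)) / v : ℝ) =
      ∑ i ∈ s, x i * ∫ v in Set.Ioi (0 : ℝ), Mx (c i) v * (th1 (v * Real.exp (lam - u)) / v : ℝ) := by
    rw [← Finset.sum_congr rfl (fun i hi => MeasureTheory.integral_const_mul (x i) _), ← integral_finsetSum s h1]
    refine integral_congr_ae (Eventually.of_forall fun v => ?_)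
    simp only [Finset.sum_mul]
    refine Finset.sum_congr rfl fun i _ => ?_
    ring
  rw [h2, Finset.mul_sum]
  refine Finset.sum_congr rfl fun i _ => ?_
  ring

theorem D_sum {ι : Type*} (s : Finset ι) (x : ι → ℂ) (A : ι → ℝ → ℂ) (u : ℝ) :
    D (fun t => ∑ i ∈ s, x i * A i t) u = ∑ i ∈ s, x i * D (A i) u := by
  unfold D
  simp only [Finset.mul_sum, mul_add, mul_sub, Finset.sum_add_distrib, Finset.sum_sub_distrib]
  congr 2
  refine Finset.sum_congr rfl fun i _ => ?_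
  ring

theorem norm_D_le (A : ℝ → ℂ) (C : ℝ) (hA : ∀ u, ‖A u‖ ≤ C) (u : ℝ) : ‖D A u‖ ≤ 5 * C := by
  have hC : 0 ≤ C := (norm_nonneg _).trans (hA 0)
  have h2 : (3 / Real.sqrt 2 : ℝ) ≤ 3 := by
    rw [div_le_iff₀ (by positivity)]
    have : (1 : ℝ) ≤ Real.sqrt 2 := by
      rw [Real.one_le_sqrt]; norm_num
    linarith
  have h0 : (0 : ℝ) ≤ 3 / Real.sqrt 2 := by positivity
  unfold D
  calc ‖A u - (3 / Real.sqrt 2 : ℝ) * A (u + Real.log 2) + A (u + 2 * Real.log 2)‖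
      ≤ ‖A u‖ + ‖((3 / Real.sqrt 2 : ℝ) : ℂ) * A (u + Real.log 2)‖ + ‖A (u + 2 * Real.log 2)‖ :=
        (norm_add_le _ _).trans (add_le_add_left (norm_sub_le _ _) _)
    _ ≤ C + 3 * C + C := by
        gcongr
        · exact hA _
        · rw [norm_mul, Complex.norm_real, Real.norm_of_nonneg h0]
          exact mul_le_mul h2 (hA _) (norm_nonneg _) (by norm_num)
        · exact hA _
    _ = 5 * C := by ring

theorem D_sub (A A' : ℝ → ℂ) (u : ℝ) : D (fun t => A t - A' t) u = D A u - D A' u := by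
  unfold D
  ring

/-- the kernel of `Disc` -/
theorem Disc_sum {ι : Type*} (s : Finset ι) (x : ι → ℂ) (A : ι → ℝ → ℂ)
    (hc : ∀ i ∈ s, Continuous (A i)) (hb : ∀ i ∈ s, ∃ B : ℝ, ∀ u, ‖A i u‖ ≤ B)
    (hd : ∀ i ∈ s, Disc (A i)) : Disc (fun u => ∑ i ∈ s, x i * A i u) := by
  classical
  intro k hk1 hk2 hk3
  have hex : ∀ i, ∃ (Γ : Finset ℝ) (c : ℝ → ℂ), i ∈ s → ∀ u : ℝ,
      ∫ v : ℝ, A i v * ∫ t : ℝ, k t * Complex.exp (Complex.I * t * (u - v)) =
        ∑ γ ∈ Γ, c γ * Complex.exp (Complex.I * γ * u) := by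
    intro i
    by_cases hi : i ∈ s
    · obtain ⟨Γ, c, h⟩ := hd i hi k hk1 hk2 hk3
      exact ⟨Γ, c, fun _ => h⟩
    · exact ⟨∅, 0, fun h => absurd h hi⟩
  choose Γ c h using hex
  refine ⟨s.biUnion Γ, fun γ => ∑ i ∈ s, x i * (if γ ∈ Γ i then c i γ else 0), fun u => ?_⟩
  have hint : ∀ i ∈ s, Integrable
      (fun v : ℝ => x i * (A i v * ∫ t : ℝ, k t * Complex.exp (Complex.I * t * (u - v)))) := by
    intro i hi
    refine Integrable.const_mul ?_ _
    obtain ⟨B, hB⟩ := hb i hi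
    have h1 : Integrable (fun v : ℝ => ∫ t : ℝ, k t * Complex.exp (Complex.I * t * (u - v))) := by
      have := hk3.comp_sub_left u
      simpa using this
    exact h1.bdd_mul (hc i hi).aestronglyMeasurable (Eventually.of_forall hB)
  calc ∫ v : ℝ, (∑ i ∈ s, x i * A i v) * ∫ t : ℝ, k t * Complex.exp (Complex.I * t * (u - v))
      = ∫ v : ℝ, ∑ i ∈ s, x i * (A i v * ∫ t : ℝ, k t * Complex.exp (Complex.I * t * (u - v))) := by
        refine integral_congr_ae (Eventually.of_forall fun v => ?_)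
        simp only [Finset.sum_mul]
        exact Finset.sum_congr rfl fun i _ => by ring
    _ = ∑ i ∈ s, x i * ∫ v : ℝ, A i v * ∫ t : ℝ, k t * Complex.exp (Complex.I * t * (u - v)) := by
        rw [integral_finsetSum s hint]
        exact Finset.sum_congr rfl fun i _ => MeasureTheory.integral_const_mul _ _
    _ = ∑ i ∈ s, x i * ∑ γ ∈ Γ i, c i γ * Complex.exp (Complex.I * γ * u) :=
        Finset.sum_congr rfl fun i hi => by rw [h i hi u]
    _ = ∑ i ∈ s, x i * ∑ γ ∈ s.biUnion Γ, (if γ ∈ Γ i then c i γ else 0) *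
          Complex.exp (Complex.I * γ * u) := by
        refine Finset.sum_congr rfl fun i hi => ?_
        congr 1
        rw [← Finset.sum_subset (Finset.subset_biUnion_of_mem Γ hi)]
        · exact Finset.sum_congr rfl fun γ hγ => by rw [if_pos hγ]
        · intro γ _ hγ
          rw [if_neg hγ, zero_mul]
    _ = _ := by
        simp only [Finset.mul_sum, Finset.sum_mul]
        rw [Finset.sum_comm]
        exact Finset.sum_congr rfl fun γ _ => Finset.sum_congr rfl fun i _ => by ring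

end Pool.Agent.Y821.ME
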