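import Pool.Agent.Y821.ME.FinA

/-!
# Project ME: square root bounds for all twists, from square root bounds at the rational points
-/

set_option autoImplicit false

open Filter Topology MeasureTheory Finset

namespace Pool.Agent.Y821.ME

theorem norm_F_le (R : ℕ) (x : ℝ) : ‖F R x‖ ≤ R := by
  unfold F
  refine (norm_sum_le _ _).trans ?_
  calc ∑ n ∈ Icc 1 R, ‖mu n * Complex.exp (2 * Real.pi * Complex.I * n * x)‖
      ≤ ∑ n ∈ Icc 1 R, (1 : ℝ) := by
        refine Finset.sum_le_sum fun n _ => ?_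
        rw [norm_mul]
        have : ‖Complex.exp (2 * Real.pi * Complex.I * n * x)‖ = 1 := by
          rw [show (2 * Real.pi * Complex.I * n * x : ℂ) = ((2 * Real.pi * n * x : ℝ) : ℂ) * Complex.I by
            push_cast; ring]
          exact Complex.norm_exp_ofReal_mul_I _
        rw [this, mul_one]
        exact norm_mu_le n
    _ = R := by simp

/-- the hypothesis: square root bounds at the rational points -/
def Hyp (C : ℝ) : Prop := ∀ x : ℚ, ∀ᶠ R : ℕ in atTop, ‖F R x‖ ≤ C * Real.sqrt R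

theorem Hyp.all {C : ℝ} (hC : 0 ≤ C) (h : Hyp C) (x : ℚ) : ∃ B : ℝ, 0 ≤ B ∧ ∀ R : ℕ, ‖F R x‖ ≤ B * Real.sqrt R := by
  obtain ⟨N, hN⟩ := eventually_atTop.mp (h x)
  refine ⟨max C (Real.sqrt N), hC.trans (le_max_left _ _), fun R => ?_⟩
  rcases le_or_gt N R with h1 | h1
  · exact (hN R h1).trans (mul_le_mul_of_nonneg_right (le_max_left _ _) (Real.sqrt_nonneg _))
  · calc ‖F R x‖ ≤ R := norm_F_le R x
      _ = Real.sqrt R * Real.sqrt R := (Real.mul_self_sqrt (Nat.cast_nonneg R)).symm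
      _ ≤ Real.sqrt N * Real.sqrt R := by
          gcongr
      _ ≤ _ := mul_le_mul_of_nonneg_right (le_max_right _ _) (Real.sqrt_nonneg _)

section

variable {q : ℕ} [NeZero q]

theorem ee_mul (a : ZMod q) (n : ℕ) :
    ee q (a * n) = Complex.exp (2 * Real.pi * Complex.I * n * ((a.val / q : ℚ) : ℝ)) := by
  unfold ee
  have h1 : a * (n : ZMod q) = (((a.val * n : ℕ) : ℤ) : ZMod q) := by
    push_cast
    rw [ZMod.natCast_val, ZMod.cast_id', id]
  rw [h1, ZMod.stdAddChar_coe]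
  congr 1
  push_cast
  ring

/-- the sum with the additive character, without coprimality -/
theorem Mx_ee (a : ZMod q) (v : ℝ) : Mx (fun n => ee q (a * n)) v = F ⌊v⌋₊ ((a.val / q : ℚ) : ℝ) := by
  unfold Mx F
  refine Finset.sum_congr rfl fun n _ => ?_
  simp only [ee_mul]

theorem floor_bound {C v : ℝ} (hC : 0 ≤ C) (hv : 0 ≤ v) : C * Real.sqrt ⌊v⌋₊ ≤ C * Real.sqrt v :=
  mul_le_mul_of_nonneg_left (Real.sqrt_le_sqrt (Nat.floor_le hv)) hC

theorem Mx_ee_all {C : ℝ} (hC : 0 ≤ C) (h : Hyp C) (a : ZMod q) :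
    ∃ B : ℝ, 0 ≤ B ∧ ∀ v : ℝ, 0 ≤ v → ‖Mx (fun n => ee q (a * n)) v‖ ≤ B * Real.sqrt v := by
  obtain ⟨B, hB0, hB⟩ := h.all hC (a.val / q : ℚ)
  exact ⟨B, hB0, fun v hv => by rw [Mx_ee]; exact (hB _).trans (floor_bound hB0 hv)⟩

theorem gauss_ne_zero {χ : DirichletCharacter ℂ q} (hχ : χ.IsPrimitive) :
    gaussSum χ ZMod.stdAddChar ≠ 0 := by
  intro h0
  have h1 : ZMod.dft (fun j : ZMod q => χ j) = 0 := by
    funext k
    rw [ZMod.dft_apply]
    have h2 := gaussSum_mulShift_of_isPrimitive ZMod.stdAddChar hχ (-k)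
    rw [h0, mul_zero] at h2
    rw [Pi.zero_apply, ← h2]
    unfold gaussSum
    refine Finset.sum_congr rfl fun j _ => ?_
    rw [AddChar.mulShift_apply, smul_eq_mul, mul_comm]
    congr 2
    ring
  have h3 : (fun j : ZMod q => χ j) = 0 := by
    have := congrArg ZMod.dft.symm h1
    rwa [LinearEquiv.symm_apply_apply, map_zero] at this
  have h4 := congrFun h3 1
  simp at h4

/-- square root bounds for the characters -/
theorem Mx_chi {C : ℝ} (hC : 0 ≤ C) (h : Hyp C) {χ : DirichletCharacter ℂ q} (hχ : χ.IsPrimitive) :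
    ∃ B : ℝ, 0 ≤ B ∧ ∀ v : ℝ, 1 ≤ v → ‖Mx (fun n => χ n) v‖ ≤ B * Real.sqrt v := by
  have hinv : (χ⁻¹).IsPrimitive := by
    rw [DirichletCharacter.isPrimitive_def, DirichletCharacter.conductor_inv]
    exact hχ
  choose B hB0 hB using fun a : ZMod q => Mx_ee_all hC h a
  have hg := gauss_ne_zero hinv
  have hg' : 0 < ‖gaussSum χ⁻¹ ZMod.stdAddChar‖ := norm_pos_iff.mpr hg
  refine ⟨(∑ a : ZMod q, B a) / ‖gaussSum χ⁻¹ ZMod.stdAddChar‖,
    div_nonneg (Finset.sum_nonneg fun a _ => hB0 a) hg'.le, fun v hv => ?_⟩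
  have h1 : Mx (fun n => χ n) v * gaussSum χ⁻¹ ZMod.stdAddChar =
      ∑ a : ZMod q, χ⁻¹ a * Mx (fun n => ee q (a * n)) v := by
    unfold Mx
    simp only [Finset.mul_sum, Finset.sum_mul]
    rw [Finset.sum_comm]
    refine Finset.sum_congr rfl fun n _ => ?_
    have h2 := gaussSum_mulShift_of_isPrimitive ZMod.stdAddChar hinv (n : ZMod q)
    rw [inv_inv] at h2
    rw [mul_assoc, ← h2]
    unfold gaussSum
    rw [Finset.mul_sum]
    refine Finset.sum_congr rfl fun a _ => ?_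
    rw [AddChar.mulShift_apply, mul_comm (n : ZMod q) a]
    unfold ee
    ring
  have h3 : ‖Mx (fun n => χ n) v‖ * ‖gaussSum χ⁻¹ ZMod.stdAddChar‖ ≤ (∑ a : ZMod q, B a) * Real.sqrt v := by
    rw [← norm_mul, h1, Finset.sum_mul]
    refine (norm_sum_le _ _).trans (Finset.sum_le_sum fun a _ => ?_)
    rw [norm_mul]
    calc ‖χ⁻¹ a‖ * ‖Mx (fun n => ee q (a * n)) v‖ ≤ 1 * (B a * Real.sqrt v) := by
          gcongr
          · exact DirichletCharacter.norm_le_one _ _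
          · exact hB a v (by linarith)
      _ = _ := one_mul _
  rw [div_mul_eq_mul_div, le_div_iff₀ hg']
  exact h3

end

/-! ### the coprime part modulo a prime power -/

section

variable (p k : ℕ) [NeZero (p ^ k)]

/-- the additive character restricted to the units -/
noncomputable def cop (a : ZMod (p ^ k)) (n : ℕ) : ℂ :=
  if p ∣ n then 0 else ee (p ^ k) (a * n)

variable {p k}

theorem cop_eq (hp : p.Prime) (_hk : 1 ≤ k) (a : ZMod (p ^ k)) (n : ℕ) :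
    cop p k a n = ee (p ^ k) (a * n) - (1 / p : ℂ) * ∑ j ∈ range p,
      Complex.exp (2 * Real.pi * Complex.I * n * (((a.val / (p ^ k : ℕ) + j / p : ℚ) : ℝ) : ℂ)) := by
  have hp0 : (p : ℂ) ≠ 0 := Nat.cast_ne_zero.mpr hp.ne_zero
  have h1 : ∀ j : ℕ, Complex.exp (2 * Real.pi * Complex.I * n * (((a.val / (p ^ k : ℕ) + j / p : ℚ) : ℝ) : ℂ)) =
      ee (p ^ k) (a * n) * (Complex.exp (2 * Real.pi * Complex.I * (n / p))) ^ j := by
    intro j
    rw [ee_mul, ← Complex.exp_nat_mul, ← Complex.exp_add]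
    congr 1
    push_cast
    ring
  simp only [h1, ← Finset.mul_sum]
  unfold cop
  by_cases h : p ∣ n
  · rw [if_pos h]
    obtain ⟨m, rfl⟩ := h
    have h2 : Complex.exp (2 * Real.pi * Complex.I * (((p * m : ℕ) : ℂ) / p)) = 1 := by
      rw [show (2 * Real.pi * Complex.I * (((p * m : ℕ) : ℂ) / p) : ℂ) = m * (2 * Real.pi * Complex.I) by
        push_cast; field_simp]
      exact Complex.exp_nat_mul_two_pi_mul_I m
    rw [h2]
    simp [hp0]
    field_simp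
    ring
  · rw [if_neg h]
    set ζ := Complex.exp (2 * Real.pi * Complex.I * (n / p)) with hζ
    have h3 : ζ ≠ 1 := by
      intro h4
      rw [hζ, Complex.exp_eq_one_iff] at h4
      obtain ⟨m, hm⟩ := h4
      have h5 : (n : ℂ) / p = m := by
        have h6 : (2 * Real.pi * Complex.I : ℂ) ≠ 0 := Complex.two_pi_I_ne_zero
        have h7 : (2 * Real.pi * Complex.I : ℂ) * ((n : ℂ) / p) = (2 * Real.pi * Complex.I) * m := by
          rw [hm]; ring
        exact mul_left_cancel₀ h6 h7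
      rw [div_eq_iff hp0] at h5
      have h8 : (n : ℤ) = m * p := by exact_mod_cast h5
      exact h (by
        have : (p : ℤ) ∣ n := ⟨m, by rw [h8]; ring⟩
        exact_mod_cast this)
    have h9 : ζ ^ p = 1 := by
      rw [hζ, ← Complex.exp_nat_mul, show ((p : ℂ) * (2 * Real.pi * Complex.I * (n / p)) : ℂ) =
        n * (2 * Real.pi * Complex.I) by field_simp]
      exact Complex.exp_nat_mul_two_pi_mul_I n
    rw [geom_sum_eq h3, h9]
    simp

theorem Mx_cop (hp : p.Prime) (hk : 1 ≤ k) (a : ZMod (p ^ k)) (v : ℝ) :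
    Mx (cop p k a) v = F ⌊v⌋₊ ((a.val / (p ^ k : ℕ) : ℚ) : ℝ) - (1 / p : ℂ) * ∑ j ∈ range p,
      F ⌊v⌋₊ ((a.val / (p ^ k : ℕ) + j / p : ℚ) : ℝ) := by
  rw [← Mx_ee]
  unfold Mx F
  rw [Finset.sum_comm, Finset.mul_sum, ← Finset.sum_sub_distrib]
  refine Finset.sum_congr rfl fun n _ => ?_
  rw [cop_eq hp hk, mul_sub, Finset.mul_sum, Finset.mul_sum, Finset.mul_sum]
  congr 1
  refine Finset.sum_congr rfl fun j _ => ?_
  ring

theorem Mx_cop_le (hp : p.Prime) (hk : 1 ≤ k) (a : ZMod (p ^ k)) (v D : ℝ)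
    (h0 : ‖F ⌊v⌋₊ ((a.val / (p ^ k : ℕ) : ℚ) : ℝ)‖ ≤ D)
    (h1 : ∀ j ∈ range p, ‖F ⌊v⌋₊ ((a.val / (p ^ k : ℕ) + j / p : ℚ) : ℝ)‖ ≤ D) :
    ‖Mx (cop p k a) v‖ ≤ 2 * D := by
  have hp0 : (0 : ℝ) < p := Nat.cast_pos.mpr hp.pos
  rw [Mx_cop hp hk]
  refine (norm_sub_le _ _).trans ?_
  rw [norm_mul, norm_div, norm_one, Complex.norm_natCast]
  have h2 : ‖∑ j ∈ range p, F ⌊v⌋₊ ((a.val / (p ^ k : ℕ) + j / p : ℚ) : ℝ)‖ ≤ p * D := by
    refine (norm_sum_le _ _).trans ((Finset.sum_le_sum h1).trans ?_)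
    simp
  have h3 : 1 / (p : ℝ) * ‖∑ j ∈ range p, F ⌊v⌋₊ ((a.val / (p ^ k : ℕ) + j / p : ℚ) : ℝ)‖ ≤ 1 / p * (p * D) := by
    gcongr
  have h4 : 1 / (p : ℝ) * (p * D) = D := by field_simp
  linarith

theorem Mx_cop_all (hp : p.Prime) (hk : 1 ≤ k) {C : ℝ} (hC : 0 ≤ C) (h : Hyp C) (a : ZMod (p ^ k)) :
    ∃ B : ℝ, 0 ≤ B ∧ ∀ v : ℝ, 0 ≤ v → ‖Mx (cop p k a) v‖ ≤ B * Real.sqrt v := by
  obtain ⟨B, hB0, hB⟩ := h.all hC (a.val / (p ^ k : ℕ) : ℚ)
  choose B' hB'0 hB' using fun j : ℕ => h.all hC (a.val / (p ^ k : ℕ) + j / p : ℚ)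
  refine ⟨2 * (B + ∑ j ∈ range p, B' j), by
    have := Finset.sum_nonneg fun j (_ : j ∈ range p) => hB'0 j
    positivity, fun v hv => ?_⟩
  rw [mul_assoc]
  refine Mx_cop_le hp hk a v _ ?_ ?_
  · refine (hB _).trans ((floor_bound hB0 hv).trans ?_)
    gcongr
    have := Finset.sum_nonneg fun j (_ : j ∈ range p) => hB'0 j
    linarith
  · intro j hj
    refine (hB' j _).trans ((floor_bound (hB'0 j) hv).trans ?_)
    gcongr
    have := Finset.single_le_sum (fun j _ => hB'0 j) hj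
    linarith

theorem Mx_cop_ev (hp : p.Prime) (hk : 1 ≤ k) {C : ℝ} (hC : 0 ≤ C) (h : Hyp C) (a : ZMod (p ^ k)) :
    ∃ v₀ : ℝ, 0 ≤ v₀ ∧ ∀ v : ℝ, v₀ ≤ v → ‖Mx (cop p k a) v‖ ≤ 2 * C * Real.sqrt v := by
  have h1 : ∀ᶠ R : ℕ in atTop, ‖F R ((a.val / (p ^ k : ℕ) : ℚ) : ℝ)‖ ≤ C * Real.sqrt R ∧
      ∀ j ∈ range p, ‖F R ((a.val / (p ^ k : ℕ) + j / p : ℚ) : ℝ)‖ ≤ C * Real.sqrt R := by
    refine (h _).and ?_
    rw [eventually_all_finset]
    intro j _
    exact h _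
  obtain ⟨N, hN⟩ := eventually_atTop.mp h1
  refine ⟨N, Nat.cast_nonneg _, fun v hv => ?_⟩
  have hv0 : 0 ≤ v := (Nat.cast_nonneg N).trans hv
  have h2 := hN ⌊v⌋₊ (Nat.le_floor hv)
  rw [mul_assoc]
  exact Mx_cop_le hp hk a v _ (h2.1.trans (floor_bound hC hv0)) fun j hj =>
    (h2.2 j hj).trans (floor_bound hC hv0)

end

end Pool.Agent.Y821.ME
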