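import Pool.Agent.Y821.ME.FinC

/-!
# Project ME: averaging over `b`, and the contradiction
-/

set_option autoImplicit false

open Filter Topology MeasureTheory Finset

namespace Pool.Agent.Y821.ME

/-! ### sums of reciprocal cubes -/

theorem cube_partial (Y : ℕ) (hY : 1 ≤ Y) (k : ℕ) :
    ∑ n ∈ range k, 1 / ((n : ℝ) + Y + 1) ^ 3 ≤ 1 / (Y : ℝ) ^ 2 - 1 / ((Y : ℝ) + k) ^ 2 := by
  have hY' : (1 : ℝ) ≤ Y := by exact_mod_cast hY
  induction k with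
  | zero => simp
  | succ k ih =>
    rw [Finset.sum_range_succ]
    have h1 : 1 / ((k : ℝ) + Y + 1) ^ 3 ≤ 1 / ((Y : ℝ) + k) ^ 2 - 1 / ((Y : ℝ) + (k + 1 : ℕ)) ^ 2 := by
      have hk : (0 : ℝ) ≤ k := Nat.cast_nonneg k
      set m : ℝ := (Y : ℝ) + k with hm
      have hm1 : 1 ≤ m := by rw [hm]; linarith
      have e1 : (k : ℝ) + Y + 1 = m + 1 := by rw [hm]; ring
      have e2 : (Y : ℝ) + (k + 1 : ℕ) = m + 1 := by rw [hm]; push_cast; ring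
      rw [e1, e2, div_sub_div _ _ (by positivity) (by positivity), div_le_div_iff₀ (by positivity) (by positivity)]
      nlinarith [pow_pos (by linarith : (0 : ℝ) < m + 1) 2, pow_pos (by linarith : (0 : ℝ) < m + 1) 3,
        mul_pos (pow_pos (by linarith : (0 : ℝ) < m + 1) 2) (by linarith : (0 : ℝ) < m),
        mul_nonneg (pow_pos (by linarith : (0 : ℝ) < m + 1) 2).le (sq_nonneg m)]
    linarith

theorem cube_summable (Y : ℕ) (hY : 1 ≤ Y) : Summable (fun n : ℕ => 1 / ((n : ℝ) + Y + 1) ^ 3) := by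
  refine summable_of_sum_range_le (c := 1 / (Y : ℝ) ^ 2) (fun n => by positivity) fun k => ?_
  have := cube_partial Y hY k
  have h2 : 0 ≤ 1 / ((Y : ℝ) + k) ^ 2 := by positivity
  linarith

theorem cube_tsum (Y : ℕ) (hY : 1 ≤ Y) : ∑' n : ℕ, 1 / ((n : ℝ) + Y + 1) ^ 3 ≤ 1 / (Y : ℝ) ^ 2 := by
  refine (cube_summable Y hY).tsum_le_of_sum_range_le fun k => ?_
  have := cube_partial Y hY k
  have h2 : 0 ≤ 1 / ((Y : ℝ) + k) ^ 2 := by positivity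
  linarith

theorem cube_summable0 : Summable (fun n : ℕ => 1 / ((n : ℝ) + 1) ^ 3) := by
  rw [← summable_nat_add_iff 1]
  have := cube_summable 1 le_rfl
  refine this.congr fun n => ?_
  push_cast
  ring_nf

theorem cube_tsum0 : ∑' n : ℕ, 1 / ((n : ℝ) + 1) ^ 3 ≤ 2 := by
  rw [cube_summable0.tsum_eq_zero_add]
  have h1 := cube_tsum 1 le_rfl
  have h2 : ∑' n : ℕ, 1 / (((n + 1 : ℕ) : ℝ) + 1) ^ 3 = ∑' n : ℕ, 1 / ((n : ℝ) + (1 : ℕ) + 1) ^ 3 := by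
    refine tsum_congr fun n => ?_
    push_cast
    ring_nf
  rw [h2]
  norm_num at h1 ⊢
  linarith

theorem big_N (K : ℝ) : ∀ᶠ N : ℕ in atTop, K * Real.sqrt (10 * N) + 181 < N / 25 := by
  have h1 : Tendsto (fun N : ℕ => Real.sqrt N) atTop atTop :=
    Real.tendsto_sqrt_atTop.comp tendsto_natCast_atTop_atTop
  filter_upwards [h1.eventually_ge_atTop (25 * (4 * |K| + 8))] with N hN
  set x := Real.sqrt N with hx
  have hx2 : (N : ℝ) = x ^ 2 := (Real.sq_sqrt (Nat.cast_nonneg N)).symm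
  have h2 : Real.sqrt (10 * N) ≤ 4 * x := by
    rw [Real.sqrt_mul (by norm_num)]
    have : Real.sqrt 10 ≤ 4 := by
      rw [Real.sqrt_le_left (by norm_num)]; norm_num
    exact mul_le_mul_of_nonneg_right this (Real.sqrt_nonneg _)
  have hK : 0 ≤ |K| := abs_nonneg K
  have h3 : K * Real.sqrt (10 * N) ≤ |K| * (4 * x) :=
    (mul_le_mul_of_nonneg_right (le_abs_self K) (Real.sqrt_nonneg _)).trans
      (mul_le_mul_of_nonneg_left h2 hK)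
  have h4 : (4 * |K| + 8) * x ≤ x ^ 2 / 25 := by nlinarith
  have h5 : 200 ≤ x := by nlinarith
  have h6 : (N : ℝ) / 25 = x ^ 2 / 25 := by rw [hx2]
  rw [h6]
  have h7 : |K| * (4 * x) + 8 * x ≤ x ^ 2 / 25 := by
    have : (4 * |K| + 8) * x = |K| * (4 * x) + 8 * x := by ring
    linarith
  linarith

section

variable {p l : ℕ} [NeZero (p ^ (2 * l))]

theorem Mx_cR (hch : S_CH) (hp : p.Prime) (hp2 : p ≠ 2) (hl : 1 ≤ l) (a : (ZMod (p ^ (2 * l)))ˣ) (v : ℝ) :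
    Mx (cR (p ^ (2 * l)) a) v = (Mx (cop p (2 * l) a) v + Mx (cop p (2 * l) (-a)) v) / 2 := by
  unfold Mx
  rw [← Finset.sum_add_distrib, Finset.sum_div]
  refine Finset.sum_congr rfl fun n _ => ?_
  rw [cR_eq hch hp hp2 hl]
  ring

theorem cR_bound (hch : S_CH) (hp : p.Prime) (hp2 : p ≠ 2) (hl : 1 ≤ l) {C : ℝ} (hC : 0 ≤ C) (h : Hyp C)
    (a : (ZMod (p ^ (2 * l)))ˣ) : ∃ B : ℝ, ∀ v, 1 ≤ v → ‖Mx (cR (p ^ (2 * l)) a) v‖ ≤ B * Real.sqrt v := by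
  obtain ⟨B1, -, h1⟩ := Mx_cop_all hp (show 1 ≤ 2 * l by omega) hC h (a : ZMod (p ^ (2 * l)))
  obtain ⟨B2, -, h2⟩ := Mx_cop_all hp (show 1 ≤ 2 * l by omega) hC h (-a : ZMod (p ^ (2 * l)))
  refine ⟨(B1 + B2) / 2, fun v hv => ?_⟩
  rw [Mx_cR hch hp hp2 hl, norm_div, Complex.norm_ofNat]
  have := norm_add_le (Mx (cop p (2 * l) (a : ZMod (p ^ (2 * l)))) v) (Mx (cop p (2 * l) (-a)) v)
  have := h1 v (by linarith)
  have := h2 v (by linarith)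
  linarith

theorem cR_ev (hch : S_CH) (hp : p.Prime) (hp2 : p ≠ 2) (hl : 1 ≤ l) {C : ℝ} (hC : 0 ≤ C) (h : Hyp C)
    (a : (ZMod (p ^ (2 * l)))ˣ) :
    ∃ v₀ : ℝ, ∀ v, v₀ ≤ v → ‖Mx (cR (p ^ (2 * l)) a) v‖ ≤ 2 * C * Real.sqrt v := by
  obtain ⟨v1, -, h1⟩ := Mx_cop_ev hp (show 1 ≤ 2 * l by omega) hC h (a : ZMod (p ^ (2 * l)))
  obtain ⟨v2, -, h2⟩ := Mx_cop_ev hp (show 1 ≤ 2 * l by omega) hC h (-a : ZMod (p ^ (2 * l)))
  refine ⟨max v1 v2, fun v hv => ?_⟩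
  rw [Mx_cR hch hp hp2 hl, norm_div, Complex.norm_ofNat]
  have := norm_add_le (Mx (cop p (2 * l) (a : ZMod (p ^ (2 * l)))) v) (Mx (cop p (2 * l) (-a)) v)
  have := h1 v ((le_max_left _ _).trans hv)
  have := h2 v ((le_max_right _ _).trans hv)
  linarith

end

/-- the averaged inequality between the two series -/
theorem series_inequality (htrig : S_TRIG) (hsup : S_SUP) (hlap : S_LAP) (hlim : S_LIM) (hpair : S_PAIR)
    (hch : S_CH) (hkl : S_KL) (hser : S_SER) {C : ℝ} (hC : 0 ≤ C) (h : Hyp C)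
    {p l : ℕ} [NeZero (p ^ (2 * l))] (hp : p.Prime) (hp4 : p % 4 = 3) (hl : 1 ≤ l)
    (w : (ZMod (p ^ (2 * l)))ˣ → ℝ) (hw0 : ∀ b, 0 ≤ w b) (hw1 : ∑ b, w b = 1)
    (TR TL : ℕ → ℂ)
    (hTR : TR = fun n => ∑ b, (w b : ℂ) *
      cR (p ^ (2 * l)) ((b ^ 2 : (ZMod (p ^ (2 * l)))ˣ) : ZMod (p ^ (2 * l))) n)
    (hTL : TL = fun n => ∑ b, (w b : ℂ) *
      cL (p ^ (2 * l)) ((b ^ 2 : (ZMod (p ^ (2 * l)))ˣ) : ZMod (p ^ (2 * l))) n)
    (lam U : ℝ) (hlam : lam = Real.log ((p ^ (2 * l) : ℕ) / Real.pi) / 2) :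
    ‖(Real.exp (U / 2) : ℂ) *
        ∑' n : ℕ, mu (n + 1) * TR (n + 1) * (VR ((n + 1 : ℕ) * Real.exp (lam + U)) : ℝ) -
      (Real.exp (-U / 2) : ℂ) *
        ∑' n : ℕ, mu (n + 1) * TL (n + 1) * (VL ((n + 1 : ℕ) * Real.exp (lam - U)) : ℝ)‖ ≤
      5 * (2 * C * Real.exp (-lam / 2) * Kth) ∧ (∀ n, ‖TR n‖ ≤ 2) ∧ (∀ n, ‖TL n‖ ≤ 2) := by
  have hp2 : p ≠ 2 := by omega
  have hq : 2 ≤ p ^ (2 * l) := by
    calc 2 ≤ p := hp.two_le
      _ = p ^ 1 := (pow_one p).symm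
      _ ≤ p ^ (2 * l) := Nat.pow_le_pow_right hp.pos (by omega)
  choose BR hBR using fun b : (ZMod (p ^ (2 * l)))ˣ => cR_bound (l := l) hch hp hp2 hl hC h (b ^ 2)
  choose BL hBL using fun b : (ZMod (p ^ (2 * l)))ˣ =>
    cL_bound (p ^ (2 * l)) hC h ((b ^ 2 : (ZMod (p ^ (2 * l)))ˣ) : ZMod (p ^ (2 * l)))
  have hR2 : ∀ n, ‖TR n‖ ≤ 2 := by
    intro n
    rw [hTR]
    refine (norm_sum_le _ _).trans ?_
    calc ∑ b, ‖(w b : ℂ) * cR (p ^ (2 * l)) ((b ^ 2 : (ZMod (p ^ (2 * l)))ˣ) : ZMod (p ^ (2 * l))) n‖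
        ≤ ∑ b, w b * 2 := by
          refine Finset.sum_le_sum fun b _ => ?_
          rw [norm_mul, Complex.norm_real, Real.norm_of_nonneg (hw0 b)]
          exact mul_le_mul_of_nonneg_left ((norm_cR_le hch hp hp2 hl (b ^ 2) n).trans (by norm_num)) (hw0 b)
      _ = 2 := by rw [← Finset.sum_mul, hw1, one_mul]
  have hL2 : ∀ n, ‖TL n‖ ≤ 2 := by
    intro n
    rw [hTL]
    refine (norm_sum_le _ _).trans ?_
    calc ∑ b, ‖(w b : ℂ) * cL (p ^ (2 * l)) ((b ^ 2 : (ZMod (p ^ (2 * l)))ˣ) : ZMod (p ^ (2 * l))) n‖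
        ≤ ∑ b, w b * 2 := by
          refine Finset.sum_le_sum fun b _ => ?_
          rw [norm_mul, Complex.norm_real, Real.norm_of_nonneg (hw0 b)]
          exact mul_le_mul_of_nonneg_left (norm_cL_le hch hkl hp hp4 hl (b ^ 2) n) (hw0 b)
      _ = 2 := by rw [← Finset.sum_mul, hw1, one_mul]
  refine ⟨?_, hR2, hL2⟩
  have hMR : ∀ v, 1 ≤ v → ‖Mx TR v‖ ≤ (∑ b, w b * BR b) * Real.sqrt v := by
    intro v hv
    rw [hTR, Mx_sum univ (fun b => (w b : ℂ))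
      (fun b n => cR (p ^ (2 * l)) ((b ^ 2 : (ZMod (p ^ (2 * l)))ˣ) : ZMod (p ^ (2 * l))) n), Finset.sum_mul]
    refine (norm_sum_le _ _).trans (Finset.sum_le_sum fun b _ => ?_)
    rw [norm_mul, Complex.norm_real, Real.norm_of_nonneg (hw0 b), mul_assoc]
    exact mul_le_mul_of_nonneg_left (hBR b v hv) (hw0 b)
  have hML : ∀ v, 1 ≤ v → ‖Mx TL v‖ ≤ (∑ b, w b * BL b) * Real.sqrt v := by
    intro v hv
    rw [hTL, Mx_sum univ (fun b => (w b : ℂ))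
      (fun b n => cL (p ^ (2 * l)) ((b ^ 2 : (ZMod (p ^ (2 * l)))ˣ) : ZMod (p ^ (2 * l))) n), Finset.sum_mul]
    refine (norm_sum_le _ _).trans (Finset.sum_le_sum fun b _ => ?_)
    rw [norm_mul, Complex.norm_real, Real.norm_of_nonneg (hw0 b), mul_assoc]
    exact mul_le_mul_of_nonneg_left (hBL b v hv) (hw0 b)
  have hA : ∀ u, ‖aF lam (Mx TR) u - aF lam (Mx TL) (-u)‖ ≤ 2 * C * Real.exp (-lam / 2) * Kth := by
    intro u
    have h1 := aF_sum hlap univ (fun b => (w b : ℂ))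
      (fun b n => cR (p ^ (2 * l)) ((b ^ 2 : (ZMod (p ^ (2 * l)))ˣ) : ZMod (p ^ (2 * l))) n) lam BR
      (fun b _ v hv => hBR b v hv) u
    have h2 := aF_sum hlap univ (fun b => (w b : ℂ))
      (fun b n => cL (p ^ (2 * l)) ((b ^ 2 : (ZMod (p ^ (2 * l)))ˣ) : ZMod (p ^ (2 * l))) n) lam BL
      (fun b _ v hv => hBL b v hv) (-u)
    rw [hTR, hTL, h1, h2, ← Finset.sum_sub_distrib]
    refine (norm_sum_le _ _).trans ?_
    calc ∑ b, ‖(w b : ℂ) * aF lam (Mx (cR (p ^ (2 * l)) ((b ^ 2 : (ZMod (p ^ (2 * l)))ˣ) : ZMod (p ^ (2 * l))))) u -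
          (w b : ℂ) * aF lam (Mx (cL (p ^ (2 * l)) ((b ^ 2 : (ZMod (p ^ (2 * l)))ˣ) : ZMod (p ^ (2 * l))))) (-u)‖
        ≤ ∑ b, w b * (2 * C * Real.exp (-lam / 2) * Kth) := by
          refine Finset.sum_le_sum fun b _ => ?_
          rw [← mul_sub, norm_mul, Complex.norm_real, Real.norm_of_nonneg (hw0 b)]
          refine mul_le_mul_of_nonneg_left ?_ (hw0 b)
          rw [hlam]
          exact inequality_one (p ^ (2 * l)) htrig hsup hlap hlim hpair hq hC h _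
            ⟨BR b, hBR b⟩ (cR_ev hch hp hp2 hl hC h (b ^ 2)) u
      _ = _ := by rw [← Finset.sum_mul, hw1, one_mul]
  have hD := norm_D_le (fun t => aF lam (Mx TR) t - aF lam (Mx TL) (-t)) _ hA (-U)
  rw [D_sub (aF lam (Mx TR)) (fun t => aF lam (Mx TL) (-t))] at hD
  rw [(hser lam _ TR hR2 hMR (-U)).1, (hser lam _ TL hL2 hML (-U)).2] at hD
  rw [neg_neg, sub_neg_eq_add, ← sub_eq_add_neg] at hD
  exact hD

end Pool.Agent.Y821.ME
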