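import Pool.Agent.Y821.ME.FinD

/-!
# Project ME: the theorem
-/

set_option autoImplicit false

open Filter Topology MeasureTheory Finset

namespace Pool.Agent.Y821.ME

/-- the lower bound for the series on the left -/
theorem left_lower (hvb : S_VB) (N : ℕ) (hN : 1 ≤ N) (S : Finset ℕ)
    (hS : ∀ m ∈ S, 2 * N ≤ m ∧ m ≤ 3 * N) (TL : ℕ → ℂ) (hTL : ∀ n, ‖TL n‖ ≤ 2)
    (hsmall : ∀ m : ℕ, 1 ≤ m → m ≤ 100 * N ^ 2 → mu m * TL m = if m ∈ S then (1 / 2 : ℂ) else 0) :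
    (S.card : ℝ) / 5 - 1 ≤
      ‖∑' n : ℕ, mu (n + 1) * TL (n + 1) * (VL ((n + 1 : ℕ) * (1 / (10 * N : ℝ))) : ℝ)‖ := by
  classical
  have hN' : (1 : ℝ) ≤ N := by exact_mod_cast hN
  set Z : ℝ := 10 * N with hZ
  have hZ0 : 10 ≤ Z := by rw [hZ]; linarith
  set Y : ℕ := 100 * N ^ 2 with hY
  have hYZ : (Y : ℝ) = Z ^ 2 := by rw [hY, hZ]; push_cast; ring
  have hY1 : 1 ≤ Y := by rw [hY]; nlinarith [Nat.one_le_pow 2 N hN]
  set g : ℕ → ℂ := fun n => mu (n + 1) * TL (n + 1) * (VL ((n + 1 : ℕ) * (1 / Z)) : ℝ) with hg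
  have hbound : ∀ n : ℕ, ‖g n‖ ≤ 6 * Z ^ 3 * (1 / ((n : ℝ) + 1) ^ 3) := by
    intro n
    have hn : (0 : ℝ) < (n : ℝ) + 1 := by positivity
    have h1 := (hvb.1 (((n + 1 : ℕ) : ℝ) * (1 / Z)) (by positivity)).2
    rw [hg]
    simp only
    rw [norm_mul, norm_mul, Complex.norm_real, Real.norm_eq_abs]
    calc ‖mu (n + 1)‖ * ‖TL (n + 1)‖ * |VL (((n + 1 : ℕ) : ℝ) * (1 / Z))|
        ≤ 1 * 2 * (3 / (((n + 1 : ℕ) : ℝ) * (1 / Z)) ^ 3) := by
          gcongr
          · exact norm_mu_le _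
          · exact hTL _
      _ = _ := by
          push_cast
          field_simp
          ring
  have hsum : Summable g := Summable.of_norm_bounded (cube_summable0.mul_left _) hbound
  have hsplit := hsum.sum_add_tsum_nat_add Y
  have htail : ‖∑' n : ℕ, g (n + Y)‖ ≤ 1 := by
    have h1 : ∀ n : ℕ, ‖g (n + Y)‖ ≤ 6 * Z ^ 3 * (1 / ((n : ℝ) + Y + 1) ^ 3) := by
      intro n
      have := hbound (n + Y)
      push_cast at this
      exact this
    have h2 : ‖∑' n : ℕ, g (n + Y)‖ ≤ ∑' n : ℕ, 6 * Z ^ 3 * (1 / ((n : ℝ) + Y + 1) ^ 3) :=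
      tsum_of_norm_bounded ((cube_summable Y hY1).mul_left _).hasSum h1
    refine h2.trans ?_
    rw [tsum_mul_left]
    have h3 := cube_tsum Y hY1
    calc 6 * Z ^ 3 * ∑' n : ℕ, 1 / ((n : ℝ) + Y + 1) ^ 3 ≤ 6 * Z ^ 3 * (1 / (Y : ℝ) ^ 2) := by
          gcongr
      _ = 6 / Z := by rw [hYZ]; field_simp
      _ ≤ 1 := by rw [div_le_one (by linarith)]; linarith
  have hhead : ∑ n ∈ range Y, g n = ((∑ m ∈ S, 1 / 2 * VL ((m : ℕ) * (1 / Z)) : ℝ) : ℂ) := by
    have hSY : S ⊆ Icc 1 Y := by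
      intro m hm
      obtain ⟨h1, h2⟩ := hS m hm
      rw [Finset.mem_Icc]
      constructor
      · omega
      · rw [hY]; nlinarith
    have h1 : ∑ n ∈ range Y, g n = ∑ m ∈ Icc 1 Y, mu m * TL m * (VL ((m : ℕ) * (1 / Z)) : ℝ) := by
      rw [← Finset.sum_image (f := fun m : ℕ => mu m * TL m * (VL ((m : ℕ) * (1 / Z)) : ℝ))
        (g := fun n : ℕ => n + 1) (s := range Y)]
      · congr 1
        ext m
        simp only [Finset.mem_image, Finset.mem_range, Finset.mem_Icc]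
        constructor
        · rintro ⟨a, ha, rfl⟩; omega
        · rintro ⟨h2, h3⟩; exact ⟨m - 1, by omega, by omega⟩
      · intro a _ b _ hab
        simpa using hab
    rw [h1, ← Finset.sum_subset hSY]
    · push_cast
      refine Finset.sum_congr rfl fun m hm => ?_
      obtain ⟨h2, h3⟩ := Finset.mem_Icc.mp (hSY hm)
      rw [hsmall m h2 h3, if_pos hm]
    · intro m hm hmS
      obtain ⟨h2, h3⟩ := Finset.mem_Icc.mp hm
      rw [hsmall m h2 h3, if_neg hmS, zero_mul]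
  have hlow : (S.card : ℝ) / 5 ≤ ∑ m ∈ S, 1 / 2 * VL ((m : ℕ) * (1 / Z)) := by
    have h1 : ∑ m ∈ S, (1 / 5 : ℝ) ≤ ∑ m ∈ S, 1 / 2 * VL ((m : ℕ) * (1 / Z)) := by
      refine Finset.sum_le_sum fun m hm => ?_
      obtain ⟨h2, h3⟩ := hS m hm
      have h2' : (2 : ℝ) * N ≤ m := by exact_mod_cast h2
      have h3' : (m : ℝ) ≤ 3 * N := by exact_mod_cast h3
      have h4 := hvb.2 ((m : ℝ) * (1 / Z)) (by
        rw [mul_one_div, le_div_iff₀ (by linarith), hZ]; linarith) (by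
        rw [mul_one_div, div_le_iff₀ (by linarith), hZ]; linarith)
      linarith
    rw [Finset.sum_const, nsmul_eq_mul] at h1
    linarith
  calc (S.card : ℝ) / 5 - 1 ≤ ‖∑ n ∈ range Y, g n‖ - ‖∑' n : ℕ, g (n + Y)‖ := by
        rw [hhead, Complex.norm_real, Real.norm_eq_abs]
        have := le_abs_self (∑ m ∈ S, 1 / 2 * VL ((m : ℕ) * (1 / Z)))
        linarith
    _ ≤ ‖∑ n ∈ range Y, g n + ∑' n : ℕ, g (n + Y)‖ := by
        have := norm_sub_le (∑ n ∈ range Y, g n + ∑' n : ℕ, g (n + Y)) (∑' n : ℕ, g (n + Y))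
        rw [add_sub_cancel_right] at this
        linarith
    _ = ‖∑' n : ℕ, g n‖ := by rw [hsplit]

/-- the upper bound for the series on the right -/
theorem right_upper (hvb : S_VB) (X : ℝ) (hX : 1 ≤ X) (TR : ℕ → ℂ) (hTR : ∀ n, ‖TR n‖ ≤ 2) :
    ‖∑' n : ℕ, mu (n + 1) * TR (n + 1) * (VR ((n + 1 : ℕ) * X) : ℝ)‖ ≤ 360 / X ^ 3 := by
  have hbound : ∀ n : ℕ, ‖mu (n + 1) * TR (n + 1) * ((VR ((n + 1 : ℕ) * X) : ℝ) : ℂ)‖ ≤
      180 / X ^ 3 * (1 / ((n : ℝ) + 1) ^ 3) := by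
    intro n
    have h1 := (hvb.1 (((n + 1 : ℕ) : ℝ) * X) (by positivity)).1
    rw [norm_mul, norm_mul, Complex.norm_real, Real.norm_eq_abs]
    calc ‖mu (n + 1)‖ * ‖TR (n + 1)‖ * |VR (((n + 1 : ℕ) : ℝ) * X)|
        ≤ 1 * 2 * (90 / (((n + 1 : ℕ) : ℝ) * X) ^ 3) := by
          gcongr
          · exact norm_mu_le _
          · exact hTR _
      _ = _ := by
          push_cast
          field_simp
          ring
  refine (tsum_of_norm_bounded (cube_summable0.mul_left (180 / X ^ 3)).hasSum hbound).trans ?_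
  rw [tsum_mul_left]
  calc 180 / X ^ 3 * ∑' n : ℕ, 1 / ((n : ℝ) + 1) ^ 3 ≤ 180 / X ^ 3 * 2 := by
        have := cube_tsum0
        gcongr
    _ = _ := by ring

theorem main (htrig : S_TRIG) (hsup : S_SUP) (hlap : S_LAP) (hlim : S_LIM) (hvb : S_VB) (hser : S_SER)
    (hpair : S_PAIR) (hch : S_CH) (hkl : S_KL) (hpr : S_PR) (hrz : S_RZ) (hsf : S_SF) (C : ℝ) :
    ∃ x : ℚ, ∃ᶠ R : ℕ in atTop, C * Real.sqrt R < ‖F R x‖ := by
  classical
  by_contra hcon
  push Not at hcon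
  have h : Hyp (max C 0) := by
    intro x
    filter_upwards [hcon x] with R hR
    exact hR.trans (mul_le_mul_of_nonneg_right (le_max_left _ _) (Real.sqrt_nonneg _))
  set C' : ℝ := max C 0 with hC'
  have hC : 0 ≤ C' := le_max_right _ _
  obtain ⟨N₀, hN₀⟩ := hsf
  obtain ⟨N, hN1, hN2, hN3⟩ := ((big_N (10 * C' * Kth + 360)).and
    ((eventually_ge_atTop 1).and (eventually_ge_atTop N₀))).exists
  set S : Finset ℕ := (Icc (2 * N) (3 * N)).filter Squarefree with hS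
  have hcard : (N : ℝ) / 5 ≤ S.card := by
    have := hN₀ N hN3
    rw [hS]
    convert this
  have hN' : (1 : ℝ) ≤ N := by exact_mod_cast hN2
  obtain ⟨p, hp, hp4, hpY, hsq⟩ := hpr (100 * N ^ 2)
  have : Fact p.Prime := ⟨hp⟩
  have hp2 : p ≠ 2 := by omega
  have hSsub : S ⊆ (Icc 1 (100 * N ^ 2)).filter Squarefree := by
    intro m hm
    rw [hS, Finset.mem_filter, Finset.mem_Icc] at hm
    rw [Finset.mem_filter, Finset.mem_Icc]
    refine ⟨⟨by omega, ?_⟩, hm.2⟩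
    have : N ≤ N ^ 2 := by nlinarith
    omega
  obtain ⟨l, hl, r, hr, w, hw0, hw1, hw⟩ := hrz (100 * N ^ 2) p hp2 hpY hsq S (by convert hSsub)
  set TR : ℕ → ℂ := fun n => ∑ b, (w b : ℂ) *
      cR (p ^ (2 * l)) ((b ^ 2 : (ZMod (p ^ (2 * l)))ˣ) : ZMod (p ^ (2 * l))) n with hTR
  set TL : ℕ → ℂ := fun n => ∑ b, (w b : ℂ) *
      cL (p ^ (2 * l)) ((b ^ 2 : (ZMod (p ^ (2 * l)))ˣ) : ZMod (p ^ (2 * l))) n with hTL
  set lam : ℝ := Real.log ((p ^ (2 * l) : ℕ) / Real.pi) / 2 with hlam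
  have hlam0 : 0 ≤ lam := by
    rw [hlam]
    refine div_nonneg (Real.log_nonneg ?_) (by norm_num)
    rw [le_div_iff₀ Real.pi_pos, one_mul]
    have h1 : 3 ≤ p := by omega
    have h2 : 3 ^ 2 ≤ p ^ (2 * l) := (Nat.pow_le_pow_left h1 2).trans (Nat.pow_le_pow_right hp.pos (by omega))
    have h3 : ((3 ^ 2 : ℕ) : ℝ) ≤ ((p ^ (2 * l) : ℕ) : ℝ) := by exact_mod_cast h2
    have := Real.pi_lt_four
    norm_num at h3 ⊢
    linarith
  set U : ℝ := Real.log (10 * N) + lam with hU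
  have hZ : (0 : ℝ) < 10 * N := by linarith
  have hlogZ : 0 ≤ Real.log (10 * N) := Real.log_nonneg (by linarith)
  obtain ⟨hmain, hTR2, hTL2⟩ := series_inequality htrig hsup hlap hlim hpair hch hkl hser hC h hp hp4 hl
    w hw0 hw1 TR TL hTR hTL lam U hlam
  have he1 : Real.exp (lam - U) = 1 / (10 * N) := by
    rw [hU, show lam - (Real.log (10 * N) + lam) = -Real.log (10 * N) by ring, Real.exp_neg, Real.exp_log hZ,
      one_div]
  rw [he1] at hmain
  -- small coefficients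
  have hsmall : ∀ m : ℕ, 1 ≤ m → m ≤ 100 * N ^ 2 → mu m * TL m = if m ∈ S then (1 / 2 : ℂ) else 0 := by
    intro m hm1 hm2
    by_cases hsqf : Squarefree m
    · have h1 : TL m = ((∑ b, w b * (ee (p ^ (2 * l)) (2 * (b : ZMod (p ^ (2 * l))) * r m)).re : ℝ) : ℂ) := by
        rw [hTL, Complex.ofReal_sum]
        refine Finset.sum_congr rfl fun b _ => ?_
        rw [Complex.ofReal_mul]
        congr 1
        exact cL_small hch hkl hp hp4 hl b (r m) m (hr m hm1 hm2)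
      have h2 := hw m (Finset.mem_filter.mpr ⟨Finset.mem_Icc.mpr ⟨hm1, hm2⟩, hsqf⟩)
      rw [h1, h2]
      by_cases hmS : m ∈ S
      · rw [if_pos hmS, if_pos hmS]
        unfold mu
        have h3 : (ArithmeticFunction.moebius m : ℤ) ^ 2 = 1 :=
          ArithmeticFunction.moebius_sq_eq_one_of_squarefree hsqf
        have h4 : ((ArithmeticFunction.moebius m : ℤ) : ℂ) * ((ArithmeticFunction.moebius m : ℤ) : ℂ) = 1 := by
          rw [← sq]; exact_mod_cast h3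
        push_cast
        rw [← mul_div_assoc, h4]
      · rw [if_neg hmS, if_neg hmS]
        simp
    · have h1 : mu m = 0 := by
        unfold mu
        rw [ArithmeticFunction.moebius_eq_zero_of_not_squarefree hsqf]
        simp
      have h2 : m ∉ S := fun hm => hsqf (Finset.mem_filter.mp hm).2
      rw [h1, if_neg h2, zero_mul]
  have hlow := left_lower hvb N hN2 S (fun m hm => by
    rw [hS, Finset.mem_filter, Finset.mem_Icc] at hm
    exact hm.1) TL hTL2 hsmall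
  have hXU : 1 ≤ Real.exp (lam + U) := Real.one_le_exp (by rw [hU]; linarith)
  have hright := right_upper hvb (Real.exp (lam + U)) hXU TR hTR2
  set SR := ∑' n : ℕ, mu (n + 1) * TR (n + 1) * ((VR ((n + 1 : ℕ) * Real.exp (lam + U)) : ℝ) : ℂ) with hSR
  set SL := ∑' n : ℕ, mu (n + 1) * TL (n + 1) * ((VL ((n + 1 : ℕ) * (1 / (10 * N : ℝ))) : ℝ) : ℂ) with hSL
  -- multiply by exp (U/2)
  have hexp : (0 : ℝ) < Real.exp (U / 2) := Real.exp_pos _
  have h1 : Real.exp (-U / 2) * ‖SL‖ ≤ 5 * (2 * C' * Real.exp (-lam / 2) * Kth) + Real.exp (U / 2) * ‖SR‖ := by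
    have e1 : ‖(Real.exp (-U / 2) : ℂ) * SL‖ = Real.exp (-U / 2) * ‖SL‖ := by
      rw [norm_mul, Complex.norm_real, Real.norm_of_nonneg (Real.exp_pos _).le]
    have e2 : ‖(Real.exp (U / 2) : ℂ) * SR‖ = Real.exp (U / 2) * ‖SR‖ := by
      rw [norm_mul, Complex.norm_real, Real.norm_of_nonneg (Real.exp_pos _).le]
    have e3 := norm_sub_norm_le ((Real.exp (-U / 2) : ℂ) * SL) ((Real.exp (U / 2) : ℂ) * SR)
    rw [norm_sub_rev] at e3
    rw [e1, e2] at e3
    linarith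
  have h2 : ‖SL‖ ≤ Real.exp (U / 2) * (5 * (2 * C' * Real.exp (-lam / 2) * Kth)) +
      Real.exp U * ‖SR‖ := by
    have e1 : Real.exp (U / 2) * (Real.exp (-U / 2) * ‖SL‖) = ‖SL‖ := by
      rw [← mul_assoc, ← Real.exp_add, show U / 2 + -U / 2 = 0 by ring, Real.exp_zero, one_mul]
    have e2 : Real.exp (U / 2) * (Real.exp (U / 2) * ‖SR‖) = Real.exp U * ‖SR‖ := by
      rw [← mul_assoc, ← Real.exp_add, show U / 2 + U / 2 = U by ring]
    have e3 := mul_le_mul_of_nonneg_left h1 hexp.le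
    rw [e1, mul_add, e2] at e3
    exact e3
  have h3 : Real.exp (U / 2) * (5 * (2 * C' * Real.exp (-lam / 2) * Kth)) =
      10 * C' * Kth * Real.sqrt (10 * N) := by
    have e1 : Real.exp (U / 2) = Real.sqrt (10 * N) * Real.exp (lam / 2) := by
      rw [hU, add_div, Real.exp_add]
      congr 1
      rw [Real.sqrt_eq_rpow, Real.rpow_def_of_pos hZ]
      congr 1
      ring
    have e2 : Real.exp (lam / 2) * Real.exp (-lam / 2) = 1 := by
      rw [← Real.exp_add, show lam / 2 + -lam / 2 = 0 by ring, Real.exp_zero]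
    rw [e1]
    calc Real.sqrt (10 * N) * Real.exp (lam / 2) * (5 * (2 * C' * Real.exp (-lam / 2) * Kth))
        = (Real.exp (lam / 2) * Real.exp (-lam / 2)) * (10 * C' * Kth * Real.sqrt (10 * N)) := by ring
      _ = _ := by rw [e2, one_mul]
  have h4 : Real.exp U * ‖SR‖ ≤ 360 := by
    have e0 : Real.exp U ≤ Real.exp (lam + U) := Real.exp_le_exp.mpr (by linarith)
    have e1 : Real.exp (lam + U) ≤ Real.exp (lam + U) ^ 3 := by
      nlinarith [sq_nonneg (Real.exp (lam + U)), mul_self_nonneg (Real.exp (lam + U) - 1)]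
    have hpos : 0 < Real.exp (lam + U) := Real.exp_pos _
    calc Real.exp U * ‖SR‖ ≤ Real.exp (lam + U) ^ 3 * (360 / Real.exp (lam + U) ^ 3) :=
          mul_le_mul (e0.trans e1) hright (norm_nonneg _) (by positivity)
      _ = 360 := by field_simp
  have hfin : (N : ℝ) / 25 - 1 ≤ 10 * C' * Kth * Real.sqrt (10 * N) + 360 := by
    have : (N : ℝ) / 25 - 1 ≤ (S.card : ℝ) / 5 - 1 := by linarith
    linarith
  have h5 : (1 : ℝ) ≤ Real.sqrt (10 * N) := by
    rw [Real.one_le_sqrt]; linarith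
  have h6 : (10 * C' * Kth + 360) * Real.sqrt (10 * N) + 181 < N / 25 := hN1
  nlinarith

/-- the version with the supremum -/
theorem main_sup (hmain : ∀ C : ℝ, ∃ x : ℚ, ∃ᶠ R : ℕ in atTop, C * Real.sqrt R < ‖F R x‖) (C : ℝ) :
    ∃ᶠ R : ℕ in atTop, C * Real.sqrt R < ⨆ x : ℝ, ‖F R x‖ := by
  obtain ⟨x, hx⟩ := hmain C
  refine hx.mono fun R hR => hR.trans_le ?_
  exact le_ciSup (f := fun x : ℝ => ‖F R x‖) ⟨R, by rintro _ ⟨y, rfl⟩; exact norm_F_le R y⟩ (x : ℝ)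

end Pool.Agent.Y821.ME
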