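import Pool.Agent.Y821.ME.Stm

/-!
# Kloosterman sums modulo `p ^ (2l)` (helper971, for project ME of helper821)
-/

set_option autoImplicit false

namespace Pool.Agent.Y821.ME

open Finset

/-- the unit `1 + P t` modulo `P ^ 2` -/
def uu (P q : ℕ) (hq : ((P : ZMod q)) ^ 2 = 0) (t : ZMod q) : (ZMod q)ˣ where
  val := 1 + P * t
  inv := 1 - P * t
  val_inv := by linear_combination (-(t ^ 2)) * hq
  inv_val := by linear_combination (-(t ^ 2)) * hq

/-- the restricted sum -/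
lemma kl_restrict (P q : ℕ) [NeZero q] (hq : ((P : ZMod q)) ^ 2 = 0) (c : ZMod q) :
    Kl q c = ∑ x ∈ (univ : Finset (ZMod q)ˣ).filter (fun x : (ZMod q)ˣ =>
        (P : ZMod q) * ((x : ZMod q) - c * ((x⁻¹ : (ZMod q)ˣ) : ZMod q)) = 0),
      ee q ((x : ZMod q) + c * ((x⁻¹ : (ZMod q)ˣ) : ZMod q)) := by
  have hstep : ∀ t : ZMod q, Kl q c = ∑ x : (ZMod q)ˣ,
      ee q ((x : ZMod q) + c * ((x⁻¹ : (ZMod q)ˣ) : ZMod q)) *
        ee q (t * ((P : ZMod q) * ((x : ZMod q) - c * ((x⁻¹ : (ZMod q)ˣ) : ZMod q)))) := by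
    intro t
    unfold Kl
    rw [← Equiv.sum_comp (Equiv.mulRight (uu P q hq t))]
    apply Finset.sum_congr rfl
    intro x _
    unfold ee
    rw [← AddChar.map_add_eq_mul]
    congr 1
    rw [Equiv.coe_mulRight, mul_inv, Units.val_mul, Units.val_mul]
    have h1 : ((uu P q hq t : (ZMod q)ˣ) : ZMod q) = 1 + P * t := rfl
    have h2 : (((uu P q hq t)⁻¹ : (ZMod q)ˣ) : ZMod q) = 1 - P * t := rfl
    rw [h1, h2]
    ring
  have hq0 : (q : ℂ) ≠ 0 := Nat.cast_ne_zero.mpr (NeZero.ne q)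
  have hmain : (q : ℂ) * Kl q c = (q : ℂ) * ∑ x ∈ (univ : Finset (ZMod q)ˣ).filter (fun x : (ZMod q)ˣ =>
        (P : ZMod q) * ((x : ZMod q) - c * ((x⁻¹ : (ZMod q)ˣ) : ZMod q)) = 0),
      ee q ((x : ZMod q) + c * ((x⁻¹ : (ZMod q)ˣ) : ZMod q)) := by
    calc (q : ℂ) * Kl q c = ∑ _t : ZMod q, Kl q c := by
          rw [Finset.sum_const, Finset.card_univ, ZMod.card, nsmul_eq_mul]
      _ = ∑ t : ZMod q, ∑ x : (ZMod q)ˣ,
            ee q ((x : ZMod q) + c * ((x⁻¹ : (ZMod q)ˣ) : ZMod q)) *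
            ee q (t * ((P : ZMod q) * ((x : ZMod q) - c * ((x⁻¹ : (ZMod q)ˣ) : ZMod q)))) :=
          Finset.sum_congr rfl fun t _ => hstep t
      _ = ∑ x : (ZMod q)ˣ, ee q ((x : ZMod q) + c * ((x⁻¹ : (ZMod q)ˣ) : ZMod q)) *
            ∑ t : ZMod q,
            ee q (t * ((P : ZMod q) * ((x : ZMod q) - c * ((x⁻¹ : (ZMod q)ˣ) : ZMod q)))) := by
          rw [Finset.sum_comm]
          apply Finset.sum_congr rfl
          intro x _
          rw [Finset.mul_sum]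
      _ = _ := by
          rw [Finset.mul_sum, Finset.sum_filter]
          apply Finset.sum_congr rfl
          intro x _
          have h := AddChar.sum_mulShift
            ((P : ZMod q) * ((x : ZMod q) - c * ((x⁻¹ : (ZMod q)ˣ) : ZMod q)))
            (ZMod.isPrimitive_stdAddChar q)
          unfold ee
          rw [h]
          split_ifs
          · rw [ZMod.card, mul_comm]
          · simp
  exact mul_left_cancel₀ hq0 hmain

section

variable {p l : ℕ} [NeZero (p ^ (2 * l))]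

omit [NeZero (p ^ (2 * l))] in
lemma P_sq : (((p ^ l : ℕ) : ZMod (p ^ (2 * l)))) ^ 2 = 0 := by
  rw [← Nat.cast_pow, ← pow_mul, mul_comm l 2]
  exact ZMod.natCast_self _

lemma P_mul_eq_zero_iff (hp : p.Prime) (y : ZMod (p ^ (2 * l))) :
    ((p ^ l : ℕ) : ZMod (p ^ (2 * l))) * y = 0 ↔ p ^ l ∣ y.val := by
  have hpos : 0 < p ^ l := pow_pos hp.pos l
  have h1 : ((p ^ l : ℕ) : ZMod (p ^ (2 * l))) * y = ((p ^ l * y.val : ℕ) : ZMod (p ^ (2 * l))) := by
    rw [Nat.cast_mul (p ^ l) y.val, ZMod.natCast_zmod_val]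
  rw [h1, ZMod.natCast_eq_zero_iff]
  have h2 : p ^ (2 * l) = p ^ l * p ^ l := by rw [← pow_add]; congr 1; omega
  generalize y.val = v
  rw [h2]
  exact Nat.mul_dvd_mul_iff_left hpos

lemma card_ker (hp : p.Prime) :
    ((univ : Finset (ZMod (p ^ (2 * l)))).filter
      (fun y => ((p ^ l : ℕ) : ZMod (p ^ (2 * l))) * y = 0)).card = p ^ l := by
  have hpos : 0 < p ^ l := pow_pos hp.pos l
  have h2 : p ^ (2 * l) = p ^ l * p ^ l := by rw [← pow_add]; congr 1; omega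
  have himg : (univ : Finset (ZMod (p ^ (2 * l)))).filter
      (fun y => ((p ^ l : ℕ) : ZMod (p ^ (2 * l))) * y = 0)
      = (Finset.range (p ^ l)).image (fun v => ((p ^ l * v : ℕ) : ZMod (p ^ (2 * l)))) := by
    ext y
    rw [Finset.mem_filter, P_mul_eq_zero_iff hp, Finset.mem_image]
    constructor
    · rintro ⟨_, v, hv⟩
      refine ⟨v, ?_, ?_⟩
      · rw [Finset.mem_range]
        have h3 := ZMod.val_lt y
        rw [hv] at h3
        rw [h2] at h3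
        exact Nat.lt_of_mul_lt_mul_left h3
      · rw [← hv, ZMod.natCast_zmod_val]
    · rintro ⟨v, hv, rfl⟩
      refine ⟨Finset.mem_univ _, ?_⟩
      rw [Finset.mem_range] at hv
      rw [ZMod.val_natCast_of_lt]
      · exact Dvd.intro _ rfl
      · rw [h2]
        exact Nat.mul_lt_mul_of_pos_left hv hpos
  rw [himg, Finset.card_image_of_injOn, Finset.card_range]
  intro v hv w hw hvw
  rw [Finset.mem_coe, Finset.mem_range] at hv hw
  have h3 := congrArg ZMod.val hvw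
  simp only at h3
  rw [ZMod.val_natCast_of_lt, ZMod.val_natCast_of_lt] at h3
  · exact Nat.eq_of_mul_eq_mul_left hpos h3
  · rw [h2]
    exact Nat.mul_lt_mul_of_pos_left hw hpos
  · rw [h2]
    exact Nat.mul_lt_mul_of_pos_left hv hpos

/-- `π y = 0` implies `y² = 0` -/
lemma sq_eq_zero_of (hp : p.Prime) (y : ZMod (p ^ (2 * l)))
    (hy : ((p ^ l : ℕ) : ZMod (p ^ (2 * l))) * y = 0) : y ^ 2 = 0 := by
  have h := (P_mul_eq_zero_iff hp y).mp hy
  obtain ⟨v, hv⟩ := h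
  have h1 : y = ((p ^ l : ℕ) : ZMod (p ^ (2 * l))) * (v : ZMod (p ^ (2 * l))) := by
    rw [← Nat.cast_mul, ← hv, ZMod.natCast_zmod_val]
  have h2 : y ^ 2 = (((p ^ l : ℕ) : ZMod (p ^ (2 * l))) * y) * (v : ZMod (p ^ (2 * l))) := by
    linear_combination y * h1
  rw [h2, hy, zero_mul]

/-- reduction modulo `p` -/
noncomputable def redK (p l : ℕ) (hl : 1 ≤ l) : ZMod (p ^ (2 * l)) →+* ZMod p :=
  ZMod.castHom (dvd_pow_self p (by omega : 2 * l ≠ 0)) (ZMod p)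

lemma isUnit_of_red (hp : p.Prime) (hl : 1 ≤ l) (a : ZMod (p ^ (2 * l))) (ha : redK p l hl a ≠ 0) :
    IsUnit a := by
  have h1 : a = ((a.val : ℕ) : ZMod (p ^ (2 * l))) := (ZMod.natCast_zmod_val a).symm
  rw [h1, ZMod.isUnit_iff_coprime]
  apply Nat.Coprime.pow_right
  rw [Nat.coprime_comm, Nat.Prime.coprime_iff_not_dvd hp]
  intro hd
  apply ha
  rw [h1, map_natCast]
  exact (ZMod.natCast_eq_zero_iff _ _).mpr hd

lemma red_P (hl : 1 ≤ l) (y : ZMod (p ^ (2 * l))) (hp : p.Prime)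
    (hy : ((p ^ l : ℕ) : ZMod (p ^ (2 * l))) * y = 0) : redK p l hl y = 0 := by
  have h := (P_mul_eq_zero_iff hp y).mp hy
  have h1 : y = ((y.val : ℕ) : ZMod (p ^ (2 * l))) := (ZMod.natCast_zmod_val y).symm
  rw [h1, map_natCast]
  exact (ZMod.natCast_eq_zero_iff _ _).mpr ((dvd_pow_self p (by omega : l ≠ 0)).trans h)

lemma two_ne (hp : p.Prime) (hp2 : p ≠ 2) : (2 : ZMod p) ≠ 0 := by
  intro h
  have h1 : ((2 : ℕ) : ZMod p) = 0 := by exact_mod_cast h
  rw [ZMod.natCast_eq_zero_iff] at h1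
  exact hp2 ((Nat.prime_dvd_prime_iff_eq hp Nat.prime_two).mp h1)

/-- the solutions of `π (x² - z²) = 0` -/
lemma dich (hp : p.Prime) (hp2 : p ≠ 2) (hl : 1 ≤ l) (x z : (ZMod (p ^ (2 * l)))ˣ)
    (h : ((p ^ l : ℕ) : ZMod (p ^ (2 * l))) * ((x : ZMod (p ^ (2 * l))) ^ 2 - (z : ZMod (p ^ (2 * l))) ^ 2)
      = 0) :
    ((p ^ l : ℕ) : ZMod (p ^ (2 * l))) * ((x : ZMod (p ^ (2 * l))) - z) = 0 ∨
      ((p ^ l : ℕ) : ZMod (p ^ (2 * l))) * ((x : ZMod (p ^ (2 * l))) + z) = 0 := by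
  have : Fact p.Prime := ⟨hp⟩
  by_cases h1 : redK p l hl ((x : ZMod (p ^ (2 * l))) - z) = 0
  · left
    have h2 : redK p l hl ((x : ZMod (p ^ (2 * l))) + z) ≠ 0 := by
      intro h3
      have h4 : (2 : ZMod p) * redK p l hl (z : ZMod (p ^ (2 * l))) = 0 := by
        rw [map_sub] at h1
        rw [map_add] at h3
        linear_combination h3 - h1
      rcases mul_eq_zero.mp h4 with h5 | h5
      · exact two_ne hp hp2 h5
      · exact ((z.isUnit.map (redK p l hl)).ne_zero) h5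
    obtain ⟨u, hu⟩ := isUnit_of_red hp hl _ h2
    have h3 : ((p ^ l : ℕ) : ZMod (p ^ (2 * l))) * ((x : ZMod (p ^ (2 * l))) - z) * u = 0 := by
      rw [hu]
      linear_combination h
    exact (Units.mul_left_eq_zero u).mp h3
  · right
    obtain ⟨u, hu⟩ := isUnit_of_red hp hl _ h1
    have h3 : ((p ^ l : ℕ) : ZMod (p ^ (2 * l))) * ((x : ZMod (p ^ (2 * l))) + z) * u = 0 := by
      rw [hu]
      linear_combination h
    exact (Units.mul_left_eq_zero u).mp h3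

/-- the class of `z` -/
noncomputable def cls (p l : ℕ) [NeZero (p ^ (2 * l))] (z : ZMod (p ^ (2 * l))) :
    Finset (ZMod (p ^ (2 * l)))ˣ :=
  (univ : Finset (ZMod (p ^ (2 * l)))ˣ).filter
    (fun x : (ZMod (p ^ (2 * l)))ˣ =>
      ((p ^ l : ℕ) : ZMod (p ^ (2 * l))) * ((x : ZMod (p ^ (2 * l))) - z) = 0)

lemma card_cls (hp : p.Prime) (hl : 1 ≤ l) (z : (ZMod (p ^ (2 * l)))ˣ) :
    (cls p l (z : ZMod (p ^ (2 * l)))).card = p ^ l := by
  have : Fact p.Prime := ⟨hp⟩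
  rw [← card_ker (l := l) hp]
  apply Finset.card_bij (fun (x : (ZMod (p ^ (2 * l)))ˣ) _ => (x : ZMod (p ^ (2 * l))) - z)
  · intro x hx
    unfold cls at hx
    rw [Finset.mem_filter] at hx ⊢
    exact ⟨Finset.mem_univ _, hx.2⟩
  · intro x _ y _ h
    exact Units.ext (sub_left_injective h)
  · intro y hy
    rw [Finset.mem_filter] at hy
    have hu : IsUnit (y + z) := by
      apply isUnit_of_red hp hl
      rw [map_add, red_P hl y hp hy.2, zero_add]
      exact (z.isUnit.map (redK p l hl)).ne_zero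
    obtain ⟨u, hu⟩ := hu
    refine ⟨u, ?_, ?_⟩
    · unfold cls
      rw [Finset.mem_filter]
      refine ⟨Finset.mem_univ _, ?_⟩
      rw [hu, add_sub_cancel_right]
      exact hy.2
    · rw [hu, add_sub_cancel_right]

/-- the values on the class of `z` -/
lemma val_cls (hp : p.Prime) (z x : (ZMod (p ^ (2 * l)))ˣ)
    (hx : x ∈ cls p l (z : ZMod (p ^ (2 * l)))) :
    (x : ZMod (p ^ (2 * l))) + (z : ZMod (p ^ (2 * l))) ^ 2 *
      ((x⁻¹ : (ZMod (p ^ (2 * l)))ˣ) : ZMod (p ^ (2 * l))) = 2 * z := by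
  unfold cls at hx
  rw [Finset.mem_filter] at hx
  have h := sq_eq_zero_of hp _ hx.2
  apply (Units.mul_left_inj x).mp
  rw [add_mul, mul_assoc, Units.inv_mul]
  linear_combination h

end

/-- multiply the condition by the unit `x` -/
lemma cond_iff {q P : ℕ} (x : (ZMod q)ˣ) (c : ZMod q) :
    (P : ZMod q) * ((x : ZMod q) - c * ((x⁻¹ : (ZMod q)ˣ) : ZMod q)) = 0 ↔
      (P : ZMod q) * ((x : ZMod q) ^ 2 - c) = 0 := by
  rw [← Units.mul_left_eq_zero x]
  have : (P : ZMod q) * ((x : ZMod q) - c * ((x⁻¹ : (ZMod q)ˣ) : ZMod q)) * x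
      = (P : ZMod q) * ((x : ZMod q) ^ 2 - c) := by
    have h := Units.inv_mul x
    linear_combination (-(P : ZMod q) * c) * h
  rw [this]

/-- **Kloosterman sums modulo `p ^ (2l)`.** -/
theorem kl : S_KL := by
  intro p l _ hp hp4 hl
  have : Fact p.Prime := ⟨hp⟩
  have hp2 : p ≠ 2 := by omega
  have hset : ∀ z : (ZMod (p ^ (2 * l)))ˣ, (univ : Finset (ZMod (p ^ (2 * l)))ˣ).filter (fun x : (ZMod (p ^ (2 * l)))ˣ =>
        ((p ^ l : ℕ) : ZMod (p ^ (2 * l))) * ((x : ZMod (p ^ (2 * l))) - (z : ZMod (p ^ (2 * l))) ^ 2 * ((x⁻¹ : (ZMod (p ^ (2 * l)))ˣ) : ZMod (p ^ (2 * l)))) = 0)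
      = cls p l (z : ZMod (p ^ (2 * l))) ∪ cls p l ((-z : (ZMod (p ^ (2 * l)))ˣ) : ZMod (p ^ (2 * l))) := by
    intro z
    ext x
    rw [Finset.mem_filter, cond_iff, Finset.mem_union]
    unfold cls
    rw [Finset.mem_filter, Finset.mem_filter, Units.val_neg, sub_neg_eq_add]
    constructor
    · rintro ⟨_, h⟩
      rcases dich hp hp2 hl x z h with h1 | h1
      · exact Or.inl ⟨Finset.mem_univ _, h1⟩
      · exact Or.inr ⟨Finset.mem_univ _, h1⟩
    · rintro (⟨_, h⟩ | ⟨_, h⟩)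
      · refine ⟨Finset.mem_univ _, ?_⟩
        linear_combination ((x : ZMod (p ^ (2 * l))) + z) * h
      · refine ⟨Finset.mem_univ _, ?_⟩
        linear_combination ((x : ZMod (p ^ (2 * l))) - z) * h
  have hP0 : ((p ^ l : ℕ) : ZMod (p ^ (2 * l))) ≠ 0 := by
    intro h
    rw [ZMod.natCast_eq_zero_iff] at h
    have := Nat.le_of_dvd (pow_pos hp.pos l) h
    have h2 : p ^ l < p ^ (2 * l) := Nat.pow_lt_pow_right hp.one_lt (by omega)
    omega
  have hdisj : ∀ z : (ZMod (p ^ (2 * l)))ˣ, Disjoint (cls p l (z : ZMod (p ^ (2 * l)))) (cls p l ((-z : (ZMod (p ^ (2 * l)))ˣ) : ZMod (p ^ (2 * l)))) := by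
    intro z
    rw [Finset.disjoint_left]
    intro x h1 h2
    unfold cls at h1 h2
    rw [Finset.mem_filter] at h1 h2
    rw [Units.val_neg, sub_neg_eq_add] at h2
    have h3 : ((p ^ l : ℕ) : ZMod (p ^ (2 * l))) * (2 * z) = 0 := by linear_combination h2.2 - h1.2
    have hu : IsUnit (2 * (z : ZMod (p ^ (2 * l)))) := by
      apply isUnit_of_red hp hl
      rw [map_mul]
      apply mul_ne_zero
      · rw [map_ofNat]
        exact two_ne hp hp2
      · exact (z.isUnit.map (redK p l hl)).ne_zero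
    obtain ⟨u, hu⟩ := hu
    rw [← hu] at h3
    exact hP0 ((Units.mul_left_eq_zero u).mp h3)
  refine ⟨fun z => ⟨?_, ?_⟩, ?_⟩
  · rw [kl_restrict (p ^ l) (p ^ (2 * l)) P_sq, hset z, Finset.sum_union (hdisj z)]
    have e1 : ∑ x ∈ cls p l (z : ZMod (p ^ (2 * l))),
        ee (p ^ (2 * l)) ((x : ZMod (p ^ (2 * l))) + (z : ZMod (p ^ (2 * l))) ^ 2 * ((x⁻¹ : (ZMod (p ^ (2 * l)))ˣ) : ZMod (p ^ (2 * l))))
        = (p : ℂ) ^ l * ee (p ^ (2 * l)) (2 * z) := by
      rw [Finset.sum_congr rfl (fun x hx => by rw [val_cls hp z x hx]), Finset.sum_const,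
        card_cls hp hl, nsmul_eq_mul, Nat.cast_pow]
    have e2 : ∑ x ∈ cls p l ((-z : (ZMod (p ^ (2 * l)))ˣ) : ZMod (p ^ (2 * l))),
        ee (p ^ (2 * l)) ((x : ZMod (p ^ (2 * l))) + (z : ZMod (p ^ (2 * l))) ^ 2 * ((x⁻¹ : (ZMod (p ^ (2 * l)))ˣ) : ZMod (p ^ (2 * l))))
        = (p : ℂ) ^ l * ee (p ^ (2 * l)) (-(2 * z)) := by
      have : ∀ x ∈ cls p l ((-z : (ZMod (p ^ (2 * l)))ˣ) : ZMod (p ^ (2 * l))),
          ee (p ^ (2 * l)) ((x : ZMod (p ^ (2 * l))) + (z : ZMod (p ^ (2 * l))) ^ 2 * ((x⁻¹ : (ZMod (p ^ (2 * l)))ˣ) : ZMod (p ^ (2 * l)))) = ee (p ^ (2 * l)) (-(2 * z)) := by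
        intro x hx
        have h := val_cls hp (-z) x hx
        rw [Units.val_neg, neg_sq] at h
        rw [h]
        congr 1
        ring
      rw [Finset.sum_congr rfl this, Finset.sum_const, card_cls hp hl, nsmul_eq_mul, Nat.cast_pow]
    rw [e1, e2]
    ring
  · rw [kl_restrict (p ^ l) (p ^ (2 * l)) P_sq]
    apply Finset.sum_eq_zero
    intro x hx
    exfalso
    rw [Finset.mem_filter, cond_iff] at hx
    have h1 := red_P (p := p) (l := l) hl _ hp hx.2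
    rw [map_sub, map_neg, map_pow, map_pow, sub_neg_eq_add] at h1
    have hz : redK p l hl (z : ZMod (p ^ (2 * l))) ≠ 0 := (z.isUnit.map (redK p l hl)).ne_zero
    have h2 : IsSquare (-1 : ZMod p) := by
      refine ⟨redK p l hl (x : ZMod (p ^ (2 * l))) / redK p l hl (z : ZMod (p ^ (2 * l))), ?_⟩
      field_simp
      linear_combination -h1
    exact (ZMod.exists_sq_eq_neg_one_iff.mp h2) hp4
  · intro c
    rw [kl_restrict (p ^ l) (p ^ (2 * l)) P_sq]
    have hcard : ((univ : Finset (ZMod (p ^ (2 * l)))ˣ).filter (fun x : (ZMod (p ^ (2 * l)))ˣ =>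
        ((p ^ l : ℕ) : ZMod (p ^ (2 * l))) * ((x : ZMod (p ^ (2 * l))) - (c : ZMod (p ^ (2 * l))) * ((x⁻¹ : (ZMod (p ^ (2 * l)))ˣ) : ZMod (p ^ (2 * l)))) = 0)).card
        ≤ 2 * p ^ l := by
      by_cases hne : ((univ : Finset (ZMod (p ^ (2 * l)))ˣ).filter (fun x : (ZMod (p ^ (2 * l)))ˣ =>
        ((p ^ l : ℕ) : ZMod (p ^ (2 * l))) *
          ((x : ZMod (p ^ (2 * l))) - (c : ZMod (p ^ (2 * l))) * ((x⁻¹ : (ZMod (p ^ (2 * l)))ˣ) : ZMod (p ^ (2 * l)))) = 0)).Nonempty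
      swap
      · rw [Finset.not_nonempty_iff_eq_empty] at hne
        rw [hne, Finset.card_empty]
        exact Nat.zero_le _
      obtain ⟨z, hz⟩ := hne
      rw [Finset.mem_filter, cond_iff] at hz
      have hsub : (univ : Finset (ZMod (p ^ (2 * l)))ˣ).filter (fun x : (ZMod (p ^ (2 * l)))ˣ =>
          ((p ^ l : ℕ) : ZMod (p ^ (2 * l))) *
            ((x : ZMod (p ^ (2 * l))) - (c : ZMod (p ^ (2 * l))) * ((x⁻¹ : (ZMod (p ^ (2 * l)))ˣ) : ZMod (p ^ (2 * l)))) = 0)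
          ⊆ cls p l (z : ZMod (p ^ (2 * l))) ∪ cls p l ((-z : (ZMod (p ^ (2 * l)))ˣ) : ZMod (p ^ (2 * l))) := by
        rw [← hset z]
        intro x hx
        rw [Finset.mem_filter, cond_iff] at hx ⊢
        refine ⟨Finset.mem_univ _, ?_⟩
        linear_combination hx.2 - hz.2
      refine (Finset.card_le_card hsub).trans ?_
      rw [Finset.card_union_of_disjoint (hdisj z), card_cls hp hl, card_cls hp hl]
      omega
    calc _ ≤ ∑ x ∈ (univ : Finset (ZMod (p ^ (2 * l)))ˣ).filter (fun x : (ZMod (p ^ (2 * l)))ˣ =>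
          ((p ^ l : ℕ) : ZMod (p ^ (2 * l))) *
            ((x : ZMod (p ^ (2 * l))) - (c : ZMod (p ^ (2 * l))) * ((x⁻¹ : (ZMod (p ^ (2 * l)))ˣ) : ZMod (p ^ (2 * l)))) = 0),
          ‖ee (p ^ (2 * l)) ((x : ZMod (p ^ (2 * l))) + (c : ZMod (p ^ (2 * l))) * ((x⁻¹ : (ZMod (p ^ (2 * l)))ˣ) : ZMod (p ^ (2 * l))))‖ := norm_sum_le _ _
      _ = ∑ _x ∈ (univ : Finset (ZMod (p ^ (2 * l)))ˣ).filter (fun x : (ZMod (p ^ (2 * l)))ˣ =>
          ((p ^ l : ℕ) : ZMod (p ^ (2 * l))) *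
            ((x : ZMod (p ^ (2 * l))) - (c : ZMod (p ^ (2 * l))) * ((x⁻¹ : (ZMod (p ^ (2 * l)))ˣ) : ZMod (p ^ (2 * l)))) = 0), (1 : ℝ) := by
          apply Finset.sum_congr rfl
          intro x _
          unfold ee
          exact AddChar.norm_apply _ _
      _ ≤ 2 * (p : ℝ) ^ l := by
          rw [Finset.sum_const, nsmul_eq_mul, mul_one]
          exact_mod_cast hcard

end Pool.Agent.Y821.ME
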