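import Pool.Agent.Y821.ME.KlM
import Pool.Agent.Y821.ME.Stm2

/-!
# Kloosterman sums modulo `p ^ (2l)` for all odd primes (the proof of helper971, adapted by helper781)
-/

set_option autoImplicit false

namespace Pool.Agent.Y821.ME

open Finset

/-- if `x ^ 2 - c` is killed by `p ^ l` then `c` is a square -/
lemma sq_of_ker {p l : ℕ} [NeZero (p ^ (2 * l))] (hp : p.Prime) (hp2 : p ≠ 2) (hl : 1 ≤ l)
    (x c : (ZMod (p ^ (2 * l)))ˣ)
    (h : ((p ^ l : ℕ) : ZMod (p ^ (2 * l))) * ((x : ZMod (p ^ (2 * l))) ^ 2 - (c : ZMod (p ^ (2 * l)))) = 0) :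
    IsSquare c := by
  have hy2 := sq_eq_zero_of hp _ h
  have h2u : IsUnit (2 : ZMod (p ^ (2 * l))) := by
    apply isUnit_of_red hp hl
    rw [map_ofNat]
    exact two_ne hp hp2
  obtain ⟨u, hu⟩ := h2u
  set y : ZMod (p ^ (2 * l)) := (x : ZMod (p ^ (2 * l))) ^ 2 - (c : ZMod (p ^ (2 * l))) with hy
  have hux : (u : ZMod (p ^ (2 * l))) * ((u⁻¹ : (ZMod (p ^ (2 * l)))ˣ) : ZMod (p ^ (2 * l))) = 1 := Units.mul_inv u
  have hxx : (x : ZMod (p ^ (2 * l))) * ((x⁻¹ : (ZMod (p ^ (2 * l)))ˣ) : ZMod (p ^ (2 * l))) = 1 := Units.mul_inv x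
  set u' : ZMod (p ^ (2 * l)) := ((u⁻¹ : (ZMod (p ^ (2 * l)))ˣ) : ZMod (p ^ (2 * l)))
  set x' : ZMod (p ^ (2 * l)) := ((x⁻¹ : (ZMod (p ^ (2 * l)))ˣ) : ZMod (p ^ (2 * l)))
  rw [hu] at hux
  have hv : ((x : ZMod (p ^ (2 * l))) - y * x' * u') * ((x : ZMod (p ^ (2 * l))) - y * x' * u') =
      (c : ZMod (p ^ (2 * l))) := by
    have e : (x : ZMod (p ^ (2 * l))) * x' * (2 * u') = 1 := by rw [hxx, hux]; ring
    linear_combination (x' * u') ^ 2 * hy2 - y * e - hy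
  have hvu : IsUnit ((x : ZMod (p ^ (2 * l))) - y * x' * u') := by
    apply isUnit_of_mul_isUnit_left (y := (x : ZMod (p ^ (2 * l))) - y * x' * u')
    rw [hv]
    exact c.isUnit
  obtain ⟨v, hv'⟩ := hvu
  refine ⟨v, Units.ext ?_⟩
  rw [Units.val_mul, hv', hv]

/-- **Kloosterman sums modulo `p ^ (2l)`, all odd primes `p`.** -/
theorem kl2 : S_KL2 := by
  intro p l _ hp hp2 hl
  have : Fact p.Prime := ⟨hp⟩
  have hset : ∀ z : (ZMod (p ^ (2 * l)))ˣ, (univ : Finset (ZMod (p ^ (2 * l)))ˣ).filter (fun x : (ZMod (p ^ (2 * l)))ˣ =>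
        ((p ^ l : ℕ) : ZMod (p ^ (2 * l))) * ((x : ZMod (p ^ (2 * l))) - (z : ZMod (p ^ (2 * l))) ^ 2 * ((x⁻¹ : (ZMod (p ^ (2 * l)))ˣ) : ZMod (p ^ (2 * l)))) = 0)
      = cls p l (z : ZMod (p ^ (2 * l))) ∪ cls p l ((-z : (ZMod (p ^ (2 * l)))ˣ) : ZMod (p ^ (2 * l))) := by
    intro z
    ext x
    rw [Finset.mem_filter, cond_iff, Finset.mem_union]
    unfold cls
    rw [Finset.mem_filter, Finset.mem_filter, Units.val_neg, sub_neg_eq_add]
    constructor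
    · rintro ⟨_, h⟩
      rcases dich hp hp2 hl x z h with h1 | h1
      · exact Or.inl ⟨Finset.mem_univ _, h1⟩
      · exact Or.inr ⟨Finset.mem_univ _, h1⟩
    · rintro (⟨_, h⟩ | ⟨_, h⟩)
      · refine ⟨Finset.mem_univ _, ?_⟩
        linear_combination ((x : ZMod (p ^ (2 * l))) + z) * h
      · refine ⟨Finset.mem_univ _, ?_⟩
        linear_combination ((x : ZMod (p ^ (2 * l))) - z) * h
  have hP0 : ((p ^ l : ℕ) : ZMod (p ^ (2 * l))) ≠ 0 := by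
    intro h
    rw [ZMod.natCast_eq_zero_iff] at h
    have := Nat.le_of_dvd (pow_pos hp.pos l) h
    have h2 : p ^ l < p ^ (2 * l) := Nat.pow_lt_pow_right hp.one_lt (by omega)
    omega
  have hdisj : ∀ z : (ZMod (p ^ (2 * l)))ˣ, Disjoint (cls p l (z : ZMod (p ^ (2 * l)))) (cls p l ((-z : (ZMod (p ^ (2 * l)))ˣ) : ZMod (p ^ (2 * l)))) := by
    intro z
    rw [Finset.disjoint_left]
    intro x h1 h2
    unfold cls at h1 h2
    rw [Finset.mem_filter] at h1 h2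
    rw [Units.val_neg, sub_neg_eq_add] at h2
    have h3 : ((p ^ l : ℕ) : ZMod (p ^ (2 * l))) * (2 * z) = 0 := by linear_combination h2.2 - h1.2
    have hu : IsUnit (2 * (z : ZMod (p ^ (2 * l)))) := by
      apply isUnit_of_red hp hl
      rw [map_mul]
      apply mul_ne_zero
      · rw [map_ofNat]
        exact two_ne hp hp2
      · exact (z.isUnit.map (redK p l hl)).ne_zero
    obtain ⟨u, hu⟩ := hu
    rw [← hu] at h3
    exact hP0 ((Units.mul_left_eq_zero u).mp h3)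
  refine ⟨fun z => ?_, fun c hc => ?_, fun c => ?_⟩
  · rw [kl_restrict (p ^ l) (p ^ (2 * l)) P_sq, hset z, Finset.sum_union (hdisj z)]
    have e1 : ∑ x ∈ cls p l (z : ZMod (p ^ (2 * l))),
        ee (p ^ (2 * l)) ((x : ZMod (p ^ (2 * l))) + (z : ZMod (p ^ (2 * l))) ^ 2 * ((x⁻¹ : (ZMod (p ^ (2 * l)))ˣ) : ZMod (p ^ (2 * l))))
        = (p : ℂ) ^ l * ee (p ^ (2 * l)) (2 * z) := by
      rw [Finset.sum_congr rfl (fun x hx => by rw [val_cls hp z x hx]), Finset.sum_const,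
        card_cls hp hl, nsmul_eq_mul, Nat.cast_pow]
    have e2 : ∑ x ∈ cls p l ((-z : (ZMod (p ^ (2 * l)))ˣ) : ZMod (p ^ (2 * l))),
        ee (p ^ (2 * l)) ((x : ZMod (p ^ (2 * l))) + (z : ZMod (p ^ (2 * l))) ^ 2 * ((x⁻¹ : (ZMod (p ^ (2 * l)))ˣ) : ZMod (p ^ (2 * l))))
        = (p : ℂ) ^ l * ee (p ^ (2 * l)) (-(2 * z)) := by
      have : ∀ x ∈ cls p l ((-z : (ZMod (p ^ (2 * l)))ˣ) : ZMod (p ^ (2 * l))),
          ee (p ^ (2 * l)) ((x : ZMod (p ^ (2 * l))) + (z : ZMod (p ^ (2 * l))) ^ 2 * ((x⁻¹ : (ZMod (p ^ (2 * l)))ˣ) : ZMod (p ^ (2 * l)))) = ee (p ^ (2 * l)) (-(2 * z)) := by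
        intro x hx
        have h := val_cls hp (-z) x hx
        rw [Units.val_neg, neg_sq] at h
        rw [h]
        congr 1
        ring
      rw [Finset.sum_congr rfl this, Finset.sum_const, card_cls hp hl, nsmul_eq_mul, Nat.cast_pow]
    rw [e1, e2]
    ring
  · rw [kl_restrict (p ^ l) (p ^ (2 * l)) P_sq]
    apply Finset.sum_eq_zero
    intro x hx
    exfalso
    rw [Finset.mem_filter, cond_iff] at hx
    exact hc (sq_of_ker hp hp2 hl x c hx.2)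
  · rw [kl_restrict (p ^ l) (p ^ (2 * l)) P_sq]
    have hcard : ((univ : Finset (ZMod (p ^ (2 * l)))ˣ).filter (fun x : (ZMod (p ^ (2 * l)))ˣ =>
        ((p ^ l : ℕ) : ZMod (p ^ (2 * l))) * ((x : ZMod (p ^ (2 * l))) - (c : ZMod (p ^ (2 * l))) * ((x⁻¹ : (ZMod (p ^ (2 * l)))ˣ) : ZMod (p ^ (2 * l)))) = 0)).card
        ≤ 2 * p ^ l := by
      by_cases hne : ((univ : Finset (ZMod (p ^ (2 * l)))ˣ).filter (fun x : (ZMod (p ^ (2 * l)))ˣ =>
        ((p ^ l : ℕ) : ZMod (p ^ (2 * l))) *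
          ((x : ZMod (p ^ (2 * l))) - (c : ZMod (p ^ (2 * l))) * ((x⁻¹ : (ZMod (p ^ (2 * l)))ˣ) : ZMod (p ^ (2 * l)))) = 0)).Nonempty
      swap
      · rw [Finset.not_nonempty_iff_eq_empty] at hne
        rw [hne, Finset.card_empty]
        exact Nat.zero_le _
      obtain ⟨z, hz⟩ := hne
      rw [Finset.mem_filter, cond_iff] at hz
      have hsub : (univ : Finset (ZMod (p ^ (2 * l)))ˣ).filter (fun x : (ZMod (p ^ (2 * l)))ˣ =>
          ((p ^ l : ℕ) : ZMod (p ^ (2 * l))) *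
            ((x : ZMod (p ^ (2 * l))) - (c : ZMod (p ^ (2 * l))) * ((x⁻¹ : (ZMod (p ^ (2 * l)))ˣ) : ZMod (p ^ (2 * l)))) = 0)
          ⊆ cls p l (z : ZMod (p ^ (2 * l))) ∪ cls p l ((-z : (ZMod (p ^ (2 * l)))ˣ) : ZMod (p ^ (2 * l))) := by
        rw [← hset z]
        intro x hx
        rw [Finset.mem_filter, cond_iff] at hx ⊢
        refine ⟨Finset.mem_univ _, ?_⟩
        linear_combination hx.2 - hz.2
      refine (Finset.card_le_card hsub).trans ?_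
      rw [Finset.card_union_of_disjoint (hdisj z), card_cls hp hl, card_cls hp hl]
      omega
    calc _ ≤ ∑ x ∈ (univ : Finset (ZMod (p ^ (2 * l)))ˣ).filter (fun x : (ZMod (p ^ (2 * l)))ˣ =>
          ((p ^ l : ℕ) : ZMod (p ^ (2 * l))) *
            ((x : ZMod (p ^ (2 * l))) - (c : ZMod (p ^ (2 * l))) * ((x⁻¹ : (ZMod (p ^ (2 * l)))ˣ) : ZMod (p ^ (2 * l)))) = 0),
          ‖ee (p ^ (2 * l)) ((x : ZMod (p ^ (2 * l))) + (c : ZMod (p ^ (2 * l))) * ((x⁻¹ : (ZMod (p ^ (2 * l)))ˣ) : ZMod (p ^ (2 * l))))‖ := norm_sum_le _ _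
      _ = ∑ _x ∈ (univ : Finset (ZMod (p ^ (2 * l)))ˣ).filter (fun x : (ZMod (p ^ (2 * l)))ˣ =>
          ((p ^ l : ℕ) : ZMod (p ^ (2 * l))) *
            ((x : ZMod (p ^ (2 * l))) - (c : ZMod (p ^ (2 * l))) * ((x⁻¹ : (ZMod (p ^ (2 * l)))ˣ) : ZMod (p ^ (2 * l)))) = 0), (1 : ℝ) := by
          apply Finset.sum_congr rfl
          intro x _
          unfold ee
          exact AddChar.norm_apply _ _
      _ ≤ 2 * (p : ℝ) ^ l := by
          rw [Finset.sum_const, nsmul_eq_mul, mul_one]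
          exact_mod_cast hcard

end Pool.Agent.Y821.ME
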