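import Pool.Agent.Y821.ME.Stm

/-!
# Project ME: the kernel (S_LAP and S_LIM), by helper781
-/

set_option autoImplicit false

open Filter Topology MeasureTheory Set

namespace Pool.Agent.Y821.ME

/-! ### elementary bounds for `th1` -/

lemma th1_eq (w : ℝ) : th1 w = 2 * (w⁻¹ * Real.exp (-(w⁻¹) ^ 2)) -
    4 * (w⁻¹ ^ 3 * Real.exp (-(w⁻¹) ^ 2)) := by
  unfold th1
  have : (1 : ℝ) / w ^ 2 = (w⁻¹) ^ 2 := by rw [one_div, inv_pow]
  rw [this]
  have h3 : (w ^ 3)⁻¹ = w⁻¹ ^ 3 := by rw [inv_pow]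
  rw [div_eq_mul_inv, div_eq_mul_inv, h3]
  ring

lemma th1_bd (w : ℝ) (hw : 0 < w) : |th1 w| ≤ 6 ∧ |th1 w| ≤ 6 / w := by
  rw [th1_eq]
  have hy : 0 < w⁻¹ := inv_pos.mpr hw
  rw [div_eq_mul_inv]
  set y : ℝ := w⁻¹ with hydef
  have hE : 0 < Real.exp (-y ^ 2) := Real.exp_pos _
  have hE1 : Real.exp (-y ^ 2) * Real.exp (y ^ 2) = 1 := by
    rw [← Real.exp_add]; simp
  have hq := Real.quadratic_le_exp_of_nonneg (sq_nonneg y)
  set E := Real.exp (-y ^ 2) with hEdef
  set G := Real.exp (y ^ 2) with hGdef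
  have hEG : E * (1 + y ^ 2 + (y ^ 2) ^ 2 / 2) ≤ 1 :=
    (mul_le_mul_of_nonneg_left hq hE.le).trans_eq hE1
  have h0 : 0 ≤ y * E := by positivity
  have h3 : 0 ≤ y ^ 3 * E := by positivity
  have h1 : E ≤ 1 := by nlinarith [mul_nonneg hE.le (sq_nonneg y), mul_nonneg hE.le (sq_nonneg (y ^ 2))]
  have h2 : y ^ 2 * E ≤ 1 := by nlinarith [mul_nonneg hE.le (sq_nonneg (y ^ 2))]
  have h4 : y * E ≤ 1 := by nlinarith [mul_nonneg hE.le (sq_nonneg (y - 1)), mul_nonneg hE.le (sq_nonneg (y ^ 2)), mul_nonneg hE.le (sq_nonneg y)]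
  have h5 : y ^ 3 * E ≤ 1 := by
    have : y ^ 3 ≤ 1 + y ^ 2 + (y ^ 2) ^ 2 / 2 := by nlinarith [sq_nonneg (y ^ 2 - y), sq_nonneg y, sq_nonneg (y^2)]
    calc y ^ 3 * E ≤ (1 + y ^ 2 + (y ^ 2) ^ 2 / 2) * E := mul_le_mul_of_nonneg_right this hE.le
      _ = E * (1 + y ^ 2 + (y ^ 2) ^ 2 / 2) := by ring
      _ ≤ 1 := hEG
  constructor
  · rw [abs_le]; constructor <;> nlinarith
  · have h6 : y * E ≤ y := by nlinarith
    have h7 : y ^ 3 * E ≤ y := by nlinarith
    rw [abs_le]; constructor <;> nlinarith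

lemma th1_meas : Measurable th1 := by
  unfold th1
  fun_prop

lemma th1_cont (w : ℝ) (hw : 0 < w) : ContinuousAt th1 w := by
  unfold th1
  have h : w ≠ 0 := hw.ne'
  fun_prop (disch := positivity)

/-! ### the Mellin transform of `th1` -/

lemma exp_conv (s : ℂ) (hs : 0 < s.re) :
    MellinConvergent (fun t : ℝ => ((Real.exp (-t) : ℝ) : ℂ)) s := by
  have h := Complex.GammaIntegral_convergent hs
  unfold MellinConvergent
  refine h.congr_fun (fun t ht => ?_) measurableSet_Ioi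
  simp only [smul_eq_mul]
  ring

lemma exp_mellin (s : ℂ) (hs : 0 < s.re) :
    mellin (fun t : ℝ => ((Real.exp (-t) : ℝ) : ℂ)) s = Complex.Gamma s := by
  rw [Complex.Gamma_eq_integral hs, Complex.GammaIntegral_eq_mellin]

lemma gau_conv (s : ℂ) (hs : s.re < 0) :
    MellinConvergent (fun t : ℝ => ((Real.exp (-(t ^ (-2 : ℝ))) : ℝ) : ℂ)) s := by
  have h := (MellinConvergent.comp_rpow (f := fun t : ℝ => ((Real.exp (-t) : ℝ) : ℂ)) (s := s)
    (a := -2) (by norm_num)).2 (exp_conv _ (by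
      have : (s / ((-2 : ℝ) : ℂ)).re = s.re / (-2) := by
        rw [Complex.div_ofReal_re]
      rw [this]; linarith))
  exact h

lemma gau_mellin (s : ℂ) (hs : s.re < 0) :
    mellin (fun t : ℝ => ((Real.exp (-(t ^ (-2 : ℝ))) : ℝ) : ℂ)) s =
      (1 / 2 : ℂ) * Complex.Gamma (-s / 2) := by
  have h := mellin_comp_rpow (fun t : ℝ => ((Real.exp (-t) : ℝ) : ℂ)) s (-2)
  have h2 : s / ((-2 : ℝ) : ℂ) = -s / 2 := by
    push_cast; rw [div_neg, neg_div]
  rw [h2, exp_mellin _ (by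
      have : (-s / 2 : ℂ).re = -s.re / 2 := by
        rw [show (2 : ℂ) = ((2 : ℝ) : ℂ) by norm_num, Complex.div_ofReal_re, Complex.neg_re]
      rw [this]; linarith)] at h
  rw [h]
  rw [abs_of_neg (by norm_num : (-2 : ℝ) < 0), Complex.real_smul]
  push_cast
  norm_num

lemma th1_as (t : ℝ) (ht : 0 < t) : ((th1 t : ℝ) : ℂ) =
    (2 : ℂ) • ((t : ℂ) ^ (-1 : ℂ) • ((Real.exp (-(t ^ (-2 : ℝ))) : ℝ) : ℂ)) -
    (4 : ℂ) • ((t : ℂ) ^ (-3 : ℂ) • ((Real.exp (-(t ^ (-2 : ℝ))) : ℝ) : ℂ)) := by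
  have h1 : (t : ℂ) ^ (-1 : ℂ) = ((t⁻¹ : ℝ) : ℂ) := by
    rw [Complex.cpow_neg_one]; push_cast; rfl
  have h3 : (t : ℂ) ^ (-3 : ℂ) = ((t⁻¹ ^ 3 : ℝ) : ℂ) := by
    rw [Complex.cpow_neg, show (3 : ℂ) = ((3 : ℕ) : ℂ) by norm_num, Complex.cpow_natCast]
    push_cast; rw [inv_pow]
  have h2 : t ^ (-2 : ℝ) = t⁻¹ ^ 2 := by
    rw [Real.rpow_neg ht.le, show (2 : ℝ) = ((2 : ℕ) : ℝ) by norm_num, Real.rpow_natCast, inv_pow]
  rw [h1, h3, h2, th1_eq]
  simp only [smul_eq_mul]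
  push_cast
  ring

lemma th1_hasMellin (s : ℂ) (hs : s.re < 1) :
    MellinConvergent (fun t : ℝ => ((th1 t : ℝ) : ℂ)) s ∧
    mellin (fun t : ℝ => ((th1 t : ℝ) : ℂ)) s = s * Complex.Gamma ((1 - s) / 2) := by
  set e : ℝ → ℂ := fun t : ℝ => ((Real.exp (-(t ^ (-2 : ℝ))) : ℝ) : ℂ) with he
  have c1 : MellinConvergent (fun t : ℝ => (t : ℂ) ^ (-1 : ℂ) • e t) s :=
    MellinConvergent.cpow_smul.2 (gau_conv _ (by simp; linarith))
  have c3 : MellinConvergent (fun t : ℝ => (t : ℂ) ^ (-3 : ℂ) • e t) s :=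
    MellinConvergent.cpow_smul.2 (gau_conv _ (by
      have : (s + (-3 : ℂ)).re = s.re - 3 := by simp; ring
      rw [this]; linarith))
  have m1 : mellin (fun t : ℝ => (t : ℂ) ^ (-1 : ℂ) • e t) s = (1 / 2 : ℂ) * Complex.Gamma ((1 - s) / 2) := by
    rw [mellin_cpow_smul, gau_mellin _ (by simp; linarith)]
    congr 2
    ring
  have m3 : mellin (fun t : ℝ => (t : ℂ) ^ (-3 : ℂ) • e t) s = (1 / 2 : ℂ) * Complex.Gamma ((3 - s) / 2) := by
    rw [mellin_cpow_smul, gau_mellin _ (by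
      have : (s + (-3 : ℂ)).re = s.re - 3 := by simp; ring
      rw [this]; linarith)]
    congr 2
    ring
  have c1' := c1.const_smul (2 : ℂ)
  have c3' := c3.const_smul (4 : ℂ)
  have hm := hasMellin_sub c1' c3'
  have hcongr : ∀ t ∈ Ioi (0 : ℝ), (t : ℂ) ^ (s - 1) • (((2 : ℂ) • ((t : ℂ) ^ (-1 : ℂ) • e t)) -
      (4 : ℂ) • ((t : ℂ) ^ (-3 : ℂ) • e t)) = (t : ℂ) ^ (s - 1) • ((th1 t : ℝ) : ℂ) := by
    intro t ht
    rw [th1_as t ht]
  constructor
  · have h1 := hm.1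
    unfold MellinConvergent at h1 ⊢
    exact h1.congr_fun hcongr measurableSet_Ioi
  · have h2 := hm.2
    have h3 : mellin (fun t : ℝ => ((th1 t : ℝ) : ℂ)) s = mellin (fun t : ℝ => (2 : ℂ) • ((t : ℂ) ^ (-1 : ℂ) • e t) -
      (4 : ℂ) • ((t : ℂ) ^ (-3 : ℂ) • e t)) s := by
      unfold mellin
      exact (setIntegral_congr_fun measurableSet_Ioi hcongr).symm
    rw [h3, h2, mellin_const_smul, mellin_const_smul, m1, m3]
    have hne : (1 - s) / 2 ≠ 0 := by
      intro h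
      have : s = 1 := by linear_combination (-2 : ℂ) * h
      rw [this] at hs
      simp at hs
    have hG := Complex.Gamma_add_one ((1 - s) / 2) hne
    rw [show (3 - s) / 2 = (1 - s) / 2 + 1 by ring, hG]
    simp only [smul_eq_mul]
    ring

lemma Kth_int : IntegrableOn (fun w : ℝ => |th1 w| * w ^ (-(1 / 2 : ℝ))) (Ioi 0) := by
  have h := (th1_hasMellin (1 / 2) (by norm_num)).1
  unfold MellinConvergent at h
  have h2 : IntegrableOn (fun t : ℝ => ‖(t : ℂ) ^ ((1 / 2 : ℂ) - 1) • ((th1 t : ℝ) : ℂ)‖) (Ioi 0) := h.norm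
  refine h2.congr_fun (fun t ht => ?_) measurableSet_Ioi
  have ht' : 0 < t := ht
  simp only
  rw [smul_eq_mul, norm_mul, Complex.norm_cpow_eq_rpow_re_of_pos ht', Complex.norm_real, Real.norm_eq_abs,
    mul_comm]
  norm_num

lemma Kth_nonneg : 0 ≤ Kth := by
  unfold Kth
  refine setIntegral_nonneg measurableSet_Ioi (fun w hw => ?_)
  have : 0 < w := hw
  positivity

/-! ### the transform on the line -/

lemma cpow_exp (t : ℝ) (a : ℂ) : ((Real.exp t : ℝ) : ℂ) ^ a = Complex.exp (a * t) := by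
  rw [Complex.cpow_def_of_ne_zero (by exact_mod_cast (Real.exp_pos t).ne'), ← Complex.ofReal_log (Real.exp_pos t).le,
    Real.log_exp, mul_comm]

lemma line (s : ℂ) (hs : s.re < 1) :
    Integrable (fun t : ℝ => Complex.exp (s * t) * ((th1 (Real.exp t) : ℝ) : ℂ)) ∧
    ∫ t : ℝ, Complex.exp (s * t) * ((th1 (Real.exp t) : ℝ) : ℂ) = s * Complex.Gamma ((1 - s) / 2) := by
  obtain ⟨h1, h2⟩ := th1_hasMellin s hs
  have him : Real.exp '' univ = Ioi 0 := by rw [image_univ, Real.range_exp]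
  have hcg : ∀ t : ℝ, |Real.exp t| • ((((Real.exp t : ℝ) : ℂ)) ^ (s - 1) • ((th1 (Real.exp t) : ℝ) : ℂ)) =
      Complex.exp (s * t) * ((th1 (Real.exp t) : ℝ) : ℂ) := by
    intro t
    rw [abs_of_pos (Real.exp_pos t), cpow_exp, Complex.real_smul, smul_eq_mul, ← mul_assoc]
    congr 1
    rw [Complex.ofReal_exp, ← Complex.exp_add]
    congr 1
    ring
  constructor
  · unfold MellinConvergent at h1
    rw [← him] at h1
    have h3 := (integrableOn_image_iff_integrableOn_abs_deriv_smul MeasurableSet.univ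
      (fun x _ => (Real.hasDerivAt_exp x).hasDerivWithinAt) (Real.exp_injective.injOn)
      (fun t : ℝ => (t : ℂ) ^ (s - 1) • ((th1 t : ℝ) : ℂ))).1 h1
    rw [integrableOn_univ] at h3
    exact h3.congr (ae_of_all _ hcg)
  · unfold mellin at h2
    rw [← him] at h2
    rw [integral_image_eq_integral_abs_deriv_smul MeasurableSet.univ
      (fun x _ => (Real.hasDerivAt_exp x).hasDerivWithinAt) (Real.exp_injective.injOn)
      (fun t : ℝ => (t : ℂ) ^ (s - 1) • ((th1 t : ℝ) : ℂ)), setIntegral_univ] at h2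
    rw [← h2]
    exact integral_congr_ae (ae_of_all _ (fun t => (hcg t).symm))

/-- the inner integral -/
lemma inner (s : ℂ) (hs : s.re < 1) (lam v : ℝ) (hv : 0 < v) :
    Integrable (fun u : ℝ => Complex.exp (-s * u) * ((th1 (v * Real.exp (lam - u)) : ℝ) : ℂ)) ∧
    ∫ u : ℝ, Complex.exp (-s * u) * ((th1 (v * Real.exp (lam - u)) : ℝ) : ℂ) =
      Complex.exp (-lam * s) * (v : ℂ) ^ (-s) * (s * Complex.Gamma ((1 - s) / 2)) := by
  obtain ⟨h1, h2⟩ := line s hs
  set c : ℝ := lam + Real.log v with hc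
  have key : ∀ u : ℝ, Complex.exp (-s * u) * ((th1 (v * Real.exp (lam - u)) : ℝ) : ℂ) =
      Complex.exp (-lam * s) * (v : ℂ) ^ (-s) *
        (Complex.exp (s * ((c - u : ℝ) : ℂ)) * ((th1 (Real.exp (c - u)) : ℝ) : ℂ)) := by
    intro u
    have e1 : Real.exp (c - u) = v * Real.exp (lam - u) := by
      rw [show c - u = Real.log v + (lam - u) by rw [hc]; ring, Real.exp_add, Real.exp_log hv]
    have e2 : (v : ℂ) ^ (-s) = Complex.exp (-s * (Real.log v : ℝ)) := by
      rw [← cpow_exp, Real.exp_log hv]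
    rw [e1, e2, ← mul_assoc, ← Complex.exp_add, ← Complex.exp_add]
    congr 2
    rw [hc]
    push_cast
    ring
  constructor
  · have := (h1.comp_sub_left c).const_mul (Complex.exp (-lam * s) * (v : ℂ) ^ (-s))
    exact this.congr (ae_of_all _ (fun u => (key u).symm))
  · rw [integral_congr_ae (ae_of_all _ key), integral_const_mul]
    congr 1
    rw [← h2]
    exact integral_sub_left_eq_self (fun t : ℝ => Complex.exp (s * t) * ((th1 (Real.exp t) : ℝ) : ℂ)) volume c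

/-! ### the integrand -/

/-- the integrand -/
noncomputable def J (lam : ℝ) (M : ℝ → ℂ) (u v : ℝ) : ℂ := M v * (th1 (v * Real.exp (lam - u)) / v : ℝ)

lemma J_zero (lam : ℝ) (M : ℝ → ℂ) (hM0 : ∀ v < 1, M v = 0) (u v : ℝ) (hv : v < 1) : J lam M u v = 0 := by
  unfold J; rw [hM0 v hv, zero_mul]

lemma J_meas2 (lam : ℝ) (M : ℝ → ℂ) (hM : Measurable M) : Measurable (fun p : ℝ × ℝ => J lam M p.1 p.2) := by
  unfold J
  have h1 : Measurable (fun p : ℝ × ℝ => M p.2) := hM.comp measurable_snd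
  have h2 : Measurable (fun p : ℝ × ℝ => th1 (p.2 * Real.exp (lam - p.1))) :=
    th1_meas.comp (by fun_prop)
  exact h1.mul (Complex.measurable_ofReal.comp (h2.div measurable_snd))

lemma J_meas (lam : ℝ) (M : ℝ → ℂ) (hM : Measurable M) (u : ℝ) : Measurable (J lam M u) :=
  (J_meas2 lam M hM).comp (measurable_const.prodMk measurable_id)

lemma J_bd (lam B : ℝ) (M : ℝ → ℂ) (hB : ∀ v, 1 ≤ v → ‖M v‖ ≤ B * Real.sqrt v) (u v : ℝ) (hv : 1 ≤ v) :
    ‖J lam M u v‖ ≤ 6 * |B| * Real.exp (u - lam) * v ^ (-(3 / 2) : ℝ) := by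
  have hv0 : 0 < v := by linarith
  have hsq : Real.sqrt v = v ^ (1 / 2 : ℝ) := Real.sqrt_eq_rpow v
  have h1 : ‖M v‖ ≤ |B| * v ^ (1 / 2 : ℝ) := by
    rw [← hsq]
    exact (hB v hv).trans (mul_le_mul_of_nonneg_right (le_abs_self B) (Real.sqrt_nonneg v))
  have hw : 0 < v * Real.exp (lam - u) := by positivity
  have h2 := (th1_bd _ hw).2
  have h3 : ‖((th1 (v * Real.exp (lam - u)) / v : ℝ) : ℂ)‖ ≤ 6 / (v * Real.exp (lam - u)) / v := by
    rw [Complex.norm_real, Real.norm_eq_abs, abs_div, abs_of_pos hv0]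
    exact div_le_div_of_nonneg_right h2 hv0.le
  unfold J
  rw [norm_mul]
  refine (mul_le_mul h1 h3 (norm_nonneg _) (by positivity)).trans_eq ?_
  have h4 : v ^ (-(3 / 2) : ℝ) = v ^ (1 / 2 : ℝ) / v ^ 2 := by
    rw [show (-(3 / 2) : ℝ) = 1 / 2 - (2 : ℕ) by norm_num, Real.rpow_sub_natCast hv0.ne']
  have h5 : Real.exp (u - lam) = (Real.exp (lam - u))⁻¹ := by
    rw [← Real.exp_neg]; congr 1; ring
  rw [h4, h5]
  field_simp

lemma rp_int : IntegrableOn (fun v : ℝ => v ^ (-(3 / 2) : ℝ)) (Ici 1) := by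
  rw [integrableOn_Ici_iff_integrableOn_Ioi]
  exact integrableOn_Ioi_rpow_of_lt (by norm_num) one_pos

lemma J_int1 (lam B : ℝ) (M : ℝ → ℂ) (hM : Measurable M) 
    (hB : ∀ v, 1 ≤ v → ‖M v‖ ≤ B * Real.sqrt v) (u : ℝ) : IntegrableOn (J lam M u) (Ici 1) := by
  have h := rp_int.const_mul (6 * |B| * Real.exp (u - lam))
  refine Integrable.mono' h (J_meas lam M hM u).aestronglyMeasurable ?_
  filter_upwards [ae_restrict_mem measurableSet_Ici] with v hv
  exact J_bd lam B M hB u v hv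

lemma J_int (lam B : ℝ) (M : ℝ → ℂ) (hM : Measurable M) (hM0 : ∀ v < 1, M v = 0)
    (hB : ∀ v, 1 ≤ v → ‖M v‖ ≤ B * Real.sqrt v) (u : ℝ) : IntegrableOn (J lam M u) (Ioi 0) := by
  refine (J_int1 lam B M hM hB u).of_forall_sdiff_eq_zero measurableSet_Ioi (fun v hv => ?_)
  exact J_zero lam M hM0 u v (not_le.1 hv.2)

lemma red (f : ℝ → ℂ) (hf : ∀ v < 1, f v = 0) : ∫ v in Ioi (0 : ℝ), f v = ∫ v in Ici (1 : ℝ), f v :=
  setIntegral_eq_of_subset_of_forall_sdiff_eq_zero measurableSet_Ioi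
    (fun v hv => show (0 : ℝ) < v from lt_of_lt_of_le one_pos (show (1 : ℝ) ≤ v from hv))
    (fun v hv => hf v (not_le.1 hv.2))

lemma aF_eq (lam : ℝ) (M : ℝ → ℂ) (hM0 : ∀ v < 1, M v = 0) (u : ℝ) :
    aF lam M u = (Real.exp (-u / 2) : ℂ) * ∫ v in Ici (1 : ℝ), J lam M u v := by
  unfold aF
  rw [← red (J lam M u) (J_zero lam M hM0 u)]
  rfl

lemma aF_cont (lam B : ℝ) (M : ℝ → ℂ) (hM : Measurable M) (hM0 : ∀ v < 1, M v = 0)
    (hB : ∀ v, 1 ≤ v → ‖M v‖ ≤ B * Real.sqrt v) : Continuous (aF lam M) := by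
  have h0 : aF lam M = fun u => (Real.exp (-u / 2) : ℂ) * ∫ v in Ici (1 : ℝ), J lam M u v :=
    funext (aF_eq lam M hM0)
  rw [h0]
  refine Continuous.mul (by fun_prop) ?_
  rw [continuous_iff_continuousAt]
  intro u₀
  refine continuousAt_of_dominated (bound := fun v => 6 * |B| * Real.exp (u₀ + 1 - lam) * v ^ (-(3 / 2) : ℝ))
    (Eventually.of_forall (fun u => (J_meas lam M hM u).aestronglyMeasurable)) ?_ ?_ ?_
  · filter_upwards [Iio_mem_nhds (show u₀ < u₀ + 1 by linarith)] with u hu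
    filter_upwards [ae_restrict_mem measurableSet_Ici] with v hv
    have hv1 : (1 : ℝ) ≤ v := hv
    refine (J_bd lam B M hB u v hv).trans ?_
    have : Real.exp (u - lam) ≤ Real.exp (u₀ + 1 - lam) := Real.exp_le_exp.2 (by
      have : u < u₀ + 1 := hu
      linarith)
    gcongr
  · exact rp_int.const_mul _
  · filter_upwards [ae_restrict_mem measurableSet_Ici] with v hv
    have hv1 : (1 : ℝ) ≤ v := hv
    unfold J
    have h1 : ContinuousAt (fun u : ℝ => th1 (v * Real.exp (lam - u))) u₀ := by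
      have h2 : ContinuousAt (fun u : ℝ => v * Real.exp (lam - u)) u₀ := by fun_prop
      exact ContinuousAt.comp (f := fun u : ℝ => v * Real.exp (lam - u)) (th1_cont _ (by positivity)) h2
    have h3 : ContinuousAt (fun u : ℝ => th1 (v * Real.exp (lam - u)) / v) u₀ := h1.div_const v
    exact continuousAt_const.mul (Complex.continuous_ofReal.continuousAt.comp h3)

/-- the bound with the constant `Kth` -/
lemma bnd (lam C : ℝ) (_hC : 0 ≤ C) (M : ℝ → ℂ) (hM : ∀ v, 0 < v → ‖M v‖ ≤ C * Real.sqrt v) (u : ℝ) :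
    ‖aF lam M u‖ ≤ C * Real.exp (-lam / 2) * Kth := by
  set c : ℝ := Real.exp (lam - u) with hc
  have hc0 : 0 < c := Real.exp_pos _
  set g : ℝ → ℝ := fun w => |th1 w| * w ^ (-(1 / 2 : ℝ)) with hg
  have hgi : IntegrableOn (fun v => C * c ^ (1 / 2 : ℝ) * g (v * c)) (Ioi 0) := by
    have := (integrableOn_Ioi_comp_mul_right_iff g 0 hc0).2 (by rw [zero_mul]; exact Kth_int)
    exact this.const_mul _
  have h1 : ‖∫ v in Ioi (0 : ℝ), M v * (th1 (v * Real.exp (lam - u)) / v : ℝ)‖ ≤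
      ∫ v in Ioi (0 : ℝ), C * c ^ (1 / 2 : ℝ) * g (v * c) := by
    refine norm_integral_le_of_norm_le hgi ?_
    filter_upwards [ae_restrict_mem measurableSet_Ioi] with v hv
    have hv0 : 0 < v := hv
    rw [norm_mul, Complex.norm_real, Real.norm_eq_abs, abs_div, abs_of_pos hv0]
    refine (mul_le_mul_of_nonneg_right (hM v hv0) (by positivity)).trans_eq ?_
    rw [hg]
    simp only
    rw [Real.mul_rpow hv0.le hc0.le, Real.rpow_neg hv0.le, Real.rpow_neg hc0.le, Real.sqrt_eq_rpow, ← hc]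
    have h2 : v = v ^ (1 / 2 : ℝ) * v ^ (1 / 2 : ℝ) := by
      rw [← Real.rpow_add hv0]; norm_num
    have h3 : v ^ (1 / 2 : ℝ) / v = (v ^ (1 / 2 : ℝ))⁻¹ := by
      nth_rw 2 [h2]
      have : v ^ (1 / 2 : ℝ) ≠ 0 := (Real.rpow_pos_of_pos hv0 _).ne'
      field_simp
    have h4 : c ^ (1 / 2 : ℝ) ≠ 0 := (Real.rpow_pos_of_pos hc0 _).ne'
    calc C * v ^ (1 / 2 : ℝ) * (|th1 (v * c)| / v) = C * |th1 (v * c)| * (v ^ (1 / 2 : ℝ) / v) := by ring
      _ = C * |th1 (v * c)| * (v ^ (1 / 2 : ℝ))⁻¹ := by rw [h3]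
      _ = C * c ^ (1 / 2 : ℝ) * (|th1 (v * c)| * ((v ^ (1 / 2 : ℝ))⁻¹ * (c ^ (1 / 2 : ℝ))⁻¹)) := by
        field_simp
  have h2 : ∫ v in Ioi (0 : ℝ), C * c ^ (1 / 2 : ℝ) * g (v * c) = C * c ^ (1 / 2 : ℝ) * (c⁻¹ * Kth) := by
    rw [integral_const_mul, integral_comp_mul_right_Ioi g 0 hc0, zero_mul]
    rfl
  have hE : ‖((Real.exp (-u / 2) : ℝ) : ℂ)‖ = Real.exp (-u / 2) := by
    rw [Complex.norm_real, Real.norm_eq_abs, abs_of_pos (Real.exp_pos _)]
  unfold aF
  rw [norm_mul, hE]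
  refine (mul_le_mul_of_nonneg_left (h1.trans_eq h2) (Real.exp_pos _).le).trans_eq ?_
  have h5 : c ^ (1 / 2 : ℝ) = Real.exp ((lam - u) / 2) := by
    rw [hc, ← Real.exp_mul]; congr 1; ring
  have h6 : c⁻¹ = Real.exp (u - lam) := by
    rw [hc, ← Real.exp_neg]; congr 1; ring
  rw [h5, h6]
  have h7 : Real.exp (-lam / 2) = Real.exp (-u / 2) * Real.exp ((lam - u) / 2) * Real.exp (u - lam) := by
    rw [← Real.exp_add, ← Real.exp_add]; congr 1; ring
  rw [h7]; ring

lemma bnd2 (lam B : ℝ) (M : ℝ → ℂ) (hM0 : ∀ v < 1, M v = 0)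
    (hB : ∀ v, 1 ≤ v → ‖M v‖ ≤ B * Real.sqrt v) (u : ℝ) :
    ‖aF lam M u‖ ≤ (6 * |B| * Real.exp (-lam) * ∫ v in Ici (1 : ℝ), v ^ (-(3 / 2) : ℝ)) * Real.exp (u / 2) := by
  rw [aF_eq lam M hM0]
  have h1 : ‖∫ v in Ici (1 : ℝ), J lam M u v‖ ≤
      ∫ v in Ici (1 : ℝ), 6 * |B| * Real.exp (u - lam) * v ^ (-(3 / 2) : ℝ) := by
    refine norm_integral_le_of_norm_le (rp_int.const_mul _) ?_
    filter_upwards [ae_restrict_mem measurableSet_Ici] with v hv
    exact J_bd lam B M hB u v hv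
  rw [integral_const_mul] at h1
  have hE : ‖((Real.exp (-u / 2) : ℝ) : ℂ)‖ = Real.exp (-u / 2) := by
    rw [Complex.norm_real, Real.norm_eq_abs, abs_of_pos (Real.exp_pos _)]
  rw [norm_mul, hE]
  refine (mul_le_mul_of_nonneg_left h1 (Real.exp_pos _).le).trans_eq ?_
  have h7 : Real.exp (-u / 2) * Real.exp (u - lam) = Real.exp (-lam) * Real.exp (u / 2) := by
    rw [← Real.exp_add, ← Real.exp_add]; congr 1; ring
  calc Real.exp (-u / 2) * (6 * |B| * Real.exp (u - lam) * ∫ v in Ici (1 : ℝ), v ^ (-(3 / 2) : ℝ)) =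
      6 * |B| * (Real.exp (-u / 2) * Real.exp (u - lam)) * ∫ v in Ici (1 : ℝ), v ^ (-(3 / 2) : ℝ) := by ring
    _ = _ := by rw [h7]; ring

lemma sqrt_bd (B : ℝ) (M : ℝ → ℂ) (hM0 : ∀ v < 1, M v = 0)
    (hB : ∀ v, 1 ≤ v → ‖M v‖ ≤ B * Real.sqrt v) (v : ℝ) : ‖M v‖ ≤ |B| * Real.sqrt v := by
  rcases lt_or_ge v 1 with h | h
  · rw [hM0 v h, norm_zero]; positivity
  · exact (hB v h).trans (mul_le_mul_of_nonneg_right (le_abs_self B) (Real.sqrt_nonneg v))

/-! ### Fubini -/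

lemma fub (lam B : ℝ) (M : ℝ → ℂ) (hM : Measurable M)
    (hB : ∀ v, 1 ≤ v → ‖M v‖ ≤ B * Real.sqrt v) (s : ℂ) (hs : s.re < 1) (hs2 : 1 / 2 < s.re) :
    Integrable (Function.uncurry (fun u v : ℝ => Complex.exp (-s * u) * J lam M u v))
      (volume.prod (volume.restrict (Ici (1 : ℝ)))) := by
  have hmeas : Measurable (Function.uncurry (fun u v : ℝ => Complex.exp (-s * u) * J lam M u v)) := by
    have h1 : Measurable (fun p : ℝ × ℝ => Complex.exp (-s * p.1)) := by fun_prop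
    exact h1.mul (J_meas2 lam M hM)
  rw [integrable_prod_iff' hmeas.aestronglyMeasurable]
  have hform : ∀ v u : ℝ, Complex.exp (-s * u) * J lam M u v =
      (M v / (v : ℂ)) * (Complex.exp (-s * u) * ((th1 (v * Real.exp (lam - u)) : ℝ) : ℂ)) := by
    intro v u
    unfold J
    push_cast
    ring
  obtain ⟨hl1, -⟩ := line s hs
  set K : ℝ := ∫ t : ℝ, ‖Complex.exp (s * t) * ((th1 (Real.exp t) : ℝ) : ℂ)‖ with hK
  constructor
  · filter_upwards [ae_restrict_mem measurableSet_Ici] with v hv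
    have hv1 : (1 : ℝ) ≤ v := hv
    have h := ((inner s hs lam v (by linarith)).1).const_mul (M v / (v : ℂ))
    exact h.congr (ae_of_all _ (fun u => (hform v u).symm))
  · -- the norm integral
    have hnorm : ∀ v : ℝ, 1 ≤ v → ∫ u : ℝ, ‖Function.uncurry (fun u v : ℝ => Complex.exp (-s * u) * J lam M u v) (u, v)‖ =
        ‖M v / (v : ℂ)‖ * (Real.exp (-(lam + Real.log v) * s.re) * K) := by
      intro v hv1
      have hv0 : 0 < v := by linarith
      set c : ℝ := lam + Real.log v with hc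
      have e : ∀ u : ℝ, ‖Function.uncurry (fun u v : ℝ => Complex.exp (-s * u) * J lam M u v) (u, v)‖ =
          ‖M v / (v : ℂ)‖ * (Real.exp (-c * s.re) *
            ‖Complex.exp (s * ((c - u : ℝ) : ℂ)) * ((th1 (Real.exp (c - u)) : ℝ) : ℂ)‖) := by
        intro u
        have e1 : Real.exp (c - u) = v * Real.exp (lam - u) := by
          rw [show c - u = Real.log v + (lam - u) by rw [hc]; ring, Real.exp_add, Real.exp_log hv0]
        simp only [Function.uncurry_apply_pair]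
        rw [hform v u, norm_mul, norm_mul, norm_mul, e1, ← mul_assoc (Real.exp (-c * s.re))]
        congr 2
        rw [Complex.norm_exp, Complex.norm_exp, ← Real.exp_add]
        congr 1
        have r1 : (-s * (u : ℂ)).re = -s.re * u := by
          rw [Complex.re_mul_ofReal, Complex.neg_re]
        have r2 : (s * ((c - u : ℝ) : ℂ)).re = s.re * (c - u) := by
          rw [Complex.re_mul_ofReal]
        rw [r1, r2]; ring
      rw [integral_congr_ae (ae_of_all _ e), integral_const_mul, integral_const_mul]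
      congr 2
      rw [hK]
      exact integral_sub_left_eq_self (fun t : ℝ => ‖Complex.exp (s * t) * ((th1 (Real.exp t) : ℝ) : ℂ)‖) volume c
    have hKn : 0 ≤ K := by rw [hK]; exact integral_nonneg (fun t => norm_nonneg _)
    have hdom : IntegrableOn (fun v : ℝ => |B| * Real.exp (-lam * s.re) * K * v ^ (-(1 / 2) - s.re : ℝ)) (Ici 1) := by
      have : IntegrableOn (fun v : ℝ => v ^ (-(1 / 2) - s.re : ℝ)) (Ici 1) := by
        rw [integrableOn_Ici_iff_integrableOn_Ioi]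
        exact integrableOn_Ioi_rpow_of_lt (by linarith) one_pos
      exact this.const_mul _
    refine Integrable.mono' hdom ?_ ?_
    · exact (hmeas.norm.aestronglyMeasurable (μ := volume.prod (volume.restrict (Ici (1 : ℝ))))).prod_swap.integral_prod_right'
    · filter_upwards [ae_restrict_mem measurableSet_Ici] with v hv
      have hv1 : (1 : ℝ) ≤ v := hv
      have hv0 : 0 < v := by linarith
      rw [hnorm v hv1, Real.norm_eq_abs, abs_of_nonneg (by positivity), norm_div, Complex.norm_real, Real.norm_eq_abs,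
        abs_of_pos hv0]
      have h1 : ‖M v‖ ≤ |B| * v ^ (1 / 2 : ℝ) := by
        rw [← Real.sqrt_eq_rpow]
        exact (hB v hv1).trans (mul_le_mul_of_nonneg_right (le_abs_self B) (Real.sqrt_nonneg v))
      have h2 : Real.exp (-(lam + Real.log v) * s.re) = Real.exp (-lam * s.re) * v ^ (-s.re) := by
        rw [Real.rpow_def_of_pos hv0, ← Real.exp_add]; congr 1; ring
      have h3 : v ^ (-(1 / 2) - s.re : ℝ) = v ^ (1 / 2 : ℝ) / v * v ^ (-s.re) := by
        rw [show (-(1 / 2) - s.re : ℝ) = (1 / 2 - 1) + (-s.re) by ring, Real.rpow_add hv0, Real.rpow_sub_one hv0.ne']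
      rw [h2, h3]
      calc ‖M v‖ / v * (Real.exp (-lam * s.re) * v ^ (-s.re) * K) ≤
          (|B| * v ^ (1 / 2 : ℝ)) / v * (Real.exp (-lam * s.re) * v ^ (-s.re) * K) := by
            gcongr
        _ = _ := by ring

theorem lap_int (lam B : ℝ) (M : ℝ → ℂ) (hM : Measurable M) (hM0 : ∀ v < 1, M v = 0)
    (hB : ∀ v, 1 ≤ v → ‖M v‖ ≤ B * Real.sqrt v) (z : ℂ) (hz : 0 < z.re) (hz2 : z.re < 1 / 2) :
    ∫ u : ℝ, aF lam M u * Complex.exp (-z * u) =
      Complex.exp (-lam * (1 / 2 + z)) * ((1 / 2 + z) * Complex.Gamma ((1 / 2 - z) / 2)) *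
        ∫ v in Ioi (1 : ℝ), M v * (v : ℂ) ^ (-(3 / 2 + z)) := by
  set s : ℂ := 1 / 2 + z with hs
  have hsre : s.re = 1 / 2 + z.re := by rw [hs, Complex.add_re]; norm_num
  have h1 : ∀ u : ℝ, aF lam M u * Complex.exp (-z * u) = ∫ v in Ici (1 : ℝ), Complex.exp (-s * u) * J lam M u v := by
    intro u
    rw [aF_eq lam M hM0, integral_const_mul, mul_right_comm]
    congr 1
    rw [Complex.ofReal_exp, ← Complex.exp_add]
    congr 1
    rw [hs]; push_cast; ring
  rw [integral_congr_ae (ae_of_all _ h1), integral_integral_swap (fub lam B M hM hB s (by linarith) (by linarith))]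
  rw [← integral_Ici_eq_integral_Ioi, ← integral_const_mul]
  refine setIntegral_congr_fun measurableSet_Ici (fun v hv => ?_)
  have hv1 : (1 : ℝ) ≤ v := hv
  have hv0 : 0 < v := by linarith
  have hform : ∀ u : ℝ, Complex.exp (-s * u) * J lam M u v =
      (M v / (v : ℂ)) * (Complex.exp (-s * u) * ((th1 (v * Real.exp (lam - u)) : ℝ) : ℂ)) := by
    intro u
    unfold J
    push_cast
    ring
  rw [integral_congr_ae (ae_of_all _ hform), integral_const_mul, (inner s (by linarith) lam v hv0).2]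
  have h3 : (v : ℂ) ^ (-(3 / 2 + z)) = (v : ℂ) ^ (-s) / v := by
    have hvc : (v : ℂ) ≠ 0 := by exact_mod_cast hv0.ne'
    rw [show (-(3 / 2 + z) : ℂ) = -s - 1 by rw [hs]; ring, Complex.cpow_sub _ _ hvc, Complex.cpow_one]
  have h4 : (1 - s) / 2 = (1 / 2 - z) / 2 := by rw [hs]; ring
  rw [h3, h4]
  ring

theorem lap : S_LAP := by
  intro lam B M hM hM0 hB
  refine ⟨aF_cont lam B M hM hM0 hB, fun u => J_int lam B M hM hM0 hB u, ?_, ?_⟩
  · set B1 : ℝ := |B| * Real.exp (-lam / 2) * Kth with hB1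
    set B2 : ℝ := 6 * |B| * Real.exp (-lam) * ∫ v in Ici (1 : ℝ), v ^ (-(3 / 2) : ℝ) with hB2
    have hB1n : 0 ≤ B1 := by have := Kth_nonneg; positivity
    have hB2n : 0 ≤ B2 := by
      have : 0 ≤ ∫ v in Ici (1 : ℝ), v ^ (-(3 / 2) : ℝ) := setIntegral_nonneg measurableSet_Ici (fun v hv => by
        have : (1 : ℝ) ≤ v := hv
        positivity)
      positivity
    refine ⟨B1 + B2, fun u => ⟨?_, ?_⟩⟩
    · have := bnd lam |B| (abs_nonneg B) M (fun v _ => sqrt_bd B M hM0 hB v) u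
      linarith
    · refine (bnd2 lam B M hM0 hB u).trans ?_
      rw [← hB2]
      exact mul_le_mul_of_nonneg_right (by linarith) (Real.exp_pos _).le
  · intro z hz hz2
    exact lap_int lam B M hM hM0 hB z hz hz2

theorem lim : S_LIM := by
  intro lam B C v₀ M hM hM0 hB hC ε hε
  set v₁ : ℝ := max v₀ 1 with hv₁
  have hv1 : 1 ≤ v₁ := le_max_right _ _
  have hv0 : v₀ ≤ v₁ := le_max_left _ _
  have hC0 : 0 ≤ C := by
    have h := (norm_nonneg _).trans (hC v₁ hv0)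
    have hs : 0 < Real.sqrt v₁ := Real.sqrt_pos.2 (by linarith)
    exact nonneg_of_mul_nonneg_left h hs
  set M1 : ℝ → ℂ := (Iio v₁).indicator M with hM1
  set M2 : ℝ → ℂ := (Ici v₁).indicator M with hM2
  have hsum : ∀ v, M v = M1 v + M2 v := by
    intro v
    rcases lt_or_ge v v₁ with h | h
    · rw [hM1, hM2, indicator_of_mem (show v ∈ Iio v₁ from h), indicator_of_notMem (show v ∉ Ici v₁ from fun h' => absurd h (not_lt.2 h')), add_zero]
    · rw [hM1, hM2, indicator_of_notMem (show v ∉ Iio v₁ from fun h' => absurd h' (not_lt.2 h)), indicator_of_mem (show v ∈ Ici v₁ from h), zero_add]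
  have hn1 : ∀ v, ‖M1 v‖ ≤ ‖M v‖ := fun v => norm_indicator_le_norm_self M v
  have hn2 : ∀ v, ‖M2 v‖ ≤ ‖M v‖ := fun v => norm_indicator_le_norm_self M v
  have hm1 : Measurable M1 := hM.indicator measurableSet_Iio
  have hm2 : Measurable M2 := hM.indicator measurableSet_Ici
  have hz1 : ∀ v < 1, M1 v = 0 := fun v hv => by
    have := hn1 v; rw [hM0 v hv, norm_zero] at this; exact norm_le_zero_iff.1 this
  have hz2 : ∀ v < 1, M2 v = 0 := fun v hv => by
    have := hn2 v; rw [hM0 v hv, norm_zero] at this; exact norm_le_zero_iff.1 this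
  have hb1 : ∀ v, 1 ≤ v → ‖M1 v‖ ≤ B * Real.sqrt v := fun v hv => (hn1 v).trans (hB v hv)
  have hb2 : ∀ v, 1 ≤ v → ‖M2 v‖ ≤ B * Real.sqrt v := fun v hv => (hn2 v).trans (hB v hv)
  have hc2 : ∀ v, 0 < v → ‖M2 v‖ ≤ C * Real.sqrt v := by
    intro v hv
    rcases lt_or_ge v v₁ with h | h
    · rw [hM2, indicator_of_notMem (show v ∉ Ici v₁ from fun h' => absurd h (not_lt.2 h')), norm_zero]; positivity
    · exact (hn2 v).trans (hC v (hv0.trans h))
  have hadd : ∀ u, aF lam M u = aF lam M1 u + aF lam M2 u := by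
    intro u
    have e : ∫ v in Ioi (0 : ℝ), J lam M u v = (∫ v in Ioi (0 : ℝ), J lam M1 u v) + ∫ v in Ioi (0 : ℝ), J lam M2 u v := by
      rw [← integral_add (J_int lam B M1 hm1 hz1 hb1 u) (J_int lam B M2 hm2 hz2 hb2 u)]
      refine integral_congr_ae (ae_of_all _ (fun v => ?_))
      simp only [J]
      rw [hsum v]; ring
    unfold aF
    rw [← mul_add]
    congr 1
  have hsm : ∀ u, ‖aF lam M1 u‖ ≤ Real.exp (-u / 2) * (6 * |B| * v₁) := by
    intro u
    have hE : ‖((Real.exp (-u / 2) : ℝ) : ℂ)‖ = Real.exp (-u / 2) := by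
      rw [Complex.norm_real, Real.norm_eq_abs, abs_of_pos (Real.exp_pos _)]
    have e1 : ∫ v in Ioi (0 : ℝ), J lam M1 u v = ∫ v in Ico (1 : ℝ) v₁, J lam M1 u v := by
      refine setIntegral_eq_of_subset_of_forall_sdiff_eq_zero measurableSet_Ioi
        (fun v hv => lt_of_lt_of_le one_pos hv.1) (fun v hv => ?_)
      rcases lt_or_ge v 1 with h | h
      · exact J_zero lam M1 hz1 u v h
      · have h' : ¬ v < v₁ := fun h'' => hv.2 ⟨h, h''⟩
        unfold J
        rw [hM1, indicator_of_notMem (show v ∉ Iio v₁ from fun h'' => h' h''), zero_mul]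
    have e2 : ‖∫ v in Ico (1 : ℝ) v₁, J lam M1 u v‖ ≤ (6 * |B|) * (volume : Measure ℝ).real (Ico (1 : ℝ) v₁) := by
      refine norm_setIntegral_le_of_norm_le_const (by simp) (fun v hv => ?_)
      have hv' : 0 < v := lt_of_lt_of_le one_pos hv.1
      have h1 : ‖M1 v‖ ≤ |B| * v := by
        refine (hb1 v hv.1).trans ?_
        have : Real.sqrt v ≤ v := by
          rw [Real.sqrt_le_left hv'.le]
          nlinarith [hv.1]
        calc B * Real.sqrt v ≤ |B| * Real.sqrt v := mul_le_mul_of_nonneg_right (le_abs_self B) (Real.sqrt_nonneg v)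
          _ ≤ |B| * v := mul_le_mul_of_nonneg_left this (abs_nonneg B)
      unfold J
      rw [norm_mul, Complex.norm_real, Real.norm_eq_abs, abs_div, abs_of_pos hv']
      have h2 := (th1_bd (v * Real.exp (lam - u)) (by positivity)).1
      calc ‖M1 v‖ * (|th1 (v * Real.exp (lam - u))| / v) ≤ (|B| * v) * (6 / v) := by gcongr
        _ = 6 * |B| := by field_simp
    have e3 : (volume : Measure ℝ).real (Ico (1 : ℝ) v₁) ≤ v₁ := by
      rw [Real.volume_real_Ico_of_le hv1]; linarith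
    unfold aF
    rw [norm_mul, hE]
    refine mul_le_mul_of_nonneg_left ?_ (Real.exp_pos _).le
    change ‖∫ v in Ioi (0 : ℝ), J lam M1 u v‖ ≤ _
    rw [e1]
    exact e2.trans (mul_le_mul_of_nonneg_left e3 (by positivity))
  have htend : Tendsto (fun u : ℝ => Real.exp (-u / 2) * (6 * |B| * v₁)) atTop (𝓝 0) := by
    have h1 : Tendsto (fun u : ℝ => -u / 2) atTop atBot :=
      (tendsto_neg_atTop_atBot).atBot_div_const (by norm_num)
    have h2 := (Real.tendsto_exp_atBot.comp h1).mul_const (6 * |B| * v₁)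
    simpa using h2
  filter_upwards [htend.eventually (gt_mem_nhds hε)] with u hu
  rw [hadd u]
  refine (norm_add_le _ _).trans ?_
  have h1 := hsm u
  have h2 := bnd lam C hC0 M2 hc2 u
  linarith

end Pool.Agent.Y821.ME
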