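import Pool.Agent.Y821.ME.Stm

/-!
# Project ME, task LFN: square root bounds imply the Riemann hypothesis for `L(s, χ)`
-/

set_option autoImplicit false

open Filter Topology MeasureTheory Finset

namespace Pool.Agent.Y821.ME

theorem Mx_of_lt_one (c : ℕ → ℂ) {v : ℝ} (hv : v < 1) : Mx c v = 0 := by
  unfold Mx
  have h : ⌊v⌋₊ = 0 := Nat.floor_eq_zero.2 hv
  rw [h]
  simp

theorem measurable_Mx (c : ℕ → ℂ) : Measurable (Mx c) := by
  unfold Mx
  exact (measurable_from_nat (f := fun m : ℕ => ∑ n ∈ Icc 1 m, mu n * c n)).comp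
    Nat.measurable_floor

theorem lfn_locInt (c : ℕ → ℂ) (B : ℝ) (hB : ∀ v : ℝ, 1 ≤ v → ‖Mx c v‖ ≤ B * Real.sqrt v) :
    LocallyIntegrableOn (Mx c) (Set.Ioi 0) := by
  rw [locallyIntegrableOn_iff isOpen_Ioi.isLocallyClosed]
  intro K hK hKc
  obtain ⟨R, hR⟩ := hKc.isBounded.subset_closedBall 0
  have hB0 : 0 ≤ B := by
    have := hB 1 le_rfl
    simp only [Real.sqrt_one, mul_one] at this
    exact (norm_nonneg _).trans this
  refine Measure.integrableOn_of_bounded (M := B * Real.sqrt (max R 1)) hKc.measure_lt_top.ne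
    (measurable_Mx c).aestronglyMeasurable ?_
  refine (ae_restrict_iff' hKc.measurableSet).2 (Eventually.of_forall ?_)
  intro v hv
  rcases lt_or_ge v 1 with h | h
  · rw [Mx_of_lt_one c h, norm_zero]; positivity
  · refine (hB v h).trans ?_
    refine mul_le_mul_of_nonneg_left (Real.sqrt_le_sqrt ?_) hB0
    have h1 := hR hv
    rw [Metric.mem_closedBall, dist_zero_right, Real.norm_eq_abs] at h1
    exact (le_abs_self v).trans (h1.trans (le_max_left _ _))

theorem lfn_mellin (c : ℕ → ℂ) (s : ℂ) :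
    mellin (Mx c) (-s) = ∫ v in Set.Ioi (1 : ℝ), Mx c v * (v : ℂ) ^ (-(s + 1)) := by
  unfold mellin
  have h1 : ∫ t in Set.Ioi (0 : ℝ), (t : ℂ) ^ (-s - 1) • Mx c t =
      ∫ t in Set.Ici (1 : ℝ), (t : ℂ) ^ (-s - 1) • Mx c t := by
    apply setIntegral_eq_of_subset_of_forall_sdiff_eq_zero measurableSet_Ioi
    · intro x hx
      have hx1 : (1 : ℝ) ≤ x := hx
      exact lt_of_lt_of_le one_pos hx1
    · intro x hx
      have : x < 1 := by
        have := hx.2
        simpa using this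
      rw [Mx_of_lt_one c this, smul_zero]
  rw [h1, integral_Ici_eq_integral_Ioi]
  congr 1
  funext t
  rw [smul_eq_mul, mul_comm]
  congr 2
  ring

theorem lfn_diff (c : ℕ → ℂ) (B : ℝ) (hB : ∀ v : ℝ, 1 ≤ v → ‖Mx c v‖ ≤ B * Real.sqrt v) :
    DifferentiableOn ℂ
      (fun s : ℂ => s * ∫ v in Set.Ioi (1 : ℝ), Mx c v * (v : ℂ) ^ (-(s + 1)))
      {s : ℂ | 1 / 2 < s.re} := by
  have h1 : (fun s : ℂ => s * ∫ v in Set.Ioi (1 : ℝ), Mx c v * (v : ℂ) ^ (-(s + 1))) =
      fun s : ℂ => s * mellin (Mx c) (-s) := by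
    funext s; rw [lfn_mellin]
  rw [h1]
  intro s hs
  have hs' : 1 / 2 < s.re := hs
  apply DifferentiableAt.differentiableWithinAt
  refine differentiableAt_id.mul ?_
  have h2 : DifferentiableAt ℂ (mellin (Mx c)) (-s) := by
    apply mellin_differentiableAt_of_isBigO_rpow (a := -(1 / 2)) (b := (-s).re - 1)
      (lfn_locInt c B hB)
    · refine Asymptotics.IsBigO.of_bound B ?_
      filter_upwards [eventually_ge_atTop (1 : ℝ)] with v hv
      refine (hB v hv).trans (le_of_eq ?_)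
      rw [Real.norm_of_nonneg (Real.rpow_nonneg (by linarith) _), Real.sqrt_eq_rpow]
      norm_num
    · rw [Complex.neg_re]; linarith
    · refine Asymptotics.IsBigO.of_bound 1 ?_
      have : Set.Iio (1 : ℝ) ∈ 𝓝[>] (0 : ℝ) :=
        mem_nhdsWithin_of_mem_nhds (Iio_mem_nhds one_pos)
      filter_upwards [this] with v hv
      rw [Mx_of_lt_one c hv, norm_zero, one_mul]
      exact norm_nonneg _
    · linarith
  exact DifferentiableAt.comp (g := mellin (Mx c)) (f := fun s : ℂ => -s) s h2 differentiableAt_id.neg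

theorem lfn_series {q : ℕ} [NeZero q] (χ : DirichletCharacter ℂ q) (B : ℝ)
    (hB : ∀ v : ℝ, 1 ≤ v → ‖Mx (fun n => χ n) v‖ ≤ B * Real.sqrt v) {s : ℂ} (hs : 1 < s.re) :
    DirichletCharacter.LFunction χ s *
      (s * ∫ v in Set.Ioi (1 : ℝ), Mx (fun n => χ n) v * (v : ℂ) ^ (-(s + 1))) = 1 := by
  have h1 := DirichletCharacter.LSeries.mul_mu_eq_one χ hs
  rw [DirichletCharacter.LFunction_eq_LSeries χ hs]
  have hsum : LSeriesSummable ((fun n : ℕ => χ n) * fun n : ℕ => ((ArithmeticFunction.moebius n : ℤ) : ℂ)) s :=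
    LSeriesSummable_of_bounded_of_one_lt_re (m := 1) (by
      intro n _
      simp only [Pi.mul_apply, norm_mul]
      have ha : ‖χ (n : ZMod q)‖ ≤ 1 := DirichletCharacter.norm_le_one χ _
      have hb : ‖((ArithmeticFunction.moebius n : ℤ) : ℂ)‖ ≤ 1 := by
        rw [Complex.norm_intCast]
        exact_mod_cast ArithmeticFunction.abs_moebius_le_one
      calc _ ≤ (1 : ℝ) * 1 := mul_le_mul ha hb (norm_nonneg _) zero_le_one
        _ = 1 := one_mul 1) hs
  have h2 := LSeries_eq_mul_integral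
    ((fun n : ℕ => χ n) * fun n : ℕ => ((ArithmeticFunction.moebius n : ℤ) : ℂ))
    (r := 1 / 2) (by norm_num) (s := s) (by linarith) hsum ?_
  · have h5 : ∫ v in Set.Ioi (1 : ℝ), Mx (fun n => χ n) v * (v : ℂ) ^ (-(s + 1)) =
        ∫ t in Set.Ioi (1 : ℝ), (∑ k ∈ Icc 1 ⌊t⌋₊, ((fun n : ℕ => χ n) *
          fun n : ℕ => ((ArithmeticFunction.moebius n : ℤ) : ℂ)) k) * (t : ℂ) ^ (-(s + 1)) := by
      apply setIntegral_congr_fun measurableSet_Ioi
      intro v _
      simp only [Mx, mu, Pi.mul_apply]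
      congr 1
      exact Finset.sum_congr rfl (fun k _ => mul_comm _ _)
    rw [h5, ← h2]
    exact h1
  · refine Asymptotics.IsBigO.of_bound B ?_
    filter_upwards [eventually_ge_atTop 1] with n hn
    have h3 := hB n (by exact_mod_cast hn)
    have h4 : ∑ k ∈ Icc 1 n, ((fun n : ℕ => χ n) *
        fun n : ℕ => ((ArithmeticFunction.moebius n : ℤ) : ℂ)) k = Mx (fun n => χ n) (n : ℝ) := by
      simp only [Mx, mu, Pi.mul_apply, Nat.floor_natCast]
      exact Finset.sum_congr rfl (fun k _ => mul_comm _ _)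
    rw [h4]
    refine h3.trans (le_of_eq ?_)
    rw [Real.norm_of_nonneg (Real.rpow_nonneg (Nat.cast_nonneg _) _), Real.sqrt_eq_rpow]

/-- (LFN) -/
theorem lfn : S_LFN := by
  intro q _ χ hχ hB s hs
  obtain ⟨B, hB⟩ := hB
  set U : Set ℂ := {s : ℂ | 1 / 2 < s.re} with hU
  have hUo : IsOpen U := isOpen_lt continuous_const Complex.continuous_re
  have hUc : IsPreconnected U := (convex_halfSpace_re_gt (1 / 2)).isPreconnected
  have hf : AnalyticOnNhd ℂ (fun s : ℂ => DirichletCharacter.LFunction χ s *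
      (s * ∫ v in Set.Ioi (1 : ℝ), Mx (fun n => χ n) v * (v : ℂ) ^ (-(s + 1)))) U := by
    apply DifferentiableOn.analyticOnNhd _ hUo
    exact (DirichletCharacter.differentiable_LFunction hχ).differentiableOn.mul
      (lfn_diff _ B hB)
  have hg : AnalyticOnNhd ℂ (fun _ : ℂ => (1 : ℂ)) U := analyticOnNhd_const
  have h2U : (2 : ℂ) ∈ U := by
    show (1 / 2 : ℝ) < (2 : ℂ).re
    norm_num
  have hev : (fun s : ℂ => DirichletCharacter.LFunction χ s *
      (s * ∫ v in Set.Ioi (1 : ℝ), Mx (fun n => χ n) v * (v : ℂ) ^ (-(s + 1)))) =ᶠ[𝓝 (2 : ℂ)]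
      fun _ : ℂ => (1 : ℂ) := by
    have hopen : IsOpen {s : ℂ | 1 < s.re} := isOpen_lt continuous_const Complex.continuous_re
    filter_upwards [hopen.mem_nhds (show (2 : ℂ) ∈ {s : ℂ | 1 < s.re} by
      show (1 : ℝ) < (2 : ℂ).re
      norm_num)] with z hz
    exact lfn_series χ B hB hz
  exact hf.eqOn_of_preconnected_of_eventuallyEq hg hUc h2U hev hs

end Pool.Agent.Y821.ME
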