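import Pool.Agent.Y821.ME.Stm

/-!
# Project ME, job LI: linear independence of the square roots of squarefree numbers in `ℤ_p`
-/

set_option autoImplicit false

open Finset

namespace Pool.Agent.Y821.ME

namespace LI

/-! ### Quadratic extensions inside a field -/

variable {K : Type*} [Field K]

/-- the subfield `F + F t`, for `t ^ 2 ∈ F` -/
def quadExt (F : Subfield K) (t : K) (ht : t ^ 2 ∈ F) : Subfield K where
  carrier := {x | ∃ u ∈ F, ∃ v ∈ F, x = u + v * t}
  mul_mem' := by
    rintro _ _ ⟨u, hu, v, hv, rfl⟩ ⟨u', hu', v', hv', rfl⟩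
    refine ⟨u * u' + v * v' * t ^ 2, F.add_mem (F.mul_mem hu hu') (F.mul_mem (F.mul_mem hv hv') ht),
      u * v' + v * u', F.add_mem (F.mul_mem hu hv') (F.mul_mem hv hu'), ?_⟩
    ring
  one_mem' := ⟨1, F.one_mem, 0, F.zero_mem, by ring⟩
  add_mem' := by
    rintro _ _ ⟨u, hu, v, hv, rfl⟩ ⟨u', hu', v', hv', rfl⟩
    exact ⟨u + u', F.add_mem hu hu', v + v', F.add_mem hv hv', by ring⟩
  zero_mem' := ⟨0, F.zero_mem, 0, F.zero_mem, by ring⟩
  neg_mem' := by
    rintro _ ⟨u, hu, v, hv, rfl⟩
    exact ⟨-u, F.neg_mem hu, -v, F.neg_mem hv, by ring⟩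
  inv_mem' := by
    rintro _ ⟨u, hu, v, hv, rfl⟩
    by_cases htF : t ∈ F
    · exact ⟨(u + v * t)⁻¹, F.inv_mem (F.add_mem hu (F.mul_mem hv htF)), 0, F.zero_mem, by ring⟩
    by_cases h0 : u + v * t = 0
    · rw [h0]
      exact ⟨0, F.zero_mem, 0, F.zero_mem, by simp⟩
    have h1 : u - v * t ≠ 0 := by
      intro h
      by_cases hv0 : v = 0
      · rw [hv0] at h h0
        simp at h h0
        exact h0 h
      · apply htF
        have : t = u / v := by
          field_simp
          linear_combination -h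
        rw [this]
        exact F.div_mem hu hv
    have h2 : (u + v * t) * (u - v * t) = u ^ 2 - v ^ 2 * t ^ 2 := by ring
    have h3 : u ^ 2 - v ^ 2 * t ^ 2 ≠ 0 := by
      rw [← h2]; exact mul_ne_zero h0 h1
    have h4 : u ^ 2 - v ^ 2 * t ^ 2 ∈ F :=
      F.sub_mem (F.pow_mem hu 2) (F.mul_mem (F.pow_mem hv 2) ht)
    refine ⟨u / (u ^ 2 - v ^ 2 * t ^ 2), F.div_mem hu h4, -v / (u ^ 2 - v ^ 2 * t ^ 2),
      F.div_mem (F.neg_mem hv) h4, ?_⟩
    rw [inv_eq_of_mul_eq_one_right]
    field_simp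
    linear_combination h2

theorem mem_quadExt {F : Subfield K} {t : K} {ht : t ^ 2 ∈ F} {x : K} :
    x ∈ quadExt F t ht ↔ ∃ u ∈ F, ∃ v ∈ F, x = u + v * t := Iff.rfl

/-- Two is invertible; a square root of an element of `F` in `F + F t` is in `F` or in `F t`. -/
theorem sq_mem {F : Subfield K} {t : K} (ht : t ^ 2 ∈ F) (h2 : (2 : K) ≠ 0) (htF : t ∉ F)
    {x : K} (hx : x ∈ quadExt F t ht) (hx2 : x ^ 2 ∈ F) : x ∈ F ∨ ∃ v ∈ F, x = v * t := by
  obtain ⟨u, hu, v, hv, rfl⟩ := hx
  by_cases hu0 : u = 0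
  · right
    exact ⟨v, hv, by rw [hu0, zero_add]⟩
  by_cases hv0 : v = 0
  · left
    rw [hv0, zero_mul, add_zero]
    exact hu
  exfalso
  apply htF
  have h3 : t = ((u + v * t) ^ 2 - u ^ 2 - v ^ 2 * t ^ 2) / (2 * u * v) := by
    field_simp
    ring
  rw [h3]
  exact F.div_mem (F.sub_mem (F.sub_mem hx2 (F.pow_mem hu 2)) (F.mul_mem (F.pow_mem hv 2) ht))
    (F.mul_mem (F.mul_mem (by exact_mod_cast natCast_mem F 2) hu) hv)

/-! ### The tower -/

section tower

variable [CharZero K] (t : ℕ → K)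

/-- there is a subfield which contains the `t l`, `l ∈ P`, with the two properties we need -/
theorem exists_field (P : Finset ℕ) (hP : ∀ l ∈ P, l.Prime) (ht : ∀ l ∈ P, (l : K) * t l ^ 2 = 1) :
    ∃ F : Subfield K, (∀ l ∈ P, t l ∈ F) ∧
      (∀ b : ℕ, Squarefree b → b ≠ 1 → (∀ l ∈ P, ¬ l ∣ b) → ∀ x ∈ F, x ^ 2 ≠ (b : K)) ∧
      ∀ a : Finset ℕ → ℚ, ∑ S ∈ P.powerset, (a S : K) * ∏ l ∈ S, t l = 0 →
        ∀ S ∈ P.powerset, a S = 0 := by
  classical
  induction P using Finset.induction_on with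
  | empty =>
    refine ⟨(algebraMap ℚ K).fieldRange, by simp, ?_, ?_⟩
    · rintro b hb hb1 - x ⟨y, rfl⟩ hy
      have h1 : y ^ 2 = (b : ℚ) := by
        have : ((y ^ 2 : ℚ) : K) = ((b : ℚ) : K) := by
          push_cast
          simpa using hy
        exact_mod_cast this
      have h2 : IsSquare (b : ℚ) := ⟨y, by rw [← h1]; ring⟩
      have h3 : IsSquare b := by
        exact_mod_cast (Rat.isSquare_natCast_iff).1 h2
      obtain ⟨c, hc⟩ := h3
      have h4 := hb c ⟨1, by rw [hc, mul_one]⟩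
      rw [Nat.isUnit_iff] at h4
      apply hb1
      rw [hc, h4]
    · intro a ha S hS
      simp at hS
      subst hS
      simpa using ha
  | insert q P hq ih =>
    obtain ⟨F, hF1, hF2, hF3⟩ := ih (fun l hl => hP l (mem_insert_of_mem hl))
      (fun l hl => ht l (mem_insert_of_mem hl))
    have hqp : q.Prime := hP q (mem_insert_self q P)
    have hq0 : (q : K) ≠ 0 := by exact_mod_cast hqp.ne_zero
    have htq : (q : K) * t q ^ 2 = 1 := ht q (mem_insert_self q P)
    have htq0 : t q ≠ 0 := by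
      intro h
      rw [h] at htq
      simp at htq
    have ht2 : t q ^ 2 ∈ F := by
      have : t q ^ 2 = ((q : K))⁻¹ := by
        field_simp
        linear_combination htq
      rw [this]
      exact F.inv_mem (natCast_mem F q)
    have hdvd : ∀ l ∈ P, ¬ l ∣ q := by
      intro l hl hlq
      have := (Nat.prime_dvd_prime_iff_eq (hP l (mem_insert_of_mem hl)) hqp).1 hlq
      rw [this] at hl
      exact hq hl
    -- the new square root is not in F
    have htF : t q ∉ F := by
      intro h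
      refine hF2 q hqp.squarefree hqp.one_lt.ne' hdvd ((q : K) * t q)
        (F.mul_mem (natCast_mem F q) h) ?_
      linear_combination (q : K) * htq
    refine ⟨quadExt F (t q) ht2, ?_, ?_, ?_⟩
    · intro l hl
      rw [mem_insert] at hl
      rcases hl with rfl | hl
      · exact ⟨0, F.zero_mem, 1, F.one_mem, by ring⟩
      · exact ⟨t l, hF1 l hl, 0, F.zero_mem, by ring⟩
    · intro b hb hb1 hbP x hx hxb
      have hx2 : x ^ 2 ∈ F := by
        rw [hxb]
        exact natCast_mem F b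
      rcases sq_mem ht2 (by norm_num) htF hx hx2 with hxF | ⟨v, hv, rfl⟩
      · exact hF2 b hb hb1 (fun l hl => hbP l (mem_insert_of_mem hl)) x hxF hxb
      · have hqb : ¬ q ∣ b := hbP q (mem_insert_self q P)
        have hcop : Nat.Coprime q b := (Nat.Prime.coprime_iff_not_dvd hqp).2 hqb
        refine hF2 (q * b) ?_ ?_ ?_ v hv ?_
        · exact (Nat.squarefree_mul hcop).2 ⟨hqp.squarefree, hb⟩
        · intro h
          exact hqp.one_lt.ne' (Nat.eq_one_of_mul_eq_one_right h)
        · intro l hl hlqb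
          rcases (Nat.Prime.dvd_mul (hP l (mem_insert_of_mem hl))).1 hlqb with h | h
          · exact hdvd l hl h
          · exact hbP l (mem_insert_of_mem hl) h
        · push_cast
          linear_combination (q : K) * hxb - v ^ 2 * htq
    · intro a ha
      rw [sum_powerset_insert hq] at ha
      have hB : ∑ S ∈ P.powerset, ((a (insert q S) : ℚ) : K) * ∏ l ∈ insert q S, t l =
          (∑ S ∈ P.powerset, ((a (insert q S) : ℚ) : K) * ∏ l ∈ S, t l) * t q := by
        rw [sum_mul]
        refine sum_congr rfl fun S hS => ?_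
        rw [prod_insert (fun h => hq (mem_powerset.1 hS h))]
        ring
      rw [hB] at ha
      have hmem : ∀ c : Finset ℕ → ℚ, ∑ S ∈ P.powerset, ((c S : ℚ) : K) * ∏ l ∈ S, t l ∈ F := by
        intro c
        refine F.sum_mem fun S hS => F.mul_mem (SubfieldClass.ratCast_mem F (c S)) ?_
        exact F.prod_mem fun l hl => hF1 l (mem_powerset.1 hS hl)
      have hB0 : ∑ S ∈ P.powerset, ((a (insert q S) : ℚ) : K) * ∏ l ∈ S, t l = 0 := by
        by_contra hne
        apply htF
        have : t q = -(∑ S ∈ P.powerset, ((a S : ℚ) : K) * ∏ l ∈ S, t l) /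
            (∑ S ∈ P.powerset, ((a (insert q S) : ℚ) : K) * ∏ l ∈ S, t l) := by
          rw [eq_div_iff hne]
          linear_combination ha
        rw [this]
        exact F.div_mem (F.neg_mem (hmem a)) (hmem (fun S => a (insert q S)))
      rw [hB0, zero_mul, add_zero] at ha
      have h1 := hF3 a ha
      have h2 := hF3 (fun S => a (insert q S)) hB0
      intro S hS
      by_cases hqS : q ∈ S
      · have h3 : S.erase q ∈ P.powerset := by
          rw [mem_powerset]
          rw [mem_powerset] at hS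
          intro x hx
          rw [mem_erase] at hx
          have := hS hx.2
          rw [mem_insert] at this
          exact this.resolve_left hx.1
        have h4 := h2 (S.erase q) h3
        simp only [insert_erase hqS] at h4
        exact h4
      · apply h1
        rw [mem_powerset] at hS ⊢
        intro x hx
        have := hS hx
        rw [mem_insert] at this
        refine this.resolve_left ?_
        rintro rfl
        exact hqS hx

end tower

/-! ### Hensel -/

theorem exists_root (p : ℕ) [Fact p.Prime] (hp2 : p ≠ 2) (m : ℕ) (hm : ¬ p ∣ m)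
    (hsq : IsSquare (m : ZMod p)) : ∃ t : ℤ_[p], (m : ℤ_[p]) * t ^ 2 = 1 := by
  have hp : p.Prime := Fact.out
  obtain ⟨c, hc⟩ := hsq
  have hm0 : (m : ZMod p) ≠ 0 := by
    rw [Ne, ZMod.natCast_eq_zero_iff]
    exact hm
  have hc0 : c ≠ 0 := by
    rintro rfl
    exact hm0 (by rw [hc, mul_zero])
  let e : ℤ_[p] := ((c⁻¹).val : ℕ)
  have he : (PadicInt.toZMod e : ZMod p) = c⁻¹ := by
    simp [e]
  let G : Polynomial ℤ_[p] := Polynomial.C (m : ℤ_[p]) * Polynomial.X ^ 2 - 1
  have hG : ∀ x : ℤ_[p], Polynomial.aeval x G = (m : ℤ_[p]) * x ^ 2 - 1 := by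
    intro x
    simp [G]
  have hG' : ∀ x : ℤ_[p], Polynomial.aeval x (Polynomial.derivative G) = 2 * (m : ℤ_[p]) * x := by
    intro x
    simp [G]
    ring
  have h1 : ‖Polynomial.aeval e G‖ < 1 := by
    rw [hG, PadicInt.norm_lt_one_iff_dvd, ← Ideal.mem_span_singleton, ← PadicInt.maximalIdeal_eq_span_p,
      ← PadicInt.ker_toZMod, RingHom.mem_ker]
    simp only [map_sub, map_mul, map_pow, he, map_one, map_natCast]
    rw [hc]
    field_simp
    ring
  have h2 : ‖Polynomial.aeval e (Polynomial.derivative G)‖ = 1 := by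
    have h3 : ¬ ‖Polynomial.aeval e (Polynomial.derivative G)‖ < 1 := by
      rw [hG', PadicInt.norm_lt_one_iff_dvd, ← Ideal.mem_span_singleton,
        ← PadicInt.maximalIdeal_eq_span_p, ← PadicInt.ker_toZMod, RingHom.mem_ker]
      simp only [map_mul, he, map_natCast, map_ofNat]
      have h20 : (2 : ZMod p) ≠ 0 := by
        intro h
        have : (p : ℕ) ∣ 2 := by
          rw [← ZMod.natCast_eq_zero_iff]
          exact_mod_cast h
        exact hp2 ((Nat.prime_dvd_prime_iff_eq hp Nat.prime_two).1 this)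
      exact mul_ne_zero (mul_ne_zero h20 hm0) (inv_ne_zero hc0)
    exact le_antisymm (PadicInt.norm_le_one _) (not_lt.1 h3)
  obtain ⟨z, hz, -⟩ := hensels_lemma (p := p) (F := G) (a := e) (by rw [h2]; simpa using h1)
  refine ⟨z, ?_⟩
  rw [hG] at hz
  linear_combination hz

end LI

open LI in
/-- (LI) the square roots of the squarefree numbers in the `p`-adic integers are linearly independent -/
theorem li : S_LI := by
  classical
  intro Y p _ hp2 hYp hsq
  have hp : p.Prime := Fact.out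
  have hex : ∀ m : ℕ, ∃ t : ℤ_[p], 1 ≤ m → m ≤ Y → (m : ℤ_[p]) * t ^ 2 = 1 := by
    intro m
    by_cases hm : 1 ≤ m ∧ m ≤ Y
    · obtain ⟨t, ht⟩ := exists_root p hp2 m (fun h => by
        have := Nat.le_of_dvd (by omega) h
        omega) (hsq m hm.1 hm.2)
      exact ⟨t, fun _ _ => ht⟩
    · exact ⟨0, fun h1 h2 => absurd ⟨h1, h2⟩ hm⟩
  choose t ht using hex
  -- the square roots, multiplicative
  let ρ : ℕ → ℤ_[p] := fun m => m.factorization.prod (fun l k => t l ^ k)
  have hρ : ∀ m : ℕ, 1 ≤ m → m ≤ Y → (m : ℤ_[p]) * ρ m ^ 2 = 1 := by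
    intro m hm1 hmY
    have h1 : (m : ℤ_[p]) = m.factorization.prod (fun l k => (l : ℤ_[p]) ^ k) := by
      conv_lhs => rw [← Nat.prod_factorization_pow_eq_self (show m ≠ 0 by omega)]
      rw [Finsupp.prod, Finsupp.prod]
      push_cast
      rfl
    rw [h1]
    simp only [ρ, Finsupp.prod]
    rw [← prod_pow, ← prod_mul_distrib]
    refine prod_eq_one fun l hl => ?_
    have hl' : l ∈ m.primeFactors := by simpa using hl
    have hlp := Nat.prime_of_mem_primeFactors hl'
    have hlm : l ≤ m := Nat.le_of_dvd (by omega) (Nat.dvd_of_mem_primeFactors hl')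
    have h2 := ht l hlp.one_lt.le (hlm.trans hmY)
    rw [← pow_mul, mul_comm (m.factorization l) 2, pow_mul, ← mul_pow, h2, one_pow]
  refine ⟨ρ, hρ, ?_⟩
  intro h hsum m hm
  -- the tower over the primes up to Y
  let P : Finset ℕ := (Icc 1 Y).filter Nat.Prime
  have hPm : ∀ l, l ∈ P ↔ l.Prime ∧ l ≤ Y := by
    intro l
    simp only [P, mem_filter, mem_Icc]
    constructor
    · rintro ⟨⟨_, h2⟩, h3⟩
      exact ⟨h3, h2⟩
    · rintro ⟨h3, h2⟩
      exact ⟨⟨h3.one_lt.le, h2⟩, h3⟩
  obtain ⟨F, -, -, hF⟩ := exists_field (K := ℚ_[p]) (fun l => (t l : ℚ_[p])) P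
    (fun l hl => ((hPm l).1 hl).1) (fun l hl => by
      have h1 := ht l ((hPm l).1 hl).1.one_lt.le ((hPm l).1 hl).2
      have h2 := congrArg (fun x : ℤ_[p] => (x : ℚ_[p])) h1
      push_cast at h2
      exact h2)
  let a : Finset ℕ → ℚ := fun S => if ∏ l ∈ S, l ≤ Y then (h (∏ l ∈ S, l) : ℚ) else 0
  have hprodpf : ∀ n : ℕ, Squarefree n → ∏ l ∈ n.primeFactors, l = n :=
    fun n hn => Nat.prod_primeFactors_of_squarefree hn
  have hρs : ∀ n : ℕ, Squarefree n → ρ n = ∏ l ∈ n.primeFactors, t l := by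
    intro n hn
    simp only [ρ, Finsupp.prod, Nat.support_factorization]
    refine prod_congr rfl fun l hl => ?_
    have h1 : n.factorization l = 1 := by
      have h2 := hn.natFactorization_le_one l
      have h3 := (Nat.prime_of_mem_primeFactors hl).factorization_pos_of_dvd
        hn.ne_zero (Nat.dvd_of_mem_primeFactors hl)
      omega
    rw [h1, pow_one]
  have hpfprod : ∀ S ∈ P.powerset, Squarefree (∏ l ∈ S, l) ∧ (∏ l ∈ S, l).primeFactors = S := by
    intro S hS
    rw [mem_powerset] at hS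
    have hpr : ∀ l ∈ S, l.Prime := fun l hl => ((hPm l).1 (hS hl)).1
    refine ⟨?_, Nat.primeFactors_prod hpr⟩
    refine Finset.squarefree_prod_of_pairwise_isCoprime ?_ ?_
    · intro x hx y hy hxy
      exact Nat.coprime_iff_isRelPrime.1 ((Nat.coprime_primes (hpr x hx) (hpr y hy)).2 hxy)
    · exact fun l hl => (hpr l hl).squarefree
  have hsum2 : ∑ S ∈ P.powerset, ((a S : ℚ) : ℚ_[p]) * ∏ l ∈ S, (t l : ℚ_[p]) = 0 := by
    have h1 : ∑ n ∈ (Icc 1 Y).filter Squarefree, ((h n : ℤ) : ℚ_[p]) * ((ρ n : ℤ_[p]) : ℚ_[p]) = 0 := by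
      have h1 := congrArg (PadicInt.Coe.ringHom (p := p)) hsum
      rw [map_sum, map_zero] at h1
      simp only [map_mul, map_intCast] at h1
      exact h1
    rw [← h1]
    symm
    have h2 : ∑ S ∈ P.powerset, ((a S : ℚ) : ℚ_[p]) * ∏ l ∈ S, (t l : ℚ_[p]) =
        ∑ S ∈ P.powerset.filter (fun S => ∏ l ∈ S, l ≤ Y), ((a S : ℚ) : ℚ_[p]) * ∏ l ∈ S, (t l : ℚ_[p]) := by
      rw [sum_filter]
      refine sum_congr rfl fun S _ => ?_
      simp only [a]
      split_ifs
      · rfl
      · simp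
    rw [h2]
    refine sum_nbij' (fun n : ℕ => n.primeFactors) (fun S : Finset ℕ => ∏ l ∈ S, l) ?_ ?_ ?_ ?_ ?_
    · intro n hn
      rw [mem_filter, mem_Icc] at hn
      rw [mem_filter, mem_powerset]
      refine ⟨?_, by rw [hprodpf n hn.2]; exact hn.1.2⟩
      intro l hl
      rw [hPm]
      exact ⟨Nat.prime_of_mem_primeFactors hl,
        (Nat.le_of_dvd (by omega) (Nat.dvd_of_mem_primeFactors hl)).trans hn.1.2⟩
    · intro S hS
      rw [mem_filter] at hS
      rw [mem_filter, mem_Icc]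
      exact ⟨⟨Nat.one_le_iff_ne_zero.2 (hpfprod S hS.1).1.ne_zero, hS.2⟩, (hpfprod S hS.1).1⟩
    · intro n hn
      rw [mem_filter] at hn
      exact hprodpf n hn.2
    · intro S hS
      rw [mem_filter] at hS
      exact (hpfprod S hS.1).2
    · intro n hn
      rw [mem_filter, mem_Icc] at hn
      simp only [a]
      rw [hprodpf n hn.2, if_pos hn.1.2, hρs n hn.2]
      have h3 : ((∏ l ∈ n.primeFactors, t l : ℤ_[p]) : ℚ_[p]) = ∏ l ∈ n.primeFactors, ((t l : ℤ_[p]) : ℚ_[p]) :=
        map_prod (PadicInt.Coe.ringHom (p := p)) _ _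
      rw [h3]
      push_cast
      rfl
  have hfin := hF a hsum2 m.primeFactors (by
    rw [mem_powerset]
    intro l hl
    rw [mem_filter, mem_Icc] at hm
    rw [hPm]
    exact ⟨Nat.prime_of_mem_primeFactors hl,
      (Nat.le_of_dvd (by omega) (Nat.dvd_of_mem_primeFactors hl)).trans hm.1.2⟩)
  rw [mem_filter, mem_Icc] at hm
  simp only [a] at hfin
  rw [hprodpf m hm.2, if_pos hm.1.2] at hfin
  exact_mod_cast hfin

end Pool.Agent.Y821.ME
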