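import Pool.Agent.Y821.ME.Stm2

/-!
# Project ME, job LI2: linear independence of the square roots of squarefree integers in `ℤ_p`
-/

set_option autoImplicit false

open Finset Polynomial

namespace Pool.Agent.Y821.ME

namespace LI2

/-! ### square roots of rational numbers in a field of characteristic zero -/

theorem indep {K : Type*} [Field K] [CharZero K] {ι : Type*} [DecidableEq ι] (x : ι → K) (d : ι → ℚ) (n : ℕ) :
    ∀ s : Finset ι, s.card = n → (∀ i ∈ s, x i ^ 2 = (d i : K)) → (∀ i ∈ s, d i ≠ 0) →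
      (∀ i ∈ s, ∀ j ∈ s, i ≠ j → ¬ IsSquare (d i / d j)) →
      ∀ a : ι → ℚ, ∑ i ∈ s, (a i : K) * x i = 0 → ∀ i ∈ s, a i = 0 := by
  induction n with
  | zero =>
    intro s hs _ _ _ a _ i hi
    rw [card_eq_zero] at hs
    rw [hs] at hi
    simp at hi
  | succ n ih =>
    intro s hs hx hd hsq a ha
    have hx0 : ∀ i ∈ s, x i ≠ 0 := by
      intro i hi h
      have h1 := hx i hi
      rw [h] at h1
      have : (d i : K) = 0 := by rw [← h1]; ring
      exact hd i hi (by exact_mod_cast this)
    -- it suffices to treat the case of non-zero coefficients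
    by_contra hcon
    push Not at hcon
    obtain ⟨i₀, hi₀, hai₀⟩ := hcon
    by_cases hall : ∃ j ∈ s, a j = 0
    · obtain ⟨j, hj, haj⟩ := hall
      have h1 := ih (s.erase j) (by rw [card_erase_of_mem hj, hs]; rfl)
        (fun i hi => hx i (mem_of_mem_erase hi)) (fun i hi => hd i (mem_of_mem_erase hi))
        (fun i hi k hk => hsq i (mem_of_mem_erase hi) k (mem_of_mem_erase hk)) a (by
          rw [← ha, ← add_sum_erase s _ hj, haj]; simp)
      have hne : i₀ ≠ j := by
        rintro rfl
        exact hai₀ haj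
      exact hai₀ (h1 i₀ (mem_erase.2 ⟨hne, hi₀⟩))
    push Not at hall
    by_cases hone : s = {i₀}
    · rw [hone, sum_singleton] at ha
      rcases mul_eq_zero.1 ha with h | h
      · exact hai₀ (by exact_mod_cast h)
      · exact hx0 i₀ hi₀ h
    obtain ⟨j, hj, hji⟩ : ∃ j ∈ s, j ≠ i₀ := by
      by_contra hno
      push Not at hno
      apply hone
      ext k
      rw [mem_singleton]
      exact ⟨fun hk => hno k hk, fun hk => hk ▸ hi₀⟩
    -- the splitting field
    let f : ℚ[X] := ∏ i ∈ s, (X ^ 2 - C (d i))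
    have hfac : ∀ i ∈ s, ((X : K[X]) ^ 2 - C (d i : K)) = (X - C (x i)) * (X + C (x i)) := by
      intro i hi
      rw [← hx i hi, C_pow]
      ring
    have hmap : f.map (algebraMap ℚ K) = ∏ i ∈ s, ((X - C (x i)) * (X + C (x i))) := by
      simp only [f]
      rw [Polynomial.map_prod]
      refine prod_congr rfl (fun i hi => ?_)
      rw [← hfac i hi]
      simp
    have hsplit : (f.map (algebraMap ℚ K)).Splits := by
      rw [hmap]
      refine Splits.prod (fun i hi => ?_)
      refine Splits.mul (Splits.X_sub_C _) ?_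
      have : (X + C (x i) : K[X]) = X - C (- x i) := by rw [C_neg, sub_neg_eq_add]
      rw [this]
      exact Splits.X_sub_C _
    have hf0 : f ≠ 0 := by
      simp only [f]
      rw [prod_ne_zero_iff]
      intro i _
      exact (monic_X_pow_sub_C (d i) (by norm_num)).ne_zero
    let L := IntermediateField.adjoin ℚ (f.rootSet K)
    have hsf : f.IsSplittingField ℚ L := IntermediateField.adjoin_rootSet_isSplittingField hsplit
    have : Normal ℚ L := Normal.of_isSplittingField f
    have : FiniteDimensional ℚ L := Polynomial.IsSplittingField.finiteDimensional L f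
    have : IsGalois ℚ L := IsGalois.mk
    have hxL : ∀ i ∈ s, x i ∈ L := by
      intro i hi
      apply IntermediateField.subset_adjoin
      rw [mem_rootSet]
      refine ⟨hf0, ?_⟩
      simp only [f]
      rw [map_prod]
      refine prod_eq_zero hi ?_
      simp [hx i hi]
    -- the element moved
    let y : L := ⟨x j, hxL j hj⟩ / ⟨x i₀, hxL i₀ hi₀⟩
    have hy : ∃ σ : L ≃ₐ[ℚ] L, σ y ≠ y := by
      by_contra hno
      push Not at hno
      have h1 := (IsGalois.mem_bot_iff_fixed y).2 hno
      rw [IntermediateField.mem_bot] at h1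
      obtain ⟨r, hr⟩ := h1
      apply hsq j hj i₀ hi₀ hji
      refine ⟨r, ?_⟩
      have h2 : ((r : ℚ) : K) = x j / x i₀ := by
        have := congrArg (fun z : L => (z : K)) hr
        simpa [y] using this
      have h3 : ((d j / d i₀ : ℚ) : K) = ((r * r : ℚ) : K) := by
        push_cast
        rw [h2, ← hx j hj, ← hx i₀ hi₀]
        ring
      exact_mod_cast h3
    obtain ⟨σ, hσ⟩ := hy
    -- the signs
    have hsign : ∀ i : ι, ∃ e : ℚ, (e = 1 ∨ e = -1) ∧ ∀ hi : i ∈ s, (σ ⟨x i, hxL i hi⟩ : K) = (e : K) * x i := by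
      intro i
      by_cases hi : i ∈ s
      · have h1 : (σ ⟨x i, hxL i hi⟩ : L) ^ 2 = algebraMap ℚ L (d i) := by
          rw [← map_pow]
          have : ((⟨x i, hxL i hi⟩ : L) ^ 2) = algebraMap ℚ L (d i) := by
            apply Subtype.ext
            have := hx i hi
            simpa using this
          rw [this, AlgEquiv.commutes]
        have h2 : ((σ ⟨x i, hxL i hi⟩ : L) : K) ^ 2 = x i ^ 2 := by
          rw [hx i hi]
          have := congrArg (fun z : L => (z : K)) h1
          simpa using this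
        rcases sq_eq_sq_iff_eq_or_eq_neg.1 h2 with h | h
        · exact ⟨1, Or.inl rfl, fun _ => by rw [h]; simp⟩
        · exact ⟨-1, Or.inr rfl, fun _ => by rw [h]; simp⟩
      · exact ⟨1, Or.inl rfl, fun h => absurd h hi⟩
    choose e he1 he2 using hsign
    have hne : e j ≠ e i₀ := by
      intro h
      apply hσ
      apply Subtype.ext
      have hy1 : (y : K) = x j / x i₀ := by simp [y]
      have hσy : ((σ y : L) : K) = (e j * x j) / (e i₀ * x i₀) := by
        simp only [y]
        rw [map_div₀]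
        push_cast
        rw [he2 j hj, he2 i₀ hi₀]
      have hei : (e i₀ : K) ≠ 0 := by
        rcases he1 i₀ with h' | h' <;> rw [h'] <;> norm_num
      rw [hσy, hy1, h]
      have := hx0 i₀ hi₀
      field_simp
    -- apply σ to the relation
    have hσa : ∑ i ∈ s, (a i : K) * ((e i : K) * x i) = 0 := by
      have h1 : ∑ i ∈ s.attach, (algebraMap ℚ L (a i)) * (⟨x i, hxL i i.2⟩ : L) = 0 := by
        apply Subtype.ext
        rw [← sum_attach] at ha
        simpa using ha
      have h2 := congrArg σ h1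
      rw [map_sum, map_zero] at h2
      have h3 := congrArg (fun z : L => (z : K)) h2
      rw [← sum_attach]
      simp only [map_mul, AlgEquiv.commutes] at h3
      push_cast at h3
      refine Eq.trans (sum_congr rfl (fun i _ => ?_)) h3
      rw [he2 i i.2]
      simp
    have hfinal : ∑ i ∈ s.erase i₀, (((a i * (e i - e i₀) : ℚ)) : K) * x i = 0 := by
      have h1 : ∑ i ∈ s, (((a i * (e i - e i₀) : ℚ)) : K) * x i = 0 := by
        have : ∑ i ∈ s, (((a i * (e i - e i₀) : ℚ)) : K) * x i =
            ∑ i ∈ s, (a i : K) * ((e i : K) * x i) - (e i₀ : K) * ∑ i ∈ s, (a i : K) * x i := by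
          rw [mul_sum, ← sum_sub_distrib]
          refine sum_congr rfl (fun i _ => ?_)
          push_cast
          ring
        rw [this, hσa, ha]
        ring
      rw [← add_sum_erase s _ hi₀] at h1
      simpa using h1
    have h1 := ih (s.erase i₀) (by rw [card_erase_of_mem hi₀, hs]; rfl)
      (fun i hi => hx i (mem_of_mem_erase hi)) (fun i hi => hd i (mem_of_mem_erase hi))
      (fun i hi k hk => hsq i (mem_of_mem_erase hi) k (mem_of_mem_erase hk)) _ hfinal j
      (mem_erase.2 ⟨hji, hj⟩)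
    rcases mul_eq_zero.1 h1 with h | h
    · exact hall j hj h
    · exact hne (by linarith)

/-! ### squarefree integers -/

theorem sf_nat (a b : ℕ) (ha : Squarefree a) (hb : Squarefree b) (h : IsSquare (a * b)) : a = b := by
  obtain ⟨c, hc⟩ := h
  have h1 : a ∣ c := by
    have h2 : a ∣ c ^ 2 := ⟨b, by rw [hc]; ring⟩
    exact (ha.dvd_pow_iff_dvd (by norm_num)).1 h2
  obtain ⟨k, hk⟩ := h1
  have ha0 : 0 < a := Nat.pos_of_ne_zero ha.ne_zero
  have h3 : b = a * (k * k) := by
    have : a * b = a * (a * (k * k)) := by rw [hc, hk]; ring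
    exact Nat.eq_of_mul_eq_mul_left ha0 this
  have h4 : IsUnit k := hb k ⟨a, by rw [h3]; ring⟩
  rw [Nat.isUnit_iff] at h4
  rw [h3, h4]
  ring

theorem sf_int (g g' : ℤ) (hg : Squarefree g) (hg' : Squarefree g') (h : IsSquare ((g : ℚ) * g')) : g = g' := by
  have h1 : IsSquare (g * g') := by
    have : ((g * g' : ℤ) : ℚ) = (g : ℚ) * g' := by push_cast; ring
    rw [← this] at h
    exact Rat.isSquare_intCast_iff.1 h
  have h2 : g.natAbs = g'.natAbs := by
    apply sf_nat _ _ (Int.squarefree_natAbs.2 hg) (Int.squarefree_natAbs.2 hg')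
    obtain ⟨c, hc⟩ := h1
    exact ⟨c.natAbs, by rw [← Int.natAbs_mul, hc, Int.natAbs_mul]⟩
  have h3 : 0 ≤ g * g' := by
    obtain ⟨c, hc⟩ := h1
    rw [hc]
    exact mul_self_nonneg c
  have hg0 := hg.ne_zero
  have hg'0 := hg'.ne_zero
  rcases Int.natAbs_eq_natAbs_iff.1 h2 with h | h
  · exact h
  · exfalso
    rw [h] at h3
    have : 0 < g' * g' := mul_self_pos.2 hg'0
    linarith

/-! ### Hensel -/

theorem exists_root (p : ℕ) [Fact p.Prime] (hp2 : p ≠ 2) (m : ℤ) (hm : ¬ (p : ℤ) ∣ m)
    (hsq : IsSquare (m : ZMod p)) : ∃ t : ℤ_[p], (m : ℤ_[p]) * t ^ 2 = 1 := by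
  have hp : p.Prime := Fact.out
  obtain ⟨c, hc⟩ := hsq
  have hm0 : (m : ZMod p) ≠ 0 := by
    rw [Ne, ZMod.intCast_zmod_eq_zero_iff_dvd]
    exact hm
  have hc0 : c ≠ 0 := by
    rintro rfl
    exact hm0 (by rw [hc, mul_zero])
  let e : ℤ_[p] := ((c⁻¹).val : ℕ)
  have he : (PadicInt.toZMod e : ZMod p) = c⁻¹ := by
    simp [e]
  let G : Polynomial ℤ_[p] := Polynomial.C (m : ℤ_[p]) * Polynomial.X ^ 2 - 1
  have hG : ∀ x : ℤ_[p], Polynomial.aeval x G = (m : ℤ_[p]) * x ^ 2 - 1 := by
    intro x
    simp [G]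
  have hG' : ∀ x : ℤ_[p], Polynomial.aeval x (Polynomial.derivative G) = 2 * (m : ℤ_[p]) * x := by
    intro x
    simp [G]
    ring
  have h1 : ‖Polynomial.aeval e G‖ < 1 := by
    rw [hG, PadicInt.norm_lt_one_iff_dvd, ← Ideal.mem_span_singleton, ← PadicInt.maximalIdeal_eq_span_p,
      ← PadicInt.ker_toZMod, RingHom.mem_ker]
    simp only [map_sub, map_mul, map_pow, he, map_one, map_intCast]
    rw [hc]
    field_simp
    ring
  have h2 : ‖Polynomial.aeval e (Polynomial.derivative G)‖ = 1 := by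
    have h3 : ¬ ‖Polynomial.aeval e (Polynomial.derivative G)‖ < 1 := by
      rw [hG', PadicInt.norm_lt_one_iff_dvd, ← Ideal.mem_span_singleton,
        ← PadicInt.maximalIdeal_eq_span_p, ← PadicInt.ker_toZMod, RingHom.mem_ker]
      simp only [map_mul, he, map_intCast, map_ofNat]
      have h20 : (2 : ZMod p) ≠ 0 := by
        intro h
        have : (p : ℕ) ∣ 2 := by
          rw [← ZMod.natCast_eq_zero_iff]
          exact_mod_cast h
        exact hp2 ((Nat.prime_dvd_prime_iff_eq hp Nat.prime_two).1 this)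
      exact mul_ne_zero (mul_ne_zero h20 hm0) (inv_ne_zero hc0)
    exact le_antisymm (PadicInt.norm_le_one _) (not_lt.1 h3)
  obtain ⟨z, hz, -⟩ := hensels_lemma (p := p) (F := G) (a := e) (by rw [h2]; simpa using h1)
  refine ⟨z, ?_⟩
  rw [hG] at hz
  linear_combination hz

end LI2

open LI2 in
/-- (LI2) the square roots of the squarefree integers in the `p`-adic integers are linearly independent -/
theorem li2 : S_LI2 := by
  classical
  intro Y p _ hp2
  have hmem : ∀ g ∈ Gs Y p, Squarefree g ∧ ¬ (p : ℤ) ∣ g ∧ IsSquare (g : ZMod p) := by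
    intro g hg
    unfold Gs at hg
    simp only [mem_filter] at hg
    exact hg.2
  have hex : ∀ g : ℤ, ∃ t : ℤ_[p], g ∈ Gs Y p → (g : ℤ_[p]) * t ^ 2 = 1 := by
    intro g
    by_cases hg : g ∈ Gs Y p
    · obtain ⟨t, ht⟩ := exists_root p hp2 g (hmem g hg).2.1 (hmem g hg).2.2
      exact ⟨t, fun _ => ht⟩
    · exact ⟨0, fun h => absurd h hg⟩
  choose ρ hρ using hex
  refine ⟨ρ, hρ, ?_⟩
  intro h hsum g hg
  have h1 : ∑ g ∈ Gs Y p, (((h g : ℚ)) : ℚ_[p]) * ((ρ g : ℤ_[p]) : ℚ_[p]) = 0 := by
    have h1 := congrArg (PadicInt.Coe.ringHom (p := p)) hsum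
    rw [map_sum, map_zero] at h1
    simp only [map_mul, map_intCast] at h1
    push_cast
    exact h1
  have h2 := indep (K := ℚ_[p]) (fun g : ℤ => ((ρ g : ℤ_[p]) : ℚ_[p])) (fun g : ℤ => ((g : ℚ))⁻¹) (Gs Y p).card
    (Gs Y p) rfl ?_ ?_ ?_ (fun g => (h g : ℚ)) h1 g hg
  · exact_mod_cast h2
  · intro k hk
    have h3 := hρ k hk
    have h4 := congrArg (fun x : ℤ_[p] => (x : ℚ_[p])) h3
    push_cast at h4
    have hk0 : (k : ℚ_[p]) ≠ 0 := by exact_mod_cast (hmem k hk).1.ne_zero
    push_cast
    exact eq_inv_of_mul_eq_one_left (by linear_combination h4)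
  · intro k hk
    have : (k : ℚ) ≠ 0 := by exact_mod_cast (hmem k hk).1.ne_zero
    exact inv_ne_zero this
  · intro k hk k' hk' hne hs
    apply hne
    apply sf_int k k' (hmem k hk).1 (hmem k' hk').1
    obtain ⟨r, hr⟩ := hs
    have hk0 : (k : ℚ) ≠ 0 := by exact_mod_cast (hmem k hk).1.ne_zero
    have hk0' : (k' : ℚ) ≠ 0 := by exact_mod_cast (hmem k' hk').1.ne_zero
    refine ⟨k * r, ?_⟩
    field_simp at hr
    rw [hr]
    ring

end Pool.Agent.Y821.ME
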