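import Pool.Agent.Y821.ME.Stm

/-!
# Project ME: the functional equation (`S_PAIR`)
-/

set_option autoImplicit false

open Filter Topology MeasureTheory Finset

namespace Pool.Agent.Y821.ME

private lemma pm_meas (c : ℕ → ℂ) : Measurable (Mx c) := by
  have h1 : Measurable (fun n : ℕ => ∑ n ∈ Icc 1 n, mu n * c n) := measurable_from_nat
  exact h1.comp Nat.measurable_floor

private lemma pm_zero (c : ℕ → ℂ) (v : ℝ) (hv : v < 1) : Mx c v = 0 := by
  unfold Mx
  have : ⌊v⌋₊ = 0 := Nat.floor_eq_zero.mpr hv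
  rw [this]
  simp

/-- the transform of `aF` for a character -/
private lemma pm_key (hlap : S_LAP) (hlfn : S_LFN) (q : ℕ) [NeZero q] (ψ : DirichletCharacter ℂ q)
    (hψ : ψ ≠ 1) (lam B : ℝ) (hB : ∀ v, 1 ≤ v → ‖Mx (fun n => ψ n) v‖ ≤ B * Real.sqrt v) (z : ℂ)
    (h0 : 0 < z.re) (h1 : z.re < 1 / 4) :
    DirichletCharacter.LFunction ψ (1 / 2 + z) ≠ 0 ∧
      ∫ u : ℝ, aF lam (Mx (fun n => ψ n)) u * Complex.exp (-z * u) =
        (DirichletCharacter.LFunction ψ (1 / 2 + z) * Complex.exp (lam * (1 / 2 + z)) *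
          (Complex.Gamma ((1 / 2 - z) / 2))⁻¹)⁻¹ := by
  have hs : 1 / 2 < (1 / 2 + z).re := by
    rw [Complex.add_re]
    have : ((1 : ℂ) / 2).re = 1 / 2 := by norm_num
    rw [this]
    linarith
  have h2 := hlfn q ψ hψ ⟨B, hB⟩ (1 / 2 + z) hs
  have hL : DirichletCharacter.LFunction ψ (1 / 2 + z) ≠ 0 := by
    intro h3
    rw [h3, zero_mul] at h2
    exact zero_ne_one h2
  refine ⟨hL, ?_⟩
  obtain ⟨-, -, -, h3⟩ := hlap lam B (Mx (fun n => ψ n)) (pm_meas _) (pm_zero _) hB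
  rw [h3 z h0 (by linarith)]
  have h4 : (-(1 / 2 + z + 1) : ℂ) = -(3 / 2 + z) := by ring
  rw [h4] at h2
  have h5 : (1 / 2 + z) * ∫ v in Set.Ioi (1 : ℝ), Mx (fun n => ψ n) v * (v : ℂ) ^ (-(3 / 2 + z)) =
      (DirichletCharacter.LFunction ψ (1 / 2 + z))⁻¹ := by
    exact eq_inv_of_mul_eq_one_right h2
  calc Complex.exp (-lam * (1 / 2 + z)) * ((1 / 2 + z) * Complex.Gamma ((1 / 2 - z) / 2)) *
        ∫ v in Set.Ioi (1 : ℝ), Mx (fun n => ψ n) v * (v : ℂ) ^ (-(3 / 2 + z))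
      = Complex.exp (-lam * (1 / 2 + z)) * Complex.Gamma ((1 / 2 - z) / 2) *
          ((1 / 2 + z) *
            ∫ v in Set.Ioi (1 : ℝ), Mx (fun n => ψ n) v * (v : ℂ) ^ (-(3 / 2 + z))) := by ring
    _ = (DirichletCharacter.LFunction ψ (1 / 2 + z) * Complex.exp (lam * (1 / 2 + z)) *
          (Complex.Gamma ((1 / 2 - z) / 2))⁻¹)⁻¹ := by
        rw [h5, mul_inv, mul_inv, inv_inv, ← Complex.exp_neg, neg_mul]
        ring

/-- the functional equation -/
private lemma pm_feq (q : ℕ) [NeZero q] (χ : DirichletCharacter ℂ q) (hq : 2 ≤ q)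
    (hχ : χ.IsPrimitive) (he : χ.Even) (z : ℂ) (h0 : 0 < z.re) (h1 : z.re < 1 / 4) :
    DirichletCharacter.LFunction χ (1 / 2 - z) * Complex.Gamma ((1 / 2 - z) / 2) =
      Complex.exp (2 * (Real.log (q / Real.pi) / 2 : ℝ) * z) * DirichletCharacter.rootNumber χ *
        DirichletCharacter.LFunction χ⁻¹ (1 / 2 + z) * Complex.Gamma ((1 / 2 + z) / 2) := by
  have hq1 : q ≠ 1 := by omega
  have he' : (χ⁻¹).Even := by
    show χ⁻¹ (-1) = 1
    rw [MulChar.inv_apply_eq_inv']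
    have : χ (-1) = 1 := he
    rw [this, inv_one]
  have hr1 : 0 < ((1 : ℂ) / 2 - z).re := by
    rw [Complex.sub_re]
    have : ((1 : ℂ) / 2).re = 1 / 2 := by norm_num
    rw [this]
    linarith
  have hr2 : 0 < ((1 : ℂ) / 2 + z).re := by
    rw [Complex.add_re]
    have : ((1 : ℂ) / 2).re = 1 / 2 := by norm_num
    rw [this]
    linarith
  have hg1 := Complex.Gammaℝ_ne_zero_of_re_pos hr1
  have hg2 := Complex.Gammaℝ_ne_zero_of_re_pos hr2
  have e1 := DirichletCharacter.LFunction_eq_completed_div_gammaFactor χ (1 / 2 - z) (Or.inr hq1)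
  have e2 := DirichletCharacter.LFunction_eq_completed_div_gammaFactor χ⁻¹ (1 / 2 + z) (Or.inr hq1)
  rw [he.gammaFactor_def, eq_div_iff hg1] at e1
  rw [he'.gammaFactor_def, eq_div_iff hg2] at e2
  have e3 := hχ.completedLFunction_one_sub (1 / 2 + z)
  have e4 : (1 : ℂ) - (1 / 2 + z) = 1 / 2 - z := by ring
  have e5 : (1 : ℂ) / 2 + z - 1 / 2 = z := by ring
  rw [e4, e5, ← e1, ← e2, Complex.Gammaℝ_def, Complex.Gammaℝ_def] at e3
  -- the powers
  have hπ : (Real.pi : ℂ) ≠ 0 := by exact_mod_cast Real.pi_ne_zero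
  have hqc : (q : ℂ) ≠ 0 := Nat.cast_ne_zero.mpr (NeZero.ne q)
  have hq0 : (0 : ℝ) < q := by exact_mod_cast Nat.pos_of_ne_zero (NeZero.ne q)
  have hlq : Complex.log (q : ℂ) = (Real.log q : ℂ) := by
    rw [← Complex.ofReal_natCast, Complex.ofReal_log hq0.le]
  have hlπ : Complex.log (Real.pi : ℂ) = (Real.log Real.pi : ℂ) := by
    rw [Complex.ofReal_log Real.pi_pos.le]
  rw [Complex.cpow_def_of_ne_zero hπ, Complex.cpow_def_of_ne_zero hπ,
    Complex.cpow_def_of_ne_zero hqc, hlq, hlπ] at e3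
  set L1 := DirichletCharacter.LFunction χ (1 / 2 - z)
  set L2 := DirichletCharacter.LFunction χ⁻¹ (1 / 2 + z)
  set G1 := Complex.Gamma ((1 / 2 - z) / 2)
  set G2 := Complex.Gamma ((1 / 2 + z) / 2)
  set W := DirichletCharacter.rootNumber χ
  set lq : ℂ := (Real.log q : ℂ)
  set lp : ℂ := (Real.log Real.pi : ℂ)
  have hlog : (2 * (Real.log (q / Real.pi) / 2 : ℝ) * z : ℂ) = (lq - lp) * z := by
    rw [Real.log_div hq0.ne' Real.pi_ne_zero, Complex.ofReal_div, Complex.ofReal_sub,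
      Complex.ofReal_ofNat]
    ring
  rw [hlog]
  have hE : Complex.exp ((lq - lp) * z) * Complex.exp (lp * (-(1 / 2 - z) / 2)) =
      Complex.exp (lq * z) * Complex.exp (lp * (-(1 / 2 + z) / 2)) := by
    rw [← Complex.exp_add, ← Complex.exp_add]
    congr 1
    ring
  have hne : Complex.exp (lp * (-(1 / 2 - z) / 2)) ≠ 0 := Complex.exp_ne_zero _
  apply mul_left_cancel₀ hne
  calc Complex.exp (lp * (-(1 / 2 - z) / 2)) * (L1 * G1)
      = L1 * (Complex.exp (lp * (-(1 / 2 - z) / 2)) * G1) := by ring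
    _ = Complex.exp (lq * z) * W * (L2 * (Complex.exp (lp * (-(1 / 2 + z) / 2)) * G2)) := e3
    _ = (Complex.exp (lq * z) * Complex.exp (lp * (-(1 / 2 + z) / 2))) * W * L2 * G2 := by ring
    _ = Complex.exp (lp * (-(1 / 2 - z) / 2)) * (Complex.exp ((lq - lp) * z) * W * L2 * G2) := by
        rw [← hE]; ring

theorem pairM (hlap : S_LAP) (hlfn : S_LFN) : S_PAIR := by
  intro q _ χ hq hχ he hB
  obtain ⟨B, hB⟩ := hB
  have hB1 : ∀ v, 1 ≤ v → ‖Mx (fun n => χ n) v‖ ≤ B * Real.sqrt v := fun v hv => (hB v hv).1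
  have hB2 : ∀ v, 1 ≤ v → ‖Mx (fun n => χ⁻¹ n) v‖ ≤ B * Real.sqrt v := fun v hv => (hB v hv).2
  have hχ1 : χ ≠ 1 := by
    rintro rfl
    have h1 : (1 : DirichletCharacter ℂ q).conductor = q := hχ
    rw [DirichletCharacter.conductor_one] at h1
    omega
  have hχ1' : χ⁻¹ ≠ 1 := fun h => hχ1 (inv_eq_one.mp h)
  set lam : ℝ := Real.log (q / Real.pi) / 2 with hlam
  set W := DirichletCharacter.rootNumber χ with hW
  obtain ⟨ca, -, ⟨Ba, hBa⟩, -⟩ := hlap lam B (Mx (fun n => χ n)) (pm_meas _) (pm_zero _) hB1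
  obtain ⟨cb, -, ⟨Bb, hBb⟩, -⟩ := hlap lam B (Mx (fun n => χ⁻¹ n)) (pm_meas _) (pm_zero _) hB2
  -- the root number is not zero
  have hWne : W ≠ 0 := by
    intro h0
    have h1 := hχ.completedLFunction_one_sub 0
    rw [← hW, h0, mul_zero, zero_mul, sub_zero] at h1
    have h2 := DirichletCharacter.LFunction_eq_completed_div_gammaFactor χ 1 (Or.inl one_ne_zero)
    rw [h1, zero_div] at h2
    have h3 := hlfn q χ hχ1 ⟨B, hB1⟩ 1 (by norm_num)
    rw [h2, zero_mul] at h3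
    exact zero_ne_one h3
  refine ⟨ca, continuous_const.mul cb, ⟨|Ba| + ‖W⁻¹‖ * |Bb|, fun u => ?_⟩, ?_⟩
  · have hE := Real.exp_pos (u / 2)
    have h1 : Ba ≤ |Ba| + ‖W⁻¹‖ * |Bb| := by
      have := le_abs_self Ba
      have : 0 ≤ ‖W⁻¹‖ * |Bb| := by positivity
      linarith
    have h2 : ‖W⁻¹‖ * Bb ≤ |Ba| + ‖W⁻¹‖ * |Bb| := by
      have := mul_le_mul_of_nonneg_left (le_abs_self Bb) (norm_nonneg W⁻¹)
      have := abs_nonneg Ba
      linarith
    have h3 : ‖W⁻¹ * aF lam (Mx (fun n => χ⁻¹ n)) u‖ ≤ ‖W⁻¹‖ * Bb := by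
      rw [norm_mul]
      exact mul_le_mul_of_nonneg_left (hBb u).1 (norm_nonneg _)
    have h4 : ‖W⁻¹ * aF lam (Mx (fun n => χ⁻¹ n)) u‖ ≤ ‖W⁻¹‖ * Bb * Real.exp (u / 2) := by
      rw [norm_mul, mul_assoc]
      exact mul_le_mul_of_nonneg_left (hBb u).2 (norm_nonneg _)
    exact ⟨(hBa u).1.trans h1, (hBa u).2.trans (mul_le_mul_of_nonneg_right h1 hE.le),
      h3.trans h2, h4.trans (mul_le_mul_of_nonneg_right h2 hE.le)⟩
  · refine ⟨fun z => DirichletCharacter.LFunction χ (1 / 2 + z) *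
      Complex.exp (lam * (1 / 2 + z)) * (Complex.Gamma ((1 / 2 - z) / 2))⁻¹, ?_, ?_⟩
    · intro z _
      apply Differentiable.analyticAt
      have hL := DirichletCharacter.differentiable_LFunction hχ1
      have hG := Complex.differentiable_one_div_Gamma
      refine Differentiable.mul (Differentiable.mul ?_ ?_) ?_
      · exact hL.comp (by fun_prop)
      · fun_prop
      · exact hG.comp (f := fun z : ℂ => (1 / 2 - z) / 2) (by fun_prop)
    · intro z h0 h1
      obtain ⟨k1, k2⟩ := pm_key hlap hlfn q χ hχ1 lam B hB1 z h0 h1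
      obtain ⟨k3, k4⟩ := pm_key hlap hlfn q χ⁻¹ hχ1' lam B hB2 z h0 h1
      have hfe := pm_feq q χ hq hχ he z h0 h1
      rw [← hlam, ← hW] at hfe
      have hg1 : Complex.Gamma ((1 / 2 - z) / 2) ≠ 0 := by
        apply Complex.Gamma_ne_zero_of_re_pos
        have : (((1 : ℂ) / 2 - z) / 2).re = (1 / 2 - z.re) / 2 := by simp
        rw [this]
        linarith
      have hg2 : Complex.Gamma ((1 / 2 + z) / 2) ≠ 0 := by
        apply Complex.Gamma_ne_zero_of_re_pos
        have : (((1 : ℂ) / 2 + z) / 2).re = (1 / 2 + z.re) / 2 := by simp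
        rw [this]
        linarith
      have hneg : DirichletCharacter.LFunction χ (1 / 2 + -z) * Complex.exp (lam * (1 / 2 + -z)) *
          (Complex.Gamma ((1 / 2 - -z) / 2))⁻¹ =
          W * (DirichletCharacter.LFunction χ⁻¹ (1 / 2 + z) * Complex.exp (lam * (1 / 2 + z)) *
            (Complex.Gamma ((1 / 2 - z) / 2))⁻¹) := by
        rw [← sub_eq_add_neg, sub_neg_eq_add]
        have hE : Complex.exp (2 * lam * z) * Complex.exp (lam * (1 / 2 - z)) =
            Complex.exp (lam * (1 / 2 + z)) := by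
          rw [← Complex.exp_add]
          congr 1
          ring
        have h5 : DirichletCharacter.LFunction χ (1 / 2 - z) =
            Complex.exp (2 * lam * z) * W * DirichletCharacter.LFunction χ⁻¹ (1 / 2 + z) *
              Complex.Gamma ((1 / 2 + z) / 2) * (Complex.Gamma ((1 / 2 - z) / 2))⁻¹ := by
          rw [eq_mul_inv_iff_mul_eq₀ hg1]
          exact hfe
        rw [h5, ← hE]
        have h6 : Complex.Gamma ((1 / 2 + z) / 2) * (Complex.Gamma ((1 / 2 + z) / 2))⁻¹ = 1 :=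
          mul_inv_cancel₀ hg2
        linear_combination (Complex.exp (2 * lam * z) * W *
          DirichletCharacter.LFunction χ⁻¹ (1 / 2 + z) * (Complex.Gamma ((1 / 2 - z) / 2))⁻¹ *
          Complex.exp (lam * (1 / 2 - z))) * h6
      refine ⟨?_, ?_, k2, ?_⟩
      · exact mul_ne_zero (mul_ne_zero k1 (Complex.exp_ne_zero _)) (inv_ne_zero hg1)
      · show DirichletCharacter.LFunction χ (1 / 2 + -z) * Complex.exp (lam * (1 / 2 + -z)) *
          (Complex.Gamma ((1 / 2 - -z) / 2))⁻¹ ≠ 0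
        rw [hneg]
        exact mul_ne_zero hWne
          (mul_ne_zero (mul_ne_zero k3 (Complex.exp_ne_zero _)) (inv_ne_zero hg1))
      · show _ = (DirichletCharacter.LFunction χ (1 / 2 + -z) *
          Complex.exp (lam * (1 / 2 + -z)) * (Complex.Gamma ((1 / 2 - -z) / 2))⁻¹)⁻¹
        rw [hneg, mul_inv W, ← k4, ← integral_const_mul]
        congr 1
        funext u
        ring

end Pool.Agent.Y821.ME
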