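import Pool.Agent.Y821.ME.Stm

/-!
# Project ME: a prime for which all small integers are quadratic residues
-/

set_option autoImplicit false

namespace Pool.Agent.Y821.ME

theorem pr_prime {Y p : ℕ} [Fact p.Prime] (h4 : p % 4 = 3) (h8 : p % 8 = 7) (hY : Y < p)
    (hl : ∀ l : ℕ, 1 ≤ l → l ≤ Y → (p : ZMod l) = -1) (l : ℕ) (hlp : l.Prime) (hlY : l ≤ Y) :
    IsSquare (l : ZMod p) := by
  have : Fact l.Prime := ⟨hlp⟩
  have h1 := hl l hlp.one_lt.le hlY
  have hp2 : p ≠ 2 := by rintro rfl; omega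
  have hne : l ≠ p := by omega
  rcases hlp.eq_two_or_odd with rfl | hodd
  · have := (ZMod.exists_sq_eq_two_iff hp2).2 (Or.inr h8)
    exact_mod_cast this
  · have h3 : l % 4 = 1 ∨ l % 4 = 3 := by omega
    rcases h3 with h3 | h3
    · rw [← ZMod.exists_sq_eq_prime_iff_of_mod_four_eq_one h3 hp2, h1,
        ZMod.exists_sq_eq_neg_one_iff]
      omega
    · rw [ZMod.exists_sq_eq_prime_iff_of_mod_four_eq_three h4 h3 hne.symm, h1,
        ZMod.exists_sq_eq_neg_one_iff]
      omega

theorem pr : S_PR := by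
  intro Y
  have hq0 : 8 * Y.factorial ≠ 0 := by positivity
  have : NeZero (8 * Y.factorial) := ⟨hq0⟩
  obtain ⟨p, hpY, hp, hpm⟩ :=
    Nat.forall_exists_prime_gt_and_eq_mod (q := 8 * Y.factorial) (a := -1) isUnit_one.neg Y
  have : Fact p.Prime := ⟨hp⟩
  have hd : 8 * Y.factorial ∣ p + 1 := by
    rw [← ZMod.natCast_eq_zero_iff]
    push_cast
    rw [hpm]
    ring
  have hd8 : 8 ∣ p + 1 := (Dvd.intro _ rfl).trans hd
  have h8 : p % 8 = 7 := by omega
  have h4 : p % 4 = 3 := by omega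
  have hl : ∀ l : ℕ, 1 ≤ l → l ≤ Y → (p : ZMod l) = -1 := by
    intro l h1 h2
    have h3 : l ∣ p + 1 := ((Nat.dvd_factorial h1 h2).trans (Dvd.intro_left _ rfl)).trans hd
    have h5 : ((p + 1 : ℕ) : ZMod l) = 0 := (ZMod.natCast_eq_zero_iff _ _).2 h3
    push_cast at h5
    exact eq_neg_of_add_eq_zero_left h5
  refine ⟨p, hp, h4, hpY, ?_⟩
  intro m
  induction m using Nat.strong_induction_on with
  | _ m ih =>
    intro h1 h2
    rcases Nat.eq_or_lt_of_le h1 with h3 | h3
    · rw [← h3, Nat.cast_one]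
      exact IsSquare.one
    · have h5 : m.minFac.Prime := Nat.minFac_prime (by omega)
      obtain ⟨k, hk⟩ := Nat.minFac_dvd m
      have hk0 : 0 < k := by
        rcases Nat.eq_zero_or_pos k with h | h
        · rw [h] at hk; omega
        · exact h
      have hkm : k < m := by
        have := h5.two_le
        nlinarith
      have h6 : IsSquare (k : ZMod p) := ih k hkm hk0 (by omega)
      have h7 : IsSquare (m.minFac : ZMod p) :=
        pr_prime h4 h8 hpY hl _ h5 ((Nat.minFac_le (by omega)).trans h2)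
      rw [hk, Nat.cast_mul]
      exact h7.mul h6

end Pool.Agent.Y821.ME
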