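import Pool.Agent.Y821.ME.Stm2

/-!
# Project ME, second version: Riesz products modulo `p ^ (2l)` for all large `l`

`theorem rz2 (hli : S_LI2) : S_RZ2`.
-/

set_option autoImplicit false

open Filter Topology MeasureTheory Finset

namespace Pool.Agent.Y821.ME

namespace RZ2

/-- a nonzero `p`-adic integer is not divisible by a high power of `p` -/
lemma exists_not_dvd (p : ℕ) [Fact p.Prime] (x : ℤ_[p]) (hx : x ≠ 0) :
    ∃ n : ℕ, ¬ ((p : ℤ_[p]) ^ n ∣ x) := by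
  refine ⟨x.valuation + 1, fun h => ?_⟩
  have h1 : x ∈ Ideal.span {(p : ℤ_[p]) ^ (x.valuation + 1)} := Ideal.mem_span_singleton.mpr h
  rw [PadicInt.mem_span_pow_iff_le_valuation x hx] at h1
  omega

/-- uniform non-divisibility -/
lemma uniform (p : ℕ) [Fact p.Prime] (SF : Finset ℤ) (ρ : ℤ → ℤ_[p])
    (hρ : ∀ h : ℤ → ℤ, ∑ m ∈ SF, (h m : ℤ_[p]) * ρ m = 0 → ∀ m ∈ SF, h m = 0) :
    ∃ n0 : ℕ, ∀ h : ℤ → ℤ, (∀ m ∈ SF, |h m| ≤ 2) → (∃ m ∈ SF, h m ≠ 0) →
      ¬ ((p : ℤ_[p]) ^ n0 ∣ 2 * ∑ m ∈ SF, (h m : ℤ_[p]) * ρ m) := by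
  classical
  let val : (↥SF → ℤ) → ℤ_[p] := fun g => 2 * ∑ m : ↥SF, (g m : ℤ_[p]) * ρ m
  let n : (↥SF → ℤ) → ℕ := fun g =>
    if h : ∃ n, ¬ ((p : ℤ_[p]) ^ n ∣ val g) then h.choose else 0
  have hT : Set.Finite {g : ↥SF → ℤ | ∀ m, g m ∈ Set.Icc (-2 : ℤ) 2} :=
    Set.Finite.pi' (fun _ => Set.finite_Icc _ _)
  obtain ⟨M, hM⟩ := (hT.image n).bddAbove
  refine ⟨M, fun h hb hne hd => ?_⟩
  have hval : val (fun m => h m) = 2 * ∑ m ∈ SF, (h m : ℤ_[p]) * ρ m := by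
    simp only [val]
    congr 1
    exact Finset.sum_coe_sort SF (fun m => (h m : ℤ_[p]) * ρ m)
  have hv0 : val (fun m => h m) ≠ 0 := by
    rw [hval]
    intro h0
    have h2 : (2 : ℤ_[p]) ≠ 0 := two_ne_zero
    have h1 := (mul_eq_zero.mp h0).resolve_left h2
    obtain ⟨m, hm, hm0⟩ := hne
    exact hm0 (hρ h h1 m hm)
  have hex := exists_not_dvd p _ hv0
  have hn : ¬ ((p : ℤ_[p]) ^ (n (fun m => h m)) ∣ val (fun m => h m)) := by
    simp only [n]
    rw [dif_pos hex]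
    exact hex.choose_spec
  apply hn
  have hle : n (fun m => h m) ≤ M := by
    apply hM
    refine ⟨_, ?_, rfl⟩
    intro m
    have := hb m m.2
    rw [abs_le] at this
    exact this
  rw [hval]
  exact (pow_dvd_pow _ hle).trans hd

/-- reduction modulo `p ^ (2l)` -/
lemma dvd_of_mul_eq_zero (p l : ℕ) [Fact p.Prime] (hl : 1 ≤ l) (x : ℤ_[p])
    (h : (p : ZMod (p ^ (2 * l))) * PadicInt.toZModPow (2 * l) x = 0) :
    (p : ℤ_[p]) ^ (2 * l - 1) ∣ x := by
  have h1 : PadicInt.toZModPow (2 * l) ((p : ℤ_[p]) * x) = 0 := by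
    rw [map_mul, map_natCast]; exact h
  have h2 : (p : ℤ_[p]) * x ∈ RingHom.ker (PadicInt.toZModPow (p := p) (2 * l)) := h1
  rw [PadicInt.ker_toZModPow, Ideal.mem_span_singleton] at h2
  have hp0 : (p : ℤ_[p]) ≠ 0 := by
    have := (Fact.out : p.Prime).ne_zero
    exact_mod_cast this
  have h3 : (p : ℤ_[p]) ^ (2 * l) = (p : ℤ_[p]) * (p : ℤ_[p]) ^ (2 * l - 1) := by
    rw [← pow_succ']
    congr 1
    omega
  rw [h3] at h2
  exact (mul_dvd_mul_iff_left hp0).mp h2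

/-- the character sum over the units vanishes -/
lemma sum_units_eq_zero (p l : ℕ) [Fact p.Prime] (t : ZMod (p ^ (2 * l)))
    (ht : (p : ZMod (p ^ (2 * l))) * t ≠ 0) :
    ∑ b : (ZMod (p ^ (2 * l)))ˣ, ee (p ^ (2 * l)) ((b : ZMod (p ^ (2 * l))) * t) = 0 := by
  have hnil : IsNilpotent (p : ZMod (p ^ (2 * l))) := by
    refine ⟨2 * l, ?_⟩
    have : ((p ^ (2 * l) : ℕ) : ZMod (p ^ (2 * l))) = 0 := ZMod.natCast_self _
    rw [Nat.cast_pow] at this
    exact this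
  have hu : ∀ b : (ZMod (p ^ (2 * l)))ˣ, IsUnit ((b : ZMod (p ^ (2 * l))) + p) := fun b =>
    hnil.isUnit_add_left_of_commute b.isUnit (Commute.all _ _)
  let σ : (ZMod (p ^ (2 * l)))ˣ → (ZMod (p ^ (2 * l)))ˣ := fun b => (hu b).unit
  have hσ : ∀ b, ((σ b : (ZMod (p ^ (2 * l)))ˣ) : ZMod (p ^ (2 * l))) = b + p := fun b => rfl
  have hinj : Function.Injective σ := by
    intro a b hab
    have h1 : ((σ a : (ZMod (p ^ (2 * l)))ˣ) : ZMod (p ^ (2 * l))) = σ b := by rw [hab]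
    rw [hσ, hσ] at h1
    exact Units.ext (add_right_cancel h1)
  have hbij : Function.Bijective σ := Finite.injective_iff_bijective.mp hinj
  have hsum := hbij.sum_comp (fun b : (ZMod (p ^ (2 * l)))ˣ =>
    ee (p ^ (2 * l)) ((b : ZMod (p ^ (2 * l))) * t))
  have h2 : ∀ b : (ZMod (p ^ (2 * l)))ˣ,
      ee (p ^ (2 * l)) (((σ b : (ZMod (p ^ (2 * l)))ˣ) : ZMod (p ^ (2 * l))) * t) =
        ee (p ^ (2 * l)) ((b : ZMod (p ^ (2 * l))) * t) * ee (p ^ (2 * l)) ((p : ZMod (p ^ (2 * l))) * t) := by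
    intro b
    rw [hσ, add_mul]
    simp only [ee]
    rw [AddChar.map_add_eq_mul]
  simp only [h2] at hsum
  rw [← Finset.sum_mul] at hsum
  have hne : ee (p ^ (2 * l)) ((p : ZMod (p ^ (2 * l))) * t) ≠ 1 := by
    intro h1
    apply ht
    apply ZMod.injective_stdAddChar (N := p ^ (2 * l))
    rw [AddChar.map_zero_eq_one]
    exact h1
  have h3 : (∑ b : (ZMod (p ^ (2 * l)))ˣ, ee (p ^ (2 * l)) ((b : ZMod (p ^ (2 * l))) * t)) *
      (ee (p ^ (2 * l)) ((p : ZMod (p ^ (2 * l))) * t) - 1) = 0 := by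
    rw [mul_sub, hsum]; ring
  rcases mul_eq_zero.mp h3 with h | h
  · exact h
  · exact absurd (sub_eq_zero.mp h) hne

/-- the factor -/
noncomputable def fac (q : ℕ) [NeZero q] (R : ℤ → ZMod q) (ν : ℤ → ℂ) (b : ZMod q) (j : ℤ) : ℂ :=
  1 + ν j / 2 * (ee q (2 * b * R j) + ee q (-(2 * b * R j)))

open Classical in
/-- the coefficient -/
noncomputable def cc (ν : ℤ → ℂ) (S : Finset ℤ) (m : ℤ) (x : ℤ) : ℂ :=
  if x = 0 then 1 else if m ∈ S ∧ |x| = 1 then ν m / 2 else 0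

/-- the product formula -/
lemma riesz (p l : ℕ) [Fact p.Prime] (SF : Finset ℤ) (R : ℤ → ZMod (p ^ (2 * l))) (ν : ℤ → ℂ)
    (hR : ∀ h : ℤ → ℤ, (∀ m ∈ SF, |h m| ≤ 2) → (∃ m ∈ SF, h m ≠ 0) →
      (p : ZMod (p ^ (2 * l))) * (2 * ∑ m ∈ SF, (h m : ZMod (p ^ (2 * l))) * R m) ≠ 0)
    (S : Finset ℤ) : S ⊆ SF → ∀ g : ℤ → ℤ, (∀ m ∈ SF, |g m| ≤ 2) → (∀ m ∈ S, |g m| ≤ 1) →
    ∑ b : (ZMod (p ^ (2 * l)))ˣ, (∏ j ∈ S, fac (p ^ (2 * l)) R ν (b : ZMod (p ^ (2 * l))) j) *
        ee (p ^ (2 * l)) ((b : ZMod (p ^ (2 * l))) * (2 * ∑ m ∈ SF, (g m : ZMod (p ^ (2 * l))) * R m)) =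
      (Fintype.card (ZMod (p ^ (2 * l)))ˣ : ℂ) * ∏ m ∈ SF, cc ν S m (g m) := by
  classical
  induction S using Finset.induction_on with
  | empty =>
    intro _ g hg _
    by_cases h0 : ∃ m ∈ SF, g m ≠ 0
    · have h1 := sum_units_eq_zero p l _ (hR g hg h0)
      simp only [Finset.prod_empty, one_mul]
      rw [h1]
      obtain ⟨m, hm, hm0⟩ := h0
      rw [Finset.prod_eq_zero hm, mul_zero]
      simp [cc, hm0]
    · push Not at h0
      have h1 : ∑ m ∈ SF, (g m : ZMod (p ^ (2 * l))) * R m = 0 := by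
        apply Finset.sum_eq_zero
        intro m hm
        rw [h0 m hm]; simp
      have h2 : ∏ m ∈ SF, cc ν ∅ m (g m) = 1 := by
        apply Finset.prod_eq_one
        intro m hm
        simp [cc, h0 m hm]
      rw [h1, h2]
      simp [ee]
  | insert j S hj ih =>
    intro hS g hg hg1
    have hjSF : j ∈ SF := hS (Finset.mem_insert_self j S)
    have hS' : S ⊆ SF := fun x hx => hS (Finset.mem_insert_of_mem hx)
    have hgj : |g j| ≤ 1 := hg1 j (Finset.mem_insert_self j S)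
    -- the three functions
    have hup : ∀ (e : ℤ), |e| ≤ 1 → 
        (∀ m ∈ SF, |(Function.update g j (g j + e)) m| ≤ 2) ∧
        (∀ m ∈ S, |(Function.update g j (g j + e)) m| ≤ 1) ∧
        (∑ m ∈ SF, ((Function.update g j (g j + e)) m : ZMod (p ^ (2 * l))) * R m =
          ∑ m ∈ SF, (g m : ZMod (p ^ (2 * l))) * R m + e * R j) := by
      intro e he
      refine ⟨?_, ?_, ?_⟩
      · intro m hm
        by_cases hmj : m = j
        · subst hmj
          rw [Function.update_self]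
          calc |g m + e| ≤ |g m| + |e| := abs_add_le _ _
            _ ≤ 2 := by linarith
        · rw [Function.update_of_ne hmj]; exact hg m hm
      · intro m hm
        have hmj : m ≠ j := fun h => hj (h ▸ hm)
        rw [Function.update_of_ne hmj]
        exact hg1 m (Finset.mem_insert_of_mem hm)
      · rw [← Finset.add_sum_erase SF _ hjSF, ← Finset.add_sum_erase SF _ hjSF]
        rw [Function.update_self]
        have : ∑ x ∈ SF.erase j, ((Function.update g j (g j + e)) x : ZMod (p ^ (2 * l))) * R x =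
            ∑ x ∈ SF.erase j, (g x : ZMod (p ^ (2 * l))) * R x := by
          apply Finset.sum_congr rfl
          intro x hx
          rw [Function.update_of_ne (Finset.ne_of_mem_erase hx)]
        rw [this]
        push_cast
        ring
    have hprod : ∀ (S' : Finset ℤ) (g' : ℤ → ℤ), ∏ m ∈ SF, cc ν S' m (g' m) =
        cc ν S' j (g' j) * ∏ m ∈ SF.erase j, cc ν S' m (g' m) := fun S' g' =>
      (Finset.mul_prod_erase SF _ hjSF).symm
    have hprod2 : ∀ (e : ℤ), ∏ m ∈ SF.erase j, cc ν S m ((Function.update g j (g j + e)) m) =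
        ∏ m ∈ SF.erase j, cc ν (insert j S) m (g m) := by
      intro e
      apply Finset.prod_congr rfl
      intro x hx
      have hxj := Finset.ne_of_mem_erase hx
      rw [Function.update_of_ne hxj]
      simp only [cc, Finset.mem_insert, hxj, false_or]
    have hprod3 : ∏ m ∈ SF.erase j, cc ν S m (g m) =
        ∏ m ∈ SF.erase j, cc ν (insert j S) m (g m) := by
      apply Finset.prod_congr rfl
      intro x hx
      have hxj := Finset.ne_of_mem_erase hx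
      simp only [cc, Finset.mem_insert, hxj, false_or]
    have T0 := ih hS' g hg (fun m hm => hg1 m (Finset.mem_insert_of_mem hm))
    have hu1 := hup 1 (by norm_num)
    have hu2 := hup (-1) (by norm_num)
    have T1 := ih hS' _ hu1.1 hu1.2.1
    have T2 := ih hS' _ hu2.1 hu2.2.1
    rw [hu1.2.2] at T1
    rw [hu2.2.2] at T2
    have hexp : ∀ b : (ZMod (p ^ (2 * l)))ˣ,
        (∏ i ∈ insert j S, fac (p ^ (2 * l)) R ν (b : ZMod (p ^ (2 * l))) i) *
          ee (p ^ (2 * l)) ((b : ZMod (p ^ (2 * l))) * (2 * ∑ m ∈ SF, (g m : ZMod (p ^ (2 * l))) * R m)) =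
        (∏ i ∈ S, fac (p ^ (2 * l)) R ν (b : ZMod (p ^ (2 * l))) i) *
          ee (p ^ (2 * l)) ((b : ZMod (p ^ (2 * l))) * (2 * ∑ m ∈ SF, (g m : ZMod (p ^ (2 * l))) * R m)) +
        ν j / 2 * ((∏ i ∈ S, fac (p ^ (2 * l)) R ν (b : ZMod (p ^ (2 * l))) i) *
          ee (p ^ (2 * l)) ((b : ZMod (p ^ (2 * l))) * (2 * (∑ m ∈ SF, (g m : ZMod (p ^ (2 * l))) * R m + ((1 : ℤ) : ZMod (p ^ (2 * l))) * R j)))) +
        ν j / 2 * ((∏ i ∈ S, fac (p ^ (2 * l)) R ν (b : ZMod (p ^ (2 * l))) i) *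
          ee (p ^ (2 * l)) ((b : ZMod (p ^ (2 * l))) * (2 * (∑ m ∈ SF, (g m : ZMod (p ^ (2 * l))) * R m + ((-1 : ℤ) : ZMod (p ^ (2 * l))) * R j)))) := by
      intro b
      rw [Finset.prod_insert hj]
      have e1 : (b : ZMod (p ^ (2 * l))) * (2 * (∑ m ∈ SF, (g m : ZMod (p ^ (2 * l))) * R m + ((1 : ℤ) : ZMod (p ^ (2 * l))) * R j)) =
          (b : ZMod (p ^ (2 * l))) * (2 * ∑ m ∈ SF, (g m : ZMod (p ^ (2 * l))) * R m) + 2 * b * R j := by
        push_cast; ring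
      have e2 : (b : ZMod (p ^ (2 * l))) * (2 * (∑ m ∈ SF, (g m : ZMod (p ^ (2 * l))) * R m + ((-1 : ℤ) : ZMod (p ^ (2 * l))) * R j)) =
          (b : ZMod (p ^ (2 * l))) * (2 * ∑ m ∈ SF, (g m : ZMod (p ^ (2 * l))) * R m) + -(2 * b * R j) := by
        push_cast; ring
      rw [e1, e2]
      simp only [fac, ee]
      rw [AddChar.map_add_eq_mul, AddChar.map_add_eq_mul]
      ring
    rw [Finset.sum_congr rfl (fun b _ => hexp b)]
    rw [Finset.sum_add_distrib, Finset.sum_add_distrib, ← Finset.mul_sum, ← Finset.mul_sum, T0, T1, T2]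
    rw [hprod S g, hprod S (Function.update g j (g j + 1)), hprod S (Function.update g j (g j + -1)),
      hprod (insert j S) g, hprod2, hprod2, hprod3]
    rw [Function.update_self, Function.update_self]
    have hkey : cc ν S j (g j) + ν j / 2 * cc ν S j (g j + 1) + ν j / 2 * cc ν S j (g j + -1) =
        cc ν (insert j S) j (g j) := by
      rw [abs_le] at hgj
      have hc : g j = -1 ∨ g j = 0 ∨ g j = 1 := by omega
      rcases hc with h | h | h
      · rw [h]; simp [cc, hj]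
      · rw [h]; simp [cc, hj]
      · rw [h]; simp [cc, hj]
    rw [← hkey]
    ring

end RZ2

open RZ2 in
theorem rz2 (hli : S_LI2) : S_RZ2 := by
  classical
  intro Y p _ hp2 S hS
  obtain ⟨ρ, hρ1, hρ2⟩ := hli Y p hp2
  set SF := Gs Y p with hSF
  obtain ⟨n0, hn0⟩ := uniform p SF ρ hρ2
  refine ⟨n0 + 1, by omega, ?_⟩
  intro l hl0
  have hl1 : 1 ≤ l := by omega
  have hl2 : n0 ≤ 2 * l - 1 := by omega
  have hm1 : ∀ m ∈ SF, (m : ZMod (p ^ (2 * l))) * (PadicInt.toZModPow (2 * l) (ρ m)) ^ 2 = 1 := by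
    intro m h1
    have := congrArg (PadicInt.toZModPow (p := p) (2 * l)) (hρ1 m h1)
    rw [map_mul, map_pow, map_intCast, map_one] at this
    exact this
  let r : ℤ → (ZMod (p ^ (2 * l)))ˣ := fun m =>
    if h : IsUnit (PadicInt.toZModPow (p := p) (2 * l) (ρ m)) then h.unit else 1
  have hr : ∀ m ∈ SF, ((r m : (ZMod (p ^ (2 * l)))ˣ) : ZMod (p ^ (2 * l))) = PadicInt.toZModPow (2 * l) (ρ m) := by
    intro m h1
    have hu : IsUnit (PadicInt.toZModPow (p := p) (2 * l) (ρ m)) := by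
      have := hm1 m h1
      apply IsUnit.of_mul_eq_one ((m : ZMod (p ^ (2 * l))) * PadicInt.toZModPow (2 * l) (ρ m))
      rw [← this]; ring
    simp only [r]
    rw [dif_pos hu]
    rfl
  refine ⟨r, fun m h1 => by rw [hr m h1]; exact hm1 m h1, ?_⟩
  set R : ℤ → ZMod (p ^ (2 * l)) := fun m => ((r m : (ZMod (p ^ (2 * l)))ˣ) : ZMod (p ^ (2 * l))) with hRdef
  have hR : ∀ h : ℤ → ℤ, (∀ m ∈ SF, |h m| ≤ 2) → (∃ m ∈ SF, h m ≠ 0) →
      (p : ZMod (p ^ (2 * l))) * (2 * ∑ m ∈ SF, (h m : ZMod (p ^ (2 * l))) * R m) ≠ 0 := by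
    intro h hb hne h0
    apply hn0 h hb hne
    have h1 : (2 * ∑ m ∈ SF, (h m : ZMod (p ^ (2 * l))) * R m) =
        PadicInt.toZModPow (2 * l) (2 * ∑ m ∈ SF, (h m : ℤ_[p]) * ρ m) := by
      rw [map_mul, map_sum, map_ofNat]
      congr 1
      apply Finset.sum_congr rfl
      intro m hm
      rw [map_mul, map_intCast, ← hr m hm]
    rw [h1] at h0
    exact (pow_dvd_pow _ hl2).trans (dvd_of_mul_eq_zero p l hl1 _ h0)
  let ν : ℤ → ℂ := fun m => ((ArithmeticFunction.moebius m.natAbs : ℤ) : ℂ)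
  have hri := riesz p l SF R ν hR S hS
  have hcard : (0 : ℝ) < (Fintype.card (ZMod (p ^ (2 * l)))ˣ : ℝ) := by
    exact_mod_cast Fintype.card_pos
  have hcardC : (Fintype.card (ZMod (p ^ (2 * l)))ˣ : ℂ) ≠ 0 := by
    have : Fintype.card (ZMod (p ^ (2 * l)))ˣ ≠ 0 := Fintype.card_ne_zero
    exact_mod_cast this
  let w : (ZMod (p ^ (2 * l)))ˣ → ℝ := fun b => (Fintype.card (ZMod (p ^ (2 * l)))ˣ : ℝ)⁻¹ *
    ∏ j ∈ S, (1 + ((ArithmeticFunction.moebius j.natAbs : ℤ) : ℝ) * (ee (p ^ (2 * l)) (2 * (b : ZMod (p ^ (2 * l))) * r j)).re)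
  have hconj : ∀ x : ZMod (p ^ (2 * l)), ee (p ^ (2 * l)) x + ee (p ^ (2 * l)) (-x) = 2 * ((ee (p ^ (2 * l)) x).re : ℂ) := by
    intro x
    have : ee (p ^ (2 * l)) (-x) = (starRingEnd ℂ) (ee (p ^ (2 * l)) x) := by
      simp only [ee]
      exact AddChar.map_neg_eq_conj _ _
    rw [this, Complex.add_conj]
    push_cast
    ring
  have hnorm : ∀ x : ZMod (p ^ (2 * l)), |(ee (p ^ (2 * l)) x).re| ≤ 1 := by
    intro x
    refine (Complex.abs_re_le_norm _).trans ?_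
    simp only [ee]
    rw [AddChar.norm_apply]
  have hwC : ∀ b, (w b : ℂ) = (Fintype.card (ZMod (p ^ (2 * l)))ˣ : ℂ)⁻¹ *
      ∏ j ∈ S, fac (p ^ (2 * l)) R ν (b : ZMod (p ^ (2 * l))) j := by
    intro b
    simp only [w]
    push_cast
    congr 1
    apply Finset.prod_congr rfl
    intro j _
    simp only [fac, hconj, ν, R]
    ring
  have hmain : ∀ g : ℤ → ℤ, (∀ m ∈ SF, |g m| ≤ 1) →
      ∑ b : (ZMod (p ^ (2 * l)))ˣ, (w b : ℂ) *
        ee (p ^ (2 * l)) ((b : ZMod (p ^ (2 * l))) * (2 * ∑ m ∈ SF, (g m : ZMod (p ^ (2 * l))) * R m)) =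
      ∏ m ∈ SF, cc ν S m (g m) := by
    intro g hg
    have h1 := hri g (fun m hm => (hg m hm).trans (by norm_num)) (fun m hm => hg m (hS hm))
    calc ∑ b : (ZMod (p ^ (2 * l)))ˣ, (w b : ℂ) *
        ee (p ^ (2 * l)) ((b : ZMod (p ^ (2 * l))) * (2 * ∑ m ∈ SF, (g m : ZMod (p ^ (2 * l))) * R m))
        = (Fintype.card (ZMod (p ^ (2 * l)))ˣ : ℂ)⁻¹ * ∑ b : (ZMod (p ^ (2 * l)))ˣ, (∏ j ∈ S, fac (p ^ (2 * l)) R ν (b : ZMod (p ^ (2 * l))) j) *
        ee (p ^ (2 * l)) ((b : ZMod (p ^ (2 * l))) * (2 * ∑ m ∈ SF, (g m : ZMod (p ^ (2 * l))) * R m)) := by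
          rw [Finset.mul_sum (s := (Finset.univ : Finset (ZMod (p ^ (2 * l)))ˣ))]
          apply Finset.sum_congr rfl
          intro b _
          rw [hwC]; ring
      _ = ∏ m ∈ SF, cc ν S m (g m) := by
          rw [h1, ← mul_assoc, inv_mul_cancel₀ hcardC, one_mul]
  refine ⟨w, ?_, ?_, ?_⟩
  · intro b
    apply mul_nonneg (inv_nonneg.mpr hcard.le)
    apply Finset.prod_nonneg
    intro j _
    have h1 := hnorm (2 * (b : ZMod (p ^ (2 * l))) * r j)
    have h2 : |((ArithmeticFunction.moebius j.natAbs : ℤ) : ℝ)| ≤ 1 := by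
      exact_mod_cast ArithmeticFunction.abs_moebius_le_one (n := j.natAbs)
    have h3 : |((ArithmeticFunction.moebius j.natAbs : ℤ) : ℝ) * (ee (p ^ (2 * l)) (2 * (b : ZMod (p ^ (2 * l))) * r j)).re| ≤ 1 := by
      rw [abs_mul]
      calc _ ≤ 1 * 1 := mul_le_mul h2 h1 (abs_nonneg _) zero_le_one
        _ = 1 := by norm_num
    linarith [(abs_le.mp h3).1]
  · have h1 := hmain (fun _ => 0) (fun m _ => by norm_num)
    have h2 : ∏ m ∈ SF, cc ν S m ((fun _ => (0 : ℤ)) m) = 1 := by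
      apply Finset.prod_eq_one
      intro m _
      simp [cc]
    rw [h2] at h1
    have h3 : ((∑ b, w b : ℝ) : ℂ) = 1 := by
      rw [← h1]
      push_cast
      apply Finset.sum_congr rfl
      intro b _
      simp [ee]
    exact_mod_cast h3
  · intro m hm
    let g : ℤ → ℤ := fun j => if j = m then 1 else 0
    have h1 := hmain g (fun j _ => by simp only [g]; split_ifs <;> norm_num)
    have h2 : ∏ j ∈ SF, cc ν S j (g j) = cc ν S m 1 := by
      rw [← Finset.mul_prod_erase SF _ hm]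
      have : ∏ j ∈ SF.erase m, cc ν S j (g j) = 1 := by
        apply Finset.prod_eq_one
        intro j hj
        simp only [g, if_neg (Finset.ne_of_mem_erase hj)]
        simp [cc]
      rw [this, mul_one]
      simp [g]
    have h3 : ∑ j ∈ SF, (g j : ZMod (p ^ (2 * l))) * R j = R m := by
      rw [← Finset.add_sum_erase SF _ hm]
      have : ∑ j ∈ SF.erase m, (g j : ZMod (p ^ (2 * l))) * R j = 0 := by
        apply Finset.sum_eq_zero
        intro j hj
        simp only [g, if_neg (Finset.ne_of_mem_erase hj)]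
        simp
      rw [this, add_zero]
      simp [g]
    rw [h2, h3] at h1
    have h4 : ∑ b, w b * (ee (p ^ (2 * l)) (2 * (b : ZMod (p ^ (2 * l))) * r m)).re =
        (cc ν S m 1).re := by
      rw [← h1, Complex.re_sum]
      apply Finset.sum_congr rfl
      intro b _
      rw [Complex.re_ofReal_mul]
      congr 3
      simp only [R]
      ring
    rw [h4]
    simp only [cc, ν]
    by_cases hmS : m ∈ S
    · simp only [hmS, if_true]
      norm_num
    · simp [hmS]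

end Pool.Agent.Y821.ME
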