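import Pool.Agent.Y821.ME.Stm

/-!
Job ME-SER + ME-VB (helper998): bounds for the kernels `VR`, `VL`, and the combinations `D (aF ..)` as
absolutely convergent series.
-/

set_option autoImplicit false

open Filter Topology MeasureTheory Finset

namespace Pool.Agent.Y821.ME

theorem e_bd (w : ℝ) (hw : 0 < w) : 0 < Real.exp (-(1 / w ^ 2)) ∧ Real.exp (-(1 / w ^ 2)) ≤ 1 ∧
    1 - Real.exp (-(1 / w ^ 2)) ≤ 1 / w ^ 2 := by
  refine ⟨Real.exp_pos _, Real.exp_le_one_iff.2 ?_, ?_⟩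
  · have : 0 < 1 / w ^ 2 := by positivity
    linarith
  · have := Real.add_one_le_exp (-(1 / w ^ 2)); linarith

theorem th_sub (w : ℝ) (hw : 0 < w) : |th w - 2 / w| ≤ 2 / w ^ 3 := by
  obtain ⟨h0, h1, h2⟩ := e_bd w hw
  have e : th w - 2 / w = -((2 / w) * (1 - Real.exp (-(1 / w ^ 2)))) := by
    unfold th; ring
  have h3 : 0 ≤ 1 - Real.exp (-(1 / w ^ 2)) := by linarith
  rw [e, abs_neg, abs_of_nonneg (by positivity)]
  calc (2 / w) * (1 - Real.exp (-(1 / w ^ 2))) ≤ (2 / w) * (1 / w ^ 2) := by gcongr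
    _ = 2 / w ^ 3 := by field_simp

theorem th1_sub (w : ℝ) (hw : 0 < w) : |th1 w - 2 / w| ≤ 6 / w ^ 3 := by
  obtain ⟨h0, h1, h2⟩ := e_bd w hw
  have e : th1 w - 2 / w = (th w - 2 / w) - 4 * Real.exp (-(1 / w ^ 2)) / w ^ 3 := by
    unfold th th1; ring
  have h3 : |4 * Real.exp (-(1 / w ^ 2)) / w ^ 3| ≤ 4 / w ^ 3 := by
    rw [abs_of_nonneg (by positivity)]
    gcongr
    linarith
  rw [e]
  calc |th w - 2 / w - 4 * Real.exp (-(1 / w ^ 2)) / w ^ 3|
      ≤ |th w - 2 / w| + |4 * Real.exp (-(1 / w ^ 2)) / w ^ 3| := abs_sub _ _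
    _ ≤ 2 / w ^ 3 + 4 / w ^ 3 := add_le_add (th_sub w hw) h3
    _ = 6 / w ^ 3 := by ring

/-- a combination of three dilates of a function which is `2 / w` up to `k / w ^ 3` -/
theorem comb_bd (f : ℝ → ℝ) (k : ℝ) (hf : ∀ w, 0 < w → |f w - 2 / w| ≤ k / w ^ 3)
    (α β r s : ℝ) (hr : 0 < r) (hs : 0 < s) (h0 : 1 + α / r + β / s = 0) (w : ℝ) (hw : 0 < w) :
    |f w + α * f (r * w) + β * f (s * w)| ≤ k * (1 + |α| / r ^ 3 + |β| / s ^ 3) / w ^ 3 := by
  have e : f w + α * f (r * w) + β * f (s * w) = (f w - 2 / w) + α * (f (r * w) - 2 / (r * w)) +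
      β * (f (s * w) - 2 / (s * w)) := by
    have h1 : 2 / w + α * (2 / (r * w)) + β * (2 / (s * w)) = 0 := by
      have : 2 / w + α * (2 / (r * w)) + β * (2 / (s * w)) = (2 / w) * (1 + α / r + β / s) := by
        field_simp
      rw [this, h0, mul_zero]
    linear_combination h1
  rw [e]
  have h1 := hf w hw
  have h2 := hf (r * w) (by positivity)
  have h3 := hf (s * w) (by positivity)
  calc |(f w - 2 / w) + α * (f (r * w) - 2 / (r * w)) + β * (f (s * w) - 2 / (s * w))|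
      ≤ |f w - 2 / w| + |α| * |f (r * w) - 2 / (r * w)| + |β| * |f (s * w) - 2 / (s * w)| := by
        refine (abs_add_le _ _).trans ?_
        rw [abs_mul β]
        gcongr
        refine (abs_add_le _ _).trans ?_
        rw [abs_mul α]
    _ ≤ k / w ^ 3 + |α| * (k / (r * w) ^ 3) + |β| * (k / (s * w) ^ 3) := by gcongr
    _ = k * (1 + |α| / r ^ 3 + |β| / s ^ 3) / w ^ 3 := by
        field_simp

theorem VR_eq (w : ℝ) : VR w = th w + (-(3 / 2)) * th ((1 / 2) * w) + (1 / 2) * th ((1 / 4) * w) := by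
  unfold VR
  rw [show (1 / 2 : ℝ) * w = w / 2 by ring, show (1 / 4 : ℝ) * w = w / 4 by ring]
  ring

theorem VL_eq (w : ℝ) : VL w = th w + (-3) * th (2 * w) + 2 * th (4 * w) := by
  unfold VL; ring

/-- the kernel `-w VR'(w)` -/
noncomputable def VR1 (w : ℝ) : ℝ :=
  th1 w + (-(3 / 2)) * th1 ((1 / 2) * w) + (1 / 2) * th1 ((1 / 4) * w)

/-- the kernel `-w VL'(w)` -/
noncomputable def VL1 (w : ℝ) : ℝ := th1 w + (-3) * th1 (2 * w) + 2 * th1 (4 * w)

theorem VR_bd (w : ℝ) (hw : 0 < w) : |VR w| ≤ 90 / w ^ 3 := by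
  rw [VR_eq]
  have h := comb_bd th 2 th_sub (-(3 / 2)) (1 / 2) (1 / 2) (1 / 4) (by norm_num) (by norm_num)
    (by norm_num) w hw
  refine h.trans (le_of_eq ?_)
  congr 1
  rw [abs_neg, abs_of_pos (by norm_num : (0 : ℝ) < 3 / 2), abs_of_pos (by norm_num : (0 : ℝ) < 1 / 2)]
  norm_num

theorem VL_bd (w : ℝ) (hw : 0 < w) : |VL w| ≤ 3 / w ^ 3 := by
  rw [VL_eq]
  have h := comb_bd th 2 th_sub (-3) 2 2 4 (by norm_num) (by norm_num)
    (by norm_num) w hw
  refine h.trans ?_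
  gcongr
  rw [abs_neg, abs_of_pos (by norm_num : (0 : ℝ) < 3), abs_of_pos (by norm_num : (0 : ℝ) < 2)]
  norm_num

theorem VR1_bd (w : ℝ) (hw : 0 < w) : |VR1 w| ≤ 270 / w ^ 3 := by
  unfold VR1
  have h := comb_bd th1 6 th1_sub (-(3 / 2)) (1 / 2) (1 / 2) (1 / 4) (by norm_num) (by norm_num)
    (by norm_num) w hw
  refine h.trans (le_of_eq ?_)
  congr 1
  rw [abs_neg, abs_of_pos (by norm_num : (0 : ℝ) < 3 / 2), abs_of_pos (by norm_num : (0 : ℝ) < 1 / 2)]
  norm_num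

theorem VL1_bd (w : ℝ) (hw : 0 < w) : |VL1 w| ≤ 270 / w ^ 3 := by
  unfold VL1
  have h := comb_bd th1 6 th1_sub (-3) 2 2 4 (by norm_num) (by norm_num)
    (by norm_num) w hw
  refine h.trans ?_
  gcongr
  rw [abs_neg, abs_of_pos (by norm_num : (0 : ℝ) < 3), abs_of_pos (by norm_num : (0 : ℝ) < 2)]
  norm_num

theorem VL_lower (w : ℝ) (h1 : 1 / 5 ≤ w) (h2 : w ≤ 3 / 10) : 2 / 5 ≤ VL w := by
  have hw : 0 < w := by linarith
  set y := Real.exp (-(1 / (16 * w ^ 2))) with hy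
  have hy0 : 0 < y := Real.exp_pos _
  have e1 : Real.exp (-(1 / w ^ 2)) = y ^ 16 := by
    rw [hy, ← Real.exp_nat_mul]; congr 1; field_simp; norm_num
  have e2 : Real.exp (-(1 / (2 * w) ^ 2)) = y ^ 4 := by
    rw [hy, ← Real.exp_nat_mul]; congr 1; field_simp; norm_num
  have e3 : Real.exp (-(1 / (4 * w) ^ 2)) = y := by
    rw [hy]; congr 2; ring
  have e : VL w = (2 / w) * (y * (y ^ 15 - 3 / 2 * y ^ 3 + 1 / 2)) := by
    unfold VL th
    rw [e1, e2, e3]
    field_simp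
    ring
  have hy1 : y ≤ 1 / 2 := by
    have h3 : Real.log 2 ≤ 1 / (16 * w ^ 2) := by
      have h4 := Real.log_two_lt_d9
      have h5 : (0.6931471808 : ℝ) ≤ 1 / (16 * w ^ 2) := by
        rw [le_div_iff₀ (by positivity)]
        nlinarith
      linarith
    calc y ≤ Real.exp (-Real.log 2) := Real.exp_le_exp.2 (by linarith)
      _ = 1 / 2 := by rw [Real.exp_neg, Real.exp_log (by norm_num)]; norm_num
  have hy2 : 1 / 5 ≤ y := by
    have h3 : 1 / (16 * w ^ 2) ≤ 25 / 16 := by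
      rw [div_le_div_iff₀ (by positivity) (by norm_num)]
      nlinarith
    have h4 : Real.exp (25 / 16) ≤ 5 := by
      have h5 : Real.exp (25 / 16) ^ 16 ≤ 5 ^ 16 := by
        rw [← Real.exp_nat_mul]
        have h6 : ((16 : ℕ) : ℝ) * (25 / 16) = ((25 : ℕ) : ℝ) * 1 := by norm_num
        rw [h6, Real.exp_nat_mul]
        have h7 := Real.exp_one_lt_d9
        calc Real.exp 1 ^ 25 ≤ (2.7182818286 : ℝ) ^ 25 := by
              gcongr
          _ ≤ 5 ^ 16 := by norm_num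
      exact le_of_pow_le_pow_left₀ (by norm_num) (by norm_num) h5
    calc (1 / 5 : ℝ) ≤ (Real.exp (25 / 16))⁻¹ := by
          rw [one_div]
          exact inv_anti₀ (Real.exp_pos _) h4
      _ = Real.exp (-(25 / 16)) := (Real.exp_neg _).symm
      _ ≤ y := Real.exp_le_exp.2 (by linarith)
  have h3 : y ^ 3 ≤ 1 / 8 := by
    calc y ^ 3 ≤ (1 / 2) ^ 3 := by gcongr
      _ = 1 / 8 := by norm_num
  have h4 : 5 / 16 ≤ y ^ 15 - 3 / 2 * y ^ 3 + 1 / 2 := by
    have : 0 ≤ y ^ 15 := by positivity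
    linarith
  have h5 : 20 / 3 ≤ 2 / w := by
    rw [div_le_div_iff₀ (by norm_num) hw]; linarith
  rw [e]
  calc (2 / 5 : ℝ) ≤ (20 / 3) * ((1 / 5) * (5 / 16)) := by norm_num
    _ ≤ (2 / w) * (y * (y ^ 15 - 3 / 2 * y ^ 3 + 1 / 2)) := by gcongr

theorem vb : S_VB := ⟨fun w hw => ⟨VR_bd w hw, VL_bd w hw⟩, VL_lower⟩

/-! ### derivatives -/

theorem th_deriv (w : ℝ) (hw : 0 < w) : HasDerivAt th (-(th1 w / w)) w := by
  have h1 : HasDerivAt (fun x : ℝ => x ^ 2) (2 * w) w := by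
    simpa using hasDerivAt_pow 2 w
  have h2 : HasDerivAt (fun x : ℝ => -(1 / x ^ 2)) (2 * w / (w ^ 2) ^ 2) w := by
    have h0 := (h1.inv (by positivity)).neg
    have e : (fun x : ℝ => -(1 / x ^ 2)) = -(fun x : ℝ => x ^ 2)⁻¹ := by
      funext x; simp
    have e' : 2 * w / (w ^ 2) ^ 2 = -(-(2 * w) / (w ^ 2) ^ 2) := by rw [neg_div, neg_neg]
    rw [e, e']
    exact h0
  have h3 := (h2.exp.const_mul 2).div (hasDerivAt_id w) hw.ne'
  have h4 : HasDerivAt th ((2 * (Real.exp (-(1 / w ^ 2)) * (2 * w / (w ^ 2) ^ 2)) * w -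
      2 * Real.exp (-(1 / w ^ 2)) * 1) / w ^ 2) w := h3
  convert h4 using 1
  unfold th1
  field_simp
  ring

theorem th_comp_deriv (r w : ℝ) (hr : 0 < r) (hw : 0 < w) :
    HasDerivAt (fun x => th (r * x)) (-(th1 (r * w) / w)) w := by
  have h1 := th_deriv (r * w) (by positivity)
  have h2 : HasDerivAt (fun x : ℝ => r * x) (r * 1) w := (hasDerivAt_id w).const_mul r
  have h3 := h1.comp w h2
  have h4 : HasDerivAt (fun x => th (r * x)) (-(th1 (r * w) / (r * w)) * (r * 1)) w := h3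
  convert h4 using 1
  field_simp

theorem comb_deriv (α β r s : ℝ) (hr : 0 < r) (hs : 0 < s) (w : ℝ) (hw : 0 < w) :
    HasDerivAt (fun x => th x + α * th (r * x) + β * th (s * x))
      (-((th1 w + α * th1 (r * w) + β * th1 (s * w)) / w)) w := by
  have h1 := th_deriv w hw
  have h2 := (th_comp_deriv r w hr hw).const_mul α
  have h3 := (th_comp_deriv s w hs hw).const_mul β
  have h4 : HasDerivAt (fun x => th x + α * th (r * x) + β * th (s * x))
      (-(th1 w / w) + α * (-(th1 (r * w) / w)) + β * (-(th1 (s * w) / w))) w := (h1.add h2).add h3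
  convert h4 using 1
  ring

theorem VR_deriv (w : ℝ) (hw : 0 < w) : HasDerivAt VR (-(VR1 w / w)) w := by
  have h := comb_deriv (-(3 / 2)) (1 / 2) (1 / 2) (1 / 4) (by norm_num) (by norm_num) w hw
  have e : VR = fun x => th x + (-(3 / 2)) * th ((1 / 2) * x) + (1 / 2) * th ((1 / 4) * x) :=
    funext VR_eq
  rw [e]
  exact h

theorem VL_deriv (w : ℝ) (hw : 0 < w) : HasDerivAt VL (-(VL1 w / w)) w := by
  have h := comb_deriv (-3) 2 2 4 (by norm_num) (by norm_num) w hw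
  have e : VL = fun x => th x + (-3) * th (2 * x) + 2 * th (4 * x) := funext VL_eq
  rw [e]
  exact h

theorem th1_cont_ser : ContinuousOn th1 (Set.Ioi 0) := by
  intro w hw
  have hw' : w ≠ 0 := ne_of_gt hw
  apply ContinuousAt.continuousWithinAt
  unfold th1
  have h0 : w ^ 2 ≠ 0 := pow_ne_zero _ hw'
  have h3 : w ^ 3 ≠ 0 := pow_ne_zero _ hw'
  fun_prop (disch := assumption)

theorem th1_comp_cont (r : ℝ) (hr : 0 < r) : ContinuousOn (fun w => th1 (r * w)) (Set.Ioi 0) :=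
  th1_cont_ser.comp (by fun_prop) (fun w hw => mul_pos hr hw)

theorem comb_cont (α β r s : ℝ) (hr : 0 < r) (hs : 0 < s) :
    ContinuousOn (fun x => th1 x + α * th1 (r * x) + β * th1 (s * x)) (Set.Ioi 0) :=
  (th1_cont_ser.add (continuousOn_const.mul (th1_comp_cont r hr))).add
    (continuousOn_const.mul (th1_comp_cont s hs))

/-! ### the series -/

theorem mu_le (n : ℕ) : ‖mu n‖ ≤ 1 := by
  unfold mu
  rw [Complex.norm_intCast]
  exact_mod_cast ArithmeticFunction.abs_moebius_le_one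

theorem sum_Icc_range (f : ℕ → ℂ) (N : ℕ) : ∑ n ∈ Icc 1 N, f n = ∑ i ∈ range N, f (i + 1) := by
  induction N with
  | zero => simp
  | succ N ih => rw [Finset.sum_range_succ, ← ih, Finset.sum_Icc_succ_top (by omega)]

section Core

variable (V W : ℝ → ℝ) (K a : ℝ)

theorem int4 (b : ℝ) (hb : 0 < b) :
    IntegrableOn (fun v : ℝ => (v ^ 4)⁻¹) (Set.Ioi b) ∧ ∫ v in Set.Ioi b, (v ^ 4)⁻¹ = (b ^ 3)⁻¹ / 3 := by
  have h1 := integrableOn_Ioi_rpow_of_lt (a := -4) (by norm_num) hb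
  have h2 := integral_Ioi_rpow_of_lt (a := -4) (by norm_num) hb
  have e : ∀ v ∈ Set.Ioi b, v ^ (-4 : ℝ) = (v ^ 4)⁻¹ := by
    intro v hv
    have hv0 : 0 < v := hb.trans hv
    rw [Real.rpow_neg hv0.le]
    congr 1
    exact_mod_cast Real.rpow_natCast v 4
  constructor
  · exact h1.congr_fun e measurableSet_Ioi
  · rw [← setIntegral_congr_fun measurableSet_Ioi e, h2]
    have : (-4 + 1 : ℝ) = -3 := by norm_num
    rw [this, Real.rpow_neg hb.le]
    have h3 : b ^ (3 : ℝ) = b ^ 3 := by exact_mod_cast Real.rpow_natCast b 3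
    rw [h3]
    ring

theorem kern_int (ha : 0 < a) (hWc : ContinuousOn W (Set.Ioi 0))
    (hW : ∀ w, 0 < w → |W w| ≤ K / w ^ 3) (b : ℝ) (hb : 0 < b) :
    IntegrableOn (fun v : ℝ => W (v * a) / v) (Set.Ioi b) ∧
      ∫ v in Set.Ioi b, ‖W (v * a) / v‖ ≤ K / a ^ 3 * ((b ^ 3)⁻¹ / 3) := by
  obtain ⟨h1, h2⟩ := int4 b hb
  have hbd : ∀ v ∈ Set.Ioi b, ‖W (v * a) / v‖ ≤ K / a ^ 3 * (v ^ 4)⁻¹ := by
    intro v hv
    have hv0 : 0 < v := hb.trans hv
    rw [Real.norm_eq_abs, abs_div, abs_of_pos hv0]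
    calc |W (v * a)| / v ≤ (K / (v * a) ^ 3) / v := by
          gcongr
          exact hW _ (by positivity)
      _ = K / a ^ 3 * (v ^ 4)⁻¹ := by field_simp
  have hc : ContinuousOn (fun v : ℝ => W (v * a) / v) (Set.Ioi b) := by
    apply ContinuousOn.div
    · exact hWc.comp (by fun_prop) (fun v hv => mul_pos (hb.trans hv) ha)
    · exact continuousOn_id
    · intro v hv
      exact (hb.trans hv).ne'
  have h3 : IntegrableOn (fun v : ℝ => W (v * a) / v) (Set.Ioi b) :=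
    Integrable.mono' (h1.const_mul (K / a ^ 3)) (hc.aestronglyMeasurable measurableSet_Ioi)
      ((ae_restrict_iff' measurableSet_Ioi).2 (Eventually.of_forall hbd))
  refine ⟨h3, ?_⟩
  calc ∫ v in Set.Ioi b, ‖W (v * a) / v‖ ≤ ∫ v in Set.Ioi b, K / a ^ 3 * (v ^ 4)⁻¹ :=
        setIntegral_mono_on h3.norm (h1.const_mul _) measurableSet_Ioi hbd
    _ = K / a ^ 3 * ((b ^ 3)⁻¹ / 3) := by rw [integral_const_mul, h2]

theorem kern_val (ha : 0 < a) (hV : ∀ w, 0 < w → HasDerivAt V (-(W w / w)) w)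
    (hWc : ContinuousOn W (Set.Ioi 0))
    (hW : ∀ w, 0 < w → |W w| ≤ K / w ^ 3) (hVb : ∀ w, 0 < w → |V w| ≤ K / w ^ 3) (b : ℝ) (hb : 0 < b) :
    ∫ v in Set.Ioi b, W (v * a) / v = V (b * a) := by
  have hd : ∀ v, 0 < v → HasDerivAt (fun v => -V (v * a)) (W (v * a) / v) v := by
    intro v hv
    have h1 := hV (v * a) (by positivity)
    have h2 : HasDerivAt (fun x : ℝ => x * a) (1 * a) v := (hasDerivAt_id v).mul_const a
    have h3 := (h1.comp v h2).neg
    have h4 : HasDerivAt (fun v => -V (v * a)) (-(-(W (v * a) / (v * a)) * (1 * a))) v := h3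
    convert h4 using 1
    field_simp
  have ht : Tendsto (fun v => -V (v * a)) atTop (𝓝 0) := by
    have h5 : Tendsto (fun v : ℝ => K / a ^ 3 * (v ^ 3)⁻¹) atTop (𝓝 0) := by
      have : Tendsto (fun v : ℝ => (v ^ 3)⁻¹) atTop (𝓝 0) :=
        tendsto_inv_atTop_zero.comp (tendsto_pow_atTop (by norm_num))
      simpa using this.const_mul (K / a ^ 3)
    refine squeeze_zero_norm' ?_ h5
    filter_upwards [eventually_gt_atTop 0] with v hv
    rw [norm_neg, Real.norm_eq_abs]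
    refine (hVb (v * a) (by positivity)).trans (le_of_eq ?_)
    field_simp
  have h6 := integral_Ioi_of_hasDerivAt_of_tendsto (a := b)
    ((hd b hb).continuousAt.continuousWithinAt) (fun v hv => hd v (hb.trans hv))
    (kern_int W K a ha hWc hW b hb).1 ht
  rw [h6]
  ring

theorem core (ha : 0 < a) (hV : ∀ w, 0 < w → HasDerivAt V (-(W w / w)) w)
    (hWc : ContinuousOn W (Set.Ioi 0))
    (hW : ∀ w, 0 < w → |W w| ≤ K / w ^ 3) (hVb : ∀ w, 0 < w → |V w| ≤ K / w ^ 3)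
    (c : ℕ → ℂ) (hc : ∀ n, ‖c n‖ ≤ 2) :
    ∫ v in Set.Ioi (0 : ℝ), Mx c v * ((W (v * a) / v : ℝ) : ℂ) =
      ∑' n : ℕ, mu (n + 1) * c (n + 1) * ((V ((n + 1 : ℕ) * a) : ℝ) : ℂ) := by
  classical
  set F : ℕ → ℝ → ℂ := fun n => (Set.Ici ((n : ℝ) + 1)).indicator
    (fun v => mu (n + 1) * c (n + 1) * ((W (v * a) / v : ℝ) : ℂ)) with hF
  have hK : 0 ≤ K := by
    have := (abs_nonneg _).trans (hW 1 one_pos)
    simpa using this
  have hsub : ∀ n : ℕ, Set.Ioi (0 : ℝ) ∩ Set.Ici ((n : ℝ) + 1) = Set.Ici ((n : ℝ) + 1) := by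
    intro n
    apply Set.inter_eq_right.2
    intro v hv
    have : (n : ℝ) + 1 ≤ v := hv
    have h0 : (0 : ℝ) ≤ n := Nat.cast_nonneg n
    exact lt_of_lt_of_le (by positivity) this
  have hpt : ∀ v ∈ Set.Ioi (0 : ℝ), ∑' n, F n v = Mx c v * ((W (v * a) / v : ℝ) : ℂ) := by
    intro v hv
    have hv0 : 0 < v := hv
    rw [tsum_eq_sum (s := range ⌊v⌋₊)]
    · unfold Mx
      rw [sum_Icc_range, Finset.sum_mul]
      apply Finset.sum_congr rfl
      intro n hn
      have h1 : n + 1 ≤ ⌊v⌋₊ := Finset.mem_range.1 hn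
      have h2 : ((n : ℝ) + 1) ≤ v := by
        have := (Nat.le_floor_iff hv0.le).1 h1
        exact_mod_cast this
      rw [hF]
      exact Set.indicator_of_mem (s := Set.Ici ((n : ℝ) + 1)) h2 _
    · intro n hn
      have h1 : ⌊v⌋₊ ≤ n := by simpa using hn
      have h2 : v < (n : ℝ) + 1 := by
        have h3 := Nat.lt_floor_add_one v
        have h4 : ((⌊v⌋₊ : ℕ) : ℝ) ≤ n := by exact_mod_cast h1
        linarith
      rw [hF]
      apply Set.indicator_of_notMem
      simpa using h2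
  have hint : ∀ n : ℕ, IntegrableOn
      (fun v => mu (n + 1) * c (n + 1) * ((W (v * a) / v : ℝ) : ℂ)) (Set.Ici ((n : ℝ) + 1)) := by
    intro n
    rw [integrableOn_Ici_iff_integrableOn_Ioi]
    exact ((kern_int W K a ha hWc hW ((n : ℝ) + 1) (by positivity)).1.ofReal).const_mul _
  have hFint : ∀ n, Integrable (F n) (volume.restrict (Set.Ioi (0 : ℝ))) := by
    intro n
    rw [hF]
    rw [integrable_indicator_iff measurableSet_Ici]
    exact (hint n).mono_measure Measure.restrict_le_self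
  have hval : ∀ n : ℕ, ∫ v in Set.Ioi (0 : ℝ), F n v =
      mu (n + 1) * c (n + 1) * ((V ((n + 1 : ℕ) * a) : ℝ) : ℂ) := by
    intro n
    rw [hF]
    simp only
    rw [setIntegral_indicator measurableSet_Ici, hsub, integral_Ici_eq_integral_Ioi,
      integral_const_mul, integral_complex_ofReal,
      kern_val V W K a ha hV hWc hW hVb ((n : ℝ) + 1) (by positivity)]
    push_cast
    rfl
  have hnorm : ∀ n : ℕ, ∫ v in Set.Ioi (0 : ℝ), ‖F n v‖ ≤
      2 * (K / a ^ 3 * (1 / 3)) * (1 / ((n : ℝ) + 1) ^ 2) := by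
    intro n
    have e : ∀ v, ‖F n v‖ = (Set.Ici ((n : ℝ) + 1)).indicator
        (fun v => ‖mu (n + 1) * c (n + 1)‖ * ‖W (v * a) / v‖) v := by
      intro v
      rw [hF]
      simp only [norm_indicator_eq_indicator_norm, norm_mul, Complex.norm_real]
    simp only [e]
    rw [setIntegral_indicator measurableSet_Ici, hsub, integral_Ici_eq_integral_Ioi,
      integral_const_mul]
    have h1 := (kern_int W K a ha hWc hW ((n : ℝ) + 1) (by positivity)).2
    have h2 : ‖mu (n + 1) * c (n + 1)‖ ≤ 2 := by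
      rw [norm_mul]
      calc ‖mu (n + 1)‖ * ‖c (n + 1)‖ ≤ 1 * 2 := mul_le_mul (mu_le _) (hc _) (norm_nonneg _) (by norm_num)
        _ = 2 := by norm_num
    have h3 : 0 ≤ ∫ v in Set.Ioi ((n : ℝ) + 1), ‖W (v * a) / v‖ :=
      integral_nonneg (fun v => norm_nonneg _)
    calc ‖mu (n + 1) * c (n + 1)‖ * ∫ v in Set.Ioi ((n : ℝ) + 1), ‖W (v * a) / v‖
        ≤ 2 * (K / a ^ 3 * ((((n : ℝ) + 1) ^ 3)⁻¹ / 3)) :=
          mul_le_mul h2 h1 h3 (by norm_num)
      _ = 2 * (K / a ^ 3 * (1 / 3)) * (1 / ((n : ℝ) + 1) ^ 3) := by ring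
      _ ≤ 2 * (K / a ^ 3 * (1 / 3)) * (1 / ((n : ℝ) + 1) ^ 2) := by
          have h4 : (1 : ℝ) ≤ (n : ℝ) + 1 := by
            have : (0 : ℝ) ≤ n := Nat.cast_nonneg n
            linarith
          gcongr 2 * (K / a ^ 3 * (1 / 3)) * (1 / ?_)
          exact pow_le_pow_right₀ h4 (by norm_num)
  have hsum : Summable (fun n => ∫ v in Set.Ioi (0 : ℝ), ‖F n v‖) := by
    refine Summable.of_nonneg_of_le (fun n => integral_nonneg (fun v => norm_nonneg _)) hnorm ?_
    apply Summable.mul_left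
    have h1 : Summable (fun n : ℕ => 1 / ((n : ℝ)) ^ 2) := Real.summable_one_div_nat_pow.2 (by norm_num)
    have h2 := (summable_nat_add_iff 1).2 h1
    simpa using h2
  have hs := hasSum_integral_of_summable_integral_norm hFint hsum
  have h7 : ∫ v in Set.Ioi (0 : ℝ), Mx c v * ((W (v * a) / v : ℝ) : ℂ) =
      ∫ v in Set.Ioi (0 : ℝ), ∑' n, F n v :=
    setIntegral_congr_fun measurableSet_Ioi (fun v hv => (hpt v hv).symm)
  rw [h7, ← hs.tsum_eq]
  exact tsum_congr hval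

end Core

/-! ### assembly -/

theorem Mx_meas (c : ℕ → ℂ) : Measurable (Mx c) := by
  have : Mx c = (fun N : ℕ => ∑ n ∈ Icc 1 N, mu n * c n) ∘ (fun v : ℝ => ⌊v⌋₊) := rfl
  rw [this]
  exact (measurable_from_nat (f := fun N : ℕ => ∑ n ∈ Icc 1 N, mu n * c n)).comp Nat.measurable_floor

theorem Mx_lt (c : ℕ → ℂ) (v : ℝ) (hv : v < 1) : Mx c v = 0 := by
  unfold Mx
  have : ⌊v⌋₊ = 0 := Nat.floor_eq_zero.2 hv
  rw [this]; simp

theorem th1_le (w : ℝ) (hw : 0 < w) : |th1 w| ≤ 2 / w + 6 / w ^ 3 := by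
  have h1 := th1_sub w hw
  have h2 : |th1 w| ≤ |th1 w - 2 / w| + |2 / w| := by
    calc |th1 w| = |(th1 w - 2 / w) + 2 / w| := by ring_nf
      _ ≤ _ := abs_add_le _ _
  have h3 : |2 / w| = 2 / w := abs_of_pos (by positivity)
  linarith

theorem M_int (c : ℕ → ℂ) (B : ℝ) (hB : ∀ v, 1 ≤ v → ‖Mx c v‖ ≤ B * Real.sqrt v) (b : ℝ)
    (hb : 0 < b) : IntegrableOn (fun v : ℝ => Mx c v * ((th1 (v * b) / v : ℝ) : ℂ)) (Set.Ioi 0) := by
  have hB0 : 0 ≤ B := by
    have h := (norm_nonneg _).trans (hB 1 le_rfl)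
    simpa using h
  have hm : AEStronglyMeasurable (fun v : ℝ => Mx c v * ((th1 (v * b) / v : ℝ) : ℂ))
      (volume.restrict (Set.Ioi 0)) := by
    apply AEStronglyMeasurable.mul
    · exact (Mx_meas c).aestronglyMeasurable
    · have hc : ContinuousOn (fun v : ℝ => th1 (v * b) / v) (Set.Ioi 0) := by
        apply ContinuousOn.div
        · exact th1_cont_ser.comp (by fun_prop) (fun v hv => mul_pos hv hb)
        · exact continuousOn_id
        · intro v hv
          exact ne_of_gt hv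
      exact Complex.measurable_ofReal.comp_aemeasurable
        (hc.aemeasurable measurableSet_Ioi) |>.aestronglyMeasurable
  have h1 : IntegrableOn (fun v : ℝ => B * (2 / b + 6 / b ^ 3) * v ^ (-(3 / 2) : ℝ)) (Set.Ioi 1) :=
    (integrableOn_Ioi_rpow_of_lt (by norm_num) one_pos).const_mul _
  have h2 : Integrable ((Set.Ioi (1 : ℝ)).indicator
      (fun v : ℝ => B * (2 / b + 6 / b ^ 3) * v ^ (-(3 / 2) : ℝ))) volume :=
    (integrable_indicator_iff measurableSet_Ioi).2 h1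
  have hone : ∀ᵐ v : ℝ ∂(volume.restrict (Set.Ioi 0)), v ≠ 1 := by
    apply ae_restrict_of_ae
    exact (measure_eq_zero_iff_ae_notMem.1 (measure_singleton (1 : ℝ))).mono (fun v hv h => hv h)
  refine Integrable.mono' (h2.mono_measure Measure.restrict_le_self) hm ?_
  filter_upwards [hone, ae_restrict_mem measurableSet_Ioi] with v hv1 hv
  have hv0 : 0 < v := hv
  rcases lt_or_ge v 1 with h | h
  · rw [Mx_lt c v h]
    simp only [zero_mul, norm_zero]
    apply Set.indicator_nonneg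
    intro x hx
    have hx0 : (0 : ℝ) < x := one_pos.trans hx
    positivity
  · have h' : 1 < v := lt_of_le_of_ne h (Ne.symm hv1)
    rw [Set.indicator_of_mem (s := Set.Ioi (1 : ℝ)) h', norm_mul, Complex.norm_real, Real.norm_eq_abs,
      abs_div, abs_of_pos hv0]
    have h3 : |th1 (v * b)| ≤ (2 / b + 6 / b ^ 3) / v := by
      refine (th1_le (v * b) (by positivity)).trans ?_
      have h4 : 6 / (v * b) ^ 3 ≤ 6 / b ^ 3 / v := by
        rw [div_div, mul_pow]
        apply div_le_div_of_nonneg_left (by norm_num) (by positivity)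
        rw [mul_comm (b ^ 3)]
        gcongr
        calc v = v ^ 1 := (pow_one v).symm
          _ ≤ v ^ 3 := pow_le_pow_right₀ h (by norm_num)
      have h5 : 2 / (v * b) = 2 / b / v := by field_simp
      rw [h5, add_div]
      linarith
    calc ‖Mx c v‖ * (|th1 (v * b)| / v) ≤ (B * Real.sqrt v) * ((2 / b + 6 / b ^ 3) / v / v) := by
          gcongr
          exact hB v h
      _ = B * (2 / b + 6 / b ^ 3) * v ^ (-(3 / 2) : ℝ) := by
          have h6 : v ^ (-(3 / 2) : ℝ) = Real.sqrt v / v ^ 2 := by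
            rw [Real.sqrt_eq_rpow, ← Real.rpow_natCast v 2, ← Real.rpow_sub hv0]
            norm_num
          rw [h6]
          field_simp

theorem comb_int (c : ℕ → ℂ) (B : ℝ) (hB : ∀ v, 1 ≤ v → ‖Mx c v‖ ≤ B * Real.sqrt v) (b : ℝ)
    (hb : 0 < b) (α β r s : ℝ) (hr : 0 < r) (hs : 0 < s) :
    ∫ v in Set.Ioi (0 : ℝ), Mx c v *
        (((th1 (v * b) + α * th1 (r * (v * b)) + β * th1 (s * (v * b))) / v : ℝ) : ℂ) =
      (∫ v in Set.Ioi (0 : ℝ), Mx c v * ((th1 (v * b) / v : ℝ) : ℂ)) +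
      (α : ℂ) * (∫ v in Set.Ioi (0 : ℝ), Mx c v * ((th1 (v * (r * b)) / v : ℝ) : ℂ)) +
      (β : ℂ) * (∫ v in Set.Ioi (0 : ℝ), Mx c v * ((th1 (v * (s * b)) / v : ℝ) : ℂ)) := by
  have h1 := M_int c B hB b hb
  have h2 := (M_int c B hB (r * b) (by positivity)).const_mul (α : ℂ)
  have h3 := (M_int c B hB (s * b) (by positivity)).const_mul (β : ℂ)
  have h12 : Integrable (fun v : ℝ => Mx c v * ((th1 (v * b) / v : ℝ) : ℂ) +
      (α : ℂ) * (Mx c v * ((th1 (v * (r * b)) / v : ℝ) : ℂ))) (volume.restrict (Set.Ioi 0)) := h1.add h2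
  rw [← integral_const_mul, ← integral_const_mul, ← integral_add h1 h2, ← integral_add h12 h3]
  apply setIntegral_congr_fun measurableSet_Ioi
  intro v hv
  dsimp only
  rw [show v * (r * b) = r * (v * b) by ring, show v * (s * b) = s * (v * b) by ring]
  push_cast
  ring

theorem aF_eq_ser (lam : ℝ) (M : ℝ → ℂ) (u b t : ℝ) (hb : Real.exp (lam - u) = b)
    (ht : Real.exp (-u / 2) = t) :
    aF lam M u = (t : ℂ) * ∫ v in Set.Ioi (0 : ℝ), M v * ((th1 (v * b) / v : ℝ) : ℂ) := by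
  unfold aF
  rw [hb, ht]

theorem sqrt_two_exp : Real.exp (-(Real.log 2) / 2) = 1 / Real.sqrt 2 := by
  rw [Real.sqrt_eq_rpow, Real.rpow_def_of_pos (by norm_num), one_div, ← Real.exp_neg]
  congr 1; ring

theorem ser : S_SER := by
  intro lam B c hc hB u
  have hs2 : Real.sqrt 2 ≠ 0 := by positivity
  have hss : Real.sqrt 2 * Real.sqrt 2 = 2 := Real.mul_self_sqrt (by norm_num)
  constructor
  · set a := Real.exp (lam - u) with ha
    set t := Real.exp (-u / 2) with ht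
    have ha0 : 0 < a := Real.exp_pos _
    have e1 : Real.exp (lam - (u + Real.log 2)) = (1 / 2) * a := by
      rw [show lam - (u + Real.log 2) = (lam - u) + -Real.log 2 by ring, Real.exp_add, Real.exp_neg,
        Real.exp_log (by norm_num)]
      ring
    have e2 : Real.exp (lam - (u + 2 * Real.log 2)) = (1 / 4) * a := by
      rw [show lam - (u + 2 * Real.log 2) = (lam - u) + (-Real.log 2 + -Real.log 2) by ring,
        Real.exp_add, Real.exp_add, Real.exp_neg, Real.exp_log (by norm_num)]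
      ring
    have e3 : Real.exp (-(u + Real.log 2) / 2) = t * (1 / Real.sqrt 2) := by
      rw [show -(u + Real.log 2) / 2 = -u / 2 + -(Real.log 2) / 2 by ring, Real.exp_add, sqrt_two_exp]
    have e4 : Real.exp (-(u + 2 * Real.log 2) / 2) = t * (1 / 2) := by
      rw [show -(u + 2 * Real.log 2) / 2 = -u / 2 + -Real.log 2 by ring, Real.exp_add, Real.exp_neg,
        Real.exp_log (by norm_num)]
      ring
    have h1 := comb_int c B hB a ha0 (-(3 / 2)) (1 / 2) (1 / 2) (1 / 4) (by norm_num) (by norm_num)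
    have h2 := core VR VR1 270 a ha0 VR_deriv (comb_cont _ _ _ _ (by norm_num) (by norm_num)) VR1_bd
      (fun w hw => (VR_bd w hw).trans (by gcongr; norm_num)) c hc
    rw [← h2]
    unfold D
    rw [aF_eq_ser lam (Mx c) u a t rfl rfl, aF_eq_ser lam (Mx c) (u + Real.log 2) _ _ e1 e3,
      aF_eq_ser lam (Mx c) (u + 2 * Real.log 2) _ _ e2 e4]
    unfold VR1
    rw [h1]
    generalize (∫ v in Set.Ioi (0 : ℝ), Mx c v * ((th1 (v * a) / v : ℝ) : ℂ)) = I1
    generalize (∫ v in Set.Ioi (0 : ℝ), Mx c v * ((th1 (v * (1 / 2 * a)) / v : ℝ) : ℂ)) = I2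
    generalize (∫ v in Set.Ioi (0 : ℝ), Mx c v * ((th1 (v * (1 / 4 * a)) / v : ℝ) : ℂ)) = I3
    have hc2 : ((Real.sqrt 2 : ℝ) : ℂ) ≠ 0 := by exact_mod_cast hs2
    have hcc : ((Real.sqrt 2 : ℝ) : ℂ) * ((Real.sqrt 2 : ℝ) : ℂ) = 2 := by exact_mod_cast hss
    push_cast
    field_simp
    linear_combination (3 * (t : ℂ) * I2) * hcc
  · set a := Real.exp (lam + u) with ha
    set t := Real.exp (u / 2) with ht
    have ha0 : 0 < a := Real.exp_pos _
    have e0 : Real.exp (lam - (-u)) = a := by rw [ha]; congr 1; ring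
    have e0' : Real.exp (-(-u) / 2) = t := by rw [ht]; congr 1; ring
    have e1 : Real.exp (lam - (-(u + Real.log 2))) = 2 * a := by
      rw [show lam - (-(u + Real.log 2)) = (lam + u) + Real.log 2 by ring, Real.exp_add,
        Real.exp_log (by norm_num)]
      ring
    have e2 : Real.exp (lam - (-(u + 2 * Real.log 2))) = 4 * a := by
      rw [show lam - (-(u + 2 * Real.log 2)) = (lam + u) + (Real.log 2 + Real.log 2) by ring,
        Real.exp_add (lam + u), Real.exp_add (Real.log 2), Real.exp_log (by norm_num)]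
      ring
    have hsq : Real.exp (Real.log 2 / 2) = Real.sqrt 2 := by
      rw [Real.sqrt_eq_rpow, Real.rpow_def_of_pos (by norm_num)]
      congr 1; ring
    have e3 : Real.exp (-(-(u + Real.log 2)) / 2) = t * Real.sqrt 2 := by
      rw [show -(-(u + Real.log 2)) / 2 = u / 2 + Real.log 2 / 2 by ring, Real.exp_add, hsq]
    have e4 : Real.exp (-(-(u + 2 * Real.log 2)) / 2) = t * 2 := by
      rw [show -(-(u + 2 * Real.log 2)) / 2 = u / 2 + Real.log 2 by ring, Real.exp_add,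
        Real.exp_log (by norm_num)]
    have h1 := comb_int c B hB a ha0 (-3) 2 2 4 (by norm_num) (by norm_num)
    have h2 := core VL VL1 270 a ha0 VL_deriv (comb_cont _ _ _ _ (by norm_num) (by norm_num)) VL1_bd
      (fun w hw => (VL_bd w hw).trans (by gcongr; norm_num)) c hc
    rw [← h2]
    unfold D
    beta_reduce
    rw [aF_eq_ser lam (Mx c) (-u) a t e0 e0', aF_eq_ser lam (Mx c) (-(u + Real.log 2)) _ _ e1 e3,
      aF_eq_ser lam (Mx c) (-(u + 2 * Real.log 2)) _ _ e2 e4]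
    unfold VL1
    rw [h1]
    generalize (∫ v in Set.Ioi (0 : ℝ), Mx c v * ((th1 (v * a) / v : ℝ) : ℂ)) = I1
    generalize (∫ v in Set.Ioi (0 : ℝ), Mx c v * ((th1 (v * (2 * a)) / v : ℝ) : ℂ)) = I2
    generalize (∫ v in Set.Ioi (0 : ℝ), Mx c v * ((th1 (v * (4 * a)) / v : ℝ) : ℂ)) = I3
    have hc2 : ((Real.sqrt 2 : ℝ) : ℂ) ≠ 0 := by exact_mod_cast hs2
    push_cast
    field_simp
    ring

end Pool.Agent.Y821.ME
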