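import Pool.Agent.Y821.ME.Stm

/-!
# Squarefree numbers in `[2N, 3N]`
-/

set_option autoImplicit false

open Finset

namespace Pool.Agent.Y821.ME

theorem sf_card_mult (N k : ℕ) (hk : 0 < k) :
    (((Icc (2 * N) (3 * N)).filter (fun m => k ∣ m)).card : ℝ) ≤ (N : ℝ) / k + 1 := by
  have h1 : ((Icc (2 * N) (3 * N)).filter (fun m => k ∣ m)).card ≤
      (Icc ((2 * N + k - 1) / k) (3 * N / k)).card := by
    refine Finset.card_le_card_of_injOn (fun m => m / k) ?_ ?_
    · intro m hm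
      rw [Finset.mem_coe, Finset.mem_filter, Finset.mem_Icc] at hm
      rw [Finset.mem_coe, Finset.mem_Icc]
      refine ⟨?_, Nat.div_le_div_right hm.1.2⟩
      obtain ⟨⟨h1, -⟩, c, rfl⟩ := hm
      show (2 * N + k - 1) / k ≤ k * c / k
      rw [Nat.mul_div_cancel_left _ hk, ← Nat.lt_succ_iff, Nat.div_lt_iff_lt_mul hk,
        Nat.succ_eq_add_one, add_mul, one_mul, mul_comm c k]
      omega
    · intro a ha b hb h
      rw [Finset.mem_coe, Finset.mem_filter] at ha hb
      rw [← Nat.div_mul_cancel ha.2, ← Nat.div_mul_cancel hb.2]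
      exact congrArg (· * k) h
  have hk' : (0 : ℝ) < k := by exact_mod_cast hk
  have h2 : ((3 * N / k : ℕ) : ℝ) ≤ 3 * N / k := by
    refine Nat.cast_div_le.trans ?_
    push_cast
    exact le_rfl
  have h3 : (2 * N / k : ℝ) ≤ (((2 * N + k - 1) / k : ℕ) : ℝ) := by
    rw [div_le_iff₀ hk']
    have h4 : 2 * N ≤ (2 * N + k - 1) / k * k := by
      have h5 := Nat.div_add_mod' (2 * N + k - 1) k
      have h6 := Nat.mod_lt (2 * N + k - 1) hk
      omega
    exact_mod_cast h4
  refine (Nat.cast_le.2 h1).trans ?_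
  rw [Nat.card_Icc]
  have h7 : (N : ℝ) / k = 3 * N / k - 2 * N / k := by ring
  by_cases h8 : (2 * N + k - 1) / k ≤ 3 * N / k + 1
  · rw [Nat.cast_sub h8]
    push_cast at h2 h3 ⊢
    linarith
  · rw [Nat.sub_eq_zero_of_le (by omega)]
    push_cast
    positivity

theorem sf_sum_le (D : ℕ) (hD : 2 ≤ D) :
    ∑ d ∈ Icc 2 D, (1 : ℝ) / (d * d) ≤ 3 / 4 - 1 / D := by
  induction D, hD using Nat.le_induction with
  | base => norm_num
  | succ D hD ih =>
    rw [Finset.sum_Icc_succ_top (by omega)]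
    have h1 : (0 : ℝ) < D := by positivity
    have h2 : (1 : ℝ) / (((D + 1 : ℕ) : ℝ) * ((D + 1 : ℕ) : ℝ)) ≤ 1 / D - 1 / ((D + 1 : ℕ) : ℝ) := by
      push_cast
      rw [div_sub_div _ _ (by positivity) (by positivity),
        div_le_div_iff₀ (by positivity) (by positivity)]
      nlinarith
    linarith

theorem sf : S_SF := by
  classical
  refine ⟨1200, fun N hN => ?_⟩
  have hD2 : Nat.sqrt (3 * N) * Nat.sqrt (3 * N) ≤ 3 * N := Nat.sqrt_le _
  have hD : 2 ≤ Nat.sqrt (3 * N) := Nat.le_sqrt.2 (by omega)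
  have h1 : (Icc (2 * N) (3 * N)).filter (fun m => ¬ Squarefree m) ⊆
      (Icc 2 (Nat.sqrt (3 * N))).biUnion
        fun d => (Icc (2 * N) (3 * N)).filter (fun m => d * d ∣ m) := by
    intro m hm
    rw [Finset.mem_filter, Finset.mem_Icc] at hm
    obtain ⟨⟨hm1, hm2⟩, hm3⟩ := hm
    unfold Squarefree at hm3
    push Not at hm3
    obtain ⟨x, hx, hu⟩ := hm3
    rw [Nat.isUnit_iff] at hu
    have hx0 : x ≠ 0 := by
      rintro rfl
      rw [mul_zero, zero_dvd_iff] at hx
      omega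
    have hxm : x * x ≤ m := Nat.le_of_dvd (by omega) hx
    rw [Finset.mem_biUnion]
    refine ⟨x, ?_, ?_⟩
    · rw [Finset.mem_Icc]
      exact ⟨by omega, Nat.le_sqrt.2 (hxm.trans hm2)⟩
    · rw [Finset.mem_filter, Finset.mem_Icc]
      exact ⟨⟨hm1, hm2⟩, hx⟩
  have h2 : (((Icc (2 * N) (3 * N)).filter (fun m => ¬ Squarefree m)).card : ℝ) ≤
      3 / 4 * N + Nat.sqrt (3 * N) := by
    calc (((Icc (2 * N) (3 * N)).filter (fun m => ¬ Squarefree m)).card : ℝ)
        ≤ ∑ d ∈ Icc 2 (Nat.sqrt (3 * N)),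
          (((Icc (2 * N) (3 * N)).filter (fun m => d * d ∣ m)).card : ℝ) := by
          exact_mod_cast (Finset.card_le_card h1).trans Finset.card_biUnion_le
      _ ≤ ∑ d ∈ Icc 2 (Nat.sqrt (3 * N)), ((N : ℝ) * (1 / (d * d)) + 1) := by
          refine Finset.sum_le_sum fun d hd => ?_
          rw [Finset.mem_Icc] at hd
          have h3 := sf_card_mult N (d * d) (Nat.mul_pos (by omega) (by omega))
          push_cast at h3
          refine h3.trans (le_of_eq ?_)
          ring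
      _ = (N : ℝ) * ∑ d ∈ Icc 2 (Nat.sqrt (3 * N)), (1 : ℝ) / (d * d) +
            ((Icc 2 (Nat.sqrt (3 * N))).card : ℝ) := by
          rw [Finset.sum_add_distrib, Finset.mul_sum, Finset.sum_const, nsmul_eq_mul, mul_one]
      _ ≤ 3 / 4 * N + Nat.sqrt (3 * N) := by
          have h4 := sf_sum_le _ hD
          have h5 : (0 : ℝ) ≤ 1 / (Nat.sqrt (3 * N) : ℝ) := by positivity
          have h6 : (0 : ℝ) ≤ N := Nat.cast_nonneg N
          have h7 : ((Icc 2 (Nat.sqrt (3 * N))).card : ℝ) ≤ Nat.sqrt (3 * N) := by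
            rw [Nat.card_Icc]
            exact_mod_cast (by omega : Nat.sqrt (3 * N) + 1 - 2 ≤ Nat.sqrt (3 * N))
          nlinarith
  have h3 : ((Icc (2 * N) (3 * N)).filter Squarefree).card +
      ((Icc (2 * N) (3 * N)).filter (fun m => ¬ Squarefree m)).card = N + 1 := by
    rw [Finset.card_filter_add_card_filter_not, Nat.card_Icc]
    omega
  have h4 : (((Icc (2 * N) (3 * N)).filter Squarefree).card : ℝ) +
      (((Icc (2 * N) (3 * N)).filter (fun m => ¬ Squarefree m)).card : ℝ) = N + 1 := by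
    exact_mod_cast h3
  have h5 : (Nat.sqrt (3 * N) : ℝ) ≤ N / 20 + 1 := by
    have h6 : (Nat.sqrt (3 * N) : ℝ) * Nat.sqrt (3 * N) ≤ 3 * N := by exact_mod_cast hD2
    have h7 : (1200 : ℝ) ≤ N := by exact_mod_cast hN
    by_contra hc
    push Not at hc
    nlinarith
  have h8 : (((Icc (2 * N) (3 * N)).filter Squarefree).card : ℝ) ≥ N / 5 := by linarith
  convert h8 using 3

end Pool.Agent.Y821.ME
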