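import Pool.Agent.Y821.ME.Stm2
import Pool.Agent.Y821.ME.Sf

/-!
# Squarefree numbers in `[2N, 3N]` which are `1` modulo `p`
-/

set_option autoImplicit false

open Finset

namespace Pool.Agent.Y821.ME

theorem sf2_class_le (N q v : ℕ) (hq : 0 < q) :
    (((Icc (2 * N) (3 * N)).filter (fun m => m ≡ v [MOD q])).card : ℝ) ≤ ((N : ℝ) + 1) / q + 1 := by
  have hI : Icc (2 * N) (3 * N) = Ico (2 * N) (3 * N + 1) := by
    ext x; simp only [mem_Icc, mem_Ico]; omega
  rw [hI]
  have h := Nat.Ico_filter_modEq_card (2 * N) (3 * N + 1) hq v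
  have hq' : (0 : ℚ) < q := by exact_mod_cast hq
  have h2 : (((filter (fun x => x ≡ v [MOD q]) (Ico (2 * N) (3 * N + 1))).card : ℤ) : ℚ) ≤
      ((N : ℚ) + 1) / q + 1 := by
    rw [h]
    push_cast
    rw [max_le_iff]
    constructor
    · have a1 := Int.ceil_lt_add_one ((3 * (N : ℚ) + 1 - v) / q)
      have a2 := Int.le_ceil ((2 * (N : ℚ) - v) / q)
      have a3 : (3 * (N : ℚ) + 1 - v) / q = (2 * (N : ℚ) - v) / q + (N + 1) / q := by ring
      linarith
    · positivity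
  have h3 : (((filter (fun x => x ≡ v [MOD q]) (Ico (2 * N) (3 * N + 1))).card : ℚ) : ℝ) ≤
      ((((N : ℚ) + 1) / q + 1 : ℚ) : ℝ) := by
    exact_mod_cast h2
  push_cast at h3
  exact h3

theorem sf2_class_ge (N q v : ℕ) (hq : 0 < q) :
    ((N : ℝ) + 1) / q - 1 ≤ (((Icc (2 * N) (3 * N)).filter (fun m => m ≡ v [MOD q])).card : ℝ) := by
  have hI : Icc (2 * N) (3 * N) = Ico (2 * N) (3 * N + 1) := by
    ext x; simp only [mem_Icc, mem_Ico]; omega
  rw [hI]
  have h := Nat.Ico_filter_modEq_card (2 * N) (3 * N + 1) hq v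
  have hq' : (0 : ℚ) < q := by exact_mod_cast hq
  have h2 : ((N : ℚ) + 1) / q - 1 ≤
      (((filter (fun x => x ≡ v [MOD q]) (Ico (2 * N) (3 * N + 1))).card : ℤ) : ℚ) := by
    rw [h]
    push_cast
    rw [le_max_iff]
    left
    have a1 := Int.ceil_lt_add_one ((2 * (N : ℚ) - v) / q)
    have a2 := Int.le_ceil ((3 * (N : ℚ) + 1 - v) / q)
    have a3 : (3 * (N : ℚ) + 1 - v) / q = (2 * (N : ℚ) - v) / q + (N + 1) / q := by ring
    linarith
  have h3 : ((((N : ℚ) + 1) / q - 1 : ℚ) : ℝ) ≤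
      (((filter (fun x => x ≡ v [MOD q]) (Ico (2 * N) (3 * N + 1))).card : ℚ) : ℝ) := by
    exact_mod_cast h2
  push_cast at h3
  exact h3

theorem sf2_mult (N p d : ℕ) (hp : p.Prime) (hd : 0 < d) :
    (((Icc (2 * N) (3 * N)).filter (fun m => m % p = 1 ∧ d * d ∣ m)).card : ℝ) ≤
      ((N : ℝ) + 1) / p * (1 / (d * d)) + 1 := by
  have hp0 : (0 : ℝ) < p := by exact_mod_cast hp.pos
  have hd0 : (0 : ℝ) < d := by exact_mod_cast hd
  have hpos : (0 : ℝ) ≤ ((N : ℝ) + 1) / p * (1 / (d * d)) := by positivity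
  rcases ((Icc (2 * N) (3 * N)).filter (fun m => m % p = 1 ∧ d * d ∣ m)).eq_empty_or_nonempty with h | h
  · rw [h]
    simp only [Finset.card_empty, Nat.cast_zero]
    linarith
  · obtain ⟨v, hv⟩ := h
    rw [Finset.mem_filter] at hv
    obtain ⟨-, hv1, hv2⟩ := hv
    have hcop : Nat.Coprime (d * d) p := by
      rw [Nat.coprime_comm, hp.coprime_iff_not_dvd]
      intro h1
      have h2 : p ∣ v := h1.trans hv2
      have h3 := Nat.mod_eq_zero_of_dvd h2
      omega
    have hsub : (Icc (2 * N) (3 * N)).filter (fun m => m % p = 1 ∧ d * d ∣ m) ⊆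
        (Icc (2 * N) (3 * N)).filter (fun m => m ≡ v [MOD (d * d * p)]) := by
      intro m hm
      rw [Finset.mem_filter] at hm ⊢
      refine ⟨hm.1, ?_⟩
      rw [← Nat.modEq_and_modEq_iff_modEq_mul hcop]
      constructor
      · have e1 := Nat.mod_eq_zero_of_dvd hm.2.2
        have e2 := Nat.mod_eq_zero_of_dvd hv2
        exact e1.trans e2.symm
      · exact hm.2.1.trans hv1.symm
    have h1 := sf2_class_le N (d * d * p) v (Nat.mul_pos (Nat.mul_pos hd hd) hp.pos)
    have h2 : (((Icc (2 * N) (3 * N)).filter (fun m => m % p = 1 ∧ d * d ∣ m)).card : ℝ) ≤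
        (((Icc (2 * N) (3 * N)).filter (fun m => m ≡ v [MOD (d * d * p)])).card : ℝ) := by
      exact_mod_cast Finset.card_le_card hsub
    refine h2.trans (h1.trans (le_of_eq ?_))
    push_cast
    field_simp

theorem sf2 : S_SF2 := by
  classical
  intro p hp
  have hp2 := hp.two_le
  have hp0 : (0 : ℝ) < p := by exact_mod_cast hp.pos
  have hp2' : (2 : ℝ) ≤ p := by exact_mod_cast hp2
  refine ⟨40 * p * (30 * p + 1), fun N hN => ?_⟩
  have hN1 : 1200 ≤ N := by
    have : 40 * 2 * (30 * 2 + 1) ≤ 40 * p * (30 * p + 1) := by gcongr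
    omega
  have hD2 : Nat.sqrt (3 * N) * Nat.sqrt (3 * N) ≤ 3 * N := Nat.sqrt_le _
  have hD : 2 ≤ Nat.sqrt (3 * N) := Nat.le_sqrt.2 (by omega)
  set A := (Icc (2 * N) (3 * N)).filter (fun m => m % p = 1) with hA
  have hAcard : ((N : ℝ) + 1) / p - 1 ≤ (A.card : ℝ) := by
    have h := sf2_class_ge N p 1 hp.pos
    have e : (Icc (2 * N) (3 * N)).filter (fun m => m ≡ 1 [MOD p]) = A := by
      rw [hA]
      apply Finset.filter_congr
      intro m _
      unfold Nat.ModEq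
      rw [Nat.mod_eq_of_lt (show 1 < p by omega)]
    rw [e] at h
    exact h
  have h1 : A.filter (fun m => ¬ Squarefree m) ⊆
      (Icc 2 (Nat.sqrt (3 * N))).biUnion
        fun d => (Icc (2 * N) (3 * N)).filter (fun m => m % p = 1 ∧ d * d ∣ m) := by
    intro m hm
    rw [hA, Finset.mem_filter, Finset.mem_filter, Finset.mem_Icc] at hm
    obtain ⟨⟨⟨hm1, hm2⟩, hmp⟩, hm3⟩ := hm
    unfold Squarefree at hm3
    push Not at hm3
    obtain ⟨x, hx, hu⟩ := hm3
    rw [Nat.isUnit_iff] at hu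
    have hx0 : x ≠ 0 := by
      rintro rfl
      rw [mul_zero, zero_dvd_iff] at hx
      omega
    have hxm : x * x ≤ m := Nat.le_of_dvd (by omega) hx
    rw [Finset.mem_biUnion]
    refine ⟨x, ?_, ?_⟩
    · rw [Finset.mem_Icc]
      exact ⟨by omega, Nat.le_sqrt.2 (hxm.trans hm2)⟩
    · rw [Finset.mem_filter, Finset.mem_Icc]
      exact ⟨⟨hm1, hm2⟩, hmp, hx⟩
  have hNp : (0 : ℝ) ≤ ((N : ℝ) + 1) / p := by positivity
  have h2 : ((A.filter (fun m => ¬ Squarefree m)).card : ℝ) ≤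
      3 / 4 * (((N : ℝ) + 1) / p) + Nat.sqrt (3 * N) := by
    calc ((A.filter (fun m => ¬ Squarefree m)).card : ℝ)
        ≤ ∑ d ∈ Icc 2 (Nat.sqrt (3 * N)),
          (((Icc (2 * N) (3 * N)).filter (fun m => m % p = 1 ∧ d * d ∣ m)).card : ℝ) := by
          exact_mod_cast (Finset.card_le_card h1).trans Finset.card_biUnion_le
      _ ≤ ∑ d ∈ Icc 2 (Nat.sqrt (3 * N)), (((N : ℝ) + 1) / p * (1 / (d * d)) + 1) := by
          refine Finset.sum_le_sum fun d hd => ?_
          rw [Finset.mem_Icc] at hd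
          exact sf2_mult N p d hp (by omega)
      _ = ((N : ℝ) + 1) / p * ∑ d ∈ Icc 2 (Nat.sqrt (3 * N)), (1 : ℝ) / (d * d) +
            ((Icc 2 (Nat.sqrt (3 * N))).card : ℝ) := by
          rw [Finset.sum_add_distrib, Finset.mul_sum, Finset.sum_const, nsmul_eq_mul, mul_one]
      _ ≤ 3 / 4 * (((N : ℝ) + 1) / p) + Nat.sqrt (3 * N) := by
          have h4 := sf_sum_le _ hD
          have h5 : (0 : ℝ) ≤ 1 / (Nat.sqrt (3 * N) : ℝ) := by positivity
          have h7 : ((Icc 2 (Nat.sqrt (3 * N))).card : ℝ) ≤ Nat.sqrt (3 * N) := by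
            rw [Nat.card_Icc]
            exact_mod_cast (by omega : Nat.sqrt (3 * N) + 1 - 2 ≤ Nat.sqrt (3 * N))
          have h8 : ((N : ℝ) + 1) / p * ∑ d ∈ Icc 2 (Nat.sqrt (3 * N)), (1 : ℝ) / (d * d) ≤
              ((N : ℝ) + 1) / p * (3 / 4) :=
            mul_le_mul_of_nonneg_left (by linarith) hNp
          linarith
  have h3 : (A.filter Squarefree).card + (A.filter (fun m => ¬ Squarefree m)).card = A.card := by
    rw [Finset.card_filter_add_card_filter_not]
  have h4 : ((A.filter Squarefree).card : ℝ) +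
      ((A.filter (fun m => ¬ Squarefree m)).card : ℝ) = A.card := by
    exact_mod_cast h3
  have h5 : (Nat.sqrt (3 * N) : ℝ) ≤ N / (40 * p) + 30 * p := by
    have h6 : (Nat.sqrt (3 * N) : ℝ) * Nat.sqrt (3 * N) ≤ 3 * N := by exact_mod_cast hD2
    have h7 : (0 : ℝ) ≤ ((Nat.sqrt (3 * N) : ℝ) - 60 * p) ^ 2 := sq_nonneg _
    have h8 : (N : ℝ) / (40 * p) + 30 * p = (3 * N + 3600 * p ^ 2) / (120 * p) := by
      field_simp
      ring
    rw [h8, le_div_iff₀ (by positivity)]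
    nlinarith
  have h6 : (30 * (p : ℝ) + 1) ≤ N / (40 * p) := by
    rw [le_div_iff₀ (by positivity)]
    have : ((40 * p * (30 * p + 1) : ℕ) : ℝ) ≤ N := by exact_mod_cast hN
    push_cast at this
    linarith
  have h7 : (N : ℝ) / (5 * p) + (N : ℝ) / (40 * p) + (N : ℝ) / (40 * p) = 1 / 4 * (N / p) := by
    field_simp
    norm_num
  have h8 : ((N : ℝ) + 1) / p = N / p + 1 / p := by ring
  have h9 : (0 : ℝ) ≤ 1 / p := by positivity
  have h10 : (N : ℝ) / (5 * p) ≤ ((A.filter Squarefree).card : ℝ) := by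
    rw [h8] at hAcard h2
    linarith
  refine h10.trans (le_of_eq ?_)
  congr 2
  rw [hA, Finset.filter_filter]
  apply Finset.filter_congr
  intro m _
  exact and_comm

end Pool.Agent.Y821.ME
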