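import Pool.Agent.Y821.ME.Stm

/-!
# Project ME, part SUP (helper571): the supremum is the upper limit for almost periodic functions
-/

set_option autoImplicit false

open Filter Topology MeasureTheory Finset

namespace Pool.Agent.Y821.ME

namespace SupAux

/-- the Fejér kernel -/
noncomputable def fej (v : ℝ) : ℝ := if v = 0 then 1 else 2 * (1 - Real.cos v) / v ^ 2

theorem fej_nonneg (v : ℝ) : 0 ≤ fej v := by
  unfold fej
  split_ifs
  · exact zero_le_one
  · have := Real.cos_le_one v
    exact div_nonneg (by linarith) (sq_nonneg _)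

theorem fej_le (v : ℝ) : fej v ≤ 5 * (1 + v ^ 2)⁻¹ := by
  unfold fej
  split_ifs with h
  · subst h; norm_num
  · have h1 := Real.one_sub_sq_div_two_le_cos (x := v)
    have h2 := Real.neg_one_le_cos v
    have hv : 0 < v ^ 2 := by positivity
    rw [← div_eq_mul_inv, div_le_div_iff₀ hv (by positivity)]
    nlinarith

theorem fej_measurable : Measurable fej := by
  unfold fej
  refine Measurable.ite (measurableSet_singleton 0) measurable_const ?_
  fun_prop

theorem fej_integrable : Integrable fej := by
  refine (integrable_inv_one_add_sq.const_mul 5).mono' fej_measurable.aestronglyMeasurable ?_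
  filter_upwards with v
  rw [Real.norm_of_nonneg (fej_nonneg v)]
  exact fej_le v

theorem fej_pos : 0 < ∫ v, fej v := by
  rw [integral_pos_iff_support_of_nonneg fej_nonneg fej_integrable]
  have h : Set.Ioo (0 : ℝ) 1 ⊆ Function.support fej := by
    intro v hv
    rw [Function.mem_support]
    unfold fej
    rw [if_neg hv.1.ne']
    have h1 : Real.cos v < 1 := by
      have := Real.cos_lt_cos_of_nonneg_of_le_pi (x := 0) (y := v) le_rfl
        (by linarith [hv.2, Real.pi_gt_three]) hv.1
      simpa using this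
    have h2 : 0 < v ^ 2 := by have := hv.1; positivity
    have : 0 < 2 * (1 - Real.cos v) / v ^ 2 := div_pos (by linarith) h2
    exact this.ne'
  refine lt_of_lt_of_le ?_ (measure_mono h)
  rw [Real.volume_Ioo]
  simp

/-- the triangle -/
noncomputable def kk (T t : ℝ) : ℂ := ((max (1 - |t| / T) 0 : ℝ) : ℂ)

theorem kk_continuous (T : ℝ) : Continuous (kk T) := by
  unfold kk
  fun_prop

theorem kk_compact {T : ℝ} (hT : 0 < T) : HasCompactSupport (kk T) := by
  apply HasCompactSupport.intro (K := Set.Icc (-T) T) isCompact_Icc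
  intro t ht
  unfold kk
  have h : T < |t| := by
    by_contra h
    push Not at h
    exact ht (abs_le.1 h)
  rw [max_eq_right]
  · simp
  · have : 1 ≤ |t| / T := by rw [le_div_iff₀ hT]; linarith
    linarith

theorem kk_one (v : ℝ) : ∫ t : ℝ, kk 1 t * Complex.exp (Complex.I * t * v) = (fej v : ℂ) := by
  have hsupp : Function.support (fun t : ℝ => kk 1 t * Complex.exp (Complex.I * t * v)) ⊆
      Set.Ioc (-1) 1 := by
    intro t ht
    rw [Function.mem_support] at ht
    by_contra hcon
    apply ht
    have h : 1 ≤ |t| := by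
      by_contra h
      push Not at h
      rw [abs_lt] at h
      exact hcon ⟨h.1, h.2.le⟩
    have : kk 1 t = 0 := by
      unfold kk
      rw [max_eq_right (by linarith [div_one |t|])]
      simp
    rw [this, zero_mul]
  rw [← intervalIntegral.integral_eq_integral_of_support_subset hsupp]
  have hc : Continuous (fun t : ℝ => kk 1 t * Complex.exp (Complex.I * t * v)) := by
    have := kk_continuous 1
    fun_prop
  rw [← intervalIntegral.integral_add_adjacent_intervals (hc.intervalIntegrable (-1) 0)
    (hc.intervalIntegrable 0 1)]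
  have e1 : ∫ t in (-1 : ℝ)..0, kk 1 t * Complex.exp (Complex.I * t * v) =
      ∫ t in (-1 : ℝ)..0, (1 + t : ℂ) * Complex.exp (Complex.I * t * v) := by
    apply intervalIntegral.integral_congr
    intro t ht
    rw [Set.uIcc_of_le (by norm_num)] at ht
    have h : kk 1 t = (1 + t : ℂ) := by
      unfold kk
      rw [abs_of_nonpos ht.2, max_eq_left (by have := ht.1; linarith [div_one (-t)])]
      push_cast
      ring
    simp only [h]
  have e2 : ∫ t in (0 : ℝ)..1, kk 1 t * Complex.exp (Complex.I * t * v) =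
      ∫ t in (0 : ℝ)..1, (1 - t : ℂ) * Complex.exp (Complex.I * t * v) := by
    apply intervalIntegral.integral_congr
    intro t ht
    rw [Set.uIcc_of_le (by norm_num)] at ht
    have h : kk 1 t = (1 - t : ℂ) := by
      unfold kk
      rw [abs_of_nonneg ht.1, max_eq_left (by have := ht.2; linarith [div_one t])]
      push_cast
      ring
    simp only [h]
  rw [e1, e2]
  unfold fej
  split_ifs with hv
  · subst hv
    simp only [Complex.ofReal_zero, mul_zero, Complex.exp_zero, mul_one]
    have d1 : ∀ t ∈ Set.uIcc (-1 : ℝ) 0, HasDerivAt (fun t : ℝ => (t : ℂ) + (t : ℂ) ^ 2 / 2)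
        (1 + t : ℂ) t := by
      intro t _
      have h1 : HasDerivAt (fun t : ℝ => (t : ℂ)) 1 t := Complex.ofRealCLM.hasDerivAt
      have h2 : HasDerivAt (fun t : ℝ => (t : ℂ) + (t : ℂ) ^ 2 / 2) _ t :=
        h1.add ((h1.pow 2).div_const 2)
      refine h2.congr_deriv ?_
      push_cast
      ring
    have d2 : ∀ t ∈ Set.uIcc (0 : ℝ) 1, HasDerivAt (fun t : ℝ => (t : ℂ) - (t : ℂ) ^ 2 / 2)
        (1 - t : ℂ) t := by
      intro t _
      have h1 : HasDerivAt (fun t : ℝ => (t : ℂ)) 1 t := Complex.ofRealCLM.hasDerivAt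
      have h2 : HasDerivAt (fun t : ℝ => (t : ℂ) - (t : ℂ) ^ 2 / 2) _ t :=
        h1.sub ((h1.pow 2).div_const 2)
      refine h2.congr_deriv ?_
      push_cast
      ring
    rw [intervalIntegral.integral_eq_sub_of_hasDerivAt d1
      ((by fun_prop : Continuous (fun t : ℝ => (1 + t : ℂ))).intervalIntegrable _ _),
      intervalIntegral.integral_eq_sub_of_hasDerivAt d2
      ((by fun_prop : Continuous (fun t : ℝ => (1 - t : ℂ))).intervalIntegrable _ _)]
    push_cast
    norm_num
  · have hvc : (v : ℂ) ≠ 0 := by exact_mod_cast hv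
    have hI : Complex.I * v ≠ 0 := mul_ne_zero Complex.I_ne_zero hvc
    have he : ∀ t : ℝ, HasDerivAt (fun t : ℝ => Complex.exp (Complex.I * t * v))
        (Complex.exp (Complex.I * t * v) * (Complex.I * v)) t := by
      intro t
      have h1 : HasDerivAt (fun t : ℝ => (t : ℂ)) 1 t := Complex.ofRealCLM.hasDerivAt
      have h2 : HasDerivAt (fun t : ℝ => Complex.I * (t : ℂ) * v) (Complex.I * 1 * v) t :=
        (h1.const_mul Complex.I).mul_const (v : ℂ)
      have h3 := h2.cexp
      rwa [mul_one] at h3
    have d1 : ∀ t ∈ Set.uIcc (-1 : ℝ) 0, HasDerivAt (fun t : ℝ =>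
        (1 + t : ℂ) * Complex.exp (Complex.I * t * v) / (Complex.I * v) -
          Complex.exp (Complex.I * t * v) / (Complex.I * v) ^ 2)
        ((1 + t : ℂ) * Complex.exp (Complex.I * t * v)) t := by
      intro t _
      have h1 : HasDerivAt (fun t : ℝ => (t : ℂ)) 1 t := Complex.ofRealCLM.hasDerivAt
      have h2 : HasDerivAt (fun t : ℝ =>
          (1 + t : ℂ) * Complex.exp (Complex.I * t * v) / (Complex.I * v) -
          Complex.exp (Complex.I * t * v) / (Complex.I * v) ^ 2) _ t :=
        (((h1.const_add 1).mul (he t)).div_const (Complex.I * v)).sub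
        ((he t).div_const ((Complex.I * v) ^ 2))
      refine h2.congr_deriv ?_
      field_simp
      ring
    have d2 : ∀ t ∈ Set.uIcc (0 : ℝ) 1, HasDerivAt (fun t : ℝ =>
        (1 - t : ℂ) * Complex.exp (Complex.I * t * v) / (Complex.I * v) +
          Complex.exp (Complex.I * t * v) / (Complex.I * v) ^ 2)
        ((1 - t : ℂ) * Complex.exp (Complex.I * t * v)) t := by
      intro t _
      have h1 : HasDerivAt (fun t : ℝ => (t : ℂ)) 1 t := Complex.ofRealCLM.hasDerivAt
      have h2 : HasDerivAt (fun t : ℝ =>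
          (1 - t : ℂ) * Complex.exp (Complex.I * t * v) / (Complex.I * v) +
          Complex.exp (Complex.I * t * v) / (Complex.I * v) ^ 2) _ t :=
        (((h1.const_sub 1).mul (he t)).div_const (Complex.I * v)).add
        ((he t).div_const ((Complex.I * v) ^ 2))
      refine h2.congr_deriv ?_
      field_simp
      ring
    rw [intervalIntegral.integral_eq_sub_of_hasDerivAt d1
      ((by fun_prop : Continuous (fun t : ℝ => (1 + t : ℂ) *
        Complex.exp (Complex.I * t * v))).intervalIntegrable _ _),
      intervalIntegral.integral_eq_sub_of_hasDerivAt d2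
      ((by fun_prop : Continuous (fun t : ℝ => (1 - t : ℂ) *
        Complex.exp (Complex.I * t * v))).intervalIntegrable _ _)]
    push_cast
    have hcos : Complex.cos v = (Complex.exp (Complex.I * v) + Complex.exp (-(Complex.I * v))) / 2 := by
      rw [Complex.cos]
      congr 3 <;> ring_nf
    rw [hcos]
    have hI2 : (Complex.I * (v : ℂ)) ^ 2 = -(v : ℂ) ^ 2 := by
      rw [mul_pow, Complex.I_sq]; ring
    rw [hI2]
    have r1 : Complex.I * (-1 : ℂ) * v = -(Complex.I * v) := by ring
    have r2 : Complex.I * (0 : ℂ) * v = 0 := by ring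
    have r3 : Complex.I * (1 : ℂ) * v = Complex.I * v := by ring
    rw [r1, r2, r3, Complex.exp_zero]
    field_simp
    ring

theorem kk_scale {T : ℝ} (hT : 0 < T) (v : ℝ) :
    ∫ t : ℝ, kk T t * Complex.exp (Complex.I * t * v) = ((T * fej (T * v) : ℝ) : ℂ) := by
  have h1 : ∀ t : ℝ, kk T t * Complex.exp (Complex.I * t * v) =
      (fun s : ℝ => kk 1 s * Complex.exp (Complex.I * s * (T * v : ℝ))) (t / T) := by
    intro t
    have e1 : kk T t = kk 1 (t / T) := by
      unfold kk
      rw [abs_div, abs_of_pos hT, div_one]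
    have hTc : (T : ℂ) ≠ 0 := by exact_mod_cast hT.ne'
    simp only [e1]
    congr 2
    push_cast
    field_simp
  simp_rw [h1]
  rw [MeasureTheory.Measure.integral_comp_div (fun s : ℝ => kk 1 s *
    Complex.exp (Complex.I * s * (T * v : ℝ))) T, kk_one, abs_of_pos hT, Complex.real_smul]
  push_cast
  ring

/-- simultaneous recurrence -/
theorem recur (Γ : Finset ℝ) (N : ℝ) (ε : ℝ) (hε : 0 < ε) :
    ∃ τ : ℝ, N ≤ τ ∧ ∀ γ ∈ Γ, ‖Complex.exp (Complex.I * γ * τ) - 1‖ ≤ ε := by
  obtain ⟨x, hx⟩ : ∃ x : ℕ → (Γ → ℂ), x = fun (n : ℕ) (γ : Γ) =>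
    Complex.exp (Complex.I * ((γ : ℝ) : ℂ) * (n : ℂ)) := ⟨_, rfl⟩
  have hn : ∀ (γ : ℝ) (t : ℝ), ‖Complex.exp (Complex.I * γ * t)‖ = 1 := by
    intro γ t
    rw [Complex.norm_exp]
    simp
  have hb : ∀ n, x n ∈ Metric.closedBall (0 : Γ → ℂ) 1 := by
    intro n
    rw [mem_closedBall_zero_iff, pi_norm_le_iff_of_nonneg zero_le_one]
    intro γ
    rw [hx]
    have := hn γ n
    push_cast at this
    exact this.le
  obtain ⟨a, -, φ, hφ, ha⟩ := tendsto_subseq_of_bounded Metric.isBounded_closedBall hb
  have hcau := ha.cauchySeq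
  rw [Metric.cauchySeq_iff'] at hcau
  obtain ⟨n₀, hn₀⟩ := hcau ε hε
  obtain ⟨m, hm⟩ := exists_nat_ge N
  refine ⟨((φ (n₀ + m + φ n₀) - φ n₀ : ℕ) : ℝ), ?_, ?_⟩
  · refine hm.trans ?_
    have h1 := hφ.id_le (n₀ + m + φ n₀)
    simp only [id] at h1
    have : m ≤ φ (n₀ + m + φ n₀) - φ n₀ := by omega
    exact_mod_cast this
  · intro γ hγ
    have h1 := hn₀ (n₀ + m + φ n₀) (by omega)
    have hle : φ n₀ ≤ φ (n₀ + m + φ n₀) := hφ.monotone (by omega)
    rw [dist_eq_norm] at h1
    have h2 := (norm_le_pi_norm ((x ∘ φ) (n₀ + m + φ n₀) - (x ∘ φ) n₀) ⟨γ, hγ⟩).trans h1.le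
    rw [hx] at h2
    simp only [Function.comp, Pi.sub_apply] at h2
    have h3 : Complex.exp (Complex.I * γ * (φ (n₀ + m + φ n₀) : ℕ)) -
        Complex.exp (Complex.I * γ * (φ n₀ : ℕ)) =
        (Complex.exp (Complex.I * γ * ((φ (n₀ + m + φ n₀) - φ n₀ : ℕ) : ℝ)) - 1) *
          Complex.exp (Complex.I * γ * (φ n₀ : ℕ)) := by
      rw [sub_mul, one_mul, ← Complex.exp_add]
      congr 2
      push_cast [Nat.cast_sub hle]
      ring
    rw [h3, norm_mul] at h2
    have h4 := hn γ (φ n₀ : ℕ)
    push_cast at h4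
    rw [h4, mul_one] at h2
    exact h2

end SupAux

open SupAux

theorem sup : S_SUP := by
  intro A hA hB hD C hC
  obtain ⟨B, hB⟩ := hB
  have hC0 : 0 ≤ C := by
    by_contra h
    push Not at h
    obtain ⟨u, hu⟩ := (hC (-C / 2) (by linarith)).exists
    have := norm_nonneg (A u)
    linarith
  have hB0 : 0 ≤ B := (norm_nonneg _).trans (hB 0)
  obtain ⟨κ, hκ⟩ : ∃ κ : ℝ, κ = ∫ v, fej v := ⟨_, rfl⟩
  have hκ0 : 0 < κ := hκ ▸ fej_pos
  -- the means
  have hmeas : ∀ (T u : ℝ), AEStronglyMeasurable (fun w : ℝ => A (u - w / T) * (fej w : ℂ)) volume := by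
    intro T u
    refine AEStronglyMeasurable.mul ?_ ?_
    · exact (hA.comp (by fun_prop : Continuous fun w : ℝ => u - w / T)).aestronglyMeasurable
    · exact (Complex.measurable_ofReal.comp fej_measurable).aestronglyMeasurable
  have hP : ∀ T : ℝ, 0 < T → ∃ (Γ : Finset ℝ) (c : ℝ → ℂ), ∀ u : ℝ,
      ∫ w : ℝ, A (u - w / T) * (fej w : ℂ) = ∑ γ ∈ Γ, c γ * Complex.exp (Complex.I * γ * u) := by
    intro T hT
    have hint : Integrable (fun v : ℝ => ∫ t : ℝ, kk T t * Complex.exp (Complex.I * t * v)) := by
      simp_rw [kk_scale hT]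
      exact ((fej_integrable.comp_mul_left' hT.ne').const_mul T).ofReal
    obtain ⟨Γ, c, h⟩ := hD (kk T) (kk_continuous T) (kk_compact hT) hint
    refine ⟨Γ, c, fun u => ?_⟩
    rw [← h u]
    have h1 : ∀ v : ℝ, ∫ t : ℝ, kk T t * Complex.exp (Complex.I * t * (u - v)) =
        ((T * fej (T * (u - v)) : ℝ) : ℂ) := by
      intro v
      rw [← kk_scale hT (u - v)]
      congr 1
      funext t
      push_cast
      rfl
    simp_rw [h1]
    have h2 : ∀ v : ℝ, A v * ((T * fej (T * (u - v)) : ℝ) : ℂ) =
        (fun s : ℝ => A (u - s) * ((T * fej (T * s) : ℝ) : ℂ)) (u - v) := by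
      intro v
      simp
    simp_rw [h2]
    rw [integral_sub_left_eq_self (fun s : ℝ => A (u - s) * ((T * fej (T * s) : ℝ) : ℂ)) volume u]
    have h3 : ∀ w : ℝ, A (u - w / T) * (fej w : ℂ) =
        (fun s : ℝ => A (u - s) * (fej (T * s) : ℂ)) (w / T) := by
      intro w
      have : T * (w / T) = w := by field_simp
      simp only [this]
    simp_rw [h3]
    rw [MeasureTheory.Measure.integral_comp_div (fun s : ℝ => A (u - s) * (fej (T * s) : ℂ)) T,
      abs_of_pos hT, Complex.real_smul, ← integral_const_mul]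
    congr 1
    funext s
    push_cast
    ring
  -- the bound for the means
  have hbd : ∀ T : ℝ, 0 < T → ∀ u : ℝ, ‖∫ w : ℝ, A (u - w / T) * (fej w : ℂ)‖ ≤ C * κ := by
    intro T hT u
    obtain ⟨Γ, c, h⟩ := hP T hT
    choose τ hτ1 hτ2 using fun n : ℕ => recur Γ n (1 / (n + 1)) (by positivity)
    have hτ : Tendsto τ atTop atTop := tendsto_atTop_mono hτ1 tendsto_natCast_atTop_atTop
    -- recurrence
    have k1 : Tendsto (fun n : ℕ => ∫ w : ℝ, A (u + τ n - w / T) * (fej w : ℂ)) atTop
        (𝓝 (∫ w : ℝ, A (u - w / T) * (fej w : ℂ))) := by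
      rw [h u]
      have e : (fun n : ℕ => ∫ w : ℝ, A (u + τ n - w / T) * (fej w : ℂ)) = fun n =>
          ∑ γ ∈ Γ, c γ * Complex.exp (Complex.I * γ * (u + τ n : ℝ)) := by
        funext n
        exact h (u + τ n)
      rw [e]
      apply tendsto_finsetSum
      intro γ hγ
      apply Tendsto.const_mul
      have e2 : (fun n : ℕ => Complex.exp (Complex.I * γ * (u + τ n : ℝ))) = fun n =>
          Complex.exp (Complex.I * γ * u) * Complex.exp (Complex.I * γ * τ n) := by
        funext n
        rw [← Complex.exp_add]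
        congr 1
        push_cast
        ring
      rw [e2]
      have e3 : Tendsto (fun n : ℕ => Complex.exp (Complex.I * γ * τ n)) atTop (𝓝 1) := by
        rw [tendsto_iff_norm_sub_tendsto_zero]
        exact squeeze_zero (fun _ => norm_nonneg _) (fun n => hτ2 n γ hγ)
          tendsto_one_div_add_atTop_nhds_zero_nat
      have e4 := e3.const_mul (Complex.exp (Complex.I * γ * u))
      rwa [mul_one] at e4
    -- domination
    have k2 : Tendsto (fun n : ℕ => ∫ w : ℝ, max ‖A (u + τ n - w / T)‖ C * fej w) atTop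
        (𝓝 (∫ w : ℝ, C * fej w)) := by
      apply tendsto_integral_of_dominated_convergence (fun w => max B C * fej w)
      · intro n
        refine AEStronglyMeasurable.mul ?_ fej_measurable.aestronglyMeasurable
        exact ((hA.comp (by fun_prop : Continuous fun w : ℝ => u + τ n - w / T)).norm.max
          continuous_const).aestronglyMeasurable
      · exact fej_integrable.const_mul _
      · intro n
        filter_upwards with w
        rw [norm_mul, Real.norm_of_nonneg (fej_nonneg w),
          Real.norm_of_nonneg (le_max_of_le_right hC0)]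
        exact mul_le_mul_of_nonneg_right (max_le_max (hB _) le_rfl) (fej_nonneg w)
      · filter_upwards with w
        apply Tendsto.mul_const
        rw [Metric.tendsto_atTop]
        intro ε hε
        have h1 : Tendsto (fun n : ℕ => u + τ n - w / T) atTop atTop := by
          have := tendsto_atTop_add_const_left atTop (u - w / T) hτ
          refine this.congr fun n => ?_
          ring
        obtain ⟨n₀, hn₀⟩ := (h1.eventually (hC (ε / 2) (by positivity))).exists_forall_of_atTop
        refine ⟨n₀, fun n hn => ?_⟩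
        have h2 := hn₀ n hn
        rw [Real.dist_eq, abs_of_nonneg (by linarith [le_max_right ‖A (u + τ n - w / T)‖ C])]
        have : max ‖A (u + τ n - w / T)‖ C ≤ C + ε / 2 := max_le h2 (by linarith)
        linarith
    have k3 : ∫ w : ℝ, C * fej w = C * κ := by rw [integral_const_mul, hκ]
    rw [k3] at k2
    refine le_of_tendsto_of_tendsto' k1.norm k2 fun n => ?_
    refine (norm_integral_le_integral_norm _).trans ?_
    apply integral_mono_of_nonneg
    · filter_upwards with w
      exact norm_nonneg _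
    · refine (fej_integrable.const_mul (max B C)).mono' ?_ ?_
      · refine AEStronglyMeasurable.mul ?_ fej_measurable.aestronglyMeasurable
        exact ((hA.comp (by fun_prop : Continuous fun w : ℝ => u + τ n - w / T)).norm.max
          continuous_const).aestronglyMeasurable
      · filter_upwards with w
        rw [norm_mul, Real.norm_of_nonneg (fej_nonneg w),
          Real.norm_of_nonneg (le_max_of_le_right hC0)]
        exact mul_le_mul_of_nonneg_right (max_le_max (hB _) le_rfl) (fej_nonneg w)
    · filter_upwards with w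
      rw [norm_mul, Complex.norm_real, Real.norm_of_nonneg (fej_nonneg w)]
      exact mul_le_mul_of_nonneg_right (le_max_left _ _) (fej_nonneg w)
  -- the limit
  intro u
  have k4 : Tendsto (fun n : ℕ => ∫ w : ℝ, A (u - w / ((n : ℝ) + 1)) * (fej w : ℂ)) atTop
      (𝓝 (∫ w : ℝ, A u * (fej w : ℂ))) := by
    apply tendsto_integral_of_dominated_convergence (fun w => B * fej w)
    · intro n
      exact hmeas _ u
    · exact fej_integrable.const_mul _
    · intro n
      filter_upwards with w
      rw [norm_mul, Complex.norm_real, Real.norm_of_nonneg (fej_nonneg w)]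
      exact mul_le_mul_of_nonneg_right (hB _) (fej_nonneg w)
    · filter_upwards with w
      apply Tendsto.mul_const
      have h1 : Tendsto (fun n : ℕ => u - w / ((n : ℝ) + 1)) atTop (𝓝 (u - 0)) := by
        apply Tendsto.const_sub
        have := (tendsto_one_div_add_atTop_nhds_zero_nat (𝕜 := ℝ)).const_mul w
        rw [mul_zero] at this
        refine this.congr fun n => ?_
        ring
      rw [sub_zero] at h1
      exact (hA.tendsto u).comp h1
  have k5 : ∫ w : ℝ, A u * (fej w : ℂ) = A u * κ := by
    rw [integral_const_mul, integral_complex_ofReal, hκ]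
  rw [k5] at k4
  have k6 : ‖A u * κ‖ ≤ C * κ := le_of_tendsto' k4.norm fun n => hbd _ (by positivity) u
  rw [norm_mul, Complex.norm_real, Real.norm_of_nonneg hκ0.le] at k6
  exact le_of_mul_le_mul_right k6 hκ0

end Pool.Agent.Y821.ME
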