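import Pool.Agent.Y821.ME.Stm

/-!
# ME-TRIG: the finite part of the spectrum (helper672)
-/

set_option autoImplicit false

open Filter Topology MeasureTheory Finset

namespace Pool.Agent.Y821.ME
namespace Trg

/-- the Fourier kernel -/
noncomputable def KK (k : ℝ → ℂ) (v : ℝ) : ℂ := ∫ t : ℝ, k t * Complex.exp (Complex.I * t * v)

/-- the growth condition -/
def Gr (B : ℝ) (a : ℝ → ℂ) : Prop := ∀ u, ‖a u‖ ≤ B ∧ ‖a u‖ ≤ B * Real.exp (u / 2)

lemma integrable_expabs {η : ℝ} (hη : 0 < η) :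
    Integrable (fun v : ℝ => Real.exp (-η * |v|)) := by
  rw [← integrableOn_univ, ← Set.Iic_union_Ioi (a := (0:ℝ))]
  refine IntegrableOn.union ?_ ?_
  · refine (integrableOn_exp_mul_Iic hη 0).congr_fun (fun v hv => ?_) measurableSet_Iic
    simp only [Set.mem_Iic] at hv
    simp only [abs_of_nonpos hv]
    congr 1; ring
  · refine (integrableOn_exp_mul_Ioi (a := -η) (by linarith) 0).congr_fun (fun v hv => ?_)
      measurableSet_Ioi
    simp only [Set.mem_Ioi] at hv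
    simp only [abs_of_pos hv]

lemma Gr.nonneg {B : ℝ} {a : ℝ → ℂ} (h : Gr B a) : 0 ≤ B := (norm_nonneg _).trans (h 0).1

lemma Gr.exp_le {B : ℝ} {a : ℝ → ℂ} (h : Gr B a) {η : ℝ} (h1 : η ≤ 1 / 4) (v : ℝ) :
    ‖a v‖ * Real.exp (-η * v) ≤ B * Real.exp (-η * |v|) := by
  rcases le_or_gt 0 v with hv | hv
  · rw [abs_of_nonneg hv]
    exact mul_le_mul_of_nonneg_right (h v).1 (Real.exp_pos _).le
  · rw [abs_of_neg hv]
    calc ‖a v‖ * Real.exp (-η * v) ≤ B * Real.exp (v / 2) * Real.exp (-η * v) :=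
          mul_le_mul_of_nonneg_right (h v).2 (Real.exp_pos _).le
      _ = B * Real.exp (v / 2 + -η * v) := by rw [mul_assoc, ← Real.exp_add]
      _ ≤ B * Real.exp (-η * -v) := by
          refine mul_le_mul_of_nonneg_left (Real.exp_le_exp.2 ?_) h.nonneg
          nlinarith

lemma norm_ae (a : ℝ → ℂ) (η v : ℝ) :
    ‖a v * (Real.exp (-η * v) : ℂ)‖ = ‖a v‖ * Real.exp (-η * v) := by
  rw [norm_mul, Complex.norm_real, Real.norm_eq_abs, abs_of_pos (Real.exp_pos _)]

lemma Gr.integrable {B : ℝ} {a : ℝ → ℂ} (ha : Continuous a) (h : Gr B a) {η : ℝ} (h0 : 0 < η)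
    (h1 : η ≤ 1 / 4) : Integrable (fun v : ℝ => a v * (Real.exp (-η * v) : ℂ)) := by
  refine ((integrable_expabs h0).const_mul B).mono' ?_ (ae_of_all _ fun v => ?_)
  · exact (ha.mul (by fun_prop)).aestronglyMeasurable
  · rw [norm_ae]
    exact h.exp_le h1 v

lemma norm_exp_I (t v : ℝ) : ‖Complex.exp (Complex.I * t * v)‖ = 1 := by
  rw [Complex.norm_exp]
  simp

/-- Fubini -/
lemma fub {B : ℝ} {a k : ℝ → ℂ} (ha : Continuous a) (h : Gr B a) (hk : Continuous k)
    (hc : HasCompactSupport k) {η : ℝ} (h0 : 0 < η) (h1 : η ≤ 1 / 4) (u : ℝ) :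
    ∫ v : ℝ, (a v * (Real.exp (-η * v) : ℂ)) * KK k (u - v) =
      ∫ t : ℝ, k t * Complex.exp (Complex.I * t * u) *
        ∫ v : ℝ, a v * Complex.exp (-((η : ℂ) + Complex.I * t) * v) := by
  have hA := h.integrable ha h0 h1
  have hK : Integrable k := hk.integrable_of_hasCompactSupport hc
  have hP := hA.mul_prod hK
  have hint : Integrable (Function.uncurry fun v t : ℝ =>
      (a v * (Real.exp (-η * v) : ℂ)) * (k t * Complex.exp (Complex.I * t * ((u - v : ℝ) : ℂ))))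
      (volume.prod volume) := by
    refine hP.mono ?_ (ae_of_all _ fun p => ?_)
    · apply Continuous.aestronglyMeasurable
      simp only [Function.uncurry_def]
      fun_prop
    · simp only [Function.uncurry_def, norm_mul, norm_exp_I, mul_one]
      exact le_rfl
  calc ∫ v : ℝ, (a v * (Real.exp (-η * v) : ℂ)) * KK k (u - v)
      = ∫ v : ℝ, ∫ t : ℝ, (a v * (Real.exp (-η * v) : ℂ)) *
          (k t * Complex.exp (Complex.I * t * ((u - v : ℝ) : ℂ))) := by
        refine integral_congr_ae (ae_of_all _ fun v => ?_)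
        simp only [KK]
        rw [← integral_const_mul]
    _ = ∫ t : ℝ, ∫ v : ℝ, (a v * (Real.exp (-η * v) : ℂ)) *
          (k t * Complex.exp (Complex.I * t * ((u - v : ℝ) : ℂ))) := integral_integral_swap hint
    _ = _ := by
        refine integral_congr_ae (ae_of_all _ fun t => ?_)
        simp only
        rw [← integral_const_mul]
        refine integral_congr_ae (ae_of_all _ fun v => ?_)
        simp only
        have e1 : Complex.exp (Complex.I * t * ((u - v : ℝ) : ℂ)) =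
            Complex.exp (Complex.I * t * u) * Complex.exp (-(Complex.I * t * v)) := by
          rw [← Complex.exp_add]; congr 1; push_cast; ring
        have e2 : Complex.exp (-((η : ℂ) + Complex.I * t) * v) =
            (Real.exp (-η * v) : ℂ) * Complex.exp (-(Complex.I * t * v)) := by
          rw [Complex.ofReal_exp, ← Complex.exp_add]; congr 1; push_cast; ring
        rw [e1, e2]; ring

/-- the limit of the left side -/
lemma lim1 {B : ℝ} {a k : ℝ → ℂ} (ha : Continuous a) (h : Gr B a) (hK : Integrable (KK k))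
    (u : ℝ) : Tendsto (fun η : ℝ => ∫ v : ℝ, (a v * (Real.exp (-η * v) : ℂ)) * KK k (u - v))
      (𝓝[>] 0) (𝓝 (∫ v : ℝ, a v * KK k (u - v))) := by
  have hK' : Integrable (fun v => KK k (u - v)) := hK.comp_sub_left u
  refine tendsto_integral_filter_of_dominated_convergence (fun v => B * ‖KK k (u - v)‖) ?_ ?_ ?_ ?_
  · refine Eventually.of_forall fun η => ?_
    exact (ha.mul (by fun_prop)).aestronglyMeasurable.mul hK'.aestronglyMeasurable
  · have : ∀ᶠ η : ℝ in 𝓝[>] 0, η ∈ Set.Ioc (0:ℝ) (1 / 4) :=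
      Ioc_mem_nhdsGT (by norm_num)
    filter_upwards [this] with η hη
    refine ae_of_all _ fun v => ?_
    rw [norm_mul]
    refine mul_le_mul_of_nonneg_right ?_ (norm_nonneg _)
    rw [norm_ae]
    refine (h.exp_le hη.2 v).trans ?_
    refine mul_le_of_le_one_right h.nonneg ?_
    rw [Real.exp_le_one_iff]
    have := hη.1
    nlinarith [abs_nonneg v]
  · exact hK'.norm.const_mul B
  · refine ae_of_all _ fun v => ?_
    have h2 : Tendsto (fun η : ℝ => (a v * (Real.exp (-η * v) : ℂ)) * KK k (u - v)) (𝓝[>] 0)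
        (𝓝 ((a v * (Real.exp (-0 * v) : ℂ)) * KK k (u - v))) := by
      refine Tendsto.mono_left ?_ nhdsWithin_le_nhds
      exact (Continuous.tendsto (by fun_prop) 0)
    simpa using h2

/-- the bound for the transform -/
lemma tr_bound {B : ℝ} {a : ℝ → ℂ} (h : Gr B a) : ∃ C : ℝ, 0 < C ∧ ∀ η : ℝ, 0 < η →
    η ≤ 1 / 4 → ∀ t : ℝ, ‖∫ v : ℝ, a v * Complex.exp (-((η : ℂ) + Complex.I * t) * v)‖ ≤ C / η := by
  have hI : 0 ≤ ∫ w : ℝ, Real.exp (-1 * |w|) := integral_nonneg fun w => (Real.exp_pos _).le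
  refine ⟨B * (∫ w : ℝ, Real.exp (-1 * |w|)) + 1, by nlinarith [mul_nonneg h.nonneg hI],
    fun η h0 h1 t => ?_⟩
  have hb : ‖∫ v : ℝ, a v * Complex.exp (-((η : ℂ) + Complex.I * t) * v)‖ ≤
      ∫ v : ℝ, B * Real.exp (-η * |v|) := by
    refine norm_integral_le_of_norm_le ((integrable_expabs h0).const_mul B)
      (ae_of_all _ fun v => ?_)
    rw [norm_mul, Complex.norm_exp]
    have : (-((η : ℂ) + Complex.I * t) * v).re = -η * v := by simp
    rw [this]
    exact h.exp_le h1 v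
  refine hb.trans ?_
  rw [integral_const_mul]
  have hs : ∫ v : ℝ, Real.exp (-η * |v|) = η⁻¹ * ∫ w : ℝ, Real.exp (-1 * |w|) := by
    have := Measure.integral_comp_mul_left (fun w : ℝ => Real.exp (-1 * |w|)) η
    rw [abs_of_pos (inv_pos.2 h0), smul_eq_mul] at this
    rw [← this]
    congr 1
    ext v
    rw [abs_mul, abs_of_pos h0]
    congr 1; ring
  rw [hs, div_eq_inv_mul, mul_add, mul_one]
  have : 0 < η⁻¹ := inv_pos.2 h0
  nlinarith

/-! ### Factorization -/

/-- the strip -/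
def U : Set ℂ := {z | |z.re| < 1 / 4}

lemma U_open : IsOpen U := by
  have : Continuous fun z : ℂ => |z.re| := Complex.continuous_re.abs
  exact isOpen_lt this continuous_const

lemma U_pre : IsPreconnected U := by
  apply Convex.isPreconnected
  have : U = Complex.re ⁻¹' (Set.Ioo (-(1 / 4)) (1 / 4)) := by
    ext z
    simp [U, abs_lt]
  rw [this]
  exact (convex_Ioo _ _).linear_preimage Complex.reLm

lemma mem_U (t : ℝ) : Complex.I * (t : ℂ) ∈ U := by
  simp [U]

/-- the zeros on a segment of the critical line are finite in number -/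
lemma fin_zeros {f : ℂ → ℂ} (hf : AnalyticOnNhd ℂ f U) (h8 : f (1 / 8) ≠ 0) (T : ℝ) :
    {t : ℝ | t ∈ Set.Icc (-T) T ∧ f (Complex.I * t) = 0}.Finite := by
  by_contra hinf
  obtain ⟨t₀, -, hacc⟩ := Set.Infinite.exists_accPt_of_subset_isCompact (K := Set.Icc (-T) T)
    hinf isCompact_Icc (fun t ht => ht.1)
  have hfr : ∃ᶠ t : ℝ in 𝓝[≠] t₀, f (Complex.I * t) = 0 := by
    have := (accPt_iff_frequently_nhdsNE).1 hacc
    exact this.mono fun t ht => ht.2
  have htend : Tendsto (fun t : ℝ => Complex.I * (t : ℂ)) (𝓝[≠] t₀) (𝓝[≠] (Complex.I * t₀)) := by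
    refine tendsto_nhdsWithin_of_tendsto_nhds_of_eventually_within _ ?_ ?_
    · exact (Continuous.tendsto (by fun_prop) t₀).mono_left nhdsWithin_le_nhds
    · filter_upwards [self_mem_nhdsWithin] with t ht
      simp only [Set.mem_compl_iff, Set.mem_singleton_iff] at ht ⊢
      intro h
      apply ht
      have := mul_left_cancel₀ Complex.I_ne_zero h
      exact_mod_cast this
  have := hf.eqOn_zero_of_preconnected_of_frequently_eq_zero U_pre (mem_U t₀)
    (htend.frequently hfr)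
  apply h8
  exact this (by simp [U]; norm_num [abs_of_pos])

/-- factorization -/
lemma fac {f : ℂ → ℂ} (hf : DifferentiableOn ℂ f U) (Γ : Finset ℝ)
    (h0 : ∀ γ ∈ Γ, f (Complex.I * γ) = 0) : ∃ h : ℂ → ℂ, DifferentiableOn ℂ h U ∧
      ∀ z, f z = (∏ γ ∈ Γ, (z - Complex.I * γ)) * h z := by
  classical
  induction Γ using Finset.induction_on with
  | empty => exact ⟨f, hf, fun z => by simp⟩
  | insert γ₀ s hs ih =>
    obtain ⟨h, hh, hfh⟩ := ih (fun γ hγ => h0 γ (mem_insert_of_mem hγ))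
    have hz : h (Complex.I * γ₀) = 0 := by
      have h1 := h0 γ₀ (mem_insert_self _ _)
      rw [hfh] at h1
      rcases mul_eq_zero.1 h1 with h2 | h2
      · exfalso
        obtain ⟨γ, hγ, h3⟩ := prod_eq_zero_iff.1 h2
        have h4 := mul_left_cancel₀ Complex.I_ne_zero (sub_eq_zero.1 h3)
        have : γ₀ = γ := by exact_mod_cast h4
        exact hs (this ▸ hγ)
      · exact h2
    refine ⟨dslope h (Complex.I * γ₀), ?_, fun z => ?_⟩
    · exact (Complex.differentiableOn_dslope (U_open.mem_nhds (mem_U γ₀))).2 hh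
    · rw [hfh z, prod_insert hs]
      have := sub_smul_dslope h (Complex.I * γ₀) z
      rw [smul_eq_mul, hz, sub_zero] at this
      rw [← this]; ring

/-- the cofactor does not vanish -/
lemma cof_ne {f h : ℂ → ℂ} (hh : DifferentiableOn ℂ h U) {Γ : Finset ℝ}
    (hfh : ∀ z, f z = (∏ γ ∈ Γ, (z - Complex.I * γ)) * h z) {C : ℝ} (hC : 0 < C)
    (hb : ∀ η : ℝ, 0 < η → η < 1 / 4 → ∀ t : ℝ, f (η + Complex.I * t) ≠ 0 ∧
      ‖(f (η + Complex.I * t))⁻¹‖ ≤ C / η) {γ₀ : ℝ} (hγ : γ₀ ∈ Γ) : h (Complex.I * γ₀) ≠ 0 := by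
  classical
  intro h0
  have hcont : ContinuousAt h (Complex.I * γ₀) :=
    (hh.continuousOn).continuousAt (U_open.mem_nhds (mem_U γ₀))
  have h1 : Tendsto (fun η : ℝ => ‖(∏ γ ∈ Γ.erase γ₀, ((η : ℂ) + Complex.I * γ₀ - Complex.I * γ)) *
      h (η + Complex.I * γ₀)‖) (𝓝[>] 0) (𝓝 0) := by
    have h2 : Tendsto (fun η : ℝ => ((η : ℂ) + Complex.I * γ₀)) (𝓝[>] 0)
        (𝓝 (Complex.I * γ₀)) := by
      have : Tendsto (fun η : ℝ => ((η : ℂ) + Complex.I * γ₀)) (𝓝 0)
        (𝓝 (((0 : ℝ) : ℂ) + Complex.I * γ₀)) := Continuous.tendsto (by fun_prop) 0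
      simp only [Complex.ofReal_zero, zero_add] at this
      exact this.mono_left nhdsWithin_le_nhds
    have h3 := hcont.tendsto.comp h2
    rw [h0] at h3
    have h4 : Tendsto (fun η : ℝ => ∏ γ ∈ Γ.erase γ₀, ((η : ℂ) + Complex.I * γ₀ - Complex.I * γ))
        (𝓝[>] 0) (𝓝 (∏ γ ∈ Γ.erase γ₀, (((0 : ℝ) : ℂ) + Complex.I * γ₀ - Complex.I * γ))) :=
      (Continuous.tendsto (by fun_prop) 0).mono_left nhdsWithin_le_nhds
    have h5 := (h4.mul h3).norm
    rw [mul_zero, norm_zero] at h5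
    exact h5
  have h2 : ∀ᶠ η : ℝ in 𝓝[>] 0, C⁻¹ ≤ ‖(∏ γ ∈ Γ.erase γ₀, ((η : ℂ) + Complex.I * γ₀ - Complex.I * γ)) *
      h (η + Complex.I * γ₀)‖ := by
    have : ∀ᶠ η : ℝ in 𝓝[>] 0, η ∈ Set.Ioo (0:ℝ) (1 / 4) := Ioo_mem_nhdsGT (by norm_num)
    filter_upwards [this] with η hη
    obtain ⟨hne, hle⟩ := hb η hη.1 hη.2 γ₀
    have e : f (η + Complex.I * γ₀) = (η : ℂ) * ((∏ γ ∈ Γ.erase γ₀,
        ((η : ℂ) + Complex.I * γ₀ - Complex.I * γ)) * h (η + Complex.I * γ₀)) := by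
      rw [hfh, ← mul_prod_erase Γ _ hγ]; ring
    have hpos : 0 < ‖f (η + Complex.I * γ₀)‖ := norm_pos_iff.2 hne
    rw [norm_inv, inv_le_comm₀ hpos (div_pos hC hη.1), inv_div, e, norm_mul, Complex.norm_real,
      Real.norm_eq_abs, abs_of_pos hη.1, div_eq_mul_inv] at hle
    exact le_of_mul_le_mul_left hle hη.1
  have h3 := ge_of_tendsto h1 h2
  have : 0 < C⁻¹ := inv_pos.2 hC
  linarith

/-- decomposition into simple fractions -/
lemma pf {f : ℂ → ℂ} (hf : AnalyticOnNhd ℂ f U) {C : ℝ} (hC : 0 < C)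
    (hb : ∀ η : ℝ, 0 < η → η < 1 / 4 → ∀ t : ℝ, f (η + Complex.I * t) ≠ 0 ∧
      ‖(f (η + Complex.I * t))⁻¹‖ ≤ C / η) (T : ℝ) :
    ∃ (Γ : Finset ℝ) (r : ℝ → ℂ) (Q : ℂ → ℂ) (V : Set ℂ), IsOpen V ∧
      (∀ t ∈ Set.Icc (-T) T, Complex.I * (t : ℂ) ∈ V) ∧ ContinuousOn Q V ∧
      ∀ z ∈ V, (∀ γ ∈ Γ, z ≠ Complex.I * γ) →
        (f z)⁻¹ = ∑ γ ∈ Γ, r γ * (z - Complex.I * γ)⁻¹ + Q z := by
  classical
  have h8 : f (1 / 8) ≠ 0 := by
    have := (hb (1 / 8) (by norm_num) (by norm_num) 0).1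
    simpa using this
  have hfin := fin_zeros hf h8 T
  set Γ := hfin.toFinset with hΓ
  obtain ⟨h, hh, hfh⟩ := fac hf.differentiableOn Γ (fun γ hγ => ((hfin.mem_toFinset).1 hγ).2)
  have hne : ∀ t ∈ Set.Icc (-T) T, h (Complex.I * t) ≠ 0 := by
    intro t ht h0
    have hft : f (Complex.I * t) = 0 := by rw [hfh, h0, mul_zero]
    have hmem : t ∈ Γ := (hfin.mem_toFinset).2 ⟨ht, hft⟩
    exact cof_ne hh hfh hC hb hmem h0
  have hVo : IsOpen (U ∩ h ⁻¹' {0}ᶜ) :=
    hh.continuousOn.isOpen_inter_preimage U_open isOpen_compl_singleton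
  set V := U ∩ h ⁻¹' {0}ᶜ with hV
  set G : ℂ → ℂ := fun z => (h z)⁻¹ with hG
  have hGd : DifferentiableOn ℂ G V := by
    refine (hh.mono Set.inter_subset_left).inv fun z hz => ?_
    exact hz.2
  have hVm : ∀ t ∈ Set.Icc (-T) T, Complex.I * (t : ℂ) ∈ V := fun t ht => ⟨mem_U t, hne t ht⟩
  rcases Γ.eq_empty_or_nonempty with hE | hN
  · refine ⟨∅, fun _ => 0, G, V, hVo, hVm, hGd.continuousOn, fun z _ _ => ?_⟩
    rw [hfh z, hE]
    simp [hG]
  · set v : ℝ → ℂ := fun γ => Complex.I * γ with hv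
    have hinj : Set.InjOn v Γ := by
      intro x _ y _ hxy
      have := mul_left_cancel₀ Complex.I_ne_zero hxy
      exact_mod_cast this
    have hΓV : ∀ γ ∈ Γ, v γ ∈ V := fun γ hγ => hVm γ ((hfin.mem_toFinset).1 hγ).1
    refine ⟨Γ, fun γ => Lagrange.nodalWeight Γ v γ * G (v γ),
      fun z => ∑ γ ∈ Γ, Lagrange.nodalWeight Γ v γ * dslope G (v γ) z, V, hVo, hVm, ?_, ?_⟩
    · refine continuousOn_finsetSum _ fun γ hγ => ?_
      refine continuousOn_const.mul ?_
      exact ((Complex.differentiableOn_dslope (hVo.mem_nhds (hΓV γ hγ))).2 hGd).continuousOn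
    · intro z _ hz
      have h1 : (∏ γ ∈ Γ, (z - v γ))⁻¹ = ∑ γ ∈ Γ, Lagrange.nodalWeight Γ v γ * (z - v γ)⁻¹ := by
        have hs := congrArg (Polynomial.eval z) (Lagrange.sum_basis hinj hN)
        rw [Polynomial.eval_finsetSum, Polynomial.eval_one] at hs
        rw [Finset.sum_congr rfl (fun γ hγ => Lagrange.eval_basis_not_at_node hγ (hz γ hγ)),
          ← Finset.mul_sum, Lagrange.eval_nodal] at hs
        exact inv_eq_of_mul_eq_one_right hs
      have h2 : (f z)⁻¹ = (∏ γ ∈ Γ, (z - v γ))⁻¹ * G z := by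
        rw [hfh z, mul_inv]
      rw [h2, h1, Finset.sum_mul, ← Finset.sum_add_distrib]
      refine Finset.sum_congr rfl fun γ hγ => ?_
      have h3 := sub_smul_dslope G (v γ) z
      rw [smul_eq_mul] at h3
      have h4 : G z = G (v γ) + (z - v γ) * dslope G (v γ) z := by rw [h3]; ring
      have h5 : z - v γ ≠ 0 := sub_ne_zero.2 (hz γ hγ)
      have h6 : Complex.I * (γ : ℂ) = v γ := rfl
      rw [h6]
      nth_rewrite 1 [h4]
      field_simp

/-! ### The limits -/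

lemma tend_add {s : ℝ} (t : ℝ) : Tendsto (fun η : ℝ => (((s * η : ℝ) : ℂ) + Complex.I * t)) (𝓝[>] 0)
    (𝓝 (Complex.I * t)) := by
  have : Tendsto (fun η : ℝ => (((s * η : ℝ) : ℂ) + Complex.I * t)) (𝓝 0)
    (𝓝 (((s * 0 : ℝ) : ℂ) + Complex.I * t)) := Continuous.tendsto (by fun_prop) 0
  simp only [mul_zero, Complex.ofReal_zero, zero_add] at this
  exact this.mono_left nhdsWithin_le_nhds

/-- the regular part -/
lemma limQ {Q : ℂ → ℂ} {V : Set ℂ} (hV : IsOpen V) {T : ℝ}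
    (hVm : ∀ t ∈ Set.Icc (-T) T, Complex.I * (t : ℂ) ∈ V) (hQ : ContinuousOn Q V) {φ : ℝ → ℂ}
    (hφ : Continuous φ) (hφT : ∀ t, t ∉ Set.Icc (-T) T → φ t = 0) :
    (∀ᶠ η : ℝ in 𝓝[>] 0, (∀ t ∈ Set.Icc (-T) T, (η : ℂ) + Complex.I * t ∈ V ∧
        ((-η : ℝ) : ℂ) + Complex.I * t ∈ V) ∧
      Integrable (fun t : ℝ => φ t * (Q (η + Complex.I * t) - Q (((-η : ℝ) : ℂ) + Complex.I * t)))) ∧
    Tendsto (fun η : ℝ => ∫ t : ℝ, φ t * (Q (η + Complex.I * t) - Q (((-η : ℝ) : ℂ) + Complex.I * t)))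
      (𝓝[>] 0) (𝓝 0) := by
  set S : Set ℂ := (fun t : ℝ => Complex.I * (t : ℂ)) '' Set.Icc (-T) T with hS
  have hSc : IsCompact S := isCompact_Icc.image (by fun_prop)
  have hSV : S ⊆ V := by
    rintro _ ⟨t, ht, rfl⟩
    exact hVm t ht
  obtain ⟨δ, hδ, hδV⟩ := hSc.exists_cthickening_subset_open hV hSV
  have hKc : IsCompact (Metric.cthickening δ S) := hSc.cthickening
  obtain ⟨M, hM⟩ := hKc.exists_bound_of_continuousOn (hQ.mono hδV)
  have hmem : ∀ x : ℝ, |x| ≤ δ → ∀ t ∈ Set.Icc (-T) T,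
      (x : ℂ) + Complex.I * t ∈ Metric.cthickening δ S := by
    intro x hx t ht
    refine Metric.mem_cthickening_of_dist_le _ (Complex.I * t) δ S ⟨t, ht, rfl⟩ ?_
    rw [dist_eq_norm, add_sub_cancel_right, Complex.norm_real]
    exact hx
  have hev : ∀ᶠ η : ℝ in 𝓝[>] 0, η ∈ Set.Ioc (0 : ℝ) δ := Ioc_mem_nhdsGT hδ
  have hcont : ∀ x : ℝ, |x| ≤ δ →
      ContinuousOn (fun t : ℝ => Q ((x : ℂ) + Complex.I * t)) (Set.Icc (-T) T) := by
    intro x hx
    refine ContinuousOn.comp (t := Metric.cthickening δ S) (hQ.mono hδV) (by fun_prop) ?_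
    exact fun t ht => hmem x hx t ht
  have hset : ∀ η : ℝ, ∫ t : ℝ, φ t * (Q (η + Complex.I * t) - Q (((-η : ℝ) : ℂ) + Complex.I * t)) =
      ∫ t in Set.Icc (-T) T,
        φ t * (Q (η + Complex.I * t) - Q (((-η : ℝ) : ℂ) + Complex.I * t)) := by
    intro η
    refine (setIntegral_eq_integral_of_forall_compl_eq_zero fun t ht => ?_).symm
    rw [hφT t ht, zero_mul]
  have hcon2 : ∀ η ∈ Set.Ioc (0 : ℝ) δ, ContinuousOn (fun t : ℝ =>
      φ t * (Q (η + Complex.I * t) - Q (((-η : ℝ) : ℂ) + Complex.I * t))) (Set.Icc (-T) T) := by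
    intro η hη
    refine hφ.continuousOn.mul ((hcont η ?_).sub (hcont (-η) ?_))
    · rw [abs_of_pos hη.1]; exact hη.2
    · rw [abs_neg, abs_of_pos hη.1]; exact hη.2
  refine ⟨?_, ?_⟩
  · filter_upwards [hev] with η hη
    refine ⟨fun t ht => ⟨hδV (hmem η ?_ t ht), hδV (hmem (-η) ?_ t ht)⟩, ?_⟩
    · rw [abs_of_pos hη.1]; exact hη.2
    · rw [abs_neg, abs_of_pos hη.1]; exact hη.2
    · have h1 := (hcon2 η hη).integrableOn_compact (μ := volume) isCompact_Icc
      refine (integrableOn_iff_integrable_of_support_subset fun t ht => ?_).1 h1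
      by_contra hc
      exact ht (by simp only [hφT t hc, zero_mul])
  · simp only [hset]
    have hzero : (0 : ℂ) = ∫ t in Set.Icc (-T) T, (0 : ℂ) := by simp
    rw [hzero]
    refine tendsto_integral_filter_of_dominated_convergence (fun t => ‖φ t‖ * (M + M)) ?_ ?_ ?_ ?_
    · filter_upwards [hev] with η hη
      exact (hcon2 η hη).aestronglyMeasurable measurableSet_Icc
    · filter_upwards [hev] with η hη
      refine (ae_restrict_iff' measurableSet_Icc).2 (ae_of_all _ fun t ht => ?_)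
      rw [norm_mul]
      refine mul_le_mul_of_nonneg_left ((norm_sub_le _ _).trans (add_le_add ?_ ?_)) (norm_nonneg _)
      · exact hM _ (hmem η (by rw [abs_of_pos hη.1]; exact hη.2) t ht)
      · exact hM _ (hmem (-η) (by rw [abs_neg, abs_of_pos hη.1]; exact hη.2) t ht)
    · exact ((hφ.norm.mul continuous_const).continuousOn.integrableOn_compact isCompact_Icc)
    · refine (ae_restrict_iff' measurableSet_Icc).2 (ae_of_all _ fun t ht => ?_)
      have hQc : ContinuousAt Q (Complex.I * t) := hQ.continuousAt (hV.mem_nhds (hVm t ht))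
      have h1 := hQc.tendsto.comp (tend_add (s := 1) t)
      have h2 := hQc.tendsto.comp (tend_add (s := -1) t)
      have h3 := (h1.sub h2).const_mul (φ t)
      rw [sub_self, mul_zero] at h3
      refine h3.congr fun η => ?_
      simp only [Function.comp_apply, one_mul, neg_mul]

/-- the Poisson kernel -/
noncomputable def Po (η s : ℝ) : ℝ := 2 * η / (η ^ 2 + s ^ 2)

lemma po_id {η s : ℝ} (hη : 0 < η) : ((η : ℂ) + Complex.I * s)⁻¹ - (((-η : ℝ) : ℂ) + Complex.I * s)⁻¹ =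
    (Po η s : ℂ) := by
  have h1 : (η : ℂ) + Complex.I * s ≠ 0 := by
    intro h
    have := congrArg Complex.re h
    simp at this
    exact hη.ne' this
  have h2 : ((-η : ℝ) : ℂ) + Complex.I * s ≠ 0 := by
    intro h
    have := congrArg Complex.re h
    simp at this
    exact hη.ne' this
  have h3 : (η : ℂ) ^ 2 + (s : ℂ) ^ 2 ≠ 0 := by
    have : (0 : ℝ) < η ^ 2 + s ^ 2 := by positivity
    exact_mod_cast this.ne'
  rw [Po, inv_sub_inv h1 h2]
  push_cast
  rw [div_eq_div_iff (by exact_mod_cast mul_ne_zero h1 h2) h3]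
  have hI : Complex.I ^ 2 = -1 := Complex.I_sq
  push_cast at *
  ring_nf
  rw [hI]
  ring

lemma po_cont {η : ℝ} (hη : 0 < η) (γ : ℝ) : Continuous fun t : ℝ => (Po η (t - γ) : ℂ) := by
  unfold Po
  refine Complex.continuous_ofReal.comp ?_
  refine continuous_const.div (by fun_prop) fun t => ?_
  positivity

/-- the polar part -/
lemma limP {φ : ℝ → ℂ} (hφ : Continuous φ) (hc : HasCompactSupport φ) (γ : ℝ) :
    Tendsto (fun η : ℝ => ∫ t : ℝ, φ t * (Po η (t - γ) : ℂ)) (𝓝[>] 0) (𝓝 (2 * Real.pi * φ γ)) := by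
  obtain ⟨M, hM⟩ := hc.exists_bound_of_continuous hφ
  have h1 : Tendsto (fun η : ℝ => ∫ w : ℝ, φ (γ + η * w) * ((2 * (1 + w ^ 2)⁻¹ : ℝ) : ℂ)) (𝓝[>] 0)
      (𝓝 (∫ w : ℝ, φ γ * ((2 * (1 + w ^ 2)⁻¹ : ℝ) : ℂ))) := by
    refine tendsto_integral_filter_of_dominated_convergence
      (fun w => M * (2 * (1 + w ^ 2)⁻¹)) ?_ ?_ ?_ ?_
    · refine Eventually.of_forall fun η => ?_
      apply Continuous.aestronglyMeasurable
      refine (hφ.comp (by fun_prop)).mul (Complex.continuous_ofReal.comp ?_)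
      refine continuous_const.mul (Continuous.inv₀ (by fun_prop) fun w => ?_)
      positivity
    · refine Eventually.of_forall fun η => ae_of_all _ fun w => ?_
      rw [norm_mul, Complex.norm_real, Real.norm_eq_abs, abs_of_pos (by positivity)]
      exact mul_le_mul_of_nonneg_right (hM _) (by positivity)
    · exact (integrable_inv_one_add_sq.const_mul 2).const_mul M
    · refine ae_of_all _ fun w => ?_
      have h2 : Tendsto (fun η : ℝ => φ (γ + η * w)) (𝓝 0) (𝓝 (φ (γ + 0 * w))) :=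
        Continuous.tendsto (by fun_prop) 0
      simp only [zero_mul, add_zero] at h2
      exact (h2.mono_left nhdsWithin_le_nhds).mul_const _
  have h2 : ∫ w : ℝ, φ γ * ((2 * (1 + w ^ 2)⁻¹ : ℝ) : ℂ) = 2 * Real.pi * φ γ := by
    rw [integral_const_mul, integral_complex_ofReal, integral_const_mul,
      integral_univ_inv_one_add_sq]
    push_cast; ring
  rw [h2] at h1
  refine h1.congr' ?_
  filter_upwards [self_mem_nhdsWithin] with η hη
  simp only [Set.mem_Ioi] at hη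
  have h3 := Measure.integral_comp_mul_left (fun x : ℝ => φ (γ + x) * (Po η x : ℂ) * (η : ℂ)) η
  have h4 : ∫ t : ℝ, φ t * (Po η (t - γ) : ℂ) = ∫ x : ℝ, φ (γ + x) * (Po η x : ℂ) := by
    rw [← integral_add_left_eq_self (fun t => φ t * (Po η (t - γ) : ℂ)) γ]
    simp
  have h5 : ∀ w : ℝ, φ (γ + η * w) * ((2 * (1 + w ^ 2)⁻¹ : ℝ) : ℂ) =
      φ (γ + η * w) * (Po η (η * w) : ℂ) * (η : ℂ) := by
    intro w
    rw [mul_assoc, ← Complex.ofReal_mul]
    congr 2
    unfold Po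
    have : (0:ℝ) < 1 + w ^ 2 := by positivity
    field_simp
  rw [h4]
  simp only [h5]
  rw [h3, abs_of_pos (inv_pos.2 hη), integral_mul_const, Complex.real_smul, Complex.ofReal_inv]
  have : (η : ℂ) ≠ 0 := by exact_mod_cast hη.ne'
  field_simp

end Trg

open Trg

theorem trig : S_TRIG := by
  intro a b hp k hk hkc hKi
  obtain ⟨B, hB⟩ := hp.bd
  have hGa : Gr B a := fun u => ⟨(hB u).1, (hB u).2.1⟩
  have hGb : Gr B b := fun u => ⟨(hB u).2.2.1, (hB u).2.2.2⟩
  obtain ⟨f, hfan, hfm⟩ := hp.mer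
  have hf : AnalyticOnNhd ℂ f U := fun z hz => hfan z hz
  obtain ⟨C, hC, hCb⟩ := tr_bound hGa
  have hre : ∀ (η t : ℝ), ((η : ℂ) + Complex.I * t).re = η := by intro η t; simp
  have hb : ∀ η : ℝ, 0 < η → η < 1 / 4 → ∀ t : ℝ, f (η + Complex.I * t) ≠ 0 ∧
      ‖(f (η + Complex.I * t))⁻¹‖ ≤ C / η := by
    intro η h0 h1 t
    obtain ⟨h2, -, h3, -⟩ := hfm (η + Complex.I * t) (by rw [hre]; exact h0) (by rw [hre]; exact h1)
    refine ⟨h2, ?_⟩
    rw [← h3]
    exact hCb η h0 h1.le t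
  -- the support
  obtain ⟨T, hT⟩ : ∃ T : ℝ, ∀ t, t ∉ Set.Icc (-T) T → k t = 0 := by
    obtain ⟨T, hT⟩ := hkc.isCompact.isBounded.subset_closedBall 0
    refine ⟨T, fun t ht => ?_⟩
    by_contra hne
    have := hT (subset_tsupport k hne)
    rw [Real.closedBall_eq_Icc, zero_sub, zero_add] at this
    exact ht this
  obtain ⟨Γ, r, Q, V, hVo, hVm, hQ, hpf⟩ := pf hf hC hb T
  have hKi' : Integrable (KK k) := hKi
  set k' : ℝ → ℂ := fun t => k (-t) with hk'
  have hk'c : Continuous k' := hk.comp continuous_neg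
  have hk'cc : HasCompactSupport k' := hkc.comp_homeomorph (Homeomorph.neg ℝ)
  have hKneg : ∀ w : ℝ, KK k' w = KK k (-w) := by
    intro w
    unfold KK
    rw [← integral_neg_eq_self (fun t : ℝ => k t * Complex.exp (Complex.I * t * ((-w : ℝ) : ℂ)))]
    congr 1
    ext t
    simp only [hk', Complex.ofReal_neg]
    congr 2; ring
  have hKi'' : Integrable (KK k') := by
    have : KK k' = fun w => KK k (-w) := funext hKneg
    rw [this]
    exact hKi'.comp_neg
  refine ⟨Γ, fun γ => r γ * (2 * Real.pi * k γ), fun u => ?_⟩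
  set φ : ℝ → ℂ := fun t => k t * Complex.exp (Complex.I * t * u) with hφd
  have hφ : Continuous φ := hk.mul (by fun_prop)
  have hφc : HasCompactSupport φ := hkc.mul_right
  have hφT : ∀ t, t ∉ Set.Icc (-T) T → φ t = 0 := fun t ht => by simp only [hφd, hT t ht, zero_mul]
  -- the left side
  have hbdd : ∀ (g : ℝ → ℂ) (h : ℝ → ℂ), Gr B g → Continuous g → Integrable h →
      Integrable (fun v => g v * h v) := fun g h hg hgc hh =>
    hh.bdd_mul hgc.aestronglyMeasurable (ae_of_all _ fun v => (hg v).1)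
  have hI1 : Integrable (fun v => a v * KK k (u - v)) :=
    hbdd a _ hGa hp.ca (hKi'.comp_sub_left u)
  have hI2 : Integrable (fun v => b v * KK k' (-u - v)) :=
    hbdd b _ hGb hp.cb (hKi''.comp_sub_left (-u))
  have hI2' : Integrable (fun v => b (-v) * KK k (u - v)) := by
    have := hI2.comp_neg
    refine this.congr (ae_of_all _ fun v => ?_)
    simp only [hKneg]
    congr 2; ring
  have hsw : ∫ v, b (-v) * KK k (u - v) = ∫ v, b v * KK k' (-u - v) := by
    rw [← integral_neg_eq_self (fun v => b v * KK k' (-u - v))]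
    congr 1
    ext v
    rw [hKneg]
    congr 2; ring
  have hL : ∫ v : ℝ, (a v - b (-v)) * ∫ t : ℝ, k t * Complex.exp (Complex.I * t * (u - v)) =
      (∫ v, a v * KK k (u - v)) - ∫ v, b v * KK k' (-u - v) := by
    rw [← hsw, ← integral_sub hI1 hI2']
    congr 1
    ext v
    simp only [KK, Complex.ofReal_sub]
    ring
  rw [hL]
  have hlim : Tendsto (fun η : ℝ => (∫ v : ℝ, (a v * (Real.exp (-η * v) : ℂ)) * KK k (u - v)) -
      ∫ v : ℝ, (b v * (Real.exp (-η * v) : ℂ)) * KK k' (-u - v)) (𝓝[>] 0)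
      (𝓝 ((∫ v, a v * KK k (u - v)) - ∫ v, b v * KK k' (-u - v))) :=
    (lim1 hp.ca hGa hKi' u).sub (lim1 hp.cb hGb hKi'' (-u))
  -- the right side
  obtain ⟨hev, hQlim⟩ := limQ hVo hVm hQ hφ hφT
  have hlim2 : Tendsto (fun η : ℝ => (∑ γ ∈ Γ, r γ * ∫ t : ℝ, φ t * (Po η (t - γ) : ℂ)) +
      ∫ t : ℝ, φ t * (Q (η + Complex.I * t) - Q (((-η : ℝ) : ℂ) + Complex.I * t))) (𝓝[>] 0)
      (𝓝 ((∑ γ ∈ Γ, r γ * (2 * Real.pi * φ γ)) + 0)) := by
    refine Tendsto.add (tendsto_finsetSum _ fun γ _ => ?_) hQlim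
    exact (limP hφ hφc γ).const_mul _
  have heq : ∀ᶠ η : ℝ in 𝓝[>] 0, (∫ v : ℝ, (a v * (Real.exp (-η * v) : ℂ)) * KK k (u - v)) -
      ∫ v : ℝ, (b v * (Real.exp (-η * v) : ℂ)) * KK k' (-u - v) =
      (∑ γ ∈ Γ, r γ * ∫ t : ℝ, φ t * (Po η (t - γ) : ℂ)) +
      ∫ t : ℝ, φ t * (Q (η + Complex.I * t) - Q (((-η : ℝ) : ℂ) + Complex.I * t)) := by
    have h14 : ∀ᶠ η : ℝ in 𝓝[>] 0, η ∈ Set.Ioo (0:ℝ) (1 / 4) := Ioo_mem_nhdsGT (by norm_num)
    filter_upwards [hev, h14] with η h1 hη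
    obtain ⟨hm, hQi⟩ := h1
    have hneg : ∀ t : ℝ, -((η : ℂ) + Complex.I * t) = ((-η : ℝ) : ℂ) + Complex.I * ((-t : ℝ) : ℂ) := by
      intro t; push_cast; ring
    have hne1 : ∀ t : ℝ, f (η + Complex.I * t) ≠ 0 := fun t => (hb η hη.1 hη.2 t).1
    have hne2 : ∀ t : ℝ, f (((-η : ℝ) : ℂ) + Complex.I * t) ≠ 0 := by
      intro t
      have h2 := (hfm (η + Complex.I * ((-t : ℝ) : ℂ)) (by rw [hre]; exact hη.1)
        (by rw [hre]; exact hη.2)).2.1
      rw [hneg, neg_neg] at h2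
      exact h2
    have e1 : ∫ v : ℝ, (a v * (Real.exp (-η * v) : ℂ)) * KK k (u - v) =
        ∫ t : ℝ, φ t * (f (η + Complex.I * t))⁻¹ := by
      rw [fub hp.ca hGa hk hkc hη.1 hη.2.le u]
      congr 1
      ext t
      rw [(hfm (η + Complex.I * t) (by rw [hre]; exact hη.1) (by rw [hre]; exact hη.2)).2.2.1]
    have e2 : ∫ v : ℝ, (b v * (Real.exp (-η * v) : ℂ)) * KK k' (-u - v) =
        ∫ t : ℝ, φ t * (f (((-η : ℝ) : ℂ) + Complex.I * t))⁻¹ := by
      rw [fub hp.cb hGb hk'c hk'cc hη.1 hη.2.le (-u),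
        ← integral_neg_eq_self (fun t : ℝ => φ t * (f (((-η : ℝ) : ℂ) + Complex.I * t))⁻¹)]
      congr 1
      ext t
      rw [(hfm (η + Complex.I * t) (by rw [hre]; exact hη.1) (by rw [hre]; exact hη.2)).2.2.2,
        hneg]
      simp only [hφd, hk']
      congr 3
      push_cast; ring
    have hc1 : Continuous fun t : ℝ => φ t * (f (η + Complex.I * t))⁻¹ := by
      refine hφ.mul (Continuous.inv₀ ?_ hne1)
      refine hf.continuousOn.comp_continuous (by fun_prop) fun t => ?_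
      simp only [U, Set.mem_ofPred_eq, hre]
      rw [abs_of_pos hη.1]; exact hη.2
    have hc2 : Continuous fun t : ℝ => φ t * (f (((-η : ℝ) : ℂ) + Complex.I * t))⁻¹ := by
      refine hφ.mul (Continuous.inv₀ ?_ hne2)
      refine hf.continuousOn.comp_continuous (by fun_prop) fun t => ?_
      simp only [U, Set.mem_ofPred_eq, hre]
      rw [abs_neg, abs_of_pos hη.1]; exact hη.2
    have hi1 := hc1.integrable_of_hasCompactSupport (μ := volume) hφc.mul_right
    have hi2 := hc2.integrable_of_hasCompactSupport (μ := volume) hφc.mul_right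
    have hPi : ∀ γ ∈ Γ, Integrable (fun t : ℝ => r γ * (φ t * (Po η (t - γ) : ℂ))) := by
      intro γ _
      exact ((hφ.mul (po_cont hη.1 γ)).integrable_of_hasCompactSupport hφc.mul_right).const_mul _
    rw [e1, e2, ← integral_sub hi1 hi2]
    simp only [← integral_const_mul]
    rw [← integral_finsetSum _ hPi, ← integral_add (integrable_finsetSum _ hPi) hQi]
    congr 1
    ext t
    by_cases ht : t ∈ Set.Icc (-T) T
    · have hv1 : ∀ γ ∈ Γ, (η : ℂ) + Complex.I * t ≠ Complex.I * γ := by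
        intro γ _ h
        have := congrArg Complex.re h
        rw [hre] at this
        simp at this
        exact hη.1.ne' this
      have hv2 : ∀ γ ∈ Γ, ((-η : ℝ) : ℂ) + Complex.I * t ≠ Complex.I * γ := by
        intro γ _ h
        have := congrArg Complex.re h
        rw [hre] at this
        simp at this
        exact hη.1.ne' this
      rw [← mul_sub, hpf _ (hm t ht).1 hv1, hpf _ (hm t ht).2 hv2, add_sub_add_comm,
        ← Finset.sum_sub_distrib, mul_add, Finset.mul_sum]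
      congr 1
      refine Finset.sum_congr rfl fun γ _ => ?_
      rw [← po_id hη.1]
      push_cast
      have g1 : (η : ℂ) + Complex.I * t - Complex.I * γ = η + Complex.I * (t - γ) := by ring
      have g2 : -(η : ℂ) + Complex.I * t - Complex.I * γ = -η + Complex.I * (t - γ) := by ring
      rw [g1, g2]; ring
    · simp [hφT t ht]
  have hfinal := tendsto_nhds_unique hlim (hlim2.congr' (heq.mono fun η h => h.symm))
  rw [hfinal, add_zero]
  refine Finset.sum_congr rfl fun γ _ => ?_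
  simp only [hφd]
  ring

end Pool.Agent.Y821.ME
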