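import Pool.Agent.Y821.ME.FinE
import Pool.Agent.Y821.ME.Trig
import Pool.Agent.Y821.ME.Sup
import Pool.Agent.Y821.ME.Lap
import Pool.Agent.Y821.ME.Ser
import Pool.Agent.Y821.ME.Lfn
import Pool.Agent.Y821.ME.PairM
import Pool.Agent.Y821.ME.Ch
import Pool.Agent.Y821.ME.KlM
import Pool.Agent.Y821.ME.Pr
import Pool.Agent.Y821.ME.Li
import Pool.Agent.Y821.ME.Rz
import Pool.Agent.Y821.ME.Sf

/-!
# Project ME: all parts together

Parts: helper672 (TRIG), helper571 (SUP), helper781 (LAP, LIM), helper998 (SER, VB), helper287 (LFN),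
helper925 (PAIR), helper515 (CH), helper971 (KL), helper405 (PR), helper894 (LI), helper864 (RZ),
helper785 (SF), helper821 (plan, assembly).
-/

set_option autoImplicit false

open Filter Topology

namespace Pool.Agent.Y821.ME

theorem top (C : ℝ) : ∃ x : ℚ, ∃ᶠ R : ℕ in atTop, C * Real.sqrt R < ‖F R x‖ :=
  main trig sup lap lim vb ser (pairM lap lfn) ch kl pr (rz li) sf C

end Pool.Agent.Y821.ME
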