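import Pool.Agent.Y821.ME.Fin2E
import Pool.Agent.Y821.ME.Trig
import Pool.Agent.Y821.ME.Sup
import Pool.Agent.Y821.ME.Lap
import Pool.Agent.Y821.ME.Ser
import Pool.Agent.Y821.ME.Lfn
import Pool.Agent.Y821.ME.PairM
import Pool.Agent.Y821.ME.Ch
import Pool.Agent.Y821.ME.KlM2
import Pool.Agent.Y821.ME.Li2
import Pool.Agent.Y821.ME.Rz2
import Pool.Agent.Y821.ME.Sf2

/-!
# Project ME, second version: all parts together

Parts: helper672 (TRIG), helper571 (SUP), helper781 (LAP, LIM, LI2, KL2), helper998 (SER, VB),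
helper287 (LFN), helper925 (PAIR), helper515 (CH), helper971 (KL, adapted in KL2), helper894 (LI, adapted in
LI2), helper864 (RZ, adapted in RZ2), helper785 (SF, adapted in SF2), helper821 (plan, assembly).
-/

set_option autoImplicit false

open Filter Topology

namespace Pool.Agent.Y821.ME

/-- for every odd prime `p` and every `C`, for all large `l` there is `a` prime to `p` such that
`|F_R(a / p ^ (2l))| > C √R` for arbitrarily large `R` -/
theorem top2 (p : ℕ) (hp : p.Prime) (hp2 : p ≠ 2) (C : ℝ) :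
    ∃ l₀ : ℕ, ∀ l : ℕ, l₀ ≤ l → ∃ a : ℕ, ¬ p ∣ a ∧
      ∃ᶠ R : ℕ in atTop, C * Real.sqrt R < ‖F R ((a / (p ^ (2 * l) : ℕ) : ℚ) : ℝ)‖ :=
  Two.main_two trig sup lap lim vb ser (pairM lap lfn) ch kl2 (rz2 li2) sf2 p hp hp2 C

end Pool.Agent.Y821.ME
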